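import Mathlib

/-! Dirichlet eigenvalues of plane domains by the min-max principle; the plane is `ℂ`. -/

open scoped ContDiff ENNReal
open MeasureTheory

noncomputable section

namespace Pool.Agent.Lib.MP_312682_mp.Defs

/-- `C_c^∞(Ω)`: smooth complex-valued functions with compact support inside `Ω`. -/
def testFns (Ω : Set ℂ) : Set (ℂ → ℂ) :=
  {u | ContDiff ℝ ∞ u ∧ HasCompactSupport u ∧ tsupport u ⊆ Ω}

/-- The Rayleigh quotient: the integral of the squared gradient over the integral of the square. -/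
def rayleigh (u : ℂ → ℂ) : ℝ :=
  (∫ z, (‖fderiv ℝ u z 1‖ ^ 2 + ‖fderiv ℝ u z Complex.I‖ ^ 2)) / ∫ z, ‖u z‖ ^ 2

/-- The `(n+1)`-st Dirichlet eigenvalue of `Ω`, counted with multiplicity: the infimum over the
`(n+1)`-dimensional subspaces `W` of `C_c^∞(Ω)` of the supremum of the Rayleigh quotient on `W`. -/
def dirEig (Ω : Set ℂ) (n : ℕ) : ℝ≥0∞ :=
  ⨅ (W : Submodule ℂ (ℂ → ℂ)) (_ : (W : Set (ℂ → ℂ)) ⊆ testFns Ω) (_ : Module.finrank ℂ W = n + 1),
    ⨆ (u : ℂ → ℂ) (_ : u ∈ W) (_ : u ≠ 0), ENNReal.ofReal (rayleigh u)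

/-- Bounded connected open sets with smooth boundary. -/
def SmoothDomain (Ω : Set ℂ) : Prop :=
  IsOpen Ω ∧ IsConnected Ω ∧ Bornology.IsBounded Ω ∧
    ∃ φ : ℂ → ℝ, ContDiff ℝ ∞ φ ∧ Ω = {z | φ z < 0} ∧ ∀ z, φ z = 0 → fderiv ℝ φ z ≠ 0

end Pool.Agent.Lib.MP_312682_mp.Defs
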