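import Pool.Agent.Lib.MP_312682_mp.Annulus
import Pool.Agent.Lib.MP_312682_mp.Defs

/-! From the min-max eigenvalues to the counting predicate. -/

open scoped ContDiff ENNReal
open MeasureTheory Complex Set Filter Metric

noncomputable section

namespace Pool.Agent.Lib.MP_312682_mp

open Defs

lemma CC_iff (Ω : Set ℂ) (n : ℕ) (l : ℝ) : CC Ω (n + 1) l ↔ dirEig Ω n < ENNReal.ofReal l := by
  simp only [dirEig, iInf_lt_iff]
  constructor
  · rintro ⟨W, h1, h2, -, l', h3, h4⟩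
    obtain ⟨w, hw, w0⟩ := Submodule.exists_mem_ne_zero_of_ne_bot (p := W) (by
      rintro rfl; simp at h2)
    have l0 : 0 ≤ l' := nonneg_of_mul_nonneg_left ((energyC_nonneg w).trans (h4 w hw))
      (massC_pos (h1 hw).1.continuous (h1 hw).2.1 w0)
    refine ⟨W, h1, h2, lt_of_le_of_lt ?_ ((ENNReal.ofReal_lt_ofReal_iff (l0.trans_lt h3)).2 h3)⟩
    refine iSup_le fun u => iSup_le fun hu => iSup_le fun u0 => ENNReal.ofReal_le_ofReal ?_
    exact (div_le_iff₀ (massC_pos (h1 hu).1.continuous (h1 hu).2.1 u0)).2 (h4 u hu)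
  · rintro ⟨W, h1, h2, h3⟩
    obtain ⟨l', -, h4, h5⟩ := ENNReal.lt_iff_exists_real_btwn.1 h3
    have l0 : 0 < l' := ENNReal.ofReal_pos.1 (lt_of_le_of_lt bot_le h4)
    refine ⟨W, h1, h2, Module.finite_of_finrank_eq_succ h2, l',
      (ENNReal.ofReal_lt_ofReal_iff_of_nonneg l0.le).1 h5, fun u hu => ?_⟩
    by_cases u0 : u = 0
    · simp [u0, energyC, massC, d1, d2]
    · have := iSup_le_iff.1 (iSup_le_iff.1 (iSup_le_iff.1 h4.le u) hu) u0
      exact (div_le_iff₀ (massC_pos (h1 hu).1.continuous (h1 hu).2.1 u0)).1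
        ((ENNReal.ofReal_le_ofReal_iff l0.le).1 this)

lemma CC_congr {Ω Ω' : Set ℂ} (h : ∀ n, dirEig Ω n = dirEig Ω' n) (n : ℕ) (l : ℝ) (hn : 0 < n) :
    CC Ω n l ↔ CC Ω' n l := by
  obtain ⟨n, rfl⟩ := Nat.exists_eq_succ_of_ne_zero hn.ne'
  rw [CC_iff, CC_iff, h]

theorem perf_class {Ω : Set ℂ} (hΩ : SmoothDomain Ω) {k : ℕ} {a : ℂ} {R r : ℝ} {b : Fin k → ℂ}
    (h : Adm a R b r) (hs : ∀ n, dirEig Ω n = dirEig (perf a R b r) n) :
    ∃ (a' : ℂ) (b' : Fin k → ℂ), Adm a' R b' r ∧ Ω = perf a' R b' r := by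
  obtain ⟨-, hc, hb, φ, h1, h2, h3⟩ := hΩ
  exact class_rigid hc hb h1 h2 h3 h (CC_congr hs)

theorem annulus_det {Ω : Set ℂ} (hΩ : SmoothDomain Ω) {a b : ℂ} {R r : ℝ} (hr : 0 < r)
    (h : ‖b - a‖ + r < R) (hs : ∀ n, dirEig Ω n = dirEig (ball a R \ closedBall b r) n) :
    ∃ f : ℂ ≃ᵢ ℂ, f '' (ball a R \ closedBall b r) = Ω := by
  have e : ∀ (a : ℂ) (b : Fin 1 → ℂ), perf a R b r = ball a R \ closedBall (b 0) r := fun a b => by
    ext z; simp [perf]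
  obtain ⟨a', b', h1, rfl⟩ := perf_class hΩ (a := a) (R := R) (r := r) (b := fun _ : Fin 1 => b)
    ⟨hr, by linarith [norm_nonneg (b - a)], fun _ => h, fun i j hij => (hij (Subsingleton.elim i j)).elim⟩
    (by simpa only [e] using hs)
  rw [e] at hs ⊢
  exact ann_rigid hr h (h1.ins 0) fun l =>
    ⟨fun h => h.transfer fun l => (CC_congr hs 1 l one_pos).1,
      fun h => h.transfer fun l => (CC_congr hs 1 l one_pos).2⟩

end Pool.Agent.Lib.MP_312682_mp
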