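import Pool.Agent.Lib.MP_312682_mp.Geo

/-! Winding numbers and the total curvature of the boundary curves. -/

open scoped ContDiff ComplexConjugate Topology NNReal
open MeasureTheory Complex Set Filter Metric

set_option linter.unusedSectionVars false

noncomputable section

namespace Pool.Agent.Lib.MP_312682_mp

lemma exp_LD {g g' : ℝ → ℂ} (hg : ∀ t, HasDerivAt g (g' t) t) (hc : Continuous g')
    (h0 : ∀ t, g t ≠ 0) (a b : ℝ) : exp (∫ t in a..b, g' t / g t) = g b / g a := by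
  have cg : Continuous g := continuous_iff_continuousAt.2 fun t => (hg t).continuousAt
  have h1 : ∀ t, HasDerivAt (fun t => g t * exp (-∫ s in a..t, g' s / g s)) 0 t := fun t => by
    refine ((hg t).mul (hd_prim (hc.div cg h0) a t).neg.cexp).congr_deriv ?_
    have := h0 t
    simp only [Pi.div_apply]
    field_simp; ring
  have h2 := is_const_of_deriv_eq_zero (fun t => (h1 t).differentiableAt)
    (fun t => (h1 t).deriv) b a
  simp only [intervalIntegral.integral_same, neg_zero, exp_zero, mul_one] at h2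
  rw [← h2, exp_neg]
  have := h0 b
  field_simp

lemma const_of_exp {X : Type*} [TopologicalSpace X] [PreconnectedSpace X] {H : X → ℂ}
    (hc : Continuous H) (he : ∀ x, exp (H x) = 1) (x y : X) : H x = H y :=
  isCoveringMap_exp.const_of_comp hc (fun a b => Subtype.ext ((he a).trans (he b).symm)) x y

lemma loop_const {X : Type*} [TopologicalSpace X] [PreconnectedSpace X] {g g' : X → ℝ → ℂ} {L : ℝ}
    (hg : ∀ x t, HasDerivAt (g x) (g' x t) t) (c : Continuous g.uncurry)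
    (c' : Continuous g'.uncurry) (h0 : ∀ x t, g x t ≠ 0) (hp : ∀ x, g x L = g x 0) (x y : X) :
    ∫ t in (0 : ℝ)..L, g' x t / g x t = ∫ t in (0 : ℝ)..L, g' y t / g y t := by
  refine const_of_exp (H := fun x => ∫ t in (0 : ℝ)..L, g' x t / g x t)
    (intervalIntegral.continuous_parametric_intervalIntegral_of_continuous'
      (c'.div c fun p => h0 p.1 p.2) _ _) (fun x => ?_) x y
  rw [exp_LD (hg x) (c'.uncurry_left x) (h0 x), hp, div_self (h0 x 0)]

lemma sign_of_deriv {f : ℝ → ℝ} {a c : ℝ} (h : HasDerivAt f c a) (h0 : f a = 0) (hc : 0 < c) :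
    (∀ᶠ t in 𝓝[>] a, 0 < f t) ∧ ∀ᶠ t in 𝓝[<] a, f t < 0 := by
  obtain ⟨h1, h2⟩ := hasDerivAt_iff_tendsto_slope_left_right.1 h
  constructor
  · filter_upwards [h2.eventually (lt_mem_nhds hc), self_mem_nhdsWithin] with t e1 e2
    rw [slope_def_field, h0, sub_zero] at e1
    exact (div_pos_iff_of_pos_right (sub_pos.2 e2)).1 e1
  · filter_upwards [h1.eventually (lt_mem_nhds hc), self_mem_nhdsWithin] with t e1 e2
    rw [slope_def_field, h0, sub_zero] at e1
    exact (div_pos_iff.1 e1).elim (fun h => absurd h.2 (not_lt.2 (sub_nonpos.2 (le_of_lt e2))))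
      fun h => h.1

/-- `2πi` times the winding number -/
def wn (γ : ℝ → ℂ) (L : ℝ) (z : ℂ) : ℂ := ∫ t in (0 : ℝ)..L, deriv γ t / (γ t - z)

namespace Cv

variable {γ : ℝ → ℂ} {L : ℝ} (h : Cv γ L)
include h

lemma per0 : γ L = γ 0 := by simpa using h.per 0

lemma wn_const {S : Set ℂ} (hS : IsPreconnected S) (h0 : ∀ t, γ t ∉ S) {x y : ℂ} (hx : x ∈ S)
    (hy : y ∈ S) : wn γ L x = wn γ L y := by
  have := isPreconnected_iff_preconnectedSpace.1 hS
  have c0 := h.smooth.continuous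
  have c1 := h.s1.continuous
  exact loop_const (X := S) (g := fun x t => γ t - x) (g' := fun _ t => deriv γ t)
    (fun x t => (h.hd0 t).sub_const _) (by fun_prop) (by fun_prop)
    (fun x t e => h0 t (sub_eq_zero.1 e ▸ x.2)) (fun x => by rw [h.per0]) ⟨x, hx⟩ ⟨y, hy⟩

lemma wn_ray {z : ℂ} (h0 : ∀ t (u : ℝ), 0 ≤ u → γ t ≠ z - u) : wn γ L z = 0 := by
  have sl : ∀ t, γ t - z ∈ slitPlane := fun t => by
    by_contra h1
    simp only [mem_slitPlane_iff, not_or, not_lt, not_not] at h1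
    refine h0 t (-(γ t - z).re) (by linarith [h1.1]) ?_
    have := h1.2
    apply Complex.ext <;> simp at this ⊢
    linarith
  rw [wn, intervalIntegral.integral_eq_sub_of_hasDerivAt
    (fun t _ => ((h.hd0 t).sub_const z).clog_real (sl t))
    ((h.s1.continuous.div (h.smooth.continuous.sub continuous_const)
      fun t => slitPlane_ne_zero (sl t)).intervalIntegrable _ _), h.per0, sub_self]

lemma wn_cross (hi : ∀ s t, γ s = γ t → ∃ n : ℤ, t = s + n * L) {s : ℝ}
    (hm : ∀ t, (γ s).re ≤ (γ t).re) {ε : ℝ} (hε : 0 < ε) (h0 : ∀ t, ∀ y ∈ Ioc 0 ε, γ t ≠ γ s + y) :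
    (deriv γ s = I → wn γ L (γ s + ε) = -(2 * Real.pi * I)) ∧
      (deriv γ s = -I → wn γ L (γ s + ε) = 2 * Real.pi * I) := by
  have hL := h.pos
  have ne : ∀ t, γ t - (γ s + ε) ≠ 0 := fun t => sub_ne_zero.2 (h0 t ε ⟨hε, le_rfl⟩)
  have sl : ∀ t ∈ Ioo s (s + L), γ t - (γ s + ε) ∈ slitPlane := fun t ht => by
    by_contra h1
    simp only [mem_slitPlane_iff, not_or, not_lt, not_not] at h1
    obtain ⟨h1, h2⟩ := h1
    simp at h1 h2
    have e : γ t = γ s + ((γ t).re - (γ s).re : ℝ) := by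
      apply Complex.ext <;> simp; linarith
    rcases (sub_nonneg.2 (hm t)).eq_or_lt with h3 | h3
    · rw [← h3] at e
      obtain ⟨n, hn⟩ := hi s t (by simpa using e.symm)
      have a : (0 : ℝ) < n := by nlinarith [ht.1]
      have b : (n : ℝ) < 1 := by nlinarith [ht.2]
      have a' : 0 < n := by exact_mod_cast a
      have b' : n < 1 := by exact_mod_cast b
      omega
    · exact h0 t _ ⟨h3, by linarith⟩ e
  have c0 := h.smooth.continuous
  have e1 : wn γ L (γ s + ε) = ∫ t in s..s + L, deriv γ t / (γ t - (γ s + ε)) := by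
    rw [wn, ← Function.Periodic.intervalIntegral_add_eq (T := L)
      (fun t => by rw [h.per, h.per1]) 0 s, zero_add]
  have key := fun fa fb => intervalIntegral.integral_eq_sub_of_hasDerivAt_of_tendsto
    (fa := fa) (fb := fb) (by linarith : s < s + L)
    (fun t ht => ((h.hd0 t).sub_const (γ s + ε)).clog_real (sl t ht))
    ((h.s1.continuous.div (c0.sub continuous_const) ne).intervalIntegrable _ _)
  have l1 := tendsto_log_nhdsWithin_im_neg_of_re_neg_of_im_zero (z := -ε) (by simpa) (by simp)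
  have l2 := tendsto_log_nhdsWithin_im_nonneg_of_re_neg_of_im_zero (z := -ε) (by simpa) (by simp)
  have t1 : Tendsto (fun t => γ t - (γ s + ε)) (𝓝[>] s) (𝓝 (-ε)) :=
    ((c0.sub continuous_const).tendsto' s _ (by simp)).mono_left nhdsWithin_le_nhds
  have t2 : Tendsto (fun t => γ t - (γ s + ε)) (𝓝[<] (s + L)) (𝓝 (-ε)) :=
    ((c0.sub continuous_const).tendsto' _ _ (by simp [h.per])).mono_left nhdsWithin_le_nhds
  have d1 : ∀ t, HasDerivAt (fun t => (γ t - (γ s + ε)).im) (deriv γ t).im t := fun t =>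
    imCLM.hasFDerivAt.comp_hasDerivAt t ((h.hd0 t).sub_const _)
  constructor <;> intro hd
  · have a1 := (sign_of_deriv (d1 s) (by simp) (by simp [hd])).1
    have a2 := (sign_of_deriv (d1 (s + L)) (by simp [h.per]) (by simp [h.per1, hd])).2
    rw [e1, key _ _ (l2.comp (tendsto_nhdsWithin_iff.2 ⟨t1, a1.mono fun _ h => h.le⟩))
      (l1.comp (tendsto_nhdsWithin_iff.2 ⟨t2, a2⟩))]
    ring
  · have a1 := (sign_of_deriv (d1 s).neg (by simp) (by simp [hd])).1
    have a2 := (sign_of_deriv (d1 (s + L)).neg (by simp [h.per]) (by simp [h.per1, hd])).2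
    rw [e1, key _ _ (l1.comp (tendsto_nhdsWithin_iff.2 ⟨t1, a1.mono fun _ h => neg_pos.1 h⟩))
      (l2.comp (tendsto_nhdsWithin_iff.2 ⟨t2, a2.mono fun _ h => (neg_lt_zero.1 h).le⟩))]
    ring

lemma hdP (x s : ℝ) : HasDerivAt (fun s : ℝ => Phi γ (s + x * I))
    ((1 - kap γ s * x : ℝ) * deriv γ s) s := by
  have := hd_line1 (s := s) (x := x) (h.dPhi _)
  rw [h.d1Phi] at this
  simpa [Jf] using this

lemma torus {ε : ℝ} (hε : 0 < ε)
    (h0 : ∀ s t x y : ℝ, 0 ≤ x → 0 ≤ y → x + y = ε →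
      Phi γ (s + x * I) ≠ Phi γ (t + (-y : ℝ) * I)) :
    I * (∫ s in (0 : ℝ)..L, kap γ s : ℝ) =
      wn γ L (Phi γ ((0 : ℝ) + (-ε : ℝ) * I)) + wn γ L (Phi γ ((0 : ℝ) + ε * I)) := by
  have c0 := h.smooth.continuous
  have c1 := h.s1.continuous
  have c2 := h.s_kap.continuous
  have c3 := h.sPhi.continuous
  have n1 : ∀ s t : ℝ, Phi γ (s + ε * I) - γ t ≠ 0 := fun s t => sub_ne_zero.2 (by
    simpa [Phi_real] using h0 s t ε 0 hε.le le_rfl (by simp))
  have n2 : ∀ s t : ℝ, γ t - Phi γ (s + ε * I) ≠ 0 := fun s t => sub_ne_zero.2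
    (sub_ne_zero.1 (n1 s t)).symm
  have pL : ∀ x : ℝ, Phi γ (L + x * I) = Phi γ ((0 : ℝ) + x * I) := fun x => by
    rw [add_comm, h.Phi_per]; simp
  have e1 := const_of_exp (X := ℝ) (H := fun u => (∫ s in (0 : ℝ)..L,
    ((1 - kap γ s * ε : ℝ) * deriv γ s - u • deriv γ (u * s)) / (Phi γ (s + ε * I) - γ (u * s))) -
      ∫ t in (0 : ℝ)..u * L, deriv γ t / (γ t - Phi γ ((0 : ℝ) + ε * I)))
    ((intervalIntegral.continuous_parametric_intervalIntegral_of_continuous'
      (Continuous.div (f := fun p : ℝ × ℝ => (1 - kap γ p.2 * ε : ℝ) * deriv γ p.2 -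
        p.1 • deriv γ (p.1 * p.2)) (g := fun p : ℝ × ℝ => Phi γ (p.2 + ε * I) - γ (p.1 * p.2))
        (by fun_prop) (by fun_prop) fun p => n1 _ _) _ _).sub
      (intervalIntegral.continuous_parametric_intervalIntegral_of_continuous
        (Continuous.div (f := fun p : ℝ × ℝ => deriv γ p.2)
          (g := fun p : ℝ × ℝ => γ p.2 - Phi γ ((0 : ℝ) + ε * I))
          (by fun_prop) (by fun_prop) fun p => n2 _ _) (s := fun u => u * L) (by fun_prop)))
    (fun u => by
      rw [exp_sub, exp_LD (g := fun s => Phi γ (s + ε * I) - γ (u * s)) (fun s => (h.hdP ε s).sub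
        ((h.hd0 (u * s)).scomp s (hd_lin u s)))
        (by fun_prop) (fun s => n1 _ _), exp_LD (fun t => (h.hd0 t).sub_const _) c1 (n2 0)]
      simp only [pL, mul_zero]
      have := n1 0 0
      have := n2 0 0
      have := n2 0 (u * L)
      field_simp; ring) 1 0
  have := isPreconnected_iff_preconnectedSpace.1 (isPreconnected_Icc (a := (0 : ℝ)) (b := ε))
  have e2 := loop_const (X := Icc (0 : ℝ) ε) (L := L)
    (g := fun y s => Phi γ (s + (ε - y : ℝ) * I) - Phi γ ((0 : ℝ) + (-y : ℝ) * I))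
    (g' := fun y s => (1 - kap γ s * (ε - y) : ℝ) * deriv γ s)
    (fun y s => (h.hdP _ s).sub_const _) (by fun_prop) (by fun_prop)
    (fun y s => sub_ne_zero.2 (h0 _ _ _ _ (sub_nonneg.2 y.2.2) y.2.1 (by simp)))
    (fun y => by rw [pL]) ⟨0, le_rfl, hε.le⟩ ⟨ε, hε.le, le_rfl⟩
  simp only [one_mul, one_smul, zero_mul, zero_smul, sub_zero, intervalIntegral.integral_same,
    sub_self, mul_zero, neg_zero, ofReal_zero, add_zero, ofReal_one, Phi_real] at e1 e2
  rw [show Phi γ 0 = γ 0 from Phi_real γ 0] at e2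
  rw [e2, sub_eq_iff_eq_add] at e1
  simp only [wn, ofReal_zero]
  rw [← e1, ← intervalIntegral.integral_ofReal, ← intervalIntegral.integral_const_mul]
  congr 1; ext s
  have : deriv γ s ≠ 0 := norm_ne_zero_iff.1 (by rw [h.unit]; simp)
  have : (ε : ℂ) ≠ 0 := by exact_mod_cast hε.ne'
  simp [Phi]
  field_simp
  ring_nf
  simp

lemma exists_min : ∃ s, ∀ t, (γ s).re ≤ (γ t).re := by
  obtain ⟨_, ⟨s, rfl⟩, h1⟩ := (Function.Periodic.compact_of_continuous h.per h.pos.ne'
    h.smooth.continuous).exists_isMinOn (range_nonempty γ) continuous_re.continuousOn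
  exact ⟨s, fun t => h1 ⟨t, rfl⟩⟩

lemma dir_min {s : ℝ} (hm : ∀ t, (γ s).re ≤ (γ t).re) : deriv γ s = I ∨ deriv γ s = -I := by
  have h1 : (deriv γ s).re = 0 := IsLocalMin.hasDerivAt_eq_zero (f := fun t => (γ t).re)
    (Eventually.of_forall hm) (reCLM.hasFDerivAt.comp_hasDerivAt s (h.hd0 s))
  have h2 := h.sq_add s
  rw [h1] at h2
  rcases sq_eq_one_iff.1 (by linarith : (deriv γ s).im ^ 2 = 1) with h3 | h3
  · left; apply Complex.ext <;> simp [h1, h3]
  · right; apply Complex.ext <;> simp [h1, h3]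

end Cv

namespace Geo

variable {Ω : Set ℂ} {ι : Type} [Fintype ι] {γ : ι → ℝ → ℂ} {L : ι → ℝ} {φ : ℂ → ℝ}
  (h : Geo Ω γ L φ) (hc : IsPreconnected Ω)
include h hc

omit hc in
lemma not_mem (i : ι) (t : ℝ) : γ i t ∉ Ω := by simp [h.mem, h.z0]

lemma dich (i : ι) {z : ℂ} (hz : z ∈ Ω) :
    (wn (γ i) (L i) z = 2 * Real.pi * I ∧ ∫ s in (0 : ℝ)..L i, kap (γ i) s = 2 * Real.pi) ∨
      (wn (γ i) (L i) z = 0 ∧ ∫ s in (0 : ℝ)..L i, kap (γ i) s = -(2 * Real.pi)) := by
  obtain ⟨δ, h1, h2⟩ := h.fam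
  have hδ := h1.dpos
  have c := h.cv i
  have p1 : ∀ s x : ℝ, x ∈ Ioo 0 δ → φ (Phi (γ i) (s + x * I)) < 0 := fun s x hx =>
    h.mem.1 ((h1.col i).inside _ (by simpa [strip] using hx))
  have p2 : ∀ s x : ℝ, x ∈ Ioo 0 δ → 0 < φ (Phi (γ i) (s + (-x : ℝ) * I)) := fun s x hx =>
    h2 i _ (by simpa [and_comm] using hx)
  have hm : δ / 2 ∈ Ioo 0 δ := ⟨by linarith, by linarith⟩
  have tr := c.torus (half_pos hδ) fun s t x y hx hy e e' => by
    have e2 := congrArg φ e'
    rcases hx.eq_or_lt with rfl | hx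
    · have := p2 t y ⟨by linarith, by linarith⟩
      rw [← e2] at this
      simp [Phi_real, h.z0] at this
    · have a := p1 s x ⟨hx, by linarith⟩
      rcases hy.eq_or_lt with rfl | hy
      · rw [e2] at a
        simp [Phi_real, h.z0] at a
      · linarith [p2 t y ⟨hy, by linarith⟩]
  obtain ⟨s, hs⟩ := c.exists_min
  have cP := c.sPhi.continuous
  rw [c.wn_const hc (h.not_mem i) (h.mem.2 (p1 0 _ hm)) hz,
    c.wn_const (S := range fun s : ℝ => Phi (γ i) (s + (-(δ / 2) : ℝ) * I))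
      (isPreconnected_range (by fun_prop)) (by
        rintro t ⟨u, e⟩
        have := p2 u _ hm
        simp only at e
        rw [e, h.z0] at this
        exact this.false) ⟨0, rfl⟩ ⟨s, rfl⟩] at tr
  beta_reduce at tr
  have wz := c.wn_const hc (h.not_mem i) hz (h.mem.2 (p1 s _ hm))
  have ray : wn (γ i) (L i) (γ i s - (δ / 2 : ℝ)) = 0 := c.wn_ray fun t u hu e => by
    have := hs t
    rw [e] at this
    simp at this; linarith
  have fin : ∀ {a b : ℝ}, I * a = b * I → a = b := fun e => by simpa using congrArg im e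
  rcases c.dir_min hs with hd | hd
  · have e : ∀ x : ℝ, Phi (γ i) (s + x * I) = γ i s - x := fun x => by
      simp [Phi, hd, sub_eq_add_neg]
    have cr := (c.wn_cross (h.inj i) hs (half_pos hδ) fun t y hy e' => by
      have := p2 s y ⟨hy.1, by linarith [hy.2]⟩
      rw [e, ofReal_neg, sub_neg_eq_add, ← e', h.z0] at this
      exact this.false).1 hd
    rw [e, ray] at wz
    rw [e, ofReal_neg, sub_neg_eq_add, cr, wz] at tr
    exact Or.inr ⟨wz, fin (by rw [tr]; push_cast; ring)⟩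
  · have e : ∀ x : ℝ, Phi (γ i) (s + x * I) = γ i s + x := fun x => by simp [Phi, hd]
    have cr := (c.wn_cross (h.inj i) hs (half_pos hδ) fun t y hy e' => by
      have := p1 s y ⟨hy.1, by linarith [hy.2]⟩
      rw [e, ← e', h.z0] at this
      exact this.false).2 hd
    rw [e, cr] at wz
    rw [e, ofReal_neg, ← sub_eq_add_neg, ray, wz] at tr
    exact Or.inl ⟨wz, fin (by rw [tr]; push_cast; ring)⟩

omit hc in
lemma ray_zero {z : ℂ} (hz : z ∈ Ω) : ∃ u : ℝ, 0 ≤ u ∧ φ (z - u) = 0 := by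
  obtain ⟨R, hR, h1⟩ := h.bdd.exists_pos_norm_lt
  have c := h.smooth.continuous
  have h2 : 0 ≤ φ (z - (2 * R : ℝ)) := not_lt.1 fun h2 => by
    have a := h1 _ (h.mem.2 h2)
    have b := h1 z hz
    have := norm_sub_le z (z - (2 * R : ℝ))
    rw [sub_sub_cancel, norm_real, Real.norm_of_nonneg (by positivity)] at this
    linarith
  obtain ⟨u, hu, e⟩ := intermediate_value_Icc (f := fun u : ℝ => φ (z - u)) (a := 0) (b := 2 * R)
    (by positivity) (by fun_prop) ⟨by simpa using (h.mem.1 hz).le, h2⟩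
  exact ⟨u, hu.1, e⟩

theorem outer (hn : Ω.Nonempty) : ∃ i0, ∫ s in (0 : ℝ)..L i0, kap (γ i0) s = 2 * Real.pi ∧
    ∀ j ≠ i0, ∫ s in (0 : ℝ)..L j, kap (γ j) s = -(2 * Real.pi) := by
  obtain ⟨z, hz⟩ := hn
  obtain ⟨u, -, hu⟩ := h.ray_zero hz
  obtain ⟨i, -⟩ := (h.zero _).1 hu
  have : Nonempty ι := ⟨i⟩
  choose s hs using fun i => (h.cv i).exists_min
  obtain ⟨i0, h0⟩ := Finite.exists_min fun i => (γ i (s i)).re
  have hm : ∀ j t, (γ i0 (s i0)).re ≤ (γ j t).re := fun j t => (h0 j).trans (hs j t)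
  obtain ⟨δ, h1, -⟩ := h.fam
  have hδ := h1.dpos
  have p1 : ∀ x : ℝ, x ∈ Ioo 0 δ → Phi (γ i0) (s i0 + x * I) ∈ Ω := fun x hx =>
    (h1.col i0).inside _ (by simpa [strip] using hx)
  have hm' : δ / 2 ∈ Ioo 0 δ := ⟨by linarith, by linarith⟩
  have ne : (2 * Real.pi * I : ℂ) ≠ 0 := two_pi_I_ne_zero
  rcases (h.cv i0).dir_min (hs i0) with hd | hd
  · exfalso
    obtain ⟨u, u0, hu⟩ := h.ray_zero (p1 _ hm')
    obtain ⟨j, t, e⟩ := (h.zero _).1 hu
    have := hm j t
    rw [e] at this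
    simp [Phi, hd] at this
    linarith
  have e : ∀ x : ℝ, Phi (γ i0) (s i0 + x * I) = γ i0 (s i0) + x := fun x => by simp [Phi, hd]
  simp only [e] at p1
  refine ⟨i0, ?_, fun j hj => ?_⟩
  · have cr := ((h.cv i0).wn_cross (h.inj i0) (hs i0) (half_pos hδ) fun t y hy e' =>
      h.not_mem i0 t (e' ▸ p1 y ⟨hy.1, by linarith [hy.2]⟩)).2 hd
    exact (h.dich hc i0 (p1 _ hm')).elim (fun h => h.2) fun h => (ne (cr.symm.trans h.1)).elim
  · have := (h.cv j).wn_ray (z := γ i0 (s i0) + (δ / 2 : ℝ)) fun t u hu e' => by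
      rcases lt_trichotomy u (δ / 2) with h2 | h2 | h2
      · refine h.not_mem j t ?_
        have := p1 (δ / 2 - u) ⟨by linarith, by linarith⟩
        rwa [ofReal_sub, ← add_sub_assoc, ← e'] at this
      · exact hj (h.disj _ _ t (s i0) (by rw [e', h2]; simp))
      · have := hm j t
        rw [e'] at this
        simp at this; linarith
    exact (h.dich hc j (p1 _ hm')).elim (fun h => (ne (h.1.symm.trans this)).elim) fun h => h.2

end Geo

end Pool.Agent.Lib.MP_312682_mp
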