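import Mathlib

/-! Lattice sums `∑ (h² n² + μ²)^{-a}`. -/

open MeasureTheory Set Real

noncomputable section

namespace Pool.Agent.Lib.MP_312682_mp

def zeta4 : ℝ := ∑' m : ℤ, 1 / (m : ℝ) ^ 4

lemma zeta4_nonneg : 0 ≤ zeta4 := tsum_nonneg fun m => by positivity

lemma theta_tail {y : ℝ} (hy : 0 < y) :
    |∑' m : ℤ, exp (-y * (m : ℝ) ^ 2) - 1| ≤ 2 * zeta4 / y ^ 2 := by
  have h1 : HasSum (fun m : ℤ => 1 / (m : ℝ) ^ 4) zeta4 :=
    (summable_one_div_int_pow.2 (by norm_num)).hasSum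
  have h2 := (hasSum_ite_eq (0 : ℤ) (1 : ℝ)).add (h1.mul_left (2 / y ^ 2))
  have h3 : ∀ m : ℤ, exp (-y * (m : ℝ) ^ 2) ≤
      (if m = 0 then 1 else 0) + 2 / y ^ 2 * (1 / (m : ℝ) ^ 4) := by
    intro m
    split_ifs with h
    · simp [h]
    · have hm : (m : ℝ) ≠ 0 := by exact_mod_cast h
      have hx : 0 < y * (m : ℝ) ^ 2 := by positivity
      have := pow_div_factorial_le_exp _ hx.le 2
      rw [zero_add, neg_mul, exp_neg]
      calc _ ≤ ((y * (m : ℝ) ^ 2) ^ 2 / (Nat.factorial 2))⁻¹ := by gcongr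
        _ = _ := by simp [Nat.factorial]; field_simp
  have hs : Summable fun m : ℤ => exp (-y * (m : ℝ) ^ 2) :=
    h2.summable.of_nonneg_of_le (fun m => (exp_pos _).le) h3
  have h4 := hasSum_le h3 hs.hasSum h2
  have h5 := hs.le_tsum 0 fun m _ => (exp_pos _).le
  simp only [Int.cast_zero, ne_eq, OfNat.ofNat_ne_zero, not_false_eq_true, zero_pow, mul_zero,
    exp_zero] at h5
  rw [abs_le]
  have : 0 ≤ 2 * zeta4 / y ^ 2 := by have := zeta4_nonneg; positivity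
  constructor
  · linarith
  · have e : 2 / y ^ 2 * zeta4 = 2 * zeta4 / y ^ 2 := by ring
    linarith

lemma theta_est {h t : ℝ} (hh : 0 < h) (ht : 0 < t) :
    |h * ∑' n : ℤ, exp (-(h ^ 2 * t) * (n : ℝ) ^ 2) - √π * t ^ (-(1 / 2) : ℝ)| ≤
      4 * zeta4 * h ^ 4 * t ^ (3 / 2 : ℝ) := by
  have ha : 0 < h ^ 2 * t / π := by positivity
  have h1 := tsum_exp_neg_mul_int_sq ha
  have e1 : -π * (h ^ 2 * t / π) = -(h ^ 2 * t) := by field_simp
  have e2 : -π / (h ^ 2 * t / π) = -(π ^ 2 / (h ^ 2 * t)) := by field_simp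
  rw [e1, e2] at h1
  have h2 := theta_tail (y := π ^ 2 / (h ^ 2 * t)) (by positivity)
  have e3 : h * (1 / (h ^ 2 * t / π) ^ (1 / 2 : ℝ)) = √π * t ^ (-(1 / 2) : ℝ) := by
    rw [rpow_neg ht.le, ← sqrt_eq_rpow, ← sqrt_eq_rpow, sqrt_div (by positivity),
      sqrt_mul (by positivity), sqrt_sq hh.le]
    field_simp
  rw [h1, ← mul_assoc, e3, ← mul_sub_one, abs_mul, abs_of_pos (by positivity)]
  have e4 : t ^ (3 / 2 : ℝ) = t ^ (-(1 / 2) : ℝ) * t ^ 2 := by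
    rw [← rpow_natCast, ← rpow_add ht]; norm_num
  have h5 : √π ≤ 2 := by
    rw [sqrt_le_iff]; constructor
    · norm_num
    · linarith [pi_le_four]
  have h6 : 2 * zeta4 / (π ^ 2 / (h ^ 2 * t)) ^ 2 ≤ 2 * zeta4 * (h ^ 4 * t ^ 2) := by
    have : 1 ≤ π ^ 4 := one_le_pow₀ (by linarith [pi_gt_three])
    have e : 2 * zeta4 / (π ^ 2 / (h ^ 2 * t)) ^ 2 = 2 * zeta4 * (h ^ 4 * t ^ 2) / π ^ 4 := by
      field_simp
    rw [e]
    exact div_le_self (by have := zeta4_nonneg; positivity) this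
  calc _ ≤ 2 * t ^ (-(1 / 2) : ℝ) * (2 * zeta4 * (h ^ 4 * t ^ 2)) := by
        gcongr
        exact h2.trans h6
    _ = _ := by rw [e4]; ring

lemma summable_lat {h μ a : ℝ} (hh : 0 < h) (ha : 1 / 2 < a) :
    Summable fun n : ℤ => (1 / ((h * n) ^ 2 + μ ^ 2)) ^ a := by
  have h1 := (summable_abs_int_rpow (b := 2 * a) (by linarith)).mul_left (h ^ (-(2 * a)))
  refine Summable.of_norm_bounded_eventually h1 ?_
  filter_upwards [Filter.eventually_cofinite_ne 0] with n hn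
  have hm : (n : ℝ) ≠ 0 := by exact_mod_cast hn
  rw [norm_of_nonneg (by positivity), ← mul_rpow hh.le (abs_nonneg _), rpow_neg (by positivity),
    rpow_mul (by positivity), ← inv_rpow (by positivity)]
  gcongr
  rw [one_div, rpow_two, mul_pow, mul_pow, sq_abs]
  gcongr
  linarith [sq_nonneg μ]

lemma integrableOn_gamma {a r : ℝ} (ha : 0 < a) (hr : 0 < r) :
    IntegrableOn (fun t : ℝ => t ^ (a - 1) * exp (-(r * t))) (Ioi 0) := by
  refine Integrable.of_integral_ne_zero ?_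
  rw [integral_rpow_mul_exp_neg_mul_Ioi ha hr]
  have := Gamma_pos_of_pos ha
  positivity

theorem lat_est {a : ℝ} (ha : 1 / 2 < a) : ∃ C, ∀ h μ : ℝ, 0 < h → 0 < μ →
    |h * ∑' n : ℤ, (1 / ((h * n) ^ 2 + μ ^ 2)) ^ a -
      √π * Gamma (a - 1 / 2) / Gamma a * (1 / μ ^ 2) ^ (a - 1 / 2)| ≤
      C * h ^ 4 * (1 / μ ^ 2) ^ (a + 3 / 2) := by
  refine ⟨4 * zeta4 * Gamma (a + 3 / 2) / Gamma a, fun h μ hh hμ => ?_⟩
  have ha0 : 0 < a := by linarith
  have hG := Gamma_pos_of_pos ha0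
  have hx : ∀ n : ℤ, 0 < (h * n) ^ 2 + μ ^ 2 := fun n => by positivity
  let F : ℤ → ℝ → ℝ := fun n t => t ^ (a - 1) * exp (-(((h * n) ^ 2 + μ ^ 2) * t))
  have hF : ∀ n, ∫ t in Ioi 0, F n t = (1 / ((h * n) ^ 2 + μ ^ 2)) ^ a * Gamma a :=
    fun n => integral_rpow_mul_exp_neg_mul_Ioi ha0 (hx n)
  have hFn : ∀ n, ∫ t in Ioi 0, ‖F n t‖ = (1 / ((h * n) ^ 2 + μ ^ 2)) ^ a * Gamma a := by
    intro n
    rw [← hF]
    refine setIntegral_congr_fun measurableSet_Ioi fun t ht => ?_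
    have : 0 < t := ht
    exact norm_of_nonneg (by simp only [F]; positivity)
  have hs := summable_lat (μ := μ) hh ha
  have h1 := hasSum_integral_of_summable_integral_norm (μ := volume.restrict (Ioi 0)) (F := F)
    (fun n => integrableOn_gamma ha0 (hx n)) (by simp_rw [hFn]; exact hs.mul_right _)
  simp_rw [hF] at h1
  have h2 := (hs.hasSum.mul_right (Gamma a)).unique h1
  set S := ∑' n : ℤ, (1 / ((h * n) ^ 2 + μ ^ 2)) ^ a with hS
  have hSpos : 0 < S := hs.tsum_pos (fun n => by positivity) 0 (by positivity)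
  have hint : IntegrableOn (fun t => ∑' n, F n t) (Ioi 0) :=
    Integrable.of_integral_ne_zero (by rw [← h2]; positivity)
  have i1 := integrableOn_gamma (a := a - 1 / 2) (r := μ ^ 2) (by linarith) (by positivity)
  have i2 := integrableOn_gamma (a := a + 3 / 2) (r := μ ^ 2) (by linarith) (by positivity)
  have v1 := integral_rpow_mul_exp_neg_mul_Ioi (a := a - 1 / 2) (r := μ ^ 2) (by linarith)
    (by positivity)
  have v2 := integral_rpow_mul_exp_neg_mul_Ioi (a := a + 3 / 2) (r := μ ^ 2) (by linarith)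
    (by positivity)
  have h3 : ‖∫ t in Ioi 0, (h * ∑' n, F n t - √π * (t ^ (a - 1 / 2 - 1) * exp (-(μ ^ 2 * t))))‖ ≤
      ∫ t in Ioi 0, 4 * zeta4 * h ^ 4 * (t ^ (a + 3 / 2 - 1) * exp (-(μ ^ 2 * t))) := by
    refine norm_integral_le_of_norm_le (i2.const_mul _) ?_
    filter_upwards [ae_restrict_mem measurableSet_Ioi] with t ht
    have ht : 0 < t := ht
    have e1 : ∑' n, F n t = t ^ (a - 1) * exp (-(μ ^ 2 * t)) *
        ∑' n : ℤ, exp (-(h ^ 2 * t) * (n : ℝ) ^ 2) := by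
      rw [← tsum_mul_left]
      congr 1
      ext n
      simp only [F]
      rw [mul_assoc, ← exp_add]
      congr 2
      ring
    have e2 : t ^ (a - 1 / 2 - 1) = t ^ (a - 1) * t ^ (-(1 / 2) : ℝ) := by
      rw [← rpow_add ht]; congr 1; ring
    have e3 : t ^ (a + 3 / 2 - 1) = t ^ (a - 1) * t ^ (3 / 2 : ℝ) := by
      rw [← rpow_add ht]; congr 1; ring
    have e4 : h * ∑' n, F n t - √π * (t ^ (a - 1 / 2 - 1) * exp (-(μ ^ 2 * t))) =
        t ^ (a - 1) * exp (-(μ ^ 2 * t)) *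
          (h * ∑' n : ℤ, exp (-(h ^ 2 * t) * (n : ℝ) ^ 2) - √π * t ^ (-(1 / 2) : ℝ)) := by
      rw [e1, e2]; ring
    rw [e4, e3, norm_mul, norm_of_nonneg (by positivity), norm_eq_abs]
    calc _ ≤ t ^ (a - 1) * exp (-(μ ^ 2 * t)) * (4 * zeta4 * h ^ 4 * t ^ (3 / 2 : ℝ)) := by
          gcongr
          exact theta_est hh ht
      _ = _ := by ring
  rw [integral_sub (hint.const_mul _) (i1.const_mul _), integral_const_mul, integral_const_mul,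
    integral_const_mul, ← h2, v1, v2, norm_eq_abs] at h3
  have e5 : h * S - √π * Gamma (a - 1 / 2) / Gamma a * (1 / μ ^ 2) ^ (a - 1 / 2) =
      (h * (S * Gamma a) - √π * ((1 / μ ^ 2) ^ (a - 1 / 2) * Gamma (a - 1 / 2))) / Gamma a := by
    field_simp
  rw [e5, abs_div, abs_of_pos hG, div_le_iff₀ hG]
  refine h3.trans (le_of_eq ?_)
  field_simp

def lam (h μ : ℝ) (n : ℤ) : ℝ := √((h * n) ^ 2 + μ ^ 2)

lemma lam_sq (h μ : ℝ) (n : ℤ) : lam h μ n ^ 2 = (h * n) ^ 2 + μ ^ 2 := sq_sqrt (by positivity)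

lemma le_lam (h : ℝ) {μ : ℝ} (hμ : 0 < μ) (n : ℤ) : μ ≤ lam h μ n :=
  le_sqrt_of_sq_le (by nlinarith [sq_nonneg (h * n)])

lemma lam_pos (h : ℝ) {μ : ℝ} (hμ : 0 < μ) (n : ℤ) : 0 < lam h μ n := hμ.trans_le (le_lam h hμ n)

lemma one_div_sq_rpow {x : ℝ} (hx : 0 < x) (b : ℕ) : (1 / x ^ 2) ^ ((b : ℝ) / 2) = (x ^ b)⁻¹ := by
  rw [one_div, inv_rpow (by positivity), ← rpow_natCast x 2, ← rpow_mul hx.le, ← rpow_natCast]
  congr 2
  push_cast; ring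

/-- `∫ (1 + u²)^{-(b+1)/2} du` -/
def Jc (b : ℕ) : ℝ := √π * Gamma ((b : ℝ) / 2) / Gamma (((b + 1 : ℕ) : ℝ) / 2)

lemma summable_lam {h μ : ℝ} (hh : 0 < h) (hμ : 0 < μ) {b : ℕ} (hb : 1 ≤ b) :
    Summable fun n : ℤ => (lam h μ n ^ (b + 1))⁻¹ := by
  have hb' : (1 : ℝ) ≤ b := by exact_mod_cast hb
  have := summable_lat (μ := μ) (a := ((b + 1 : ℕ) : ℝ) / 2) hh (by push_cast; linarith)
  refine this.congr fun n => ?_
  rw [← lam_sq, one_div_sq_rpow (lam_pos h hμ n)]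

theorem lam_est {b : ℕ} (hb : 1 ≤ b) : ∃ C, 0 ≤ C ∧ ∀ h μ : ℝ, 0 < h → 0 < μ →
    |h * ∑' n : ℤ, (lam h μ n ^ (b + 1))⁻¹ - Jc b * (μ ^ b)⁻¹| ≤ C * h ^ 4 * (μ ^ (b + 4))⁻¹ := by
  have hb' : (1 : ℝ) ≤ b := by exact_mod_cast hb
  obtain ⟨C, hC⟩ := lat_est (a := ((b + 1 : ℕ) : ℝ) / 2) (by push_cast; linarith)
  refine ⟨|C|, abs_nonneg _, fun h μ hh hμ => ?_⟩
  have := hC h μ hh hμ
  have e1 : ((b + 1 : ℕ) : ℝ) / 2 - 1 / 2 = (b : ℝ) / 2 := by push_cast; ring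
  have e2 : ((b + 1 : ℕ) : ℝ) / 2 + 3 / 2 = ((b + 4 : ℕ) : ℝ) / 2 := by push_cast; ring
  rw [e1, e2, one_div_sq_rpow hμ, one_div_sq_rpow hμ] at this
  simp_rw [← lam_sq h μ, one_div_sq_rpow (lam_pos h hμ _)] at this
  refine this.trans ?_
  gcongr
  exact le_abs_self C

lemma Jc_rec {b : ℕ} (hb : 1 ≤ b) : Jc (b + 2) = Jc b * (b / (b + 1)) := by
  have hb' : (1 : ℝ) ≤ b := by exact_mod_cast hb
  unfold Jc
  have e1 : ((b + 2 : ℕ) : ℝ) / 2 = (b : ℝ) / 2 + 1 := by push_cast; ring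
  have e2 : ((b + 2 + 1 : ℕ) : ℝ) / 2 = ((b + 1 : ℕ) : ℝ) / 2 + 1 := by push_cast; ring
  rw [e1, e2, Gamma_add_one (by positivity), Gamma_add_one (by positivity)]
  have := Gamma_pos_of_pos (s := ((b + 1 : ℕ) : ℝ) / 2) (by positivity)
  push_cast at *
  field_simp

lemma Jc_one : Jc 1 = π := by
  unfold Jc
  norm_num [Gamma_one_half_eq]
  exact mul_self_sqrt pi_pos.le

lemma Jc_two : Jc 2 = 2 := by
  unfold Jc
  have e : ((2 + 1 : ℕ) : ℝ) / 2 = 1 / 2 + 1 := by push_cast; ring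
  rw [e, Gamma_add_one (by norm_num), Gamma_one_half_eq]
  have : 0 < √π := sqrt_pos.2 pi_pos
  norm_num
  field_simp

lemma Jc_3 : Jc 3 = π / 2 := by rw [Jc_rec (b := 1) le_rfl, Jc_one]; norm_num; ring
lemma Jc_4 : Jc 4 = 4 / 3 := by rw [Jc_rec (b := 2) (by norm_num), Jc_two]; norm_num
lemma Jc_5 : Jc 5 = 3 * π / 8 := by rw [Jc_rec (b := 3) (by norm_num), Jc_3]; norm_num; ring
lemma Jc_6 : Jc 6 = 16 / 15 := by rw [Jc_rec (b := 4) (by norm_num), Jc_4]; norm_num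
lemma Jc_7 : Jc 7 = 5 * π / 16 := by rw [Jc_rec (b := 5) (by norm_num), Jc_5]; norm_num; ring
lemma Jc_8 : Jc 8 = 32 / 35 := by rw [Jc_rec (b := 6) (by norm_num), Jc_6]; norm_num
lemma Jc_9 : Jc 9 = 35 * π / 128 := by rw [Jc_rec (b := 7) (by norm_num), Jc_7]; norm_num; ring

end Pool.Agent.Lib.MP_312682_mp
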