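import Pool.Agent.Lib.MP_312682_mp.Spec

/-! Abstract operator lemmas: exponential weights, localisation, perturbation expansion. -/

open scoped InnerProductSpace ENNReal
open ContinuousLinearMap

set_option linter.unusedSectionVars false

noncomputable section

namespace Pool.Agent.Lib.MP_312682_mp

variable {X Y : Type*} [NormedAddCommGroup X] [InnerProductSpace ℂ X] [CompleteSpace X]
  [NormedAddCommGroup Y] [InnerProductSpace ℂ Y] [CompleteSpace Y]

/-- orthogonal projector -/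
structure Proj (P : X →L[ℂ] X) : Prop where
  sa : star P = P
  idem : P * P = P

lemma Proj.norm_le {P : X →L[ℂ] X} (h : Proj P) : ‖P‖ ≤ 1 := by
  have := CStarRing.norm_star_mul_self (x := P)
  rw [h.sa, h.idem] at this
  nlinarith [norm_nonneg P]

lemma Proj.compl {P : X →L[ℂ] X} (h : Proj P) : Proj (1 - P) :=
  ⟨by rw [star_sub, star_one, h.sa], by
    have := h.idem
    rw [sub_mul, mul_sub, mul_sub, this]; simp⟩

lemma proj_star (V : Submodule ℂ X) [V.HasOrthogonalProjection] : Proj V.starProjection :=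
  ⟨isSelfAdjoint_starProjection V, V.isIdempotentElem_starProjection⟩

lemma norm_one_le' : ‖(1 : X →L[ℂ] X)‖ ≤ 1 := norm_id_le

lemma nmul {a b : X →L[ℂ] X} {x y : ℝ} (ha : ‖a‖ ≤ x) (hb : ‖b‖ ≤ y) : ‖a * b‖ ≤ x * y :=
  (norm_mul_le a b).trans (mul_le_mul ha hb (norm_nonneg _) ((norm_nonneg _).trans ha))

lemma nadd {a b : X →L[ℂ] X} {x y : ℝ} (ha : ‖a‖ ≤ x) (hb : ‖b‖ ≤ y) : ‖a + b‖ ≤ x + y :=
  (norm_add_le a b).trans (add_le_add ha hb)

lemma nsub {a b : X →L[ℂ] X} {x y : ℝ} (ha : ‖a‖ ≤ x) (hb : ‖b‖ ≤ y) : ‖a - b‖ ≤ x + y :=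
  (norm_sub_le a b).trans (add_le_add ha hb)

lemma nstar {a : X →L[ℂ] X} {x : ℝ} (ha : ‖a‖ ≤ x) : ‖star a‖ ≤ x := by rwa [norm_star]

lemma exists_inv {B : X →L[ℂ] X} {θ : ℝ} (hB : ‖B‖ ≤ θ) (hθ : θ < 1) :
    ∃ Z : X →L[ℂ] X, (1 + B) * Z = 1 ∧ Z * (1 + B) = 1 ∧ ‖Z‖ ≤ (1 - θ)⁻¹ := by
  let u := Units.oneSub (-B) (by rw [norm_neg]; linarith)
  have hu : (u : X →L[ℂ] X) = 1 + B := by simp [u]
  have h1 : (1 + B) * (↑u⁻¹ : X →L[ℂ] X) = 1 := by rw [← hu]; exact u.mul_inv
  refine ⟨↑u⁻¹, h1, by rw [← hu]; exact u.inv_mul, ?_⟩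
  set Z := (↑u⁻¹ : X →L[ℂ] X)
  have h2 : Z = 1 - B * Z := by rw [← h1]; noncomm_ring
  have h3 : ‖Z‖ ≤ 1 + θ * ‖Z‖ := by
    conv_lhs => rw [h2]
    exact nsub norm_one_le' (nmul hB le_rfl)
  rw [inv_eq_one_div, le_div_iff₀ (by linarith)]
  linarith

lemma HL.mleft {T : X →L[ℂ] X} {c : ℝ} (h : HL T c) {Z : X →L[ℂ] X} {m : ℝ} (hm : ‖Z‖ ≤ m) :
    HL (Z * T) (m * c) := h.left Z hm

lemma HL.mright {T : X →L[ℂ] X} {c : ℝ} (h : HL T c) {Z : X →L[ℂ] X} {m : ℝ} (hm : ‖Z‖ ≤ m) :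
    HL (T * Z) (m * c) := h.right Z hm

lemma HL.mid {p P : X →L[ℂ] X} (hp : Proj p) (hP : Proj P) {c : ℝ} (h : HL (p * P * p) c)
    {Z : X →L[ℂ] X} {m : ℝ} (hm : ‖Z‖ ≤ m) : HL (p * P * Z * P * p) (m * c) := by
  have h1 : adjoint (p * P) = P * p := by
    rw [← star_eq_adjoint, star_mul, hp.sa, hP.sa]
  have h2 : (p * P) ∘L adjoint (p * P) = p * P * p := by
    rw [h1, ← mul_def, mul_assoc, ← mul_assoc P, hP.idem, mul_assoc]
  have := HL.sandwich (T := p * P) (by rwa [h2]) Z hm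
  rw [h1, ← mul_def, ← mul_def] at this
  simpa only [mul_assoc] using this

/-- conjugation of a projector by a weight -/
lemma agmon {P m m' E : X →L[ℂ] X} (hP : Proj P) (hm : m * m' = 1) (hms : star m = m)
    (hEm : E * m = m * E) (hE2 : E * E = 0) (hE : ‖E‖ ≤ 1 / 4)
    (hpres : P * (m * (1 + E)) * P = m * (1 + E) * P) :
    ∃ Z : X →L[ℂ] X, ‖Z‖ ≤ 3 ∧ m * P * m' = (1 - E) * P * Z * P * (1 + star E) := by
  set F := star E - E - star E * E with hF
  have hFn : ‖P * F * P‖ ≤ 9 / 16 := by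
    have := nmul (nmul hP.norm_le (nsub (nsub (nstar hE) hE) (nmul (nstar hE) hE))) hP.norm_le
    exact this.trans (by norm_num)
  obtain ⟨Z, -, h2, h3⟩ := exists_inv hFn (by norm_num)
  refine ⟨Z, h3.trans (by norm_num), ?_⟩
  set Q := m * (1 + E) * P * m' with hQ
  have hPQ : P * Q = Q := by
    rw [hQ]
    calc P * (m * (1 + E) * P * m') = (P * (m * (1 + E)) * P) * m' := by noncomm_ring
      _ = _ := by rw [hpres]
  have hQ2 : (1 - E) * Q = m * P * m' := by
    have : (1 - E) * (m * (1 + E)) = m := by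
      calc (1 - E) * (m * (1 + E)) = m + m * E - E * m - (E * m) * E := by noncomm_ring
        _ = m - m * (E * E) := by rw [hEm]; noncomm_ring
        _ = m := by rw [hE2]; simp
    calc (1 - E) * Q = ((1 - E) * (m * (1 + E))) * P * m' := by rw [hQ]; noncomm_ring
      _ = _ := by rw [this]
  have hadj : P * (1 + star E) * m * P = P * (1 + star E) * m := by
    have := congrArg star hpres
    simp only [star_mul, star_add, star_one, hP.sa, hms] at this
    simpa only [mul_assoc] using this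
  have h5 : (1 + P * F * P) * Q = P * (1 + star E) := by
    calc (1 + P * F * P) * Q = Q + P * F * (P * Q) := by noncomm_ring
      _ = P * Q + P * F * Q := by rw [hPQ]
      _ = P * (1 + star E) * ((1 - E) * Q) := by rw [hF]; noncomm_ring
      _ = (P * (1 + star E) * m * P) * m' := by rw [hQ2]; noncomm_ring
      _ = P * (1 + star E) * (m * m') := by rw [hadj]; noncomm_ring
      _ = _ := by rw [hm, mul_one]
  have h6 : Q = Z * (P * (1 + star E)) := by rw [← h5, ← mul_assoc, h2, one_mul]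
  rw [← hQ2, ← hPQ, h6]
  noncomm_ring

lemma agmon_bounds {p P m m' E χ S : X →L[ℂ] X} (hp : Proj p) (hP : Proj P) (hm : m * m' = 1)
    (hm' : m' * m = 1) (hms : star m = m) (hEm : E * m = m * E) (hE2 : E * E = 0)
    (hE : ‖E‖ ≤ 1 / 4) (hpres : P * (m * (1 + E)) * P = m * (1 + E) * P) (hpE : p * E = 0)
    (hpm : p * m = m * p) {a c : ℝ} (hχ : ‖χ * m'‖ ≤ a) (hS : ‖m * S‖ ≤ 1)
    (hc : HL (p * P * p) c) : ‖χ * P * S‖ ≤ 5 * a ∧ HL (χ * (p * P * p) * S) (3 * a * c) := by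
  obtain ⟨Z, hZ, h⟩ := agmon hP hm hms hEm hE2 hE hpres
  have ha : 0 ≤ a := (norm_nonneg _).trans hχ
  constructor
  · have e : χ * P * S = (χ * m') * (m * P * m') * (m * S) := by
      calc χ * P * S = χ * (m' * m) * P * (m' * m) * S := by rw [hm']; simp
        _ = _ := by noncomm_ring
    rw [e, h]
    have := nmul (nmul hχ (nmul (nmul (nmul (nmul (nsub norm_one_le' hE) hP.norm_le) hZ)
      hP.norm_le) (nadd norm_one_le' (nstar hE)))) hS
    exact this.trans (by linarith)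
  · have hEp : star E * p = 0 := by
      have := congrArg star hpE
      rwa [star_mul, hp.sa, star_zero] at this
    have hpm' : p * m' = m' * p := by
      calc p * m' = (m' * m) * p * m' := by rw [hm', one_mul]
        _ = m' * (p * m) * m' := by rw [hpm]; noncomm_ring
        _ = m' * p * (m * m') := by noncomm_ring
        _ = _ := by rw [hm, mul_one]
    have e : χ * (p * P * p) * S = (χ * m') * (p * P * Z * P * p) * (m * S) := by
      calc χ * (p * P * p) * S = χ * (m' * m) * p * P * (m' * m) * p * S := by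
            rw [hm']; noncomm_ring
        _ = χ * m' * (m * p) * P * m' * (m * p) * S := by noncomm_ring
        _ = χ * m' * p * (m * P * m') * p * (m * S) := by rw [← hpm]; noncomm_ring
        _ = χ * m' * (p - p * E) * P * Z * P * (p + star E * p) * (m * S) := by
            rw [h]; noncomm_ring
        _ = _ := by rw [hpE, hEp]; noncomm_ring
    rw [e]
    exact (((hc.mid hp hP hZ).mleft hχ).mright hS).mono (le_of_eq (by ring))

lemma hsq_eq_of {A B A' B' : Type*} [NormedAddCommGroup A] [InnerProductSpace ℂ A]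
    [CompleteSpace A] [NormedAddCommGroup B] [InnerProductSpace ℂ B] [CompleteSpace B]
    [NormedAddCommGroup A'] [InnerProductSpace ℂ A'] [CompleteSpace A'] [NormedAddCommGroup B']
    [InnerProductSpace ℂ B'] [CompleteSpace B'] {S : A →L[ℂ] B} {T : A' →L[ℂ] B'}
    (h1 : hs2 S ≤ ENNReal.ofReal (1 ^ 2) * hs2 T) (h2 : hs2 T ≤ ENNReal.ofReal (1 ^ 2) * hs2 S) :
    hsq S = hsq T := by
  simp only [one_pow, ENNReal.ofReal_one, one_mul] at h1 h2
  rw [hsq, hsq, le_antisymm h1 h2]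

/-- localisation -/
lemma localise {p P ψ E χ S : X →L[ℂ] X} {q Q χ' : Y →L[ℂ] Y} {Θ : X →L[ℂ] Y}
    (hp : Proj p) (hP : Proj P) (hq : Proj q) (hQ : Proj Q) (hΘ : ‖Θ‖ ≤ 1)
    (hΘ1 : Θ ∘L adjoint Θ = 1) (hqΘ : q ∘L Θ = Θ ∘L p) (hψ : star ψ = ψ) (hpE : p * E = 0)
    (hEp : E * p = E) (hpψ : p * ψ = ψ * p) (hpχ : p * χ = χ * p)
    (ha : Q ∘L Θ ∘L ((ψ + E) * P) = Θ ∘L ((ψ + E) * P))
    (hb : (P * (ψ + E)) ∘L adjoint Θ ∘L Q = (ψ + E) ∘L adjoint Θ ∘L Q)
    (hχψ : χ * ψ = χ) (hψΘ : ψ ∘L adjoint Θ ∘L Θ = ψ) (hχΘ : χ ∘L adjoint Θ = adjoint Θ ∘L χ')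
    (hSE : S * E = E) (hSE' : S * star E = star E) (hSψ : S * (1 - ψ) = 1 - ψ)
    (hχ : ‖χ‖ ≤ 1) (hχ' : ‖χ'‖ ≤ 1) (hψ1 : ‖ψ‖ ≤ 1) (hψ2 : ‖1 - ψ‖ ≤ 1) {ε b c : ℝ}
    (hE : ‖E‖ ≤ b) (hc : HL (p * P * p) c) (hc' : HL (q * Q * q) c)
    (h1 : ‖χ * P * S‖ ≤ 5 * ε) (h2 : HL (χ * (p * P * p) * S) (3 * ε * c)) :
    |hsq (χ * (p * P * p)) - hsq (χ' * (q * Q * q))| ≤
      2 * ((3 + 8 * b) * ε * c) * (2 * c + (3 + 8 * b) * ε * c) := by
  have hb0 : 0 ≤ b := (norm_nonneg _).trans hE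
  have hε : 0 ≤ ε := by linarith [norm_nonneg (χ * P * S)]
  have hc0 := hc.1
  have hΘ' : ‖adjoint Θ‖ ≤ 1 := by simpa using hΘ
  have sa : ∀ {Z : X →L[ℂ] X}, star Z = Z → adjoint Z = Z := fun h => h
  have sa' : ∀ {Z : Y →L[ℂ] Y}, star Z = Z → adjoint Z = Z := fun h => h
  have hpΘ : p ∘L adjoint Θ = adjoint Θ ∘L q := by
    have := congrArg adjoint hqΘ
    rw [adjoint_comp, adjoint_comp, sa hp.sa, sa' hq.sa] at this
    exact this.symm
  have hEp' : star E * p = 0 := by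
    have := congrArg star hpE
    rwa [star_mul, hp.sa, star_zero] at this
  have hpE' : p * star E = star E := by
    have := congrArg star hEp
    rwa [star_mul, hp.sa] at this
  have ha' : (P * (ψ + star E)) ∘L adjoint Θ ∘L Q = (P * (ψ + star E)) ∘L adjoint Θ := by
    have := congrArg adjoint ha
    rw [adjoint_comp, adjoint_comp, sa' hQ.sa, ← star_eq_adjoint, star_mul, star_add,
      hP.sa, hψ] at this
    rw [← this, comp_assoc]
  have key : χ ∘L adjoint Θ ∘L (q * Q * q) = (χ * (p * P * p) * ψ) ∘L adjoint Θ +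
      ((p * (χ * P * S) * E) ∘L adjoint Θ ∘L (q * Q * q) -
        (χ * (p * P * p) * S * star E) ∘L adjoint Θ ∘L (Q * q)) := by
    ext y
    have k1 := congrArg (fun Z => Z (q y)) hb
    have k2 := congrArg (fun Z => Z (q y)) ha'
    have k3 := fun z => congrArg (fun Z => Z z) hpΘ
    have k4 := fun z => congrArg (fun Z => Z z) hEp'
    have k5 := fun z => congrArg (fun Z => Z z) hpE
    have k6 := fun z => congrArg (fun Z => Z z) hEp
    have k7 := fun z => congrArg (fun Z => Z z) hpψ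
    have k8 := fun z => congrArg (fun Z => Z z) hpχ
    have k9 := fun z => congrArg (fun Z => Z z) hχψ
    have k10 := fun z => congrArg (fun Z => Z z) hSE
    have k11 := fun z => congrArg (fun Z => Z z) hSE'
    have k12 := fun z => congrArg (fun Z => Z z) hpE'
    simp only [mul_apply_eq_comp, comp_apply, add_apply, zero_apply, map_add, sub_apply] at *
    rw [← k3 y, k4, map_zero, add_zero, ← k7] at k2
    rw [k10, k11, k12, ← k3, k6, k8, ← k2]
    have k13 : χ (p (adjoint Θ (Q (q y)))) =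
        χ (p (ψ (adjoint Θ (Q (q y))) + E (adjoint Θ (Q (q y))))) := by
      rw [map_add p, k5, add_zero, k7, k9]
    rw [k13, ← k1]
    simp only [map_add]
    abel
  set e := (3 + 8 * b) * ε * c with he
  have herr : HL ((p * (χ * P * S) * E) ∘L adjoint Θ ∘L (q * Q * q) -
      (χ * (p * P * p) * S * star E) ∘L adjoint Θ ∘L (Q * q)) e := by
    have t1 := (hc'.left _ hΘ').left _ (nmul (nmul hp.norm_le h1) hE)
    have t2 := (h2.mright (nstar hE)).right (adjoint Θ ∘L (Q * q)) (m := 1)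
      ((opNorm_comp_le _ _).trans (by
        have := nmul hQ.norm_le hq.norm_le
        calc _ ≤ (1 : ℝ) * (1 * 1) := by gcongr
          _ = 1 := by norm_num))
    refine (t1.sub t2).mono ?_
    rw [he]
    nlinarith [mul_nonneg hε hc0]
  have hG : HL (χ * (p * P * p) * ψ) c :=
    ((hc.mleft hχ).mright hψ1).mono (le_of_eq (by ring))
  have d1 : |hsq (χ * (p * P * p)) - hsq (χ * (p * P * p) * ψ)| ≤ e * (2 * c + e) := by
    have e1 : χ * (p * P * p) = χ * (p * P * p) * ψ + χ * (p * P * p) * S * (1 - ψ) := by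
      rw [mul_assoc _ S, hSψ]; noncomm_ring
    conv_lhs => enter [1, 1]; rw [e1]
    refine hsq_add_sub_le hG ((h2.mright hψ2).mono ?_)
    rw [he]
    nlinarith [mul_nonneg hε hc0, mul_nonneg hb0 (mul_nonneg hε hc0)]
  have d2 : hsq ((χ * (p * P * p) * ψ) ∘L adjoint Θ) = hsq (χ * (p * P * p) * ψ) := by
    refine hsq_eq_of (hs2_comp_right _ _ hΘ') ?_
    have : χ * (p * P * p) * ψ = ((χ * (p * P * p) * ψ) ∘L adjoint Θ) ∘L Θ := by
      conv_lhs => rw [← hψΘ]
      rfl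
    conv_lhs => rw [this]
    exact hs2_comp_right _ _ hΘ
  have d3 : hsq (χ ∘L adjoint Θ ∘L (q * Q * q)) = hsq (χ' * (q * Q * q)) := by
    have e1 : χ ∘L adjoint Θ ∘L (q * Q * q) = adjoint Θ ∘L (χ' * (q * Q * q)) := by
      rw [← comp_assoc, hχΘ]; rfl
    rw [e1]
    refine hsq_eq_of (hs2_comp_left _ _ hΘ') ?_
    have : χ' * (q * Q * q) = Θ ∘L (adjoint Θ ∘L (χ' * (q * Q * q))) := by
      rw [← comp_assoc, hΘ1]; rfl
    conv_lhs => rw [this]
    exact hs2_comp_left _ _ hΘ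
  have d4 := hsq_add_sub_le ((hG.right _ hΘ').mono (le_of_eq (one_mul c))) herr
  rw [← key, d2, d3] at d4
  rw [abs_le] at *
  constructor <;> linarith [d1.1, d1.2, d4.1, d4.2]

/-- resolvent of a perturbed form -/
lemma perturb {p P Q N N' A : X →L[ℂ] X} (hp : Proj p) (hP : Proj P) (hQ : Proj Q)
    (hN : N * N' = 1) (hpN : p * N = p) (h1 : Q * N * P = N * P) (h2 : P * N' * Q = N' * Q)
    (hA : P * (star N * N) * P = P * (1 + A) * P) (hAn : ‖A‖ ≤ 1 / 2) :
    ∃ Z : X →L[ℂ] X, ‖Z‖ ≤ 2 ∧ (1 + P * A * P) * Z = 1 ∧ p * Q * p = p * P * Z * P * p := by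
  have hB : ‖P * A * P‖ ≤ 1 / 2 := (nmul (nmul hP.norm_le hAn) hP.norm_le).trans (by norm_num)
  obtain ⟨Z, z1, z2, z3⟩ := exists_inv hB (by norm_num)
  refine ⟨Z, z3.trans (by norm_num), z1, ?_⟩
  have hpN' : p * N' = p := by
    calc p * N' = (p * N) * N' := by rw [hpN]
      _ = p := by rw [mul_assoc, hN, mul_one]
  have h1' : P * star N * Q = P * star N := by
    have := congrArg star h1
    simp only [star_mul, hP.sa, hQ.sa] at this
    simpa only [mul_assoc] using this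
  have hNp : star N * p = p := by
    have := congrArg star hpN
    rwa [star_mul, hp.sa] at this
  set W := N' * Q * p with hW
  have hPW : P * W = W := by
    calc P * W = (P * N' * Q) * p := by rw [hW]; noncomm_ring
      _ = W := by rw [h2]
  have h5 : (1 + P * A * P) * W = P * p := by
    calc (1 + P * A * P) * W = W + P * A * (P * W) := by noncomm_ring
      _ = P * (P * W) + P * A * (P * W) := by rw [hPW, hPW]
      _ = (P * (1 + A) * P) * W := by noncomm_ring
      _ = P * star N * N * (P * W) := by rw [← hA]; noncomm_ring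
      _ = P * star N * (N * N') * Q * p := by rw [hPW, hW]; noncomm_ring
      _ = (P * star N * Q) * p := by rw [hN, mul_one]
      _ = P * p := by rw [h1', mul_assoc, hNp]
  have h6 : W = Z * (P * p) := by rw [← h5, ← mul_assoc, z2, one_mul]
  calc p * Q * p = (p * N') * Q * p := by rw [hpN']
    _ = p * (P * W) := by rw [hPW, hW]; noncomm_ring
    _ = _ := by rw [h6]; noncomm_ring

lemma hasSum_frame {ι : Type*} {v : ι → X} {p : X →L[ℂ] X} (hp : Proj p) (h : Pars v p)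
    {T : X →L[ℂ] X} (hT : T * p = T) (hf : hs2 T ≠ ⊤) :
    HasSum (fun i => ‖T (v i)‖ ^ 2) (hsq T) := by
  have e := hs2_frame h T (by rw [show adjoint p = p from hp.sa]; exact hT)
  rw [e] at hf
  have := ENNReal.hasSum_toReal hf
  rw [hsq, e, ENNReal.tsum_toReal_eq fun i => nsq_ne_top _]
  refine this.congr_fun fun i => ?_
  rw [nsq, ENNReal.toReal_ofReal (by positivity)]

end Pool.Agent.Lib.MP_312682_mp
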