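import Pool.Agent.Lib.MP_312682_mp.Polar

/-! Strict monotonicity of the first eigenvalue of eccentric annuli. -/

open scoped ContDiff ComplexConjugate Topology InnerProductSpace
open MeasureTheory Complex Set Filter Metric

set_option linter.unusedSectionVars false

noncomputable section

namespace Pool.Agent.Lib.MP_312682_mp

def ann (R r t : ℝ) : Set ℂ := ball 0 R \ closedBall (t : ℂ) r

lemma mem_ann {R r t : ℝ} {z : ℂ} : z ∈ ann R r t ↔ ‖z‖ < R ∧ r < ‖z - t‖ := by
  simp [ann, dist_eq_norm]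

lemma ann_open (R r t : ℝ) : IsOpen (ann R r t) := isOpen_ball.sdiff isClosed_closedBall

lemma ann_conn {R r t : ℝ} (hr : 0 < r) (ht : 0 ≤ t) (h : t + r < R) :
    IsPreconnected (ann R r t) := by
  have sp : ∀ ρ, r < ρ → t + ρ < R → sphere (t : ℂ) ρ ⊆ ann R r t := fun ρ h1 h2 z hz => by
    rw [mem_sphere_iff_norm] at hz
    refine mem_ann.2 ⟨?_, hz ▸ h1⟩
    have := norm_add_le (z - t) (t : ℂ)
    rw [sub_add_cancel, norm_real, Real.norm_of_nonneg ht] at this
    linarith
  have sg : ∀ ρ, r < ρ → t + ρ < R → ∀ z ∈ ann R r t, ρ ≤ ‖z - t‖ →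
      ∃ p ∈ sphere (t : ℂ) ρ, segment ℝ z p ⊆ ann R r t := fun ρ h1 h2 z hz h3 => by
    have n0 : 0 < ‖z - t‖ := by linarith
    have hp : (t : ℂ) + (ρ / ‖z - t‖) • (z - t) ∈ sphere (t : ℂ) ρ := by
      rw [mem_sphere_iff_norm, add_sub_cancel_left, norm_smul, Real.norm_of_nonneg
        (div_nonneg (by linarith) n0.le), div_mul_cancel₀ _ n0.ne']
    refine ⟨_, hp, fun w hw => mem_ann.2 ⟨mem_ball_zero_iff.1
      ((convex_ball 0 R).segment_subset hz.1 (sp ρ h1 h2 hp).1 hw), ?_⟩⟩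
    obtain ⟨a, b, ha, hb, e, rfl⟩ := hw
    obtain rfl : a = 1 - b := by linarith
    rw [show (1 - b) • z + b • ((t : ℂ) + (ρ / ‖z - t‖) • (z - t)) - t =
      (1 - b + b * (ρ / ‖z - t‖)) • (z - t) by module, norm_smul, Real.norm_of_nonneg
      (add_nonneg ha (mul_nonneg hb (div_nonneg (by linarith) n0.le))), add_mul, mul_assoc,
      div_mul_cancel₀ _ n0.ne']
    nlinarith
  refine isPreconnected_of_forall_pair fun x hx y hy => ?_
  obtain ⟨ρ, h1, h2⟩ := exists_between (lt_min (lt_min (mem_ann.1 hx).2 (mem_ann.1 hy).2)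
    (show r < R - t by linarith))
  simp only [lt_min_iff] at h2
  obtain ⟨p, p1, p2⟩ := sg ρ h1 (by linarith [h2.2]) x hx h2.1.1.le
  obtain ⟨q, q1, q2⟩ := sg ρ h1 (by linarith [h2.2]) y hy h2.1.2.le
  exact ⟨(segment ℝ x p ∪ sphere (t : ℂ) ρ) ∪ segment ℝ y q,
    union_subset (union_subset p2 (sp ρ h1 (by linarith [h2.2]))) q2,
    Or.inl (Or.inl (left_mem_segment ℝ x p)), Or.inr (left_mem_segment ℝ y q),
    (((convex_segment x p).isPreconnected.union p (right_mem_segment ℝ x p) p1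
      (isPreconnected_sphere (by simp) _ _)).union q (Or.inr q1) (right_mem_segment ℝ y q)
      (convex_segment y q).isPreconnected)⟩

lemma norm_le_of_re {z w : ℂ} (h1 : z.im = w.im) (h2 : z.re ^ 2 ≤ w.re ^ 2) : ‖z‖ ≤ ‖w‖ := by
  rw [← sq_le_sq₀ (norm_nonneg _) (norm_nonneg _), ← normSq_eq_norm_sq, ← normSq_eq_norm_sq,
    normSq_apply, normSq_apply, h1]
  linarith

theorem ann_strict {R r t t' : ℝ} (hr : 0 < r) (ht : 0 ≤ t) (htt : t < t') (h : t' + r < R)
    (hs : ∀ l, Low (ann R r t) l → Low (ann R r t') l) : False := by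
  have real : ∀ x s : ℝ, -R < x → x < R → (x < s - r ∨ s + r < x) → (x : ℂ) ∈ ann R r s :=
    fun x s h1 h2 h3 => mem_ann.2 ⟨by rw [norm_real]; exact abs_lt.2 ⟨h1, h2⟩, by
      rw [← ofReal_sub, norm_real, Real.norm_eq_abs, lt_abs]; exact h3.symm.imp
        (fun _ => by linarith) fun _ => by linarith⟩
  obtain ⟨l, U, l0, lo, ap, U0, Uz, UM⟩ := ground (ann_open R r t) (isBounded_ball.subset sdiff_subset)
    ⟨_, real (t' + r) t (by linarith) h (Or.inr (by linarith))⟩
  obtain ⟨m, hm⟩ : ∃ m, 2 * m = t + t' := ⟨(t + t') / 2, by ring⟩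
  have e1 : rf m t = t' := Complex.ext (by simp; linarith) (by simp)
  have e2 : ∀ z, r < ‖rf m z - t‖ → r < ‖z - t'‖ := fun z hz => by rwa [rf_dist, e1] at hz
  have ap' := ap.pol (m := m) (Ω' := ann R r t') (fun z hz h1 => by
    simp only [mem_ann] at h1 ⊢
    rcases h1 with h1 | h1
    · exact ⟨h1.1, h1.2.trans_le (norm_le_of_re (by simp) (by simp; nlinarith))⟩
    · exact ⟨(norm_le_of_re (by simp) (by simp; nlinarith)).trans_lt h1.1, e2 z h1.2⟩)
    fun z h1 h2 => mem_ann.2 ⟨(mem_ann.1 h1).1, e2 z (mem_ann.1 h2).2⟩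
  have g0 : ∀ z : ℂ, z.re < m → 0 ≤ pol m U z - U z := fun z hz => by
    simp only [pol, sg, if_pos hz.le]
    linarith [neg_abs_le (U (rf m z) - U z), le_abs_self (U z - U (rf m z))]
  have S : Sup ({z | z.re < m} ∩ ann R r t') fun z => pol m U z - U z := by
    refine ⟨(pol_mem ap.mem).sub ap.mem, fun z hz => g0 z hz.1, fun φ t1 t2 => ?_⟩
    have a := ap'.super (hs l lo) (φ := φ) ⟨t1.smooth, t1.cpt, t1.supp.trans inter_subset_right⟩
    have b := ap.sub lo l0 t1.univ t2
    have c : ∫ z, U z * φ z ≤ ∫ z, pol m U z * φ z := integral_mono (ap.mem.integrable_mul t1.memLp)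
      (ap'.mem.integrable_mul t1.memLp) fun z => by
        by_cases hz : φ z = 0
        · simp [hz]
        · exact mul_le_mul_of_nonneg_right (sub_nonneg.1 (g0 z (t1.supp (subset_tsupport φ hz)).1))
            (t2 z)
    simp only [sub_mul]
    erw [integral_sub (ap'.mem.integrable_mul t1.lap.memLp) (ap.mem.integrable_mul t1.lap.memLp)]
    have := mul_le_mul_of_nonneg_left c l0
    simp only [Pi.mul_apply]
    linarith
  have Uz' := (mp_rf (m := m)).quasiMeasurePreserving.ae Uz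
  obtain ⟨x0, a1, a2⟩ := exists_between (show -R < min (2 * m - R) (t' - r) from
    lt_min (by linarith) (by linarith))
  obtain ⟨x1, b1, b2⟩ := exists_between (show t - r < min t (t' - r) from
    lt_min (by linarith) (by linarith))
  rw [lt_min_iff] at a2 b2
  obtain ⟨ρ, ρ0, hρ⟩ := S.prop ((isOpen_lt continuous_re continuous_const).inter (ann_open _ _ _))
    ((isPreconnected_Ioo (a := -R) (b := min m (t' - r))).image ofReal continuous_ofReal.continuousOn)
    (by
      rintro _ ⟨x, ⟨h1, h2⟩, rfl⟩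
      rw [lt_min_iff] at h2
      exact ⟨h2.1, real x t' h1 (by linarith [h2.2]) (Or.inl h2.2)⟩)
    ⟨x0, ⟨a1, lt_min (by linarith [a2.1]) a2.2⟩, rfl⟩ ⟨2 * m - R - x0, by linarith [a2.1], by
      filter_upwards [Uz'] with z h1 h2
      have k := (abs_le.1 (abs_re_le_norm (z - x0))).2.trans_lt (mem_ball_iff_norm.1 h2)
      rw [sub_re, ofReal_re] at k
      have k2 := (abs_le.1 (abs_re_le_norm (rf m z))).2
      rw [rf_re] at k2
      have := h1 fun h => by linarith [(mem_ann.1 h).1]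
      simp only [pol, sg, this, if_pos (show z.re ≤ m by linarith), sub_zero, abs_of_nonneg (U0 z)]
      ring⟩ x1 ⟨x1, ⟨by linarith, lt_min (by linarith [b2.1]) b2.2⟩, rfl⟩
  have SU : Sup (ann R r t) U := ⟨ap.mem, fun z _ => U0 z, fun φ t1 t2 => by
    have := mul_nonneg l0 (integral_nonneg (μ := vol) (f := fun z => U z * φ z)
      fun z => mul_nonneg (U0 z) (t2 z))
    linarith [ap.super lo t1]⟩
  have e3 : rf m x1 = ((2 * m - x1 : ℝ) : ℂ) := Complex.ext (by simp) (by simp)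
  have key := SU.prop (ann_open _ _ _) (ann_conn hr ht (by linarith)) subset_rfl
    (real (2 * m - x1) t (by linarith [b2.1]) (by linarith) (Or.inr (by linarith [b2.2])))
    ⟨min ρ (min (x1 - (t - r)) (m - x1)), lt_min ρ0 (lt_min (by linarith) (by linarith [b2.1])), by
      filter_upwards [Uz', (mp_rf (m := m)).quasiMeasurePreserving.ae hρ] with z h1 h2 h3
      rw [mem_ball_iff_norm, ← e3, ← rf_dist, lt_min_iff, lt_min_iff] at h3
      have k := (abs_le.1 (abs_re_le_norm (rf m z - x1))).2.trans_lt h3.2.2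
      rw [sub_re, ofReal_re] at k
      have := h1 fun h => by
        have k1 := norm_add_le (rf m z - x1) (x1 - t)
        rw [sub_add_sub_cancel, ← ofReal_sub, norm_real, Real.norm_of_nonpos (by linarith [b2.1])] at k1
        linarith [(mem_ann.1 h).2, h3.2.1]
      have h4 := h2 (mem_ball_iff_norm.2 h3.1)
      simp only [pol, sg, this, if_pos (show (rf m z).re ≤ m by linarith), rf_rf, zero_sub, abs_neg,
        abs_of_nonneg (U0 z)] at h4
      linarith⟩
  have nul : vol {z | z ∈ ann R r t ∧ U z ≠ 0} = 0 := measure_null_of_locally_null _ fun x hx => by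
    obtain ⟨ε, e0, he⟩ := key x hx.1
    refine ⟨_, ?_, ae_iff.1 he⟩
    filter_upwards [self_mem_nhdsWithin, mem_nhdsWithin_of_mem_nhds (ball_mem_nhds x e0)] with z h1 h2
    exact fun h => h1.2 (h h2)
  refine UM.ne' (integral_eq_zero_of_ae ?_)
  filter_upwards [Uz, measure_eq_zero_iff_ae_notMem.1 nul] with z h1 h2
  by_cases hz : z ∈ ann R r t
  · simpa [hz] using h2
  · simp [h1 hz]

lemma Low.iso {Ω : Set ℂ} {l : ℝ} (a : ℂ) {c : ℂ} (hc : ‖c‖ = 1)
    (h : Low ((fun z => a + c * z) ⁻¹' Ω) l) : Low Ω l := by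
  intro u hu
  have c0 : c ≠ 0 := by rintro rfl; simp at hc
  set A := rotation ⟨c, by simpa [Submonoid.unitSphere] using hc⟩ with hA
  have eA : ∀ z, A z = c * z := fun z => rotation_apply _ z
  have sT : ContDiff ℝ ∞ fun z : ℂ => a + c * z := by fun_prop
  have := h (fun z => u (a + c * z)) ⟨hu.1.comp sT, hu.2.1.comp_homeomorph
    (A.toHomeomorph.trans (Homeomorph.addLeft a)), (closure_minimal (t := (fun z => a + c * z) ⁻¹' tsupport u)
      (fun z hz => subset_tsupport u hz) ((isClosed_tsupport u).preimage sT.continuous)).trans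
      (preimage_mono hu.2.2)⟩
  have e1 : massC (fun z => u (a + c * z)) = massC u := int_iso a A fun z => ‖u z‖ ^ 2
  have e2 : energyC (fun z => u (a + c * z)) = energyC u := by
    refine Eq.trans ?_ (int_iso a A fun z => ‖d1 u z‖ ^ 2 + ‖d2 u z‖ ^ 2)
    unfold energyC
    congr 1; ext z
    have h1 : HasFDerivAt (fun z : ℂ => a + c * z) _ z :=
      ((hasFDerivAt_id (𝕜 := ℝ) z).const_mul c).const_add a
    have h2 : HasFDerivAt (fun z => u (a + c * z)) _ z :=
      (hu.1.differentiable (by simp) _).hasFDerivAt.comp z h1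
    have n : c.re ^ 2 + c.im ^ 2 = 1 := by
      rw [← one_pow 2, ← hc, ← normSq_eq_norm_sq, normSq_apply]; ring
    simp only [d1, d2, h2.fderiv, eA, ContinuousLinearMap.comp_apply, smul_apply,
      ContinuousLinearMap.id_apply, smul_eq_mul]
    generalize fderiv ℝ u (a + c * z) = D
    rw [show c * 1 = c.re • (1 : ℂ) + c.im • I from Complex.ext (by simp) (by simp),
      show c * I = (-c.im) • (1 : ℂ) + c.re • I from Complex.ext (by simp) (by simp)]
    simp only [map_add, map_smul, ← normSq_eq_norm_sq, normSq_apply, add_re, add_im, smul_re, smul_im,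
      smul_eq_mul]
    linear_combination ((D 1).re ^ 2 + (D 1).im ^ 2 + (D I).re ^ 2 + (D I).im ^ 2) * n
  rwa [e1, e2] at this

lemma exists_norm (a b : ℂ) (R r : ℝ) : ∃ T : ℂ ≃ᵢ ℂ,
    T ⁻¹' (ball a R \ closedBall b r) = ann R r ‖b - a‖ ∧ ∀ Ω l, Low (T ⁻¹' Ω) l ↔ Low Ω l := by
  obtain ⟨c, hc, e⟩ := exists_norm_mul_eq_self (b - a)
  have c0 : c ≠ 0 := by rintro rfl; simp at hc
  set T : ℂ ≃ᵢ ℂ := (rotation ⟨c, by simpa [Submonoid.unitSphere] using hc⟩).toIsometryEquiv.trans
    (IsometryEquiv.addLeft a) with hT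
  have eT : (T : ℂ → ℂ) = fun z => a + c * z := rfl
  refine ⟨T, ?_, fun Ω l => ⟨fun h => Low.iso a hc h, fun h => Low.iso (-(c⁻¹ * a)) (c := c⁻¹)
    (by simp [hc]) ?_⟩⟩
  · rw [preimage_sdiff, T.preimage_ball, T.preimage_closedBall, ann,
      show T.symm a = 0 from T.symm_apply_eq.2 (by simp [eT]),
      show T.symm b = (‖b - a‖ : ℝ) from T.symm_apply_eq.2 (by simp [eT, e])]
  · rw [← preimage_comp, show (T : ℂ → ℂ) ∘ (fun z => -(c⁻¹ * a) + c⁻¹ * z) = id by
      ext z; simp only [eT, Function.comp_apply, id]; field_simp; ring]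
    exact h

theorem ann_rigid {a b a' b' : ℂ} {R r : ℝ} (hr : 0 < r) (h : ‖b - a‖ + r < R)
    (h' : ‖b' - a'‖ + r < R) (hs : ∀ l, Low (ball a R \ closedBall b r) l ↔
      Low (ball a' R \ closedBall b' r) l) :
    ∃ f : ℂ ≃ᵢ ℂ, f '' (ball a R \ closedBall b r) = ball a' R \ closedBall b' r := by
  obtain ⟨T, e, hT⟩ := exists_norm a b R r
  obtain ⟨T', e', hT'⟩ := exists_norm a' b' R r
  have : ∀ l, Low (ann R r ‖b - a‖) l ↔ Low (ann R r ‖b' - a'‖) l := fun l => by
    rw [← e, ← e', hT, hT', hs]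
  have k : ‖b - a‖ = ‖b' - a'‖ := by
    rcases lt_trichotomy ‖b - a‖ ‖b' - a'‖ with k | k | k
    · exact (ann_strict hr (norm_nonneg _) k h' fun l => (this l).1).elim
    · exact k
    · exact (ann_strict hr (norm_nonneg _) k h fun l => (this l).2).elim
  refine ⟨T.symm.trans T', ?_⟩
  change (T' ∘ T.symm) '' _ = _
  rw [image_comp, T.image_symm, e, k, ← e',
    image_preimage_eq _ T'.surjective]

end Pool.Agent.Lib.MP_312682_mp
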