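import Pool.Agent.Lib.MP_312682_mp.Wind

/-! The area formula and the Fourier inequalities for closed curves. -/

open scoped ContDiff ComplexConjugate Topology NNReal
open MeasureTheory Complex Set Filter Metric

set_option linter.unusedSectionVars false

noncomputable section

namespace Pool.Agent.Lib.MP_312682_mp

lemma int_fderiv {u : ℂ → ℂ} (hu : ContDiff ℝ ∞ u) (hc : HasCompactSupport u) (v : ℂ) :
    ∫ z, fderiv ℝ u z v = 0 := by
  have := integral_mul_fderiv_eq_neg_fderiv_mul_of_integrable (μ := vol) (f := fun _ : ℂ => (1 : ℂ))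
    (g := u) (v := v) (by simp)
    (by simpa using ((hu.continuous_fderiv (by simp)).clm_apply
      continuous_const).integrable_of_hasCompactSupport (hc.fderiv_apply ℝ v))
    (by simpa using hu.continuous.integrable_of_hasCompactSupport hc) (by simp)
    fun z _ => hu.differentiable (by simp) z
  simpa using this

/-- twice the signed area density -/
def qq (γ : ℝ → ℂ) (s : ℝ) : ℝ := (conj (γ s) * deriv γ s).im

/-- signed area -/
def sa (γ : ℝ → ℂ) (L : ℝ) : ℝ := (∫ s in (0 : ℝ)..L, qq γ s) / 2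

lemma Cv0.c_qq {γ : ℝ → ℂ} (h : Cv0 γ) : Continuous (qq γ) := by
  have := h.smooth.continuous
  have := h.s1.continuous
  unfold qq; fun_prop

lemma Cv.int_kq {γ : ℝ → ℂ} {L : ℝ} (h : Cv γ L) : ∫ s in (0 : ℝ)..L, kap γ s * qq γ s = L := by
  have c1 := h.c_qq
  have c2 := h.s_kap.continuous
  have := intervalIntegral.integral_eq_sub_of_hasDerivAt (a := 0) (b := L)
    (f := fun s => (deriv γ s * conj (γ s)).re) (f' := fun s => 1 - kap γ s * qq γ s)
    (fun s _ => (reCLM.hasFDerivAt.comp_hasDerivAt s ((h.hd1' s).mul (h.hd0 s).star)).congr_deriv (by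
      have := h.sq_add s
      simp [qq]; linarith)) (Continuous.intervalIntegrable (by fun_prop) _ _)
  rw [h.per0, show deriv γ L = deriv γ 0 by simpa using h.per1 0, sub_self,
    intervalIntegral.integral_sub (by simp) (Continuous.intervalIntegrable (by fun_prop) _ _)] at this
  simp at this
  linarith

lemma Col.area_part {Ω : Set ℂ} {γ : ℝ → ℂ} {L δ0 δ : ℝ} (h : Col Ω γ L δ0) (hδ : 0 < δ)
    (hδ0 : δ < δ0) {P : ℂ → ℂ} (hP : P = cf (push γ δ0 fun z => dstp 1 (δ / 4) (δ / 4) z.im)) :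
    ∫ z in Ω, (2 * P z + z.re * d1 P z + z.im * d2 P z) = (2 * sa γ L : ℝ) := by
  have hw : 0 < δ / 4 := by positivity
  set θ := dstp 1 (δ / 4) (δ / 4) with hθ
  have sθ : ContDiff ℝ ∞ θ := contDiff_dstp _ _ _
  have c0 := sθ.continuous
  have c1 := (contDiff_infty_iff_deriv.1 sθ).2.continuous
  have c2 := h.c_qq
  have c3 := h.s_kap.continuous
  rw [setIntegral_eq_of_subset_of_forall_sdiff_eq_zero h.opn.measurableSet
    (s := Phi γ '' rect L δ) (by
      rintro _ ⟨p, hp, rfl⟩; exact h.inside p (Col.rect_sub hδ0 hp)), (h.ch hδ0).int_eq,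
    integral_congr_ae (g := fun z => (((1 - kap γ z.re * z.im) *
      (2 * θ z.im + deriv θ z.im * (z.im - qq γ z.re)) : ℝ) : ℂ)), integral_complex_ofReal,
    int_rect h.pos.le hδ.le (integrable_rect fun _ _ => Continuous.continuousAt (by fun_prop))]
  · simp only [add_re, ofReal_re, mul_re, I_re, mul_zero, ofReal_im, I_im, mul_one, sub_self,
      add_zero, add_im, mul_im, zero_add]
    have : ∀ s, ∫ x in (0 : ℝ)..δ, (1 - kap γ s * x) * (2 * θ x + deriv θ x * (x - qq γ s)) =
        qq γ s + (∫ x in (0 : ℝ)..δ, θ x) * (1 - kap γ s * qq γ s) := fun s => by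
      have := intervalIntegral.integral_eq_sub_of_hasDerivAt (a := 0) (b := δ)
        (f := fun x => θ x * ((1 - kap γ s * x) * (x - qq γ s)))
        (f' := fun x => (1 - kap γ s * x) * (2 * θ x + deriv θ x * (x - qq γ s)) -
          θ x * (1 - kap γ s * qq γ s))
        (fun x _ => ((sθ.differentiable (by simp) x).hasDerivAt.mul
          (((hd_lin (kap γ s) x).const_sub 1).mul ((hasDerivAt_id' x).sub_const _))).congr_deriv
          (by simp only [Pi.mul_apply]; ring)) (Continuous.intervalIntegrable (by fun_prop) _ _)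
      rw [intervalIntegral.integral_sub, intervalIntegral.integral_mul_const, hθ,
        dstp_zero hw (by linarith), dstp_one hw hw.le] at this
      · linarith
      all_goals exact Continuous.intervalIntegrable (by fun_prop) _ _
    simp_rw [this]
    rw [intervalIntegral.integral_add, intervalIntegral.integral_const_mul,
      intervalIntegral.integral_sub, h.int_kq, sa]
    · simp; ring
    all_goals exact Continuous.intervalIntegrable (by fun_prop) _ _
  · filter_upwards [ae_rect L δ] with z hz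
    have hz' := Col.rect_sub hδ0 hz
    have u : ((deriv γ z.re).re : ℂ) ^ 2 + ((deriv γ z.re).im : ℂ) ^ 2 = 1 := by
      exact_mod_cast h.sq_add z.re
    rw [hP, (h.grad_push sθ hz').1, (h.grad_push sθ hz').2, cf, h.push_Phi (by simp) hz', real_smul,
      Jf]
    simp [Phi, qq]
    left
    linear_combination ((deriv θ z.im : ℝ) : ℂ) * z.im * u
  · rintro z ⟨hz, h1⟩
    have : P =ᶠ[𝓝 z] fun _ => 0 := by
      filter_upwards [h.push_zero' (w := fun z => θ z.im) (a := 0) (b := δ / 4 + δ / 4)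
        (fun p h2 h3 => dstp_zero hw (not_le.1 fun h4 => h3 ⟨h2.1.le, h4⟩).le) (z := z) (by
          rintro ⟨p, hp, e⟩
          exact h1 (e ▸ h.mem_rect ⟨h.box_pos hz hp e, by linarith [hp.2.2]⟩))] with y hy
      simp [hP, cf, hy]
    rw [(d_congr this).1, (d_congr this).2, this.eq_of_nhds]
    simp [d1, d2]

theorem Fam.area {Ω : Set ℂ} {ι : Type} [Fintype ι] {γ : ι → ℝ → ℂ} {L : ι → ℝ} {δ0 : ℝ}
    (h : Fam Ω γ L δ0) : vol.real Ω = ∑ i, sa (γ i) (L i) := by
  have hδ := half_pos h.dpos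
  have hδ0 := half_lt_self h.dpos
  generalize δ0 / 2 = δ at hδ hδ0
  have hw : 0 < δ / 4 := by positivity
  have hm := fun i => (h.col i).mo_dstp (T := 1) (a := δ / 4) zero_le_one hw (by linarith)
  have hf := MO.compl_sum h.opn hm zero_le_one
    (h.sum_le id rfl zero_le_one fun x => (dstp_bd zero_le_one _ _ x).2)
  obtain ⟨K, k1, k2, k3⟩ := h.cover _ hw
  have ft := test_of_compact h.opn (hf.cs h.opn) k1 k2 fun z hz => by
    by_cases h1 : z ∈ Ω
    · obtain ⟨i, p, hp, rfl⟩ := k3 z h1 hz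
      have := h.sum_Phi id rfl (θ := dstp 1 (δ / 4) (δ / 4)) (i := i) (p := p)
        ⟨hp.1, by linarith [hp.2]⟩
      simp only [id] at this
      rw [cf, indicator_of_mem h1, this, dstp_one hw hp.2.le]; simp
    · rw [cf, indicator_of_notMem h1]; simp
  set P := fun i => cf (push (γ i) δ0 fun z => dstp 1 (δ / 4) (δ / 4) z.im) with hP
  set f := cf (Ω.indicator fun z => 1 - ∑ i, push (γ i) δ0
    (fun z => dstp 1 (δ / 4) (δ / 4) z.im) z) with hf'
  have sre : ContDiff ℝ ∞ fun z : ℂ => (z.re : ℂ) := s_ofReal.comp contDiff_re'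
  have sim : ContDiff ℝ ∞ fun z : ℂ => (z.im : ℂ) := s_ofReal.comp contDiff_im'
  have t1 := mul_mem_test sre ft
  have t2 := mul_mem_test sim ft
  have i1 : ∫ z, d1 (fun z => (z.re : ℂ) * f z) z = 0 := int_fderiv t1.1 t1.2.1 1
  have i2 : ∫ z, d2 (fun z => (z.im : ℂ) * f z) z = 0 := int_fderiv t2.1 t2.2.1 I
  have fin : IsFiniteMeasure (vol.restrict Ω) := isFiniteMeasure_restrict.2 h.bdd.measure_lt_top.ne
  obtain ⟨R, hR, hR'⟩ := h.bdd.exists_pos_norm_le
  have hi : ∀ i, Integrable (fun z => 2 * P i z + z.re * d1 (P i) z + z.im * d2 (P i) z)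
      (vol.restrict Ω) := fun i => by
    refine Integrable.of_bound ((((hm i).bs h.opn).1.const_mul 2).restrict.add
      (sre.continuous.measurable.mul (measurable_fderiv_apply_const ℝ _ _)).aestronglyMeasurable
      |>.add (sim.continuous.measurable.mul
        (measurable_fderiv_apply_const ℝ _ _)).aestronglyMeasurable)
      (2 + R * (2 * (1 * (KT / (δ / 4))))) ?_
    filter_upwards [ae_restrict_mem h.opn.measurableSet] with z hz
    have a1 := (abs_re_le_norm z).trans (hR' z hz)
    have a2 := (abs_im_le_norm z).trans (hR' z hz)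
    have a3 := (hm i).grad z hz
    have a4 := (hm i).bd z
    refine norm_add₃_le.trans ?_
    simp only [norm_mul, Complex.norm_ofNat, norm_real, Real.norm_eq_abs, hP, cf,
      abs_of_nonneg a4.1]
    calc _ ≤ 2 * 1 + R * ‖d1 (P i) z‖ + R * ‖d2 (P i) z‖ := by gcongr; exact a4.2
      _ ≤ _ := by rw [add_assoc, ← mul_add, mul_one]; gcongr
  have key : ∫ z, (d1 (fun z => (z.re : ℂ) * f z) z + d2 (fun z => (z.im : ℂ) * f z) z) =
      ∫ z in Ω, (2 - ∑ i, (2 * P i z + z.re * d1 (P i) z + z.im * d2 (P i) z)) := by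
    rw [← setIntegral_eq_integral_of_forall_compl_eq_zero (s := Ω) fun z hz => by
      have a := congrArg (· 1) (Dv_eq_zero 0 fun h' => hz (t1.2.2 h'))
      have b := congrArg (· 2) (Dv_eq_zero 0 fun h' => hz (t2.2.2 h'))
      simp only [Dv_1, Dv_2] at a b
      simp [a, b]]
    refine setIntegral_congr_fun h.opn.measurableSet fun z hz => ?_
    have e : f =ᶠ[𝓝 z] fun z => 1 - ∑ i, P i z := by
      filter_upwards [h.opn.mem_nhds hz] with y hy
      simp [hf', hP, cf, hy]
    have e2 : fderiv ℝ (fun z => (1 : ℂ) - ∑ i, P i z) z = -∑ i, fderiv ℝ (P i) z := by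
      rw [fderiv_const_sub, fderiv_fun_sum fun i _ => (hm i).diff h.opn hz]
    have e3 : d1 (fun z : ℂ => (z.re : ℂ)) z = 1 :=
      d1_eq (sre.differentiable (by simp) z) (by simpa using (hasDerivAt_id z.re).ofReal_comp)
    have e4 : d2 (fun z : ℂ => (z.im : ℂ)) z = 1 :=
      d2_eq (sim.differentiable (by simp) z) (by simpa using (hasDerivAt_id z.im).ofReal_comp)
    rw [d1_mul (sre.differentiable (by simp) z) (ft.1.differentiable (by simp) z),
      d2_mul (sim.differentiable (by simp) z) (ft.1.differentiable (by simp) z), e3, e4,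
      (d_congr e).1, (d_congr e).2, e.eq_of_nhds, d1, d2, e2]
    simp only [neg_apply, sum_apply, Finset.sum_add_distrib, ← Finset.mul_sum, d1, d2]
    ring
  rw [integral_add ((continuous_d1 t1.1).integrable_of_hasCompactSupport (compact_d1 t1.2.1))
    ((continuous_d2 t2.1).integrable_of_hasCompactSupport (compact_d2 t2.2.1)), i1, i2,
    integral_sub (integrable_const _) (integrable_finsetSum _ fun i _ => hi i),
    integral_finsetSum _ fun i _ => hi i] at key
  simp_rw [fun i => (h.col i).area_part hδ hδ0 (P := P i) rfl] at key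
  have := congrArg re key
  simp [← Finset.mul_sum] at this
  linarith

namespace Cv

variable {γ : ℝ → ℂ} {L : ℝ} (h : Cv γ L)
include h

omit h in
lemma coef_deriv (hL : 0 < L) {f f' : ℝ → ℂ} (hf : ∀ s, HasDerivAt f (f' s) s) (c : Continuous f')
    (hp : f L = f 0) (n : ℤ) : ∫ s in (0 : ℝ)..L, conj (ex L n s) * f' s =
      I * xi L n * ∫ s in (0 : ℝ)..L, conj (ex L n s) * f s := by
  have cf : Continuous f := continuous_iff_continuousAt.2 fun s => (hf s).continuousAt
  have ce := continuous_ex L n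
  have := intervalIntegral.integral_eq_sub_of_hasDerivAt (a := 0) (b := L)
    (f := fun s => conj (ex L n s) * f s)
    (f' := fun s => conj (ex L n s) * f' s - I * xi L n * (conj (ex L n s) * f s))
    (fun s _ => ((hd_ex L n s).star.mul (hf s)).congr_deriv (by simp [xi]; ring))
    (Continuous.intervalIntegrable (by fun_prop) _ _)
  rw [hp, show ex L n L = ex L n 0 by simpa using ex_periodic hL n 0, sub_self,
    intervalIntegral.integral_sub, intervalIntegral.integral_const_mul, sub_eq_zero] at this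
  · exact this
  all_goals exact Continuous.intervalIntegrable (by fun_prop) _ _

omit h in
lemma pars (hL : 0 < L) {f : ℝ → ℂ} (c : Continuous f) :
    HasSum (fun n : ℤ => ‖∫ s in (0 : ℝ)..L, conj (ex L n s) * f s‖ ^ 2)
      (∫ s in (0 : ℝ)..L, ‖f s‖ ^ 2) := by
  simp_rw [intervalIntegral.integral_of_le hL.le]
  obtain ⟨C, hC⟩ := isCompact_Icc.exists_bound_of_continuousOn (s := Icc 0 L) c.continuousOn
  refine parseval1 hL (MemLp.of_bound c.aestronglyMeasurable C ?_)
  filter_upwards [ae_restrict_mem measurableSet_Ioc] with y hy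
  exact hC y (Ioc_subset_Icc_self hy)

theorem fourier {a b c : ℝ}
    (hs : ∀ n : ℤ, 0 ≤ (a * xi L n ^ 2 + b * xi L n) * (a * xi L n ^ 2 + b * xi L n - 2 * c)) :
    0 ≤ a ^ 2 * (∫ s in (0 : ℝ)..L, kap γ s ^ 2) + b ^ 2 * L +
      2 * a * b * (∫ s in (0 : ℝ)..L, kap γ s) - 2 * a * c * L - 4 * b * c * sa γ L := by
  have c0 := h.smooth.continuous
  have c1 := h.s1.continuous
  have c2 := h.s2.continuous
  have c3 := h.s_kap.continuous
  have c4 := h.c_qq
  have p0 := pars h.pos c0
  have p1 := pars h.pos (f := fun s => a * deriv (deriv γ) s + b * (I * deriv γ s) + c * γ s)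
    (by fun_prop)
  have k := hasSum_le (fun n => ?_) (p0.mul_left (c ^ 2)) p1
  · have e : ∀ s, ‖a * deriv (deriv γ) s + b * (I * deriv γ s) + c * γ s‖ ^ 2 =
        a ^ 2 * kap γ s ^ 2 + b ^ 2 + 2 * a * b * kap γ s - 2 * a * c * (kap γ s * qq γ s) -
          2 * b * c * qq γ s + c ^ 2 * ‖γ s‖ ^ 2 := fun s => by
      rw [h.dd, ← normSq_eq_norm_sq, ← normSq_eq_norm_sq, normSq_apply, normSq_apply, qq]
      simp
      linear_combination (a * kap γ s + b) ^ 2 * h.sq_add s
    simp_rw [e] at k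
    rw [intervalIntegral.integral_add, intervalIntegral.integral_sub, intervalIntegral.integral_sub,
      intervalIntegral.integral_add, intervalIntegral.integral_add] at k
    · simp only [intervalIntegral.integral_const_mul, h.int_kq, intervalIntegral.integral_const,
        sub_zero, smul_eq_mul] at k
      rw [sa]; linarith
    all_goals exact Continuous.intervalIntegrable (by fun_prop) _ _
  · have ce := continuous_ex L n
    have e1 := coef_deriv h.pos h.hd0 c1 h.per0 n
    have e2 := coef_deriv h.pos h.hd1 c2 (by simpa using h.per1 0) n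
    have e3 : ∫ s in (0 : ℝ)..L, conj (ex L n s) *
        (a * deriv (deriv γ) s + b * (I * deriv γ s) + c * γ s) =
        (c - (a * xi L n ^ 2 + b * xi L n) : ℝ) * ∫ s in (0 : ℝ)..L, conj (ex L n s) * γ s := by
      have : ∀ s, conj (ex L n s) * (a * deriv (deriv γ) s + b * (I * deriv γ s) + c * γ s) =
          a * (conj (ex L n s) * deriv (deriv γ) s) + b * I * (conj (ex L n s) * deriv γ s) +
            c * (conj (ex L n s) * γ s) := fun s => by ring
      simp_rw [this]
      rw [intervalIntegral.integral_add, intervalIntegral.integral_add]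
      · simp only [intervalIntegral.integral_const_mul, e2, e1]
        push_cast; ring_nf; simp only [I_sq]; ring
      all_goals exact Continuous.intervalIntegrable (by fun_prop) _ _
    rw [e3, norm_mul, mul_pow, norm_real, Real.norm_eq_abs, sq_abs]
    refine mul_le_mul_of_nonneg_right ?_ (sq_nonneg _)
    nlinarith [hs n]

lemma xi_eq {ρ : ℝ} (hρ : L = 2 * Real.pi * ρ) (n : ℤ) : ρ * xi L n = n := by
  have := h.pos
  have : ρ ≠ 0 := by rintro rfl; simp [hρ] at this
  rw [xi, hρ]; field_simp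

lemma hurwitz {ρ : ℝ} (hρ : L = 2 * Real.pi * ρ) : sa γ L ≤ Real.pi * ρ ^ 2 := by
  have hL := h.pos
  have r0 : 0 < ρ := by rw [hρ] at hL; exact (pos_iff_pos_of_mul_pos hL).1 (by positivity)
  have := h.fourier (a := 0) (b := 2 * ρ) (c := 1) fun n => by
    rw [zero_mul, zero_add, mul_assoc 2, h.xi_eq hρ]
    have : (0 : ℤ) ≤ 2 * n * (2 * n - 2 * 1) := by
      rcases le_or_gt n 0 with h | h <;> nlinarith
    exact_mod_cast this
  rw [hρ] at this ⊢
  nlinarith

lemma inner_ineq {ρ : ℝ} (hρ : L = 2 * Real.pi * ρ)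
    (hk : ∫ s in (0 : ℝ)..L, kap γ s = -(2 * Real.pi)) (j : ℕ) :
    0 ≤ ρ ^ 3 * ((∫ s in (0 : ℝ)..L, kap γ s ^ 2) / (2 * Real.pi)) +
      ρ ^ 2 * (j ^ 2 - 3 * j - 1) + j * (j + 1) * (-sa γ L / Real.pi) := by
  have hL := h.pos
  have r0 : 0 < ρ := by rw [hρ] at hL; exact (pos_iff_pos_of_mul_pos hL).1 (by positivity)
  have := h.fourier (a := ρ ^ 2) (b := j * ρ) (c := (j + 1) / 2) fun n => by
    rw [← mul_pow, mul_assoc (j : ℝ), h.xi_eq hρ, mul_div_cancel₀ _ two_ne_zero]
    have : (0 : ℤ) ≤ (n ^ 2 + j * n) * (n ^ 2 + j * n - (j + 1)) := by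
      have e : (n ^ 2 + j * n) * (n ^ 2 + j * n - (j + 1)) =
          (n * (n - 1)) * ((n + j) * (n + j + 1)) := by ring
      rw [e]
      apply mul_nonneg
      · rcases le_or_gt n 0 with h | h <;> nlinarith
      · rcases le_or_gt 0 (n + j) with h | h <;> nlinarith
    exact_mod_cast this
  rw [hk] at this
  generalize (∫ s in (0 : ℝ)..L, kap γ s ^ 2) = E at this ⊢
  generalize sa γ L = A at this ⊢
  rw [hρ] at this
  have p := Real.pi_pos
  refine nonneg_of_mul_nonneg_right (a := 2 * Real.pi * ρ) (le_of_le_of_eq this ?_) (by positivity)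
  field_simp; ring

lemma cs_eq {ρ m : ℝ} (hρ : L = 2 * Real.pi * ρ) (hm : m ^ 2 = 1)
    (hk : ∫ s in (0 : ℝ)..L, kap γ s = m * (2 * Real.pi)) :
    ∫ s in (0 : ℝ)..L, (kap γ s - m / ρ) ^ 2 =
      (∫ s in (0 : ℝ)..L, kap γ s ^ 2) - 2 * Real.pi / ρ := by
  have hL := h.pos
  have : ρ ≠ 0 := by rintro rfl; simp [hρ] at hL
  have c3 := h.s_kap.continuous
  simp_rw [sub_sq]
  rw [intervalIntegral.integral_add, intervalIntegral.integral_sub,
    intervalIntegral.integral_mul_const, intervalIntegral.integral_const_mul, hk,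
    intervalIntegral.integral_const, sub_zero, smul_eq_mul, div_pow, hm]
  · nth_rw 2 [hρ]
    field_simp
    linear_combination (-2 * Real.pi * 2) * hm
  all_goals exact Continuous.intervalIntegrable (by fun_prop) _ _

lemma energy_ge {ρ m : ℝ} (hρ : L = 2 * Real.pi * ρ) (hm : m ^ 2 = 1)
    (hk : ∫ s in (0 : ℝ)..L, kap γ s = m * (2 * Real.pi)) :
    2 * Real.pi / ρ ≤ ∫ s in (0 : ℝ)..L, kap γ s ^ 2 := by
  rw [← sub_nonneg, ← h.cs_eq hρ hm hk]
  exact intervalIntegral.integral_nonneg h.pos.le fun _ _ => sq_nonneg _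

/-- equality case: a round circle -/
lemma circle {ρ m : ℝ} (hρ : L = 2 * Real.pi * ρ) (hm : m ^ 2 = 1)
    (hk : ∫ s in (0 : ℝ)..L, kap γ s = m * (2 * Real.pi))
    (he : ∫ s in (0 : ℝ)..L, kap γ s ^ 2 = 2 * Real.pi / ρ) :
    ∃ c : ℂ, range γ = sphere c ρ ∧ ∀ s, I * deriv γ s = (m / ρ : ℝ) * (c - γ s) := by
  have hL := h.pos
  have r0 : 0 < ρ := by rw [hρ] at hL; exact (pos_iff_pos_of_mul_pos hL).1 (by positivity)
  have c3 := h.s_kap.continuous
  have m0 : m ≠ 0 := by rintro rfl; simp at hm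
  have k0 : ∀ s, kap γ s = m / ρ := by
    have h1 := h.cs_eq hρ hm hk
    rw [he, sub_self] at h1
    by_contra h2
    push Not at h2
    obtain ⟨s, hs⟩ := h2
    obtain ⟨t, ht, e⟩ := Function.Periodic.exists_mem_Ico₀ h.per_kap hL s
    refine (intervalIntegral.integral_pos hL (by fun_prop) (fun _ _ => sq_nonneg _)
      ⟨t, Ico_subset_Icc_self ht, ?_⟩).ne' h1
    rw [← e]; exact pow_pos (sub_ne_zero.2 hs |> abs_pos.2) 2 |>.trans_eq (sq_abs _)
  have hκ : ((m / ρ : ℝ) : ℂ) ≠ 0 := by exact_mod_cast div_ne_zero m0 r0.ne'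
  have d1 : ∀ s, HasDerivAt (fun s => (m / ρ : ℝ) * γ s + I * deriv γ s) 0 s := fun s =>
    (((h.hd0 s).const_mul _).add ((h.hd1' s).const_mul I)).congr_deriv (by
      rw [k0]; ring_nf; simp only [I_sq]; ring)
  have d2 : ∀ s, HasDerivAt (fun s => deriv γ s * exp (-(m / ρ * s : ℝ) * I)) 0 s := fun s =>
    ((h.hd1' s).mul ((hd_lin (m / ρ) s).ofReal_comp.neg.mul_const I).cexp).congr_deriv (by
      rw [k0]; simp only [Pi.neg_apply]; ring)
  have e1 := is_const_of_deriv_eq_zero (fun t => (d1 t).differentiableAt) fun t => (d1 t).deriv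
  have e2 := is_const_of_deriv_eq_zero (fun t => (d2 t).differentiableAt) fun t => (d2 t).deriv
  set c := γ 0 + I * deriv γ 0 / (m / ρ : ℝ) with hc
  have e3 : ∀ s, I * deriv γ s = (m / ρ : ℝ) * (c - γ s) := fun s => by
    have := e1 s 0
    rw [hc]; field_simp; linear_combination this
  have nκ : ‖((m / ρ : ℝ) : ℂ)‖ = ρ⁻¹ := by
    rw [norm_real, Real.norm_eq_abs, abs_div, abs_of_pos r0, (sq_eq_sq_iff_abs_eq_abs m 1).1 (by simpa using hm), abs_one, one_div]
  have e4 : ∀ s, ‖γ s - c‖ = ρ := fun s => by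
    have := congrArg norm (e3 s)
    rw [norm_mul, norm_mul, nκ, norm_I, h.unit, norm_sub_rev] at this
    field_simp at this; linarith
  refine ⟨c, Subset.antisymm (by rintro _ ⟨s, rfl⟩; simpa using e4 s) fun w hw => ?_, e3⟩
  have n0 : γ 0 - c ≠ 0 := norm_ne_zero_iff.1 (by rw [e4]; exact r0.ne')
  obtain ⟨θ, hθ⟩ := (norm_eq_one_iff ((w - c) / (γ 0 - c))).1 (by
    rw [norm_div, e4, mem_sphere_iff_norm.1 hw, div_self r0.ne'])
  refine ⟨θ / (m / ρ), ?_⟩
  have a := e2 (θ / (m / ρ)) 0
  rw [mul_div_cancel₀ _ (div_ne_zero m0 r0.ne')] at a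
  simp only [mul_zero, ofReal_zero, neg_zero, zero_mul, exp_zero, mul_one, neg_mul, exp_neg] at a
  have b := e3 (θ / (m / ρ))
  have b0 := e3 0
  rw [eq_div_iff n0] at hθ
  rw [mul_inv_eq_iff_eq_mul₀ (exp_ne_zero _)] at a
  apply mul_left_cancel₀ hκ
  linear_combination b - exp (θ * I) * b0 - I * a + ((m / ρ : ℝ) : ℂ) * hθ

end Cv

end Pool.Agent.Lib.MP_312682_mp
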