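import Pool.Agent.Lib.MP_312682_mp.Cyl4

/-! Transplantation of `L²` sections along a chart. -/

open scoped InnerProductSpace ENNReal ContDiff ComplexConjugate Topology
open MeasureTheory Complex Set Filter ContinuousLinearMap

set_option linter.unusedSectionVars false

noncomputable section

namespace Pool.Agent.Lib.MP_312682_mp

abbrev vol : Measure ℂ := volume

structure Ch (L δ : ℝ) (Φ : ℂ → ℂ) (J : ℂ → ℝ) (O : ℂ → Mat) : Prop where
  dΦ : Differentiable ℝ Φ
  inj : InjOn Φ (rect L δ)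
  det : ∀ z ∈ rect L δ, (fderiv ℝ Φ z).det = J z
  cJ : Continuous J
  bJ : ∀ z ∈ rect L δ, 1 / 2 ≤ J z ∧ J z ≤ 2
  cO : Continuous O
  uO : ∀ z, star (O z) * O z = 1
  eO : ∀ z, O z * e00 = e00 * O z

lemma Bs_ind {C : Set ℂ} (hC : MeasurableSet C) : Bs vol (C.indicator fun _ => (1 : ℂ)) :=
  ⟨aestronglyMeasurable_const.indicator hC, 1, ae_of_all _ fun z => by
    by_cases h : z ∈ C <;> simp [h]⟩

namespace Ch

variable {L δ : ℝ} {Φ : ℂ → ℂ} {J : ℂ → ℝ} {O : ℂ → Mat} (h : Ch L δ Φ J O)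
include h

lemma mC : MeasurableSet (Φ '' rect L δ) :=
  (measurableSet_rect L δ).image_of_continuousOn_injOn h.dΦ.continuous.continuousOn h.inj

lemma int_eq {E : Type*} [NormedAddCommGroup E] [NormedSpace ℝ E] (g : ℂ → E) :
    ∫ z in Φ '' rect L δ, g z = ∫ z, J z • g (Φ z) ∂nu L δ := by
  rw [integral_image_eq_integral_abs_det_fderiv_smul volume (measurableSet_rect L δ)
    (fun z _ => (h.dΦ z).hasFDerivAt.hasFDerivWithinAt) h.inj]
  refine integral_congr_ae ?_
  filter_upwards [ae_rect L δ] with z hz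
  rw [h.det z hz, abs_of_pos (by linarith [(h.bJ z hz).1])]

lemma mp : MeasurePreserving Φ ((nu L δ).withDensity fun z => ENNReal.ofReal (J z))
    (vol.restrict (Φ '' rect L δ)) := by
  refine ⟨h.dΦ.continuous.measurable, ?_⟩
  rw [← map_withDensity_abs_det_fderiv_eq_addHaar volume (measurableSet_rect L δ).nullMeasurableSet
    (fun z _ => (h.dΦ z).hasFDerivAt.hasFDerivWithinAt) h.inj]
  congr 1
  refine withDensity_congr_ae ?_
  filter_upwards [ae_rect L δ] with z hz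
  rw [h.det z hz, abs_of_pos (by linarith [(h.bJ z hz).1])]

lemma le1 : nu L δ ≤ (2 : ℝ≥0∞) • (nu L δ).withDensity fun z => ENNReal.ofReal (J z) := by
  rw [← withDensity_smul' _ _ (by norm_num)]
  nth_rw 1 [← withDensity_one (μ := nu L δ)]
  refine withDensity_mono ?_
  filter_upwards [ae_rect L δ] with z hz
  rw [Pi.smul_apply, smul_eq_mul, ← ENNReal.ofReal_ofNat, ← ENNReal.ofReal_mul (by norm_num),
    Pi.one_apply, ENNReal.one_le_ofReal]
  linarith [(h.bJ z hz).1]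

lemma le2 : ((nu L δ).withDensity fun z => ENNReal.ofReal (J z)) ≤ (2 : ℝ≥0∞) • nu L δ := by
  rw [← withDensity_const]
  refine withDensity_mono ?_
  filter_upwards [ae_rect L δ] with z hz
  rw [← ENNReal.ofReal_ofNat]
  exact ENNReal.ofReal_le_ofReal (h.bJ z hz).2

lemma qmp : Measure.QuasiMeasurePreserving Φ (nu L δ) vol :=
  (h.mp.quasiMeasurePreserving.mono_left (Measure.absolutelyContinuous_of_le_smul h.le1)).mono_right
    Measure.restrict_le_self.absolutelyContinuous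

lemma ae_pull {p : ℂ → Prop} (hp : ∀ᵐ z ∂vol, p z) : ∀ᵐ z ∂nu L δ, p (Φ z) := h.qmp.ae hp

lemma norm_O (z : ℂ) (v : E3) : ‖act (O z) v‖ = ‖v‖ := by
  have : ⟪act (O z) v, act (O z) v⟫_ℂ = ⟪v, v⟫_ℂ := by
    rw [← adjoint_inner_right, ← star_eq_adjoint, ← act_star, ← mul_apply_eq_comp, ← act_mul, h.uO,
      act_one, one_apply_eq_self]
  rw [inner_self_eq_norm_sq_to_K, inner_self_eq_norm_sq_to_K] at this
  exact (pow_left_inj₀ (norm_nonneg _) (norm_nonneg _) two_ne_zero).1 (by exact_mod_cast this)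

lemma bdO : Bd (nu L δ) fun z => (√(J z) : ℂ) • O z :=
  Bd_rect fun z _ => Continuous.continuousAt (by have := h.cJ; have := h.cO; fun_prop)

lemma memLp0 {w : ℂ → E3} (hw : MemLp w 2 vol) : MemLp (fun z => w (Φ z)) 2 (nu L δ) :=
  ((hw.restrict _).comp_measurePreserving h.mp).of_measure_le_smul (by norm_num) h.le1

lemma memLp (w : L2 vol) : MemLp (fun z => (√(J z) : ℂ) • act (O z) (w (Φ z))) 2 (nu L δ) := by
  have h1 := h.memLp0 (Lp.memLp w)
  refine (h.bdO.memLp (h1.toLp _)).ae_eq ?_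
  filter_upwards [h1.coeFn_toLp] with z hz
  rw [hz, act_smul, smul_apply]

lemma inner_pt {z : ℂ} (hz : z ∈ rect L δ) (a b : E3) :
    ⟪(√(J z) : ℂ) • act (O z) a, (√(J z) : ℂ) • act (O z) b⟫_ℂ = J z • ⟪a, b⟫_ℂ := by
  rw [inner_smul_left, inner_smul_right, ← adjoint_inner_right, ← star_eq_adjoint, ← act_star,
    ← mul_apply_eq_comp, ← act_mul, h.uO, act_one, one_apply_eq_self, conj_ofReal, ← mul_assoc,
    ← ofReal_mul, Real.mul_self_sqrt (by linarith [(h.bJ z hz).1]), real_smul]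

lemma inner_toLp (w w' : L2 vol) : ⟪(h.memLp w).toLp _, (h.memLp w').toLp _⟫_ℂ =
    ⟪w, sm vol ((Φ '' rect L δ).indicator fun _ => 1) w'⟫_ℂ := by
  rw [L2.inner_def, L2.inner_def]
  have : ∫ z, ⟪w z, sm vol ((Φ '' rect L δ).indicator fun _ => 1) w' z⟫_ℂ =
      ∫ z in Φ '' rect L δ, ⟪w z, w' z⟫_ℂ := by
    rw [← integral_indicator h.mC]
    refine integral_congr_ae ?_
    filter_upwards [sm_coe (Bs_ind h.mC) w'] with z hz
    rw [hz]
    by_cases hc : z ∈ Φ '' rect L δ <;> simp [hc]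
  rw [this, h.int_eq]
  refine integral_congr_ae ?_
  filter_upwards [(h.memLp w).coeFn_toLp, (h.memLp w').coeFn_toLp, ae_rect L δ] with z e1 e2 hz
  rw [e1, e2, h.inner_pt hz]

lemma nInd : ‖sm vol ((Φ '' rect L δ).indicator fun _ => 1)‖ ≤ 1 :=
  sm_norm_le zero_le_one (ae_of_all _ fun z => by by_cases hc : z ∈ Φ '' rect L δ <;> simp [hc])

/-- the transplantation operator -/
def Θ : L2 vol →L[ℂ] L2 (nu L δ) :=
  LinearMap.mkContinuous
    { toFun := fun w => (h.memLp w).toLp _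
      map_add' := fun f g => by
        rw [← MemLp.toLp_add]
        refine MemLp.toLp_congr _ _ ?_
        filter_upwards [h.ae_pull (Lp.coeFn_add f g)] with z hz
        rw [hz, Pi.add_apply, map_add, Pi.add_apply, smul_add]
      map_smul' := fun c f => by
        rw [RingHom.id_apply, ← MemLp.toLp_const_smul]
        refine MemLp.toLp_congr _ _ ?_
        filter_upwards [h.ae_pull (Lp.coeFn_smul c f)] with z hz
        rw [hz, Pi.smul_apply, map_smul, Pi.smul_apply, smul_comm] }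
    1 fun w => by
      have h1 := h.inner_toLp w w
      have h2 := norm_inner_le_norm (𝕜 := ℂ) w (sm vol ((Φ '' rect L δ).indicator fun _ => 1) w)
      rw [← h1, inner_self_eq_norm_sq_to_K, norm_pow, RCLike.norm_ofReal, abs_norm] at h2
      have h3 := (sm vol ((Φ '' rect L δ).indicator fun _ => 1)).le_of_opNorm_le h.nInd w
      refine (pow_le_pow_iff_left₀ (norm_nonneg _) (by positivity) two_ne_zero).1 (h2.trans ?_)
      rw [one_mul] at h3 ⊢
      rw [sq]
      gcongr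

lemma Θ_coe (w : L2 vol) :
    h.Θ w =ᵐ[nu L δ] fun z => (√(J z) : ℂ) • act (O z) (w (Φ z)) := (h.memLp w).coeFn_toLp

lemma norm_Θ : ‖h.Θ‖ ≤ 1 := LinearMap.mkContinuous_norm_le _ zero_le_one _

lemma adj_Θ : adjoint h.Θ ∘L h.Θ = sm vol ((Φ '' rect L δ).indicator fun _ => 1) := by
  ext1 w'
  refine ext_inner_left ℂ fun w => ?_
  rw [comp_apply, adjoint_inner_right]
  exact h.inner_toLp w w'

lemma Θ_mm {M M' : ℂ → Mat} (hM : Bd vol M) (hM' : Bd (nu L δ) M')
    (e : ∀ z ∈ rect L δ, O z * M (Φ z) = M' z * O z) :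
    h.Θ ∘L mm vol M = mm (nu L δ) M' ∘L h.Θ := by
  ext1 w
  ext1
  filter_upwards [h.Θ_coe (mm vol M w), h.ae_pull (mm_coe hM w), mm_coe hM' (h.Θ w), h.Θ_coe w,
    ae_rect L δ] with z e1 e2 e3 e4 hz
  rw [comp_apply, comp_apply, e1, e2, e3, e4, map_smul, ← mul_apply_eq_comp, ← mul_apply_eq_comp,
    ← act_mul, ← act_mul, e z hz]

lemma Θ_sm {f f' : ℂ → ℂ} (hf : Bs vol f) (hf' : Bs (nu L δ) f')
    (e : ∀ z ∈ rect L δ, f (Φ z) = f' z) : h.Θ ∘L sm vol f = sm (nu L δ) f' ∘L h.Θ :=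
  h.Θ_mm hf.bd hf'.bd fun z hz => by rw [e z hz]; simp

lemma Θ_p0 : p0 (nu L δ) ∘L h.Θ = h.Θ ∘L p0 vol :=
  (h.Θ_mm (Bd.const _) (Bd.const _) fun z _ => h.eO z).symm

lemma Θ_ind : h.Θ ∘L sm vol ((Φ '' rect L δ).indicator fun _ => 1) = h.Θ := by
  rw [h.Θ_sm (Bs_ind h.mC) (Bs.const 1) fun z hz => by simp [mem_image_of_mem Φ hz], sm_one]
  rfl

lemma Θ_surj (v : L2 (nu L δ)) : ∃ w, h.Θ w = v := by
  have hB : Bd (nu L δ) fun z => ((√(J z) : ℂ))⁻¹ • star (O z) := by
    refine Bd.of_entries (fun i j => Measurable.aestronglyMeasurable ?_) fun i j => ?_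
    · have c1 : Continuous fun z => (√(J z) : ℂ) := by have := h.cJ; fun_prop
      have c2 : Continuous fun z => star (O z) i j := by have := h.cO; fun_prop
      exact c1.measurable.inv.mul c2.measurable
    · obtain ⟨C, hC⟩ := bound_rect (L := L) (δ := δ) (f := fun z => star (O z) i j)
        fun z _ => Continuous.continuousAt (by have := h.cO; fun_prop)
      refine ⟨2 * C, ?_⟩
      filter_upwards [hC, ae_rect L δ] with z e hz
      rw [Matrix.smul_apply, norm_smul, norm_inv, norm_real, Real.norm_of_nonneg (Real.sqrt_nonneg _)]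
      have : 1 / 2 ≤ √(J z) := Real.le_sqrt_of_sq_le (by linarith [(h.bJ z hz).1])
      have : (√(J z))⁻¹ ≤ 2 := by rw [inv_le_comm₀ (by linarith) two_pos]; linarith
      gcongr
  set g := mm (nu L δ) (fun z => ((√(J z) : ℂ))⁻¹ • star (O z)) v
  have emb := h.dΦ.continuous.continuousOn.measurableEmbedding (measurableSet_rect L δ) h.inj
  set w := Function.extend ((rect L δ).domRestrict Φ) (fun p => g p) 0
  have mw : Measurable w := emb.measurable_extend
    ((Lp.stronglyMeasurable g).measurable.comp measurable_subtype_coe) measurable_zero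
  have ew : ∀ z ∈ rect L δ, w (Φ z) = g z := fun z hz =>
    emb.injective.extend_apply (fun p => g p) 0 ⟨z, hz⟩
  have m1 : MemLp w 2 (vol.restrict (Φ '' rect L δ)) := by
    rw [← h.mp.map_eq, memLp_map_measure_iff mw.aestronglyMeasurable h.mp.aemeasurable]
    refine MemLp.of_measure_le_smul (by norm_num) h.le2 ((Lp.memLp g).ae_eq ?_)
    filter_upwards [ae_rect L δ] with z hz
    exact (ew z hz).symm
  have m2 := (memLp_indicator_iff_restrict h.mC).2 m1
  refine ⟨m2.toLp _, ?_⟩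
  ext1
  filter_upwards [h.Θ_coe (m2.toLp _), h.ae_pull m2.coeFn_toLp, mm_coe hB v, ae_rect L δ]
    with z e1 e2 e3 hz
  have hJ : (√(J z) : ℂ) ≠ 0 := by
    exact_mod_cast (Real.sqrt_pos.2 (by linarith [(h.bJ z hz).1])).ne'
  rw [e1, e2, indicator_of_mem (mem_image_of_mem Φ hz), ew z hz, e3, act_smul, smul_apply, map_smul,
    smul_smul, mul_inv_cancel₀ hJ, one_smul, ← mul_apply_eq_comp, ← act_mul,
    mul_eq_one_comm.1 (h.uO z), act_one, one_apply_eq_self]

lemma Θ_adj : h.Θ ∘L adjoint h.Θ = 1 := by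
  ext1 v
  obtain ⟨w, rfl⟩ := h.Θ_surj v
  rw [comp_apply, ← comp_apply (adjoint h.Θ), h.adj_Θ, ← comp_apply, h.Θ_ind, one_apply_eq_self]

lemma Θ_tl {w : ℂ → E3} (hw : MemLp w 2 vol) :
    h.Θ (tl vol w) =ᵐ[nu L δ] fun z => (√(J z) : ℂ) • act (O z) (w (Φ z)) := by
  filter_upwards [h.Θ_coe (tl vol w), h.ae_pull (tl_coe hw)] with z e1 e2
  rw [e1, e2]

end Ch

end Pool.Agent.Lib.MP_312682_mp
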