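import Pool.Agent.Lib.MP_312682_mp.Trans

/-! Normal coordinates along a closed curve. -/

open scoped InnerProductSpace ENNReal ContDiff ComplexConjugate Topology
open MeasureTheory Complex Set Filter ContinuousLinearMap

set_option linter.unusedSectionVars false

noncomputable section

namespace Pool.Agent.Lib.MP_312682_mp

/-- unit speed curve -/
structure Cv0 (γ : ℝ → ℂ) : Prop where
  smooth : ContDiff ℝ ∞ γ
  unit : ∀ s, ‖deriv γ s‖ = 1

/-- closed unit speed curve -/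
structure Cv (γ : ℝ → ℂ) (L : ℝ) : Prop extends Cv0 γ where
  pos : 0 < L
  per : ∀ s, γ (s + L) = γ s

def kap (γ : ℝ → ℂ) (s : ℝ) : ℝ := (deriv (deriv γ) s * conj (deriv γ s)).im
def Phi (γ : ℝ → ℂ) (z : ℂ) : ℂ := γ z.re + z.im * (I * deriv γ z.re)
def Om (γ : ℝ → ℂ) (z : ℂ) : Mat :=
  !![1, 0, 0; 0, (deriv γ z.re).re, (deriv γ z.re).im; 0, -(deriv γ z.re).im, (deriv γ z.re).re]

lemma fderiv_eq_d (u : ℂ → ℂ) (w v : ℂ) : fderiv ℝ u w v = v.re * d1 u w + v.im * d2 u w := by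
  conv_lhs => rw [show v = v.re • (1 : ℂ) + v.im • I by simp]
  rw [map_add, map_smul, map_smul, real_smul, real_smul, d1, d2]

lemma det_eq_d (A : ℂ →L[ℝ] ℂ) : A.det = (A 1).re * (A I).im - (A I).re * (A 1).im := by
  rw [ContinuousLinearMap.det, ← LinearMap.det_toMatrix basisOneI, Matrix.det_fin_two]
  simp [LinearMap.toMatrix_apply]

lemma per_deriv {E : Type*} [NormedAddCommGroup E] [NormedSpace ℝ E] {f : ℝ → E} {L : ℝ}
    (h : ∀ s, f (s + L) = f s) (s : ℝ) : deriv f (s + L) = deriv f s := by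
  rw [← deriv_comp_add_const f L s]; simp_rw [h]

lemma per_bdd {E : Type*} [NormedAddCommGroup E] {f : ℝ → E} {L : ℝ} (hL : 0 < L)
    (h : ∀ s, f (s + L) = f s) (hf : Continuous f) : ∃ C, ∀ s, ‖f s‖ ≤ C := by
  obtain ⟨C, hC⟩ := (Function.Periodic.isBounded_of_continuous h hL.ne' hf).exists_norm_le
  exact ⟨C, fun s => hC _ ⟨s, rfl⟩⟩

namespace Cv0

variable {γ : ℝ → ℂ} (h : Cv0 γ)
include h

lemma s1 : ContDiff ℝ ∞ (deriv γ) := (contDiff_infty_iff_deriv.1 h.smooth).2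
lemma s2 : ContDiff ℝ ∞ (deriv (deriv γ)) := (contDiff_infty_iff_deriv.1 h.s1).2
lemma hd0 (s : ℝ) : HasDerivAt γ (deriv γ s) s := (h.smooth.differentiable (by simp) s).hasDerivAt
lemma hd1 (s : ℝ) : HasDerivAt (deriv γ) (deriv (deriv γ) s) s :=
  (h.s1.differentiable (by simp) s).hasDerivAt
lemma mul_conj (s : ℝ) : deriv γ s * conj (deriv γ s) = 1 := by
  rw [Complex.mul_conj, normSq_eq_norm_sq, h.unit]; simp
lemma sq_add (s : ℝ) : (deriv γ s).re ^ 2 + (deriv γ s).im ^ 2 = 1 := by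
  have := congrArg re (h.mul_conj s)
  simp at this
  linarith

lemma dd (s : ℝ) : deriv (deriv γ) s = kap γ s * (I * deriv γ s) := by
  have h1 := (h.hd1 s).mul (h.hd1 s).star
  have h2 : HasDerivAt (fun s => deriv γ s * conj (deriv γ s)) 0 s := by
    simp_rw [h.mul_conj]; exact hasDerivAt_const _ _
  have h3 := congrArg re (h1.unique h2)
  have h4 : deriv (deriv γ) s * conj (deriv γ s) = kap γ s * I := by
    apply Complex.ext
    · simp at h3 ⊢; linarith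
    · simp [kap]
  linear_combination deriv γ s * h4 - deriv (deriv γ) s * h.mul_conj s

lemma hd1' (s : ℝ) : HasDerivAt (deriv γ) (kap γ s * (I * deriv γ s)) s := h.dd s ▸ h.hd1 s

lemma s_kap : ContDiff ℝ ∞ (kap γ) :=
  imCLM.contDiff.comp (h.s2.mul (conjCLE.contDiff.comp h.s1))

lemma sPhi : ContDiff ℝ ∞ (Phi γ) :=
  (h.smooth.comp contDiff_re').add ((s_ofReal.comp contDiff_im').mul
    (contDiff_const.mul (h.s1.comp contDiff_re')))

lemma dPhi (z : ℂ) : DifferentiableAt ℝ (Phi γ) z := h.sPhi.differentiable (by simp) z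

lemma d1Phi (z : ℂ) : d1 (Phi γ) z = Jf (kap γ) z * deriv γ z.re := by
  refine d1_eq (h.dPhi z) ?_
  have := (h.hd0 z.re).add (((h.hd1' z.re).const_mul I).const_mul (z.im : ℂ))
  refine (this.congr_deriv ?_).congr_of_eventuallyEq (Eventually.of_forall fun s => by simp [Phi])
  rw [Jf]; push_cast; ring_nf; simp only [I_sq]; ring

lemma d2Phi (z : ℂ) : d2 (Phi γ) z = I * deriv γ z.re := by
  refine d2_eq (h.dPhi z) ?_
  have := ((hasDerivAt_id z.im).ofReal_comp.mul_const (I * deriv γ z.re)).const_add (γ z.re)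
  refine (this.congr_deriv (by simp)).congr_of_eventuallyEq
    (Eventually.of_forall fun s => by simp [Phi])

lemma det (z : ℂ) : (fderiv ℝ (Phi γ) z).det = Jf (kap γ) z := by
  rw [det_eq_d, ← d1, ← d2, h.d1Phi, h.d2Phi]
  simp
  linear_combination Jf (kap γ) z * h.sq_add z.re

lemma chain {u : ℂ → ℂ} {z : ℂ} (hu : DifferentiableAt ℝ u (Phi γ z)) :
    d1 (fun z => u (Phi γ z)) z = Jf (kap γ) z * ((deriv γ z.re).re * d1 u (Phi γ z) +
      (deriv γ z.re).im * d2 u (Phi γ z)) ∧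
    d2 (fun z => u (Phi γ z)) z = -(deriv γ z.re).im * d1 u (Phi γ z) +
      (deriv γ z.re).re * d2 u (Phi γ z) := by
  have := fderiv_comp z hu (h.dPhi z)
  constructor
  · rw [d1]; erw [this]
    rw [comp_apply, ← d1, h.d1Phi, fderiv_eq_d]; simp; ring
  · rw [d2]; erw [this]
    rw [comp_apply, ← d2, h.d2Phi, fderiv_eq_d]; simp

lemma sJ : ContDiff ℝ ∞ (Jf (kap γ)) :=
  contDiff_const.sub ((h.s_kap.comp contDiff_re').mul contDiff_im')

lemma ssq {z : ℂ} (hJ : 0 < Jf (kap γ) z) :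
    ContDiffAt ℝ ∞ (fun z => (√(Jf (kap γ) z) : ℂ)) z :=
  s_ofReal.contDiffAt.comp z (h.sJ.contDiffAt.sqrt hJ.ne')

lemma d_sq {z : ℂ} (hJ : 0 < Jf (kap γ) z) :
    d1 (fun z => (√(Jf (kap γ) z) : ℂ)) z = (al (kap γ) z * √(Jf (kap γ) z) : ℝ) ∧
    d2 (fun z => (√(Jf (kap γ) z) : ℂ)) z = (be (kap γ) z * √(Jf (kap γ) z) : ℝ) := by
  have k0 := (h.s_kap.differentiable (by simp) z.re).hasDerivAt
  have hs := Real.sqrt_pos.2 hJ
  have hq := Real.mul_self_sqrt hJ.le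
  constructor
  · refine d1_eq ((h.ssq hJ).differentiableAt (by simp)) (HasDerivAt.ofReal_comp ?_)
    have h1 : HasDerivAt (fun s => 1 - kap γ s * z.im) (-(deriv (kap γ) z.re * z.im)) z.re := by
      simpa using (k0.mul_const z.im).const_sub 1
    refine ((h1.sqrt hJ.ne').congr_deriv ?_).congr_of_eventuallyEq
      (Eventually.of_forall fun s => by simp [Jf])
    rw [show 1 - kap γ z.re * z.im = Jf (kap γ) z from rfl, al]
    field_simp
    rw [Real.sq_sqrt hJ.le]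
  · refine d2_eq ((h.ssq hJ).differentiableAt (by simp)) (HasDerivAt.ofReal_comp ?_)
    have h1 : HasDerivAt (fun x => 1 - kap γ z.re * x) (-kap γ z.re) z.im := by
      simpa using ((hasDerivAt_id z.im).const_mul (kap γ z.re)).const_sub 1
    refine ((h1.sqrt hJ.ne').congr_deriv ?_).congr_of_eventuallyEq
      (Eventually.of_forall fun s => by simp [Jf])
    rw [show 1 - kap γ z.re * z.im = Jf (kap γ) z from rfl, be]
    field_simp
    rw [Real.sq_sqrt hJ.le]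

lemma pull {μ : ℝ} (hμ : 0 < μ) {u v : ℂ → ℂ} {z : ℂ} (hJ : 0 < Jf (kap γ) z)
    (hu : DifferentiableAt ℝ u (Phi γ z))
    (hv : v =ᶠ[𝓝 z] fun z => (√(Jf (kap γ) z) : ℂ) * u (Phi γ z)) :
    (√(Jf (kap γ) z) : ℂ) • act (Om γ z) (Dv μ u (Phi γ z)) =
      act (Nm (kap γ) μ z) (Dv μ v z) := by
  have a1 := (h.ssq hJ).differentiableAt (by simp)
  have a2 : DifferentiableAt ℝ (fun z => u (Phi γ z)) z := hu.comp z (h.dPhi z)
  have hμ' : (μ : ℂ) ≠ 0 := by exact_mod_cast hμ.ne'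
  have hJ' : (Jf (kap γ) z : ℂ) ≠ 0 := by exact_mod_cast hJ.ne'
  rw [Dv_congr hv]
  refine E3_ext ?_ ?_ ?_
  · simp [act_apply, Om, Nm]; ring
  · simp only [PiLp.smul_apply, act_apply, Dv_0, Dv_1, Dv_2, d1_mul a1 a2, (h.chain hu).1,
      (h.d_sq hJ).1]
    simp [Om, Nm]; field_simp; ring
  · simp only [PiLp.smul_apply, act_apply, Dv_0, Dv_1, Dv_2, d2_mul a1 a2, (h.chain hu).2,
      (h.d_sq hJ).2]
    simp [Om, Nm]; field_simp; ring

lemma local_inv {p : ℂ} (hJ : Jf (kap γ) p ≠ 0) : ∃ g : ℂ → ℂ, ContDiffAt ℝ ∞ g (Phi γ p) ∧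
    g (Phi γ p) = p ∧ (∀ᶠ y in 𝓝 (Phi γ p), Phi γ (g y) = y) ∧
      ∀ᶠ q in 𝓝 p, g (Phi γ q) = q := by
  have h1 : HasFDerivAt (Phi γ) (((fderiv ℝ (Phi γ) p).toContinuousLinearEquivOfDetNeZero
      (by rwa [h.det]) : ℂ ≃L[ℝ] ℂ) : ℂ →L[ℝ] ℂ) p := by
    rw [coe_toContinuousLinearEquivOfDetNeZero]; exact (h.dPhi p).hasFDerivAt
  have h2 : ContDiffAt ℝ ∞ (Phi γ) p := h.sPhi.contDiffAt
  exact ⟨_, h2.to_localInverse h1 (by simp), h2.localInverse_apply_image h1 (by simp),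
    (h2.hasStrictFDerivAt' h1 (by simp)).eventually_right_inverse,
    (h2.hasStrictFDerivAt' h1 (by simp)).eventually_left_inverse⟩

end Cv0

namespace Cv

variable {γ : ℝ → ℂ} {L : ℝ} (h : Cv γ L)
include h

lemma per1 (s : ℝ) : deriv γ (s + L) = deriv γ s := per_deriv h.per s

lemma per_kap (s : ℝ) : kap γ (s + L) = kap γ s := by
  rw [kap, kap, h.per1, per_deriv h.per1]

lemma exists_kap : ∃ K, Kap L K (kap γ) := by
  have s1 := (contDiff_infty_iff_deriv.1 h.s_kap).2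
  have s2 := (contDiff_infty_iff_deriv.1 s1).2
  obtain ⟨a, ha⟩ := per_bdd h.pos h.per_kap h.s_kap.continuous
  obtain ⟨b, hb⟩ := per_bdd h.pos (per_deriv h.per_kap) s1.continuous
  obtain ⟨c, hc⟩ := per_bdd h.pos (per_deriv (per_deriv h.per_kap)) s2.continuous
  exact ⟨max (max 1 a) (max b c), h.s_kap, h.per_kap, by simp, fun s => (ha s).trans (by simp),
    fun s => (hb s).trans (by simp), fun s => (hc s).trans (by simp)⟩

lemma Phi_per (z : ℂ) : Phi γ (z + L) = Phi γ z := by simp [Phi, h.per, h.per1]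

lemma Phi_per' (z : ℂ) (n : ℤ) : Phi γ (z + n * L) = Phi γ z :=
  (Function.Periodic.int_mul h.Phi_per n) z

lemma mem_box {p : ℂ} {a b : ℝ} (hp : p.im ∈ Icc a b) :
    Phi γ p ∈ Phi γ '' (Icc 0 L ×ℂ Icc a b) := by
  refine ⟨p + (-toIcoDiv h.pos 0 p.re : ℤ) * L, ⟨?_, by simpa using hp⟩, h.Phi_per' _ _⟩
  have := Ico_subset_Icc_self (toIcoMod_mem_Ico' h.pos p.re)
  rw [toIcoMod] at this
  simpa [sub_eq_add_neg] using this

lemma closed_box (a b : ℝ) : IsCompact (Phi γ '' (Icc 0 L ×ℂ Icc a b)) :=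
  (isCompact_Icc.reProdIm isCompact_Icc).image h.sPhi.continuous

end Cv

def strip (δ : ℝ) : Set ℂ := {z | z.im ∈ Ioo 0 δ}

lemma isOpen_strip (δ : ℝ) : IsOpen (strip δ) := isOpen_Ioo.preimage continuous_im

/-- a collar of a boundary curve -/
structure Col (Ω : Set ℂ) (γ : ℝ → ℂ) (L δ0 : ℝ) : Prop extends Cv γ L where
  opn : IsOpen Ω
  dpos : 0 < δ0
  small : ∀ s, |kap γ s| * δ0 ≤ 1 / 2
  inside : ∀ z ∈ strip δ0, Phi γ z ∈ Ω
  bdry : ∀ s, γ s ∉ Ω
  inj : ∀ p ∈ strip δ0, ∀ q ∈ strip δ0, Phi γ p = Phi γ q → ∃ n : ℤ, q = p + n * L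

def push {E : Type*} [Zero E] (γ : ℝ → ℂ) (δ0 : ℝ) (w : ℂ → E) : ℂ → E :=
  (Phi γ '' strip δ0).indicator fun z => w (Function.invFunOn (Phi γ) (strip δ0) z)

namespace Col

variable {Ω : Set ℂ} {γ : ℝ → ℂ} {L δ0 : ℝ} (h : Col Ω γ L δ0)
include h

lemma bJ {z : ℂ} (hz : z ∈ strip δ0) : 1 / 2 ≤ Jf (kap γ) z ∧ Jf (kap γ) z ≤ 2 := by
  have : |kap γ z.re * z.im| ≤ 1 / 2 := by
    rw [abs_mul, abs_of_pos hz.1]
    exact le_trans (by gcongr; exact hz.2.le) (h.small z.re)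
  rw [abs_le] at this
  rw [Jf]
  constructor <;> linarith [this.1, this.2]

lemma Jpos {z : ℂ} (hz : z ∈ strip δ0) : 0 < Jf (kap γ) z := by linarith [(h.bJ hz).1]

omit h in
lemma rect_sub {δ : ℝ} (hδ : δ < δ0) {z : ℂ} (hz : z ∈ rect L δ) : z ∈ strip δ0 :=
  ⟨hz.2.1, hz.2.2.trans_lt hδ⟩

lemma ch {δ : ℝ} (hδ : δ < δ0) : Ch L δ (Phi γ) (Jf (kap γ)) (Om γ) where
  dΦ := h.dPhi
  inj := fun p hp q hq e => by
    obtain ⟨n, hn⟩ := h.inj p (rect_sub hδ hp) q (rect_sub hδ hq) e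
    have h1 : q.re = p.re + n * L := by rw [hn]; simp
    have hL := h.pos
    have : n = 0 := by
      have a : (n : ℝ) < 1 := by nlinarith [hp.1.1, hp.1.2, hq.1.1, hq.1.2]
      have b : (-1 : ℝ) < n := by nlinarith [hp.1.1, hp.1.2, hq.1.1, hq.1.2]
      have a' : n < 1 := by exact_mod_cast a
      have b' : -1 < n := by exact_mod_cast b
      omega
    rw [hn, this]; simp
  det := fun z _ => h.det z
  cJ := h.sJ.continuous
  bJ := fun z hz => h.bJ (rect_sub hδ hz)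
  cO := continuous_iff_continuousAt.2 fun z => by
    have := h.s1.continuous
    refine continuousAt_mat ?_ ?_ ?_ ?_ ?_ ?_ ?_ ?_ ?_ <;> fun_prop
  uO := fun z => by
    have : ((deriv γ z.re).re : ℂ) ^ 2 + ((deriv γ z.re).im : ℂ) ^ 2 = 1 := by
      exact_mod_cast h.sq_add z.re
    ext i j
    fin_cases i <;> fin_cases j <;>
      simp [Om, Matrix.mul_apply, Fin.sum_univ_three, Matrix.star_apply] <;>
      first | linear_combination this | ring
  eO := fun z => by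
    ext i j
    fin_cases i <;> fin_cases j <;> simp [Om, e00, Matrix.mul_apply, Fin.sum_univ_three]

variable {E : Type*} [NormedAddCommGroup E] [NormedSpace ℝ E] {w : ℂ → E}

lemma push_Phi (hp : ∀ z, w (z + L) = w z) {p : ℂ} (h1 : p ∈ strip δ0) :
    push γ δ0 w (Phi γ p) = w p := by
  rw [push, indicator_of_mem (mem_image_of_mem _ h1)]
  obtain ⟨n, hn⟩ := h.inj p h1 _ (Function.invFunOn_mem ⟨p, h1, rfl⟩)
    (Function.invFunOn_eq ⟨p, h1, rfl⟩).symm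
  rw [hn]
  exact (Function.Periodic.int_mul hp n) p

lemma push_at (hp : ∀ z, w (z + L) = w z) {p : ℂ} (h1 : p ∈ strip δ0) (hw : ContDiffAt ℝ ∞ w p) :
    ContDiffAt ℝ ∞ (push γ δ0 w) (Phi γ p) := by
  obtain ⟨g, g1, g2, g3, -⟩ := h.local_inv (h.Jpos h1).ne'
  refine (ContDiffAt.comp _ (g2.symm ▸ hw) g1).congr_of_eventuallyEq ?_
  filter_upwards [g3, g1.continuousAt.eventually ((isOpen_strip δ0).mem_nhds (g2.symm ▸ h1))]
    with y e1 e2
  rw [Function.comp, ← h.push_Phi hp e2, e1]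

lemma push_zero {a b : ℝ} (hw : ∀ p ∈ strip δ0, p.im ∉ Icc a b → w p = 0) {z : ℂ}
    (hz : z ∉ Phi γ '' (Icc 0 L ×ℂ Icc a b)) : push γ δ0 w z = 0 := by
  by_cases h1 : z ∈ Phi γ '' strip δ0
  · rw [push, indicator_of_mem h1]
    refine hw _ (Function.invFunOn_mem h1) fun h2 => hz ?_
    have := h.mem_box h2
    rwa [Function.invFunOn_eq h1] at this
  · exact indicator_of_notMem h1 _

lemma push_zero' {a b : ℝ} (hw : ∀ p ∈ strip δ0, p.im ∉ Icc a b → w p = 0) {z : ℂ}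
    (hz : z ∉ Phi γ '' (Icc 0 L ×ℂ Icc a b)) : push γ δ0 w =ᶠ[𝓝 z] 0 := by
  filter_upwards [(h.closed_box a b).isClosed.isOpen_compl.mem_nhds hz] with y hy
  exact h.push_zero hw hy

lemma box_pos {z : ℂ} (hz : z ∈ Ω) {b : ℝ} {p : ℂ} (hp : p ∈ Icc 0 L ×ℂ Icc 0 b)
    (e : Phi γ p = z) : 0 < p.im := by
  refine lt_of_le_of_ne hp.2.1 fun h0 => h.bdry p.re ?_
  rw [Phi, ← h0] at e
  simpa [← e] using hz

lemma not_box {z : ℂ} (hz : z ∈ Ω) {b c : ℝ} (hb : b < c) (h1 : z ∉ Phi γ '' strip c) :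
    z ∉ Phi γ '' (Icc 0 L ×ℂ Icc 0 b) := by
  rintro ⟨p, hp, e⟩
  exact h1 ⟨p, ⟨h.box_pos hz hp e, hp.2.2.trans_lt hb⟩, e⟩

lemma push_on (hp : ∀ z, w (z + L) = w z) (hs : ∀ p ∈ strip δ0, ContDiffAt ℝ ∞ w p) {b : ℝ}
    (hb : b < δ0) (hw : ∀ p ∈ strip δ0, b < p.im → w p = 0) : ContDiffOn ℝ ∞ (push γ δ0 w) Ω := by
  intro z hz
  by_cases h1 : z ∈ Phi γ '' strip δ0
  · obtain ⟨p, h2, rfl⟩ := h1
    exact (h.push_at hp h2 (hs p h2)).contDiffWithinAt
  · exact ((contDiffAt_const (c := (0 : E))).congr_of_eventuallyEq (h.push_zero'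
      (fun p h2 h3 => hw p h2 (not_le.1 fun h4 => h3 ⟨h2.1.le, h4⟩))
      (h.not_box hz hb h1))).contDiffWithinAt

lemma push_test {w : ℂ → ℂ} (hp : ∀ z, w (z + L) = w z) (hs : ∀ p ∈ strip δ0, ContDiffAt ℝ ∞ w p)
    {a b : ℝ} (ha : 0 < a) (hb : b < δ0) (hw : ∀ p ∈ strip δ0, p.im ∉ Icc a b → w p = 0) :
    push γ δ0 w ∈ testC Ω := by
  have sub : Phi γ '' (Icc 0 L ×ℂ Icc a b) ⊆ Phi γ '' strip δ0 :=
    image_mono fun p hp => ⟨ha.trans_le hp.2.1, hp.2.2.trans_lt hb⟩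
  refine ⟨contDiff_iff_contDiffAt.2 fun z => ?_,
    HasCompactSupport.intro (h.closed_box a b) fun z hz => h.push_zero hw hz, ?_⟩
  · by_cases h1 : z ∈ Phi γ '' strip δ0
    · obtain ⟨p, h2, rfl⟩ := h1
      exact h.push_at hp h2 (hs p h2)
    · exact (contDiffAt_const (c := (0 : ℂ))).congr_of_eventuallyEq
        (h.push_zero' hw fun h2 => h1 (sub h2))
  · refine (closure_minimal (s := Function.support _) (fun z hz => by_contra fun h1 => hz (h.push_zero hw h1))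
      (h.closed_box a b).isClosed).trans (sub.trans ?_)
    rintro _ ⟨p, h1, rfl⟩
    exact h.inside p h1

lemma grad_push {θ : ℝ → ℝ} (hs : ContDiff ℝ ∞ θ) {p : ℂ} (h2 : p ∈ strip δ0) :
    d1 (cf (push γ δ0 fun z => θ z.im)) (Phi γ p) = -(deriv γ p.re).im * (deriv θ p.im : ℝ) ∧
    d2 (cf (push γ δ0 fun z => θ z.im)) (Phi γ p) = (deriv γ p.re).re * (deriv θ p.im : ℝ) := by
  have hd : DifferentiableAt ℝ (cf (push γ δ0 fun z => θ z.im)) (Phi γ p) :=
    (ofRealCLM.contDiff.contDiffAt.comp _ (h.push_at (w := fun z => θ z.im) (by simp) h2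
      (hs.comp contDiff_im').contDiffAt)).differentiableAt (by simp)
  obtain ⟨c1, c2⟩ := h.chain hd
  have e : (fun z => cf (push γ δ0 fun z => θ z.im) (Phi γ z)) =ᶠ[𝓝 p]
      fun z => (fun _ : ℝ => (1 : ℂ)) z.re * (θ z.im : ℂ) := by
    filter_upwards [(isOpen_strip δ0).mem_nhds h2] with q hq
    rw [cf, h.push_Phi (by simp) hq, one_mul]
  obtain ⟨e1, e2⟩ := d_ten (a := fun _ => 1) (b := fun x => (θ x : ℂ)) (z := p)
    (hasDerivAt_const _ _) (hs.differentiable (by simp) p.im).hasDerivAt.ofReal_comp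
  rw [(d_congr e).1, e1, zero_mul, eq_comm, mul_eq_zero] at c1
  rw [(d_congr e).2, e2, one_mul] at c2
  have c3 := c1.resolve_left (by exact_mod_cast (h.Jpos h2).ne')
  have u : ((deriv γ p.re).re : ℂ) ^ 2 + ((deriv γ p.re).im : ℂ) ^ 2 = 1 := by
    exact_mod_cast h.sq_add p.re
  constructor
  · linear_combination (deriv γ p.re).re * c3 + (deriv γ p.re).im * c2 -
      d1 (cf (push γ δ0 fun z => θ z.im)) (Phi γ p) * u
  · linear_combination (deriv γ p.re).im * c3 - (deriv γ p.re).re * c2 -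
      d2 (cf (push γ δ0 fun z => θ z.im)) (Phi γ p) * u

lemma mo_push {θ : ℝ → ℝ} (hs : ContDiff ℝ ∞ θ) {B G b : ℝ} (h0 : ∀ x, 0 ≤ θ x ∧ θ x ≤ B)
    (h1 : ∀ x, |deriv θ x| ≤ G) (hb : b < δ0) (hw : ∀ x, b < x → θ x = 0) :
    MO Ω (push γ δ0 fun z => θ z.im) B (2 * G) := by
  have hon := h.push_on (w := fun z => θ z.im) (by simp)
    (fun p _ => (hs.comp contDiff_im').contDiffAt) hb fun p _ h2 => hw _ h2
  refine ⟨hon, fun z hz => indicator_of_notMem ?_ _, fun z => ?_, fun z hz => ?_⟩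
  · rintro ⟨p, h2, rfl⟩
    exact hz (h.inside p h2)
  · by_cases h1 : z ∈ Phi γ '' strip δ0
    · rw [push, indicator_of_mem h1]; exact h0 _
    · rw [push, indicator_of_notMem h1]; exact ⟨le_rfl, (h0 0).1.trans (h0 0).2⟩
  by_cases h2 : z ∈ Phi γ '' strip δ0
  · obtain ⟨p, h2, rfl⟩ := h2
    obtain ⟨r1, r2⟩ := h.grad_push hs h2
    rw [r1, r2, norm_mul, norm_mul, norm_neg, norm_real, norm_real, norm_real]
    have a1 := (abs_re_le_norm _).trans_eq (h.unit p.re)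
    have a2 := (abs_im_le_norm _).trans_eq (h.unit p.re)
    have a3 := h1 p.im
    simp only [Real.norm_eq_abs]
    nlinarith [abs_nonneg (deriv θ p.im)]
  · have e : cf (push γ δ0 fun z => θ z.im) =ᶠ[𝓝 z] fun _ => 0 := by
      filter_upwards [h.push_zero' (w := fun z => θ z.im) (a := 0) (b := b)
        (fun p h2 h3 => hw _ (not_le.1 fun h4 => h3 ⟨h2.1.le, h4⟩)) (h.not_box hz hb h2)]
        with y hy
      simp [cf, hy]
    rw [(d_congr e).1, (d_congr e).2]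
    have := (abs_nonneg _).trans (h1 0)
    simp [d1, d2]; positivity

end Col

end Pool.Agent.Lib.MP_312682_mp
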