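import Pool.Agent.Lib.MP_312682_mp.Xi
import Pool.Agent.Lib.MP_312682_mp.Lat

/-! Integration of the densities against a cut-off and summation over the frequencies. -/

open MeasureTheory Set Real intervalIntegral

noncomputable section

namespace Pool.Agent.Lib.MP_312682_mp

/-- cut-off weight on `[0, δ]` -/
structure Wt (δ : ℝ) (ω : ℝ → ℝ) : Prop where
  cont : Continuous ω
  nonneg : ∀ x, 0 ≤ ω x
  le_one : ∀ x, ω x ≤ 1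
  one : ∀ x ≤ δ / 4, ω x = 1
  zero : ∀ x ≥ δ / 2, ω x = 0

lemma bdry_int {δ Λ : ℝ} {ω : ℝ → ℝ} (hω : Wt δ ω) (hΛ : 0 < Λ) (hδ : 0 < δ) {w W : Pl}
    (hw : dg w) (hW : dg W) (hr : ∀ z, dv W 0 z - 2 * ev W 0 z = ev w 0 z) :
    |(∫ x in (0 : ℝ)..δ, ω x * (ev w 0 (Λ * x) * exp (-(2 * (Λ * x))))) + Λ⁻¹ * ev W 0 0| ≤
      (ab W + ab w) * ((1 + Λ * δ) ^ 7 * exp (-(Λ * δ / 2))) * Λ⁻¹ := by
  have c1 := continuous_ev w 0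
  have c2 := hω.cont
  have hD : 0 < Λ * δ := by positivity
  rw [← integral_add_adjacent_intervals (b := δ / 4)
    (Continuous.intervalIntegrable (by fun_prop) _ _)
    (Continuous.intervalIntegrable (by fun_prop) _ _)]
  have i1 : ∫ x in (0 : ℝ)..δ / 4, ω x * (ev w 0 (Λ * x) * exp (-(2 * (Λ * x)))) =
      Λ⁻¹ * (ev W 0 (Λ * (δ / 4)) * exp (-(2 * (Λ * (δ / 4))))) - Λ⁻¹ * ev W 0 0 := by
    have := integral_eq_sub_of_hasDerivAt (a := 0) (b := δ / 4)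
      (f := fun x => Λ⁻¹ * (ev W 0 (Λ * x) * exp (-(2 * (Λ * x)))))
      (f' := fun x => ω x * (ev w 0 (Λ * x) * exp (-(2 * (Λ * x))))) (fun x hx => by
        rw [uIcc_of_le (by positivity)] at hx
        refine ((((hd_ev W 0 (Λ * x)).comp x (hd_lin Λ x)).mul
          ((hd_lin Λ x).const_mul 2).neg.exp).const_mul Λ⁻¹).congr_deriv ?_
        rw [hω.one x hx.2, ← hr]
        simp only [Function.comp_apply, Pi.neg_apply]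
        field_simp
        ring) (Continuous.intervalIntegrable (by fun_prop) _ _)
    simpa using this
  have i2 := norm_integral_le_of_norm_le_const (a := δ / 4) (b := δ)
    (f := fun x => ω x * (ev w 0 (Λ * x) * exp (-(2 * (Λ * x)))))
    (C := ab w * (1 + Λ * δ) ^ 5 * exp (-(Λ * δ / 2))) fun x hx => by
      rw [uIoc_of_le (by linarith)] at hx
      have hx0 : 0 ≤ x := by linarith [hx.1]
      rw [norm_mul, norm_mul, norm_of_nonneg (hω.nonneg x), norm_of_nonneg (exp_pos _).le]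
      refine (mul_le_of_le_one_left (by positivity) (hω.le_one x)).trans ?_
      refine mul_le_mul (ev_le hw ⟨le_rfl, hD.le⟩ ⟨by positivity, by gcongr; exact hx.2⟩)
        (exp_le_exp.2 ?_) (exp_pos _).le (by have := ab_nonneg w; positivity)
      nlinarith [hx.1]
  rw [i1]
  have e1 : -(2 * (Λ * (δ / 4))) = -(Λ * δ / 2) := by ring
  have i3 := ev_le hW (X := 0) (z := Λ * (δ / 4)) ⟨le_rfl, hD.le⟩ ⟨by positivity, by nlinarith⟩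
  rw [e1]
  have p0 := exp_pos (-(Λ * δ / 2))
  have a1 := ab_nonneg w
  have a2 := ab_nonneg W
  have i4 : |Λ⁻¹ * (ev W 0 (Λ * (δ / 4)) * exp (-(Λ * δ / 2)))| ≤
      ab W * ((1 + Λ * δ) ^ 7 * exp (-(Λ * δ / 2))) * Λ⁻¹ := by
    rw [abs_mul, abs_mul, abs_of_pos p0, abs_of_pos (inv_pos.2 hΛ), mul_comm, ← mul_assoc]
    gcongr
    refine i3.trans ?_
    gcongr
    · linarith
    · norm_num
  have i5 : ab w * (1 + Λ * δ) ^ 5 * exp (-(Λ * δ / 2)) * |δ - δ / 4| ≤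
      ab w * ((1 + Λ * δ) ^ 7 * exp (-(Λ * δ / 2))) * Λ⁻¹ := by
    have : |δ - δ / 4| ≤ (1 + Λ * δ) ^ 2 * Λ⁻¹ := by
      rw [abs_of_pos (by linarith), le_mul_inv_iff₀ hΛ]; nlinarith
    calc _ ≤ ab w * (1 + Λ * δ) ^ 5 * exp (-(Λ * δ / 2)) * ((1 + Λ * δ) ^ 2 * Λ⁻¹) := by gcongr
      _ = _ := by ring
  rw [norm_eq_abs] at i2
  have i6 := i2.trans i5
  rw [abs_le] at *
  constructor <;> linarith [i4.1, i4.2, i6.1, i6.2]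

def mo (δ : ℝ) (ω : ℝ → ℝ) (j : ℕ) : ℝ := ∫ x in (0 : ℝ)..δ, ω x * x ^ j

lemma mo_le {δ : ℝ} {ω : ℝ → ℝ} (hω : Wt δ ω) (hδ : 0 < δ) (hδ1 : δ ≤ 1) (j : ℕ) :
    |mo δ ω j| ≤ 1 := by
  have := norm_integral_le_of_norm_le_const (a := 0) (b := δ) (f := fun x => ω x * x ^ j) (C := 1)
    fun x hx => by
      rw [uIoc_of_le hδ.le] at hx
      rw [norm_mul, norm_of_nonneg (hω.nonneg x), norm_pow, norm_of_nonneg hx.1.le]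
      exact mul_le_one₀ (hω.le_one x) (pow_nonneg hx.1.le _) (pow_le_one₀ hx.1.le (hx.2.trans hδ1))
  rw [sub_zero, abs_of_pos hδ, one_mul] at this
  exact this.trans hδ1

def tt (Λ ξ m0 m1 m2 a b : ℝ) : ℝ :=
  (m0 / 4 * (Λ ^ 3)⁻¹ - 1 / 4 * (Λ ^ 4)⁻¹) -
    a * (4 * ξ ^ 2 * (3 / 16 * m1 * (Λ ^ 5)⁻¹ - 5 / 32 * (Λ ^ 7)⁻¹)) +
    b * (ξ ^ 4 * (35 / 32 * m0 * (Λ ^ 9)⁻¹ + 15 / 8 * m2 * (Λ ^ 7)⁻¹ - 15 / 4 * (Λ ^ 10)⁻¹) -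
      6 * ξ ^ 2 * (5 / 32 * m0 * (Λ ^ 7)⁻¹ + 3 / 16 * m2 * (Λ ^ 5)⁻¹ - 3 / 8 * (Λ ^ 8)⁻¹) +
      1 / 2 * (3 / 16 * m0 * (Λ ^ 5)⁻¹ - 1 / 4 * (Λ ^ 6)⁻¹))

lemma continuous_XiE (Λ ξ : ℝ) : Continuous fun p : ℝ × ℝ => XiE Λ ξ p.1 p.2 := by
  have := continuous_ev w0 0
  have := continuous_ev w1 0
  have := continuous_ev wa 0
  have := continuous_ev wb 0
  have := continuous_ev wc 0
  unfold XiE dn0 dn1 dna dnb dnc
  fun_prop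

theorem xiE_int : ∃ C, 0 ≤ C ∧ ∀ (δ Λ ξ ε K : ℝ) (ω : ℝ → ℝ), Wt δ ω → 1 ≤ Λ → 0 < δ →
    ξ ^ 2 ≤ Λ ^ 2 → |ε| ≤ K → 1 ≤ K →
    |(∫ x in (0 : ℝ)..δ, ω x * XiE Λ ξ ε (Λ * x)) -
      tt Λ ξ (mo δ ω 0) (mo δ ω 1) (mo δ ω 2) ε (ε ^ 2)| ≤
      C * K ^ 4 * ((1 + Λ * δ) ^ 7 * exp (-(Λ * δ / 2)) * (Λ ^ 3)⁻¹) := by
  set C := ab W0 + ab w0 + (ab W1 + ab w1) + (ab Wa + ab wa) + (ab Wb + ab wb) + (ab Wc + ab wc)
    with hC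
  have n0 := add_nonneg (ab_nonneg W0) (ab_nonneg w0)
  have n1 := add_nonneg (ab_nonneg W1) (ab_nonneg w1)
  have na := add_nonneg (ab_nonneg Wa) (ab_nonneg wa)
  have nb := add_nonneg (ab_nonneg Wb) (ab_nonneg wb)
  have nc := add_nonneg (ab_nonneg Wc) (ab_nonneg wc)
  refine ⟨13 * C, by positivity, fun δ Λ ξ ε K ω hω hΛ1 hδ hξ hε hK => ?_⟩
  have hΛ : 0 < Λ := by linarith
  have b0 := bdry_int hω hΛ hδ (w := w0) (W := W0) (by unfold dg w0; decide)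
    (by unfold dg W0; decide) fun z => by
      simp only [ev, dv, w0, W0, List.map, List.sum_cons, List.sum_nil]; push_cast; ring
  have b1 := bdry_int hω hΛ hδ (w := w1) (W := W1) (by unfold dg w1; decide)
    (by unfold dg W1; decide) fun z => by
      simp only [ev, dv, w1, W1, List.map, List.sum_cons, List.sum_nil]; push_cast; ring
  have ba := bdry_int hω hΛ hδ (w := wa) (W := Wa) (by unfold dg wa; decide)
    (by unfold dg Wa; decide) fun z => by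
      simp only [ev, dv, wa, Wa, List.map, List.sum_cons, List.sum_nil]; push_cast; ring
  have bb := bdry_int hω hΛ hδ (w := wb) (W := Wb) (by unfold dg wb; decide)
    (by unfold dg Wb; decide) fun z => by
      simp only [ev, dv, wb, Wb, List.map, List.sum_cons, List.sum_nil]; push_cast; ring
  have bc := bdry_int hω hΛ hδ (w := wc) (W := Wc) (by unfold dg wc; decide)
    (by unfold dg Wc; decide) fun z => by
      simp only [ev, dv, wc, Wc, List.map, List.sum_cons, List.sum_nil]; push_cast; ring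
  have v0 : ev W0 0 0 = 1 / 4 := by simp [ev, W0]
  have v1 : ev W1 0 0 = 5 / 32 := by simp [ev, W1]
  have va : ev Wa 0 0 = 15 / 4 := by simp [ev, Wa]
  have vb : ev Wb 0 0 = 3 / 8 := by simp [ev, Wb]
  have vc : ev Wc 0 0 = 1 / 4 := by simp [ev, Wc]
  rw [v0] at b0
  rw [v1] at b1
  rw [va] at ba
  rw [vb] at bb
  rw [vc] at bc
  have c0 := continuous_ev w0 0
  have c1 := continuous_ev w1 0
  have ca := continuous_ev wa 0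
  have cb := continuous_ev wb 0
  have cc := continuous_ev wc 0
  have cω := hω.cont
  have main : (∫ x in (0 : ℝ)..δ, ω x * XiE Λ ξ ε (Λ * x)) =
      ((1 / 4 * (Λ ^ 3)⁻¹ + ε ^ 2 * (35 / 32 * ξ ^ 4 * (Λ ^ 9)⁻¹ - 15 / 16 * ξ ^ 2 * (Λ ^ 7)⁻¹ +
        3 / 32 * (Λ ^ 5)⁻¹)) * mo δ ω 0 - ε * (3 / 4 * ξ ^ 2 * (Λ ^ 5)⁻¹) * mo δ ω 1 +
        ε ^ 2 * (15 / 8 * ξ ^ 4 * (Λ ^ 7)⁻¹ - 9 / 8 * ξ ^ 2 * (Λ ^ 5)⁻¹) * mo δ ω 2) +
      ((Λ ^ 3)⁻¹ * (∫ x in (0 : ℝ)..δ, ω x * (ev w0 0 (Λ * x) * exp (-(2 * (Λ * x))))) -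
        ε * (4 * ξ ^ 2 * (Λ ^ 6)⁻¹) *
          (∫ x in (0 : ℝ)..δ, ω x * (ev w1 0 (Λ * x) * exp (-(2 * (Λ * x))))) +
        ε ^ 2 * (ξ ^ 4 * (Λ ^ 9)⁻¹) *
          (∫ x in (0 : ℝ)..δ, ω x * (ev wa 0 (Λ * x) * exp (-(2 * (Λ * x))))) -
        ε ^ 2 * (6 * ξ ^ 2 * (Λ ^ 7)⁻¹) *
          (∫ x in (0 : ℝ)..δ, ω x * (ev wb 0 (Λ * x) * exp (-(2 * (Λ * x))))) +
        ε ^ 2 * (1 / 2 * (Λ ^ 5)⁻¹) *
          (∫ x in (0 : ℝ)..δ, ω x * (ev wc 0 (Λ * x) * exp (-(2 * (Λ * x)))))) := by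
    unfold mo
    simp only [← intervalIntegral.integral_const_mul]
    rw [← intervalIntegral.integral_sub, ← intervalIntegral.integral_add,
      ← intervalIntegral.integral_sub, ← intervalIntegral.integral_add,
      ← intervalIntegral.integral_sub, ← intervalIntegral.integral_add,
      ← intervalIntegral.integral_add]
    · congr 1; ext x
      unfold XiE dn0 dn1 dna dnb dnc
      field_simp
      ring
    all_goals exact Continuous.intervalIntegrable (by fun_prop) _ _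
  set η := (1 + Λ * δ) ^ 7 * exp (-(Λ * δ / 2)) with hη
  have hη0 : 0 ≤ η := by positivity
  have term : ∀ {c I A : ℝ}, |c| ≤ K ^ 4 * (Λ ^ 3)⁻¹ → |I| ≤ A * η * Λ⁻¹ → 0 ≤ A → A ≤ C →
      |c * I| ≤ C * K ^ 4 * (η * (Λ ^ 3)⁻¹) := by
    intro c I A h1 h2 h3 h4
    rw [abs_mul]
    have h5 : Λ⁻¹ ≤ 1 := inv_le_one_of_one_le₀ hΛ1
    have h6 : 0 ≤ C := h3.trans h4
    calc _ ≤ K ^ 4 * (Λ ^ 3)⁻¹ * (C * η * 1) := by
          gcongr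
          exact h2.trans (by gcongr)
      _ = _ := by ring
  have co : ∀ (i j n : ℕ), i ≤ 4 → 2 * j + 3 ≤ n →
      |ε ^ i * ((ξ ^ 2) ^ j * (Λ ^ n)⁻¹)| ≤ K ^ 4 * (Λ ^ 3)⁻¹ := by
    intro i j n hi hn
    rw [abs_mul, abs_pow, abs_of_nonneg (a := (ξ ^ 2) ^ j * (Λ ^ n)⁻¹) (by positivity)]
    refine mul_le_mul ((pow_le_pow_left₀ (abs_nonneg _) hε i).trans (pow_le_pow_right₀ hK hi)) ?_
      (by positivity) (by positivity)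
    rw [mul_inv_le_iff₀ (by positivity), le_inv_mul_iff₀ (by positivity)]
    calc _ ≤ Λ ^ 3 * (Λ ^ 2) ^ j := by gcongr
      _ = Λ ^ (2 * j + 3) := by ring
      _ ≤ _ := pow_le_pow_right₀ hΛ1 hn
  have s0 := term (co 0 0 3 (by norm_num) le_rfl) b0 n0 (by linarith)
  have s1 := term (co 1 1 6 (by norm_num) (by norm_num)) b1 n1 (by linarith)
  have sa := term (co 2 2 9 (by norm_num) (by norm_num)) ba na (by linarith)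
  have sb := term (co 2 1 7 (by norm_num) (by norm_num)) bb nb (by linarith)
  have sc := term (co 2 0 5 (by norm_num) (by norm_num)) bc nc (by linarith)
  rw [main]
  set I0 := ∫ x in (0 : ℝ)..δ, ω x * (ev w0 0 (Λ * x) * exp (-(2 * (Λ * x))))
  set I1 := ∫ x in (0 : ℝ)..δ, ω x * (ev w1 0 (Λ * x) * exp (-(2 * (Λ * x))))
  set Ia := ∫ x in (0 : ℝ)..δ, ω x * (ev wa 0 (Λ * x) * exp (-(2 * (Λ * x))))
  set Ib := ∫ x in (0 : ℝ)..δ, ω x * (ev wb 0 (Λ * x) * exp (-(2 * (Λ * x))))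
  set Ic := ∫ x in (0 : ℝ)..δ, ω x * (ev wc 0 (Λ * x) * exp (-(2 * (Λ * x))))
  have q : 0 ≤ C * K ^ 4 * (η * (Λ ^ 3)⁻¹) := by positivity
  have fin : ((1 / 4 * (Λ ^ 3)⁻¹ + ε ^ 2 * (35 / 32 * ξ ^ 4 * (Λ ^ 9)⁻¹ -
        15 / 16 * ξ ^ 2 * (Λ ^ 7)⁻¹ +
        3 / 32 * (Λ ^ 5)⁻¹)) * mo δ ω 0 - ε * (3 / 4 * ξ ^ 2 * (Λ ^ 5)⁻¹) * mo δ ω 1 +
        ε ^ 2 * (15 / 8 * ξ ^ 4 * (Λ ^ 7)⁻¹ - 9 / 8 * ξ ^ 2 * (Λ ^ 5)⁻¹) * mo δ ω 2) +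
      ((Λ ^ 3)⁻¹ * I0 - ε * (4 * ξ ^ 2 * (Λ ^ 6)⁻¹) * I1 + ε ^ 2 * (ξ ^ 4 * (Λ ^ 9)⁻¹) * Ia -
        ε ^ 2 * (6 * ξ ^ 2 * (Λ ^ 7)⁻¹) * Ib + ε ^ 2 * (1 / 2 * (Λ ^ 5)⁻¹) * Ic) -
      tt Λ ξ (mo δ ω 0) (mo δ ω 1) (mo δ ω 2) ε (ε ^ 2) =
      ε ^ 0 * ((ξ ^ 2) ^ 0 * (Λ ^ 3)⁻¹) * (I0 + Λ⁻¹ * (1 / 4)) -
      4 * (ε ^ 1 * ((ξ ^ 2) ^ 1 * (Λ ^ 6)⁻¹) * (I1 + Λ⁻¹ * (5 / 32))) +
      ε ^ 2 * ((ξ ^ 2) ^ 2 * (Λ ^ 9)⁻¹) * (Ia + Λ⁻¹ * (15 / 4)) -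
      6 * (ε ^ 2 * ((ξ ^ 2) ^ 1 * (Λ ^ 7)⁻¹) * (Ib + Λ⁻¹ * (3 / 8))) +
      1 / 2 * (ε ^ 2 * ((ξ ^ 2) ^ 0 * (Λ ^ 5)⁻¹) * (Ic + Λ⁻¹ * (1 / 4))) := by
    unfold tt
    field_simp
    ring
  rw [fin]
  rw [abs_le] at s0 s1 sa sb sc ⊢
  constructor <;> linarith [s0.1, s0.2, s1.1, s1.2, sa.1, sa.2, sb.1, sb.2, sc.1, sc.2]

lemma poly_exp_le (N : ℕ) {c : ℝ} (hc : 0 < c) : ∃ C, 0 ≤ C ∧ ∀ D τ : ℝ, 1 ≤ τ → τ ≤ D →
    (1 + D) ^ 7 * exp (-(c * D)) ≤ C * (τ ^ N)⁻¹ := by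
  refine ⟨2 ^ 7 * (N + 7).factorial / c ^ (N + 7), by positivity, fun D τ hτ hD => ?_⟩
  have hD0 : 0 < D := by linarith
  have h1 := pow_div_factorial_le_exp (c * D) (by positivity) (N + 7)
  rw [exp_neg]
  calc _ ≤ (2 * D) ^ 7 * ((c * D) ^ (N + 7) / (N + 7).factorial)⁻¹ := by
        gcongr
        linarith
    _ = 2 ^ 7 * (N + 7).factorial / c ^ (N + 7) * (D ^ N)⁻¹ := by field_simp; ring
    _ ≤ _ := by gcongr

/-- uniform estimates for the lattice sums -/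
lemma lam_all {h : ℝ} (hh : 0 < h) : ∃ C, 0 ≤ C ∧ ∀ μ : ℝ, 1 ≤ μ → ∀ b ∈ Finset.Icc 1 9,
    |h * ∑' n : ℤ, (lam h μ n ^ (b + 1))⁻¹ - Jc b * (μ ^ b)⁻¹| ≤ C * (μ ^ (b + 4))⁻¹ ∧
    ∑' n : ℤ, (lam h μ n ^ (b + 1))⁻¹ ≤ C * (μ ^ b)⁻¹ := by
  have : ∀ b : ℕ, ∃ C, 0 ≤ C ∧ ∀ μ : ℝ, 1 ≤ μ → 1 ≤ b →
      |h * ∑' n : ℤ, (lam h μ n ^ (b + 1))⁻¹ - Jc b * (μ ^ b)⁻¹| ≤ C * (μ ^ (b + 4))⁻¹ ∧
      ∑' n : ℤ, (lam h μ n ^ (b + 1))⁻¹ ≤ C * (μ ^ b)⁻¹ := by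
    intro b
    by_cases hb : 1 ≤ b
    · obtain ⟨C, hC0, hC⟩ := lam_est hb
      refine ⟨C * h ^ 4 + (|Jc b| + C * h ^ 4) / h, by positivity, fun μ hμ _ => ?_⟩
      have hμ0 : 0 < μ := by linarith
      have h1 := hC h μ hh hμ0
      constructor
      · refine h1.trans ?_
        gcongr
        exact le_add_of_nonneg_right (by positivity)
      · have h2 : (μ ^ (b + 4))⁻¹ ≤ (μ ^ b)⁻¹ := by
          gcongr
          omega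
        have h3 : h * ∑' n : ℤ, (lam h μ n ^ (b + 1))⁻¹ ≤ (|Jc b| + C * h ^ 4) * (μ ^ b)⁻¹ := by
          have a1 : Jc b * (μ ^ b)⁻¹ ≤ |Jc b| * (μ ^ b)⁻¹ := by gcongr; exact le_abs_self _
          have a2 : C * h ^ 4 * (μ ^ (b + 4))⁻¹ ≤ C * h ^ 4 * (μ ^ b)⁻¹ := by gcongr
          linarith [(abs_le.1 h1).2]
        rw [← le_div_iff₀' hh] at h3
        refine h3.trans ?_
        rw [← div_mul_eq_mul_div]
        gcongr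
        exact le_add_of_nonneg_left (by positivity)
    · exact ⟨0, le_rfl, fun _ _ h => absurd h hb⟩
  choose C hC0 hC using this
  refine ⟨∑ b ∈ Finset.Icc 1 9, C b, Finset.sum_nonneg fun b _ => hC0 b, fun μ hμ b hb => ?_⟩
  have h1 := hC b μ hμ (Finset.mem_Icc.1 hb).1
  have h2 : C b ≤ ∑ b ∈ Finset.Icc 1 9, C b := Finset.single_le_sum (fun b _ => hC0 b) hb
  have hμ0 : 0 < μ := by linarith
  exact ⟨h1.1.trans (by gcongr), h1.2.trans (by gcongr)⟩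

theorem tt_sum {h : ℝ} (hh : 0 < h) : ∃ C, 0 ≤ C ∧ ∀ μ m0 m1 m2 a b K : ℝ, 1 ≤ μ → 1 ≤ K →
    |m0| ≤ 1 → |m1| ≤ 1 → |m2| ≤ 1 → |a| ≤ K → |b| ≤ K ^ 2 → ∃ S,
    HasSum (fun n : ℤ => tt (lam h μ n) (h * n) m0 m1 m2 a b) S ∧
    |h * S - ((m0 - a * m1) / 2 * (μ ^ 2)⁻¹ - π / 8 * (μ ^ 3)⁻¹ + a / 6 * (μ ^ 4)⁻¹ +
      3 * π / 512 * b * (μ ^ 5)⁻¹)| ≤ C * K ^ 2 * (μ ^ 6)⁻¹ := by
  obtain ⟨C, hC0, hC⟩ := lam_all hh
  refine ⟨48 * C, by positivity, fun μ m0 m1 m2 a b K hμ hK h0 h1 h2 ha hb => ?_⟩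
  have hμ0 : 0 < μ := by linarith
  have hs : ∀ j, 1 ≤ j → HasSum (fun n : ℤ => (lam h μ n ^ (j + 1))⁻¹)
      (∑' n : ℤ, (lam h μ n ^ (j + 1))⁻¹) := fun j hj => (summable_lam hh hμ0 hj).hasSum
  set u := (μ ^ 2)⁻¹ with hu
  have hu0 : 0 ≤ u := by positivity
  have hu1 : u ≤ 1 := inv_le_one_of_one_le₀ (one_le_pow₀ hμ)
  set i := μ⁻¹ with hi
  have hi0 : 0 ≤ i := by positivity
  have hi1 : i ≤ 1 := inv_le_one_of_one_le₀ hμ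
  let g : ℕ → ℝ := fun j => match j with
    | 2 => m0 / 4 - 3 / 4 * (a * m1) + 3 / 4 * (b * m2)
    | 3 => -(1 / 4) * i
    | 4 => 3 / 4 * (a * m1) + 5 / 8 * (a * u) + 1 / 4 * (b * m0 * u) - 21 / 8 * (b * m2)
    | 5 => -(13 / 8) * (b * u * i)
    | 6 => -(5 / 8) * (a * u) - 5 / 4 * (b * m0 * u) + 15 / 8 * (b * m2)
    | 7 => 21 / 4 * (b * u * i)
    | 8 => 35 / 32 * (b * m0 * u)
    | 9 => -(15 / 4) * (b * u * i)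
    | _ => 0
  have K2 : K ≤ K ^ 2 := by nlinarith
  have K3 : 1 ≤ K ^ 2 := hK.trans K2
  have mb : ∀ {x y : ℝ}, |x| ≤ K ^ 2 → |y| ≤ 1 → |x * y| ≤ K ^ 2 := by
    intro x y hx hy
    rw [abs_mul]
    exact (mul_le_of_le_one_right (abs_nonneg _) hy).trans hx
  have au : |u| ≤ 1 := by rwa [abs_of_nonneg hu0]
  have ai : |i| ≤ 1 := by rwa [abs_of_nonneg hi0]
  have p1 := abs_le.1 (mb (ha.trans K2) h1)
  have p2 := abs_le.1 (mb hb h2)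
  have p3 := abs_le.1 (mb (ha.trans K2) au)
  have p4 := abs_le.1 (mb (mb hb h0) au)
  have p5 := abs_le.1 (mb (mb hb au) ai)
  have p6 := abs_le.1 h0
  have hg : ∀ j ∈ Finset.Icc 2 9, |g j| ≤ 6 * K ^ 2 := by
    intro j hj
    obtain ⟨j1, j2⟩ := Finset.mem_Icc.1 hj
    interval_cases j <;> simp only [g] <;> rw [abs_le] <;> constructor <;>
      linarith [p1.1, p1.2, p2.1, p2.2, p3.1, p3.2, p4.1, p4.2, p5.1, p5.2, p6.1, p6.2]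
  refine ⟨∑ j ∈ Finset.Icc 2 9, g j * μ ^ (j - 2) * ∑' n : ℤ, (lam h μ n ^ (j + 1))⁻¹, ?_, ?_⟩
  · have := hasSum_sum (s := Finset.Icc 2 9) fun j hj =>
      (hs j (by linarith [(Finset.mem_Icc.1 hj).1])).mul_left (g j * μ ^ (j - 2))
    refine this.congr_fun fun n => ?_
    have l0 := lam_pos h hμ0 n
    have l1 : (h * n) ^ 2 = lam h μ n ^ 2 - μ ^ 2 := by rw [lam_sq]; ring
    have l2 : (h * n) ^ 4 = (lam h μ n ^ 2 - μ ^ 2) ^ 2 := by rw [← l1]; ring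
    rw [tt, l1, l2]
    simp only [Finset.sum_Icc_succ_top, Nat.reduceLeDiff, Finset.Icc_self, Finset.sum_singleton, g,
      hu, hi, Nat.reduceAdd, Nat.reduceSub]
    field_simp
    ring
  · have e : (m0 - a * m1) / 2 * u - π / 8 * (μ ^ 3)⁻¹ + a / 6 * (μ ^ 4)⁻¹ +
        3 * π / 512 * b * (μ ^ 5)⁻¹ =
        ∑ j ∈ Finset.Icc 2 9, g j * μ ^ (j - 2) * (Jc j * (μ ^ j)⁻¹) := by
      simp only [Finset.sum_Icc_succ_top, Nat.reduceLeDiff, Finset.Icc_self, Finset.sum_singleton,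
        g, hu, hi, Nat.reduceAdd, Nat.reduceSub, Jc_two, Jc_3, Jc_4, Jc_5, Jc_6, Jc_7, Jc_8, Jc_9]
      field_simp
      ring
    rw [e, Finset.mul_sum, ← Finset.sum_sub_distrib]
    refine (Finset.abs_sum_le_sum_abs _ _).trans ?_
    have : ∀ j ∈ Finset.Icc 2 9, |h * (g j * μ ^ (j - 2) * ∑' n : ℤ, (lam h μ n ^ (j + 1))⁻¹) -
        g j * μ ^ (j - 2) * (Jc j * (μ ^ j)⁻¹)| ≤ 6 * K ^ 2 * C * (μ ^ 6)⁻¹ := by
      intro j hj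
      obtain ⟨j1, j2⟩ := Finset.mem_Icc.1 hj
      have a1 := (hC μ hμ j (Finset.mem_Icc.2 ⟨by omega, j2⟩)).1
      have e2 : h * (g j * μ ^ (j - 2) * ∑' n : ℤ, (lam h μ n ^ (j + 1))⁻¹) -
          g j * μ ^ (j - 2) * (Jc j * (μ ^ j)⁻¹) = g j * (μ ^ (j - 2) *
          (h * ∑' n : ℤ, (lam h μ n ^ (j + 1))⁻¹ - Jc j * (μ ^ j)⁻¹)) := by ring
      rw [e2, abs_mul, abs_mul, abs_of_pos (pow_pos hμ0 _)]
      calc _ ≤ 6 * K ^ 2 * (μ ^ (j - 2) * (C * (μ ^ (j + 4))⁻¹)) := by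
            gcongr
            exact hg j hj
        _ = _ := by
            have : μ ^ (j + 4) = μ ^ (j - 2) * μ ^ 6 := by rw [← pow_add]; congr 1; omega
            rw [this]; field_simp
    refine (Finset.sum_le_sum this).trans (le_of_eq ?_)
    simp
    ring

end Pool.Agent.Lib.MP_312682_mp
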