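import Pool.Agent.Lib.MP_312682_mp.Rect
import Pool.Agent.Lib.MP_312682_mp.Sums

/-! The flat cylinder with Dirichlet conditions. -/

open scoped InnerProductSpace ENNReal ContDiff ComplexConjugate Topology
open MeasureTheory Complex Set Filter

set_option linter.unusedSectionVars false

noncomputable section

namespace Pool.Agent.Lib.MP_312682_mp

def cylFns (L δ : ℝ) : Set (ℂ → ℂ) :=
  {u | ContDiff ℝ ∞ u ∧ (∀ z, u (z + L) = u z) ∧
    ∃ ε > 0, ∀ z : ℂ, z.im ≤ ε ∨ δ - ε ≤ z.im → u z = 0}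

variable {L δ μ : ℝ}

lemma memLp_Dv_rect (μ : ℝ) {u : ℂ → ℂ} (hu : ContDiff ℝ ∞ u) : MemLp (Dv μ u) 2 (nu L δ) :=
  memLp_rect (fun _ _ => (continuous_Dv μ hu).continuousAt) 2

lemma core_cyl (L δ : ℝ) : Core (nu L δ) (cylFns L δ) :=
  ⟨fun _ hu => hu.1, fun μ _ hu => memLp_Dv_rect μ hu.1⟩

lemma mul_mem_cyl {f u : ℂ → ℂ} (hf : ContDiff ℝ ∞ f) (hp : ∀ z, f (z + L) = f z)
    (hu : u ∈ cylFns L δ) : (fun z => f z * u z) ∈ cylFns L δ := by
  obtain ⟨h1, h2, ε, hε, h3⟩ := hu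
  exact ⟨hf.mul h1, fun z => by simp only [hp, h2], ε, hε, fun z hz => by simp [h3 z hz]⟩

lemma mult_rect {f : ℂ → ℂ} (hf : ContDiff ℝ ∞ f) : Mult (nu L δ) f :=
  ⟨hf, Bs_rect fun _ _ => hf.continuous.continuousAt,
    Bs_rect fun _ _ => (continuous_d1 hf).continuousAt,
    Bs_rect fun _ _ => (continuous_d2 hf).continuousAt⟩

def PK (L δ μ : ℝ) : L2 (nu L δ) →L[ℂ] L2 (nu L δ) := PC (DL (nu L δ) μ '' cylFns L δ)

lemma d_ten {a b : ℝ → ℂ} {a' b' : ℂ} {z : ℂ} (ha : HasDerivAt a a' z.re)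
    (hb : HasDerivAt b b' z.im) : d1 (fun z => a z.re * b z.im) z = a' * b z.im ∧
      d2 (fun z => a z.re * b z.im) z = a z.re * b' := by
  have h1 := ha.hasFDerivAt.comp z reCLM.hasFDerivAt
  have h2 := hb.hasFDerivAt.comp z imCLM.hasFDerivAt
  have h3 : HasFDerivAt (fun z : ℂ => a z.re * b z.im) _ z := h1.mul h2
  constructor
  · rw [d1, h3.fderiv]; simp [mul_comm]
  · rw [d2, h3.fderiv]; simp

lemma contDiff_re' : ContDiff ℝ ∞ fun z : ℂ => z.re := reCLM.contDiff
lemma contDiff_im' : ContDiff ℝ ∞ fun z : ℂ => z.im := imCLM.contDiff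

lemma d_conj {u : ℂ → ℂ} {z : ℂ} (hu : DifferentiableAt ℝ u z) :
    d1 (fun z => conj (u z)) z = conj (d1 u z) ∧ d2 (fun z => conj (u z)) z = conj (d2 u z) := by
  have h : HasFDerivAt (fun z => conj (u z)) _ z :=
    (conjCLE : ℂ →L[ℝ] ℂ).hasFDerivAt.comp z hu.hasFDerivAt
  constructor
  · rw [d1, h.fderiv]; rfl
  · rw [d2, h.fderiv]; rfl

lemma contDiff_conj' {u : ℂ → ℂ} (hu : ContDiff ℝ ∞ u) : ContDiff ℝ ∞ fun z => conj (u z) :=
  conjCLE.contDiff.comp hu

lemma exists_K : ∃ K, 1 ≤ K ∧ ∀ t, |deriv Real.smoothTransition t| ≤ K := by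
  have hc : Continuous (deriv Real.smoothTransition) :=
    (Real.smoothTransition.contDiff (n := 1)).continuous_deriv le_rfl
  obtain ⟨C, hC⟩ := isCompact_Icc.exists_bound_of_continuousOn (s := Icc (0 : ℝ) 1) hc.continuousOn
  refine ⟨max C 1, le_max_right _ _, fun t => ?_⟩
  by_cases h : t ∈ Icc (0 : ℝ) 1
  · exact (hC t h).trans (le_max_left _ _)
  · have : deriv Real.smoothTransition t = 0 := by
      rcases not_and_or.1 h with h | h
      · have : Real.smoothTransition =ᶠ[𝓝 t] fun _ => 0 := by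
          filter_upwards [gt_mem_nhds (not_le.1 h)] with y hy
          exact Real.smoothTransition.zero_of_nonpos hy.le
        rw [this.deriv_eq, deriv_const]
      · have : Real.smoothTransition =ᶠ[𝓝 t] fun _ => 1 := by
          filter_upwards [lt_mem_nhds (not_le.1 h)] with y hy
          exact Real.smoothTransition.one_of_one_le hy.le
        rw [this.deriv_eq, deriv_const]
    rw [this, abs_zero]; exact zero_le_one.trans (le_max_right _ _)

/-- a bound for the slope of the smooth transition function -/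
def KT : ℝ := exists_K.choose

lemma one_le_KT : 1 ≤ KT := exists_K.choose_spec.1

/-- smooth step, `0` below `a` and `1` above `a + w` -/
def stp (a w x : ℝ) : ℝ := Real.smoothTransition ((x - a) / w)

lemma contDiff_stp (a w : ℝ) : ContDiff ℝ ∞ (stp a w) :=
  Real.smoothTransition.contDiff.comp (by fun_prop)

lemma stp_nonneg (a w x : ℝ) : 0 ≤ stp a w x := Real.smoothTransition.nonneg _
lemma stp_le_one (a w x : ℝ) : stp a w x ≤ 1 := Real.smoothTransition.le_one _

lemma stp_zero {a w x : ℝ} (hw : 0 < w) (h : x ≤ a) : stp a w x = 0 :=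
  Real.smoothTransition.zero_of_nonpos (div_nonpos_of_nonpos_of_nonneg (by linarith) hw.le)

lemma stp_one {a w x : ℝ} (hw : 0 < w) (h : a + w ≤ x) : stp a w x = 1 :=
  Real.smoothTransition.one_of_one_le (by rw [le_div_iff₀ hw]; linarith)

lemma hd_stp (a w x : ℝ) : HasDerivAt (stp a w) (deriv (stp a w) x) x :=
  ((contDiff_stp a w).differentiable (by simp) x).hasDerivAt

lemma deriv_stp_le (a : ℝ) {w : ℝ} (hw : 0 < w) (x : ℝ) : |deriv (stp a w) x| ≤ KT / w := by
  have h1 := ((Real.smoothTransition.contDiff (n := 1)).differentiable one_ne_zero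
    ((x - a) / w)).hasDerivAt.comp x (((hasDerivAt_id x).sub_const a).div_const w)
  have h2 : deriv (stp a w) x = _ := h1.deriv
  rw [h2, abs_mul, abs_of_pos (a := 1 / w) (by positivity), mul_one_div]
  gcongr
  exact exists_K.choose_spec.2 _

lemma deriv_stp_zero {a w x : ℝ} (hw : 0 < w) (h : x < a ∨ a + w < x) : deriv (stp a w) x = 0 := by
  rcases h with h | h
  · have : stp a w =ᶠ[𝓝 x] fun _ => 0 := by
      filter_upwards [gt_mem_nhds h] with y hy using stp_zero hw hy.le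
    rw [this.deriv_eq, deriv_const]
  · have : stp a w =ᶠ[𝓝 x] fun _ => 1 := by
      filter_upwards [lt_mem_nhds h] with y hy using stp_one hw hy.le
    rw [this.deriv_eq, deriv_const]

lemma tl_mem_cl {α : Type*} [MeasurableSpace α] {ν : Measure α} [IsFiniteMeasure ν]
    {s : Set (L2 ν)} {f : α → E3} (hf : MemLp f 2 ν) {F : ℝ → α → E3}
    (hF : ∀ ε > 0, MemLp (F ε) 2 ν ∧ tl ν (F ε) ∈ cl s) {C : ℝ}
    (hb : ∀ ε > 0, ∀ᵐ z ∂ν, ‖F ε z - f z‖ ≤ C)
    (hl : ∀ᵐ z ∂ν, ∀ᶠ ε in 𝓝[>] 0, F ε z = f z) : tl ν f ∈ cl s := by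
  have h1 : Tendsto (fun ε => ∫ z, ‖F ε z - f z‖ ^ 2 ∂ν) (𝓝[>] 0) (𝓝 (∫ _, 0 ∂ν)) := by
    refine tendsto_integral_filter_of_dominated_convergence (fun _ => C ^ 2) ?_ ?_
      (integrable_const _) ?_
    · filter_upwards [self_mem_nhdsWithin] with ε hε
      exact ((hF ε hε).1.1.sub hf.1).norm.pow 2
    · filter_upwards [self_mem_nhdsWithin] with ε hε
      filter_upwards [hb ε hε] with z hz
      rw [Real.norm_of_nonneg (by positivity)]
      gcongr
    · filter_upwards [hl] with z hz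
      refine tendsto_const_nhds.congr' ?_
      filter_upwards [hz] with ε hε
      simp [hε]
  rw [integral_zero] at h1
  have h2 : Tendsto (fun ε => tl ν (F ε)) (𝓝[>] 0) (𝓝 (tl ν f)) := by
    rw [tendsto_iff_norm_sub_tendsto_zero]
    have h3 := h1.sqrt
    rw [Real.sqrt_zero] at h3
    refine h3.congr' ?_
    filter_upwards [self_mem_nhdsWithin] with ε hε
    rw [← Real.sqrt_sq (norm_nonneg (tl ν (F ε) - tl ν f)), norm_sq_L2]
    congr 1
    refine integral_congr_ae ?_
    filter_upwards [Lp.coeFn_sub (tl ν (F ε)) (tl ν f), tl_coe hf, tl_coe (hF ε hε).1]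
      with z a1 a2 a3
    rw [a1, Pi.sub_apply, a2, a3]
  refine (isClosed_cl s).mem_of_tendsto h2 ?_
  filter_upwards [self_mem_nhdsWithin] with ε hε using (hF ε hε).2

lemma norm_E3_le (v : E3) : ‖v‖ ≤ ‖v 0‖ + ‖v 1‖ + ‖v 2‖ := by
  refine (pow_le_pow_iff_left₀ (norm_nonneg _) (by positivity) two_ne_zero).1 ?_
  rw [norm_sq_E3]
  have a := norm_nonneg (v 0)
  have b := norm_nonneg (v 1)
  have c := norm_nonneg (v 2)
  nlinarith [mul_nonneg a b, mul_nonneg a c, mul_nonneg b c]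

lemma mem_cyl_cl (hδ : 0 < δ) (μ : ℝ) {u : ℂ → ℂ} (hu : ContDiff ℝ ∞ u)
    (hp : ∀ z, u (z + L) = u z) (h0 : ∀ z, z.im = 0 ∨ z.im = δ → u z = 0) :
    DL (nu L δ) μ u ∈ cl (DL (nu L δ) μ '' cylFns L δ) := by
  let θ : ℝ → ℝ → ℝ := fun ε x => stp ε ε x * stp ε ε (δ - x)
  let θ' : ℝ → ℝ → ℝ := fun ε x =>
    deriv (stp ε ε) x * stp ε ε (δ - x) - stp ε ε x * deriv (stp ε ε) (δ - x)
  have hθ : ∀ ε x, HasDerivAt (fun x => (θ ε x : ℂ)) (θ' ε x) x := by
    intro ε x
    refine (((hd_stp ε ε x).mul ((hd_stp ε ε (δ - x)).comp x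
      ((hasDerivAt_id x).const_sub δ))).congr_deriv (by simp [θ']; ring)).ofReal_comp
  have hs : ∀ ε, ContDiff ℝ ∞ fun z : ℂ => (θ ε z.im : ℂ) := fun ε =>
    ofRealCLM.contDiff.comp (((contDiff_stp ε ε).mul
      ((contDiff_stp ε ε).comp (by fun_prop))).comp contDiff_im')
  have hD : ∀ ε z, Dv μ (fun z => θ ε z.im * u z) z =
      (θ ε z.im : ℂ) • Dv μ u z + !₂[0, 0, θ' ε z.im * u z] := by
    intro ε z
    have a1 := (hs ε).differentiable (by simp) z
    have a2 := hu.differentiable (by simp) z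
    have a3 := d_ten (a := fun _ => 1) (hasDerivAt_const z.re (1 : ℂ)) (hθ ε z.im)
    simp only [one_mul, zero_mul] at a3
    refine E3_ext ?_ ?_ ?_
    · simp; ring
    · simp [d1_mul a1 a2, a3.1]
    · simp [d2_mul a1 a2, a3.2]
  obtain ⟨M, hM⟩ := (compact_box L δ).exists_bound_of_continuousOn
    (continuous_Dv μ hu).continuousOn
  have hM0 : ∀ z ∈ rect L δ, 0 ≤ M := fun z hz =>
    (norm_nonneg _).trans (hM z (rect_subset L δ hz))
  have hlip : ∀ z ∈ rect L δ, ‖u z‖ ≤ M * z.im ∧ ‖u z‖ ≤ M * (δ - z.im) := by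
    intro z hz
    have key : ∀ y ∈ Icc 0 δ, ‖u (z.re + z.im * I) - u (z.re + y * I)‖ ≤ M * ‖z.im - y‖ :=
      fun y hy => (convex_Icc 0 δ).norm_image_sub_le_of_norm_hasDerivWithin_le
        (f := fun x : ℝ => u (z.re + x * I)) (f' := fun x : ℝ => d2 u (z.re + x * I))
        (fun x _ => (hd_line2 (hu.differentiable (by simp) _)).hasDerivWithinAt)
        (fun x hx => (PiLp.norm_apply_le (Dv μ u (z.re + x * I)) 2).trans
          (hM _ ⟨by simpa using Ioc_subset_Icc_self hz.1, by simpa using hx⟩))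
        hy (Ioc_subset_Icc_self hz.2)
    have k1 := key 0 ⟨le_rfl, hδ.le⟩
    have k2 := key δ ⟨hδ.le, le_rfl⟩
    rw [re_add_im, h0 (z.re + (0 : ℝ) * I) (Or.inl (by simp)), sub_zero, sub_zero,
      Real.norm_of_nonneg hz.2.1.le] at k1
    rw [re_add_im, h0 (z.re + δ * I) (Or.inr (by simp)), sub_zero, norm_sub_rev,
      Real.norm_of_nonneg (sub_nonneg.2 hz.2.2)] at k2
    exact ⟨k1, k2⟩
  have hK := one_le_KT
  have small : ∀ ε > 0, ∀ {x : ℝ} {w : ℂ}, 0 ≤ M → ‖w‖ ≤ M * x →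
      |deriv (stp ε ε) x| * ‖w‖ ≤ 2 * KT * M := by
    intro ε hε x w hM0 hw
    by_cases h : ε + ε < x
    · rw [deriv_stp_zero hε (Or.inr h), abs_zero, zero_mul]; positivity
    · calc _ ≤ KT / ε * (M * (ε + ε)) := by
            refine mul_le_mul (deriv_stp_le ε hε x) (hw.trans ?_) (norm_nonneg _) (by positivity)
            gcongr
            exact not_lt.1 h
        _ = _ := by field_simp; ring
  refine tl_mem_cl (memLp_Dv_rect μ hu) (F := fun ε => Dv μ fun z => θ ε z.im * u z)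
    (fun ε hε => ⟨memLp_Dv_rect μ ((hs ε).mul hu), mem_cl ⟨_, ⟨(hs ε).mul hu, fun z => ?_, ε, hε,
      fun z hz => ?_⟩, rfl⟩⟩) (C := M + 4 * KT * M) (fun ε hε => ?_) ?_
  · simp [hp]
  · rcases hz with hz | hz
    · simp [θ, stp_zero hε hz]
    · simp [θ, stp_zero hε (show δ - z.im ≤ ε by linarith)]
  · filter_upwards [ae_rect L δ] with z hz
    have e : Dv μ (fun z => θ ε z.im * u z) z - Dv μ u z =
        ((θ ε z.im - 1 : ℝ) : ℂ) • Dv μ u z + !₂[0, 0, θ' ε z.im * u z] := by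
      rw [hD]; push_cast; rw [sub_smul, one_smul]; abel
    rw [e]
    have t0 : 0 ≤ θ ε z.im := mul_nonneg (stp_nonneg _ _ _) (stp_nonneg _ _ _)
    have t1 : θ ε z.im ≤ 1 := mul_le_one₀ (stp_le_one _ _ _) (stp_nonneg _ _ _) (stp_le_one _ _ _)
    refine (norm_add_le _ _).trans (add_le_add ?_ ((norm_E3_le _).trans ?_))
    · rw [norm_smul, norm_real, Real.norm_eq_abs]
      refine (mul_le_of_le_one_left (norm_nonneg _) ?_).trans (hM z (rect_subset L δ hz))
      rw [abs_le]; constructor <;> linarith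
    · have b1 := small ε hε (hM0 z hz) (hlip z hz).1
      have b2 := small ε hε (hM0 z hz) (hlip z hz).2
      have b3 : |θ' ε z.im| ≤ |deriv (stp ε ε) z.im| + |deriv (stp ε ε) (δ - z.im)| := by
        refine (abs_sub _ _).trans (add_le_add ?_ ?_)
        · rw [abs_mul, abs_of_nonneg (stp_nonneg _ _ _)]
          exact mul_le_of_le_one_right (abs_nonneg _) (stp_le_one _ _ _)
        · rw [abs_mul, abs_of_nonneg (stp_nonneg _ _ _)]
          exact mul_le_of_le_one_left (abs_nonneg _) (stp_le_one _ _ _)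
      have b4 := mul_le_mul_of_nonneg_right b3 (norm_nonneg (u z))
      simp only [PiLp.toLp_apply, Matrix.cons_val_zero, norm_zero, Matrix.cons_val_one,
        Matrix.cons_val, norm_mul, norm_real, Real.norm_eq_abs]
      linarith
  · have hne : ∀ᵐ z ∂nu L δ, z.im ≠ δ := by
      have : ∀ᵐ p ∂rho L δ, p.2 ≠ δ :=
        (Measure.quasiMeasurePreserving_snd (μ := volume.restrict (Ioc 0 L))
          (ν := volume.restrict (Ioc 0 δ))).ae (Measure.ae_ne _ δ)
      exact ((mp_rect L δ).symm _).quasiMeasurePreserving.ae this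
    filter_upwards [ae_rect L δ, hne] with z hz hz'
    have a1 : 0 < z.im := hz.2.1
    have a2 : 0 < δ - z.im := sub_pos.2 (lt_of_le_of_ne hz.2.2 hz')
    have ev : ∀ x : ℝ, 0 < x → ∀ᶠ ε in 𝓝[>] (0 : ℝ), ε + ε < x := fun x hx =>
      nhdsWithin_le_nhds (by
        filter_upwards [gt_mem_nhds (half_pos hx)] with ε hε
        show ε + ε < x
        linarith)
    filter_upwards [self_mem_nhdsWithin, ev _ a1, ev _ a2] with ε hε b1 b2
    rw [hD]
    simp only [θ, θ', stp_one hε b1.le, stp_one hε b2.le, deriv_stp_zero hε (Or.inr b1),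
      deriv_stp_zero hε (Or.inr b2)]
    refine E3_ext ?_ ?_ ?_ <;> simp

def xi (L : ℝ) (n : ℤ) : ℝ := 2 * Real.pi / L * n
def La (L μ : ℝ) (n : ℤ) : ℝ := lam (2 * Real.pi / L) μ n

lemma La_sq (L μ : ℝ) (n : ℤ) : La L μ n ^ 2 = xi L n ^ 2 + μ ^ 2 := lam_sq _ _ _

lemma PK_tv (hL : 0 < L) (hδ : 0 < δ) (hμ : 0 < μ) (n : ℤ) {a b : ℝ → ℂ} (ha : ContDiff ℝ ∞ a)
    (hb : ContDiff ℝ ∞ b) {f : ℝ → ℂ} (hf : ∀ x, f x = μ * a x - I * xi L n * b x) :
    PK L δ μ (tv L δ n a b 0) = tv L δ n (fun x => μ * Sol (La L μ n) δ f x)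
      (fun x => I * xi L n * Sol (La L μ n) δ f x) (Sol' (La L μ n) δ f) := by
  have hΛ : 0 < La L μ n := lam_pos _ hμ n
  have hfs : ContDiff ℝ ∞ f := by
    rw [show f = _ from funext hf]; fun_prop
  set U := Sol (La L μ n) δ f with hU
  set U' := Sol' (La L μ n) δ f with hU'
  have s1 : ContDiff ℝ ∞ U := contDiff_Sol hfs
  have d1U : ∀ x, HasDerivAt U (U' x) x := hd_Sol hfs.continuous
  have d2U : ∀ x, HasDerivAt U' (La L μ n ^ 2 • U x - f x) x := hd_Sol' hΛ hδ hfs.continuous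
  have s2 : ContDiff ℝ ∞ U' := by
    have : U' = deriv U := funext fun x => (d1U x).deriv.symm
    rw [this]; exact (contDiff_infty_iff_deriv.1 s1).2
  have se : ContDiff ℝ ∞ fun z : ℂ => ex L n z.re := (contDiff_ex L n).comp contDiff_re'
  have su : ContDiff ℝ ∞ fun z : ℂ => ex L n z.re * U z.im := se.mul (s1.comp contDiff_im')
  have c0 := s1.continuous
  have hw : tv L δ n (fun x => μ * U x) (fun x => I * xi L n * U x) U' =
      DL (nu L δ) μ fun z => ex L n z.re * U z.im := by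
    rw [tv, DL]
    congr 1
    ext1 z
    have := d_ten (hd_ex L n z.re) (d1U z.im)
    refine E3_ext ?_ ?_ ?_
    · simp; ring
    · simp [this.1, xi]; ring
    · simp [this.2]
  refine PC_eq ?_ ?_
  · rw [hw]
    refine mem_cyl_cl hδ μ su (fun z => by simp [ex_periodic hL]) fun z hz => ?_
    rcases hz with hz | hz <;> simp [hz, hU, Sol_zero, Sol_end]
  · rintro _ ⟨φ, hφ, rfl⟩
    obtain ⟨p1, p2, ε, hε, p3⟩ := hφ
    rw [inner_eq_zero_symm, L2.inner_def]
    have sc := contDiff_conj' p1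
    have sb : ContDiff ℝ ∞ fun x => b x - I * xi L n * U x := by fun_prop
    have sG1 : ContDiff ℝ ∞ fun z : ℂ => ex L n z.re * (b z.im - I * xi L n * U z.im) :=
      se.mul (sb.comp contDiff_im')
    have sG2 : ContDiff ℝ ∞ fun z : ℂ => ex L n z.re * U' z.im := se.mul (s2.comp contDiff_im')
    have sF1 := sc.mul sG1
    have sF2 := sc.mul sG2
    have i1 := ibp1 hL.le hδ.le (fun z _ => (sF1.of_le (by simp)).contDiffAt)
      (fun z => by simp [p2, ex_periodic hL])
    have i2 := ibp2 hL.le hδ.le (fun z _ => (sF2.of_le (by simp)).contDiffAt)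
      (fun z hz => by
        rw [p3 z (by rcases hz with hz | hz; exacts [Or.inl (by linarith), Or.inr (by linarith)])]
        simp)
    rw [← sub_zero (0 : ℂ)]
    nth_rw 1 [← i1]
    rw [← i2, ← integral_sub (integrable_rect fun _ _ => (continuous_d1 sF1).continuousAt)
      (integrable_rect fun _ _ => (continuous_d2 sF2).continuousAt)]
    refine integral_congr_ae ?_
    filter_upwards [tl_coe (memLp_Dv_rect (L := L) (δ := δ) μ p1), Lp.coeFn_sub (tv L δ n a b 0)
      (tv L δ n (fun x => μ * U x) (fun x => I * xi L n * U x) U'),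
      tv_coe (L := L) (δ := δ) n ha.continuous hb.continuous continuous_zero,
      tv_coe (L := L) (δ := δ) n (a := fun x => μ * U x) (b := fun x => I * xi L n * U x)
        (by fun_prop) (by fun_prop) s2.continuous] with z e1 e2 e3 e4
    rw [DL, e1, e2, Pi.sub_apply, e3, e4, inner_E3,
      d1_mul (sc.differentiable (by simp) z) (sG1.differentiable (by simp) z),
      d2_mul (sc.differentiable (by simp) z) (sG2.differentiable (by simp) z),
      (d_conj (p1.differentiable (by simp) z)).1, (d_conj (p1.differentiable (by simp) z)).2,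
      (d_ten (hd_ex L n z.re) (sb.differentiable (by simp) z.im).hasDerivAt).1,
      (d_ten (hd_ex L n z.re) (d2U z.im)).2, La_sq, hf]
    simp only [Dv_0, Dv_1, Dv_2, PiLp.sub_apply, PiLp.smul_apply, PiLp.toLp_apply,
      Matrix.cons_val_zero, Matrix.cons_val_one, Matrix.cons_val, smul_eq_mul, map_mul,
      conj_ofReal, Pi.zero_apply, real_smul, xi]
    push_cast
    ring_nf
    simp only [I_sq]
    ring

def dg3 (a b c : ℂ) : Mat := !![a, 0, 0; 0, b, 0; 0, 0, c]

lemma continuous_dg3 {α : Type*} [TopologicalSpace α] {a b c : α → ℂ} {z : α}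
    (ha : ContinuousAt a z) (hb : ContinuousAt b z) (hc : ContinuousAt c z) :
    ContinuousAt (fun z => dg3 (a z) (b z) (c z)) z := by
  refine continuousAt_pi.2 fun i => continuousAt_pi.2 fun j => ?_
  fin_cases i <;> fin_cases j <;> simp [dg3, *, continuousAt_const]

/-- diagonal multiplier depending on the normal variable only -/
def dm (L δ : ℝ) (a b c : ℝ → ℂ) : L2 (nu L δ) →L[ℂ] L2 (nu L δ) :=
  mm (nu L δ) fun z => dg3 (a z.im) (b z.im) (c z.im)

lemma Bd_dm {a b c : ℝ → ℂ} (ha : Continuous a) (hb : Continuous b) (hc : Continuous c) :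
    Bd (nu L δ) fun z => dg3 (a z.im) (b z.im) (c z.im) :=
  Bd_rect fun _ _ => continuous_dg3 (ha.comp continuous_im).continuousAt
    (hb.comp continuous_im).continuousAt (hc.comp continuous_im).continuousAt

lemma dm_tv (n : ℤ) {a b c f g h f' g' h' : ℝ → ℂ} (ha : Continuous a) (hb : Continuous b)
    (hc : Continuous c) (hf : Continuous f) (hg : Continuous g) (hh : Continuous h)
    (e1 : ∀ x, f' x = a x * f x) (e2 : ∀ x, g' x = b x * g x) (e3 : ∀ x, h' x = c x * h x) :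
    dm L δ a b c (tv L δ n f g h) = tv L δ n f' g' h' := by
  obtain rfl : f' = _ := funext e1
  obtain rfl : g' = _ := funext e2
  obtain rfl : h' = _ := funext e3
  ext1
  filter_upwards [mm_coe (Bd_dm ha hb hc) (tv L δ n f g h), tv_coe (L := L) (δ := δ) n hf hg hh,
    tv_coe (L := L) (δ := δ) n (ha.mul hf) (hb.mul hg) (hc.mul hh)] with z e1 e2 e3
  rw [dm, e1, e2]
  refine Eq.trans ?_ e3.symm
  refine E3_ext ?_ ?_ ?_ <;> simp [act_apply, dg3]

lemma p0_tv (n : ℤ) {f g h : ℝ → ℂ} (hf : Continuous f) (hg : Continuous g) (hh : Continuous h) :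
    p0 (nu L δ) (tv L δ n f g h) = tv L δ n f 0 0 :=
  dm_tv (a := fun _ => 1) (b := fun _ => 0) (c := fun _ => 0) n continuous_const continuous_const
    continuous_const hf hg hh (by simp) (by simp) (by simp)

lemma tv_sub (n : ℤ) {f g h f' g' h' a b c : ℝ → ℂ} (hf : Continuous f) (hg : Continuous g)
    (hh : Continuous h) (hf' : Continuous f') (hg' : Continuous g') (hh' : Continuous h')
    (e1 : ∀ x, a x = f x - f' x) (e2 : ∀ x, b x = g x - g' x) (e3 : ∀ x, c x = h x - h' x) :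
    tv L δ n f g h - tv L δ n f' g' h' = tv L δ n a b c := by
  obtain rfl : a = _ := funext e1
  obtain rfl : b = _ := funext e2
  obtain rfl : c = _ := funext e3
  ext1
  filter_upwards [Lp.coeFn_sub (tv L δ n f g h) (tv L δ n f' g' h'),
    tv_coe (L := L) (δ := δ) n hf hg hh, tv_coe (L := L) (δ := δ) n hf' hg' hh',
    tv_coe (L := L) (δ := δ) n (hf.sub hf') (hg.sub hg') (hh.sub hh')] with z e1 e2 e3 e4
  rw [e1, Pi.sub_apply, e2, e3]
  refine Eq.trans ?_ e4.symm
  refine E3_ext ?_ ?_ ?_ <;> simp <;> ring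

lemma inner_kappa (hL : 0 < L) (hδ : 0 < δ) (n : ℤ) {f g h f' g' h' : ℝ → ℂ} (hf : Continuous f)
    (hg : Continuous g) (hh : Continuous h) (hf' : Continuous f') (hg' : Continuous g')
    (hh' : Continuous h') {κ : ℝ → ℂ} (hκ : Continuous κ) :
    ⟪tv L δ n f g h, sm (nu L δ) (fun z => κ z.re) (tv L δ n f' g' h')⟫_ℂ =
      ((L⁻¹ : ℝ) * ∫ s in (0 : ℝ)..L, κ s) * ∫ x in (0 : ℝ)..δ,
        (conj (f x) * f' x + conj (g x) * g' x + conj (h x) * h' x) := by
  rw [L2.inner_def]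
  have : ∫ z, ⟪tv L δ n f g h z, sm (nu L δ) (fun z => κ z.re) (tv L δ n f' g' h') z⟫_ℂ ∂nu L δ =
      ∫ z, ((L⁻¹ : ℝ) * κ z.re) * (conj (f z.im) * f' z.im + conj (g z.im) * g' z.im +
        conj (h z.im) * h' z.im) ∂nu L δ := by
    refine integral_congr_ae ?_
    filter_upwards [sm_coe (Bs_rect fun _ _ => (hκ.comp continuous_re).continuousAt)
      (tv L δ n f' g' h'), tv_coe (L := L) (δ := δ) n hf hg hh,
      tv_coe (L := L) (δ := δ) n hf' hg' hh'] with z e1 e2 e3
    rw [e2]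
    erw [e1]
    rw [e3, inner_E3, ← conj_ex_mul hL n z.re]
    simp
    ring
  rw [this, int_rect hL.le hδ.le (integrable_rect fun _ _ => Continuous.continuousAt (by fun_prop))]
  simp only [add_re, ofReal_re, mul_re, I_re, mul_zero, ofReal_im, I_im, mul_one, sub_self,
    add_zero, add_im, mul_im, zero_add, intervalIntegral.integral_const_mul,
    intervalIntegral.integral_mul_const]

end Pool.Agent.Lib.MP_312682_mp
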