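import Pool.Agent.Lib.MP_312682_mp.Cyl

/-! Explicit Hilbert-Schmidt norms on the flat cylinder. -/

open scoped InnerProductSpace ENNReal ContDiff ComplexConjugate Topology
open MeasureTheory Complex Set Filter

set_option linter.unusedSectionVars false

noncomputable section

namespace Pool.Agent.Lib.MP_312682_mp

lemma sum_compare {α : Type*} [MeasurableSpace α] {ν : Measure α} [IsFiniteMeasure ν]
    {F : ℤ × ℤ → α → ℝ} (hF : ∀ i, Integrable (F i) ν) (h0 : ∀ i z, 0 ≤ F i z) {H : ℝ}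
    (hs : HasSum (fun i => ∫ z, F i z ∂ν) H) {X E : ℤ → α → ℝ}
    (hX : ∀ n, ∀ᵐ z ∂ν, HasSum (fun k => F (n, k) z) (X n z)) (hE : ∀ n, Integrable (E n) ν)
    {err : ℤ → ℝ} (herr : ∀ n, ∀ᵐ z ∂ν, |X n z - E n z| ≤ err n) :
    ∃ R : ℤ → ℝ, HasSum R H ∧ ∀ n, |R n - ∫ z, E n z ∂ν| ≤ err n * ν.real univ := by
  refine ⟨fun n => ∫ z, X n z ∂ν, hs.prod_fiberwise fun n => ?_, fun n => ?_⟩
  · have h1 := hasSum_integral_of_summable_integral_norm (F := fun k => F (n, k))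
      (fun k => hF _) (by
        simp_rw [Real.norm_of_nonneg (h0 _ _)]
        exact hs.summable.prod_factor n)
    have h2 : ∫ z, ∑' k, F (n, k) z ∂ν = ∫ z, X n z ∂ν :=
      integral_congr_ae (by filter_upwards [hX n] with z hz using hz.tsum_eq)
    rwa [h2] at h1
  · have hm : AEStronglyMeasurable (X n) ν :=
      aestronglyMeasurable_of_tendsto_ae (atTop : Filter (Finset ℤ))
        (f := fun s z => ∑ k ∈ s, F (n, k) z)
        (fun s => Finset.aestronglyMeasurable_fun_sum _ fun k _ => (hF _).1) (hX n)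
    have h1 : Integrable (fun z => X n z - E n z) ν :=
      Integrable.of_bound (hm.sub (hE n).1) (err n) (herr n)
    have h2 : Integrable (X n) ν := (h1.add (hE n)).congr (ae_of_all _ fun z => by simp)
    rw [← integral_sub h2 (hE n)]
    exact norm_integral_le_of_norm_le_const (f := fun z => X n z - E n z) (herr n)

variable {L δ μ : ℝ}

def u0 (L δ μ : ℝ) (i : ℤ × ℤ) : ℝ → ℂ := Sol (La L μ i.1) δ (ex δ i.2)
def f1 (L δ μ : ℝ) (i : ℤ × ℤ) (x : ℝ) : ℂ := (2 * xi L i.1 ^ 2 * x) • u0 L δ μ i x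
def u1 (L δ μ : ℝ) (i : ℤ × ℤ) : ℝ → ℂ := Sol (La L μ i.1) δ (f1 L δ μ i)
def f2 (L δ μ : ℝ) (i : ℤ × ℤ) (x : ℝ) : ℂ :=
  (2 * xi L i.1 ^ 2 * x) • u1 L δ μ i x - (3 * xi L i.1 ^ 2 * x ^ 2 - 1 / 4) • u0 L δ μ i x
def u2 (L δ μ : ℝ) (i : ℤ × ℤ) : ℝ → ℂ := Sol (La L μ i.1) δ (f2 L δ μ i)

lemma s_u0 (L δ μ : ℝ) (i : ℤ × ℤ) : ContDiff ℝ ∞ (u0 L δ μ i) := contDiff_Sol (contDiff_ex _ _)
lemma s_f1 (L δ μ : ℝ) (i : ℤ × ℤ) : ContDiff ℝ ∞ (f1 L δ μ i) := by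
  have := s_u0 L δ μ i; unfold f1; fun_prop
lemma s_u1 (L δ μ : ℝ) (i : ℤ × ℤ) : ContDiff ℝ ∞ (u1 L δ μ i) := contDiff_Sol (s_f1 _ _ _ _)
lemma s_f2 (L δ μ : ℝ) (i : ℤ × ℤ) : ContDiff ℝ ∞ (f2 L δ μ i) := by
  have := s_u0 L δ μ i; have := s_u1 L δ μ i; unfold f2; fun_prop
lemma s_u2 (L δ μ : ℝ) (i : ℤ × ℤ) : ContDiff ℝ ∞ (u2 L δ μ i) := contDiff_Sol (s_f2 _ _ _ _)

lemma s_ofReal : ContDiff ℝ ∞ fun x : ℝ => (x : ℂ) := ofRealCLM.contDiff

section

variable (hL : 0 < L) (hδ : 0 < δ) (hμ : 0 < μ)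
include hL hδ hμ

lemma PK_tv' (n : ℤ) {a b h : ℝ → ℂ} (ha : ContDiff ℝ ∞ a) (hb : ContDiff ℝ ∞ b)
    (hh : Continuous h) (hf : ∀ x, μ * h x = μ * a x - I * xi L n * b x) :
    ∃ c, Continuous c ∧ PK L δ μ (tv L δ n a b 0) =
      tv L δ n (fun x => μ ^ 2 * Sol (La L μ n) δ h x)
        (fun x => I * xi L n * μ * Sol (La L μ n) δ h x) c := by
  refine ⟨_, continuous_Sol' (Λ := La L μ n) (lam_pos _ hμ n) hδ (h := fun x => μ • h x) (by fun_prop), ?_⟩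
  rw [PK_tv hL hδ hμ n ha hb (f := fun x => μ • h x) fun x => by rw [← hf, real_smul]]
  congr 1 <;> ext x <;> rw [Sol_smul, real_smul] <;> ring

def A1 (L δ : ℝ) : L2 (nu L δ) →L[ℂ] L2 (nu L δ) := dm L δ 0 (fun x => 2 * x) 0
def A2 (L δ μ : ℝ) : L2 (nu L δ) →L[ℂ] L2 (nu L δ) :=
  dm L δ (fun _ => -(4 * μ ^ 2 : ℂ)⁻¹) (fun x => 3 * x ^ 2) 0

lemma PW0 (i : ℤ × ℤ) : ∃ c, Continuous c ∧ PK L δ μ (p0 (nu L δ) (fr L δ i)) =
    tv L δ i.1 (fun x => μ ^ 2 * u0 L δ μ i x) (fun x => I * xi L i.1 * μ * u0 L δ μ i x) c := by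
  rw [fr, p0_tv _ (continuous_ex _ _) continuous_zero continuous_zero]
  exact PK_tv' hL hδ hμ i.1 (contDiff_ex _ _) contDiff_const (continuous_ex _ _) (by simp)

lemma V0 (i : ℤ × ℤ) : (p0 (nu L δ) * PK L δ μ * p0 (nu L δ)) (fr L δ i) =
    tv L δ i.1 (fun x => μ ^ 2 * u0 L δ μ i x) 0 0 := by
  obtain ⟨c, hc, h⟩ := PW0 hL hδ hμ i
  have := (s_u0 L δ μ i).continuous
  simp only [mul_apply_eq_comp]
  rw [h, p0_tv _ (by fun_prop) (by fun_prop) hc]

lemma PW0' (i : ℤ × ℤ) : A1 L δ (PK L δ μ (p0 (nu L δ) (fr L δ i))) =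
    tv L δ i.1 0 (fun x => 2 * x * (I * xi L i.1 * μ * u0 L δ μ i x)) 0 := by
  obtain ⟨c, hc, h⟩ := PW0 hL hδ hμ i
  have := (s_u0 L δ μ i).continuous
  rw [h]
  exact dm_tv _ continuous_zero (by fun_prop) continuous_zero (by fun_prop) (by fun_prop) hc
    (by simp) (by simp) (by simp)

lemma PW1 (i : ℤ × ℤ) : ∃ c, Continuous c ∧
    PK L δ μ (A1 L δ (PK L δ μ (p0 (nu L δ) (fr L δ i)))) =
    tv L δ i.1 (fun x => μ ^ 2 * u1 L δ μ i x) (fun x => I * xi L i.1 * μ * u1 L δ μ i x) c := by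
  rw [PW0' hL hδ hμ]
  have := s_u0 L δ μ i
  have := s_ofReal
  refine PK_tv' hL hδ hμ i.1 contDiff_const (by fun_prop) (s_f1 _ _ _ _).continuous fun x => ?_
  simp only [f1, real_smul, Pi.zero_apply]
  push_cast
  ring_nf
  simp only [I_sq]
  ring

lemma V1 (i : ℤ × ℤ) : (p0 (nu L δ) * PK L δ μ * A1 L δ * PK L δ μ * p0 (nu L δ)) (fr L δ i) =
    tv L δ i.1 (fun x => μ ^ 2 * u1 L δ μ i x) 0 0 := by
  obtain ⟨c, hc, h⟩ := PW1 hL hδ hμ i
  have := (s_u1 L δ μ i).continuous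
  simp only [mul_apply_eq_comp]
  rw [h, p0_tv _ (by fun_prop) (by fun_prop) hc]

lemma V2 (i : ℤ × ℤ) : (p0 (nu L δ) * PK L δ μ * (A1 L δ * PK L δ μ * A1 L δ - A2 L δ μ) *
    PK L δ μ * p0 (nu L δ)) (fr L δ i) = tv L δ i.1 (fun x => μ ^ 2 * u2 L δ μ i x) 0 0 := by
  obtain ⟨c, hc, h⟩ := PW1 hL hδ hμ i
  obtain ⟨c', hc', h'⟩ := PW0 hL hδ hμ i
  have s0 := s_u0 L δ μ i
  have s1 := s_u1 L δ μ i
  have c0 := s0.continuous
  have c1 := s1.continuous
  have c2 := (s_u2 L δ μ i).continuous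
  have := s_ofReal
  have hμ' : (μ : ℂ) ≠ 0 := by exact_mod_cast hμ.ne'
  simp only [mul_apply_eq_comp, sub_apply]
  rw [h, h', A1, A2, dm_tv (f' := 0) (g' := fun x => 2 * x * (I * xi L i.1 * μ * u1 L δ μ i x))
    (h' := 0) _ continuous_zero (by fun_prop) continuous_zero (by fun_prop) (by fun_prop) hc
    (by simp) (by simp) (by simp), dm_tv (f' := fun x => -(u0 L δ μ i x / 4))
    (g' := fun x => 3 * x ^ 2 * (I * xi L i.1 * μ * u0 L δ μ i x)) (h' := 0) _ continuous_const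
    (by fun_prop) continuous_zero (by fun_prop) (by fun_prop) hc' (fun x => by field_simp)
    (by simp) (by simp), tv_sub (a := fun x => u0 L δ μ i x / 4)
    (b := fun x => 2 * x * (I * xi L i.1 * μ * u1 L δ μ i x) -
      3 * x ^ 2 * (I * xi L i.1 * μ * u0 L δ μ i x)) (c := 0) _ continuous_zero (by fun_prop)
    continuous_zero (by fun_prop) (by fun_prop) continuous_zero (by simp) (by simp) (by simp)]
  obtain ⟨c'', hc'', h''⟩ := PK_tv' hL hδ hμ i.1 (a := fun x => u0 L δ μ i x / 4)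
    (b := fun x => 2 * x * (I * xi L i.1 * μ * u1 L δ μ i x) -
      3 * x ^ 2 * (I * xi L i.1 * μ * u0 L δ μ i x)) (by fun_prop) (by fun_prop)
    (s_f2 L δ μ i).continuous fun x => by
      simp only [f2, real_smul]
      push_cast
      ring_nf
      simp only [I_sq]
      ring
  rw [h'']
  exact p0_tv _ (by change Continuous fun x => (μ : ℂ) ^ 2 * u2 L δ μ i x; fun_prop)
    (by change Continuous fun x => I * xi L i.1 * μ * u2 L δ μ i x; fun_prop) hc''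

omit hL in
lemma dual {x : ℝ} (hx : x ∈ Icc 0 δ) (i : ℤ × ℤ) (ε : ℝ) :
    u0 L δ μ i x - ε * u1 L δ μ i x + ε * ε * u2 L δ μ i x =
      ∫ y in (0 : ℝ)..δ, (Gk (La L μ i.1) δ x y - ε * k1 (La L μ i.1) δ (xi L i.1) x y +
        ε ^ 2 * k2 (La L μ i.1) δ (xi L i.1) x y) • ex δ i.2 y := by
  have hΛ : 0 < La L μ i.1 := lam_pos _ hμ _
  set Λ := La L μ i.1
  set ξ := xi L i.1
  have cg := continuous_Gk Λ δ x
  have c1 := continuous_k1 Λ δ ξ x
  have c2 := continuous_k2 Λ δ ξ x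
  have ce := continuous_ex δ i.2
  have d0 := (s_u0 L δ μ i).continuous
  have d1 := (s_u1 L δ μ i).continuous
  have e0 : u0 L δ μ i x = ∫ y in (0 : ℝ)..δ, Gk Λ δ x y • ex δ i.2 y := Sol_eq ce hx
  have e1 : u1 L δ μ i x = ∫ y in (0 : ℝ)..δ, k1 Λ δ ξ x y • ex δ i.2 y := by
    rw [u1, Sol_eq (s_f1 _ _ _ _).continuous hx, k1, ← Sol_symm hΛ hδ (by fun_prop) ce]
    congr 1; ext y
    rw [f1, smul_smul, mul_comm]; rfl
  have e2 : u2 L δ μ i x = ∫ y in (0 : ℝ)..δ, k2 Λ δ ξ x y • ex δ i.2 y := by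
    have a1 := Sol_symm hΛ hδ (k := fun z => 2 * ξ ^ 2 * z * Gk Λ δ x z) (by fun_prop)
      (s_f1 L δ μ i).continuous
    rw [u2, Sol_eq (s_f2 _ _ _ _).continuous hx, k2, ← Sol_symm hΛ hδ (by fun_prop) ce]
    have a2 : ∀ y, Gk Λ δ x y • f2 L δ μ i y = (2 * ξ ^ 2 * y * Gk Λ δ x y) • u1 L δ μ i y -
        ((3 * ξ ^ 2 * y ^ 2 - 1 / 4) * Gk Λ δ x y) • u0 L δ μ i y := fun y => by
      rw [f2]; module
    have a3 : ∀ y, (2 * ξ ^ 2 * y * k1 Λ δ ξ x y - (3 * ξ ^ 2 * y ^ 2 - 1 / 4) * Gk Λ δ x y) •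
        Sol Λ δ (ex δ i.2) y = k1 Λ δ ξ x y • f1 L δ μ i y -
        ((3 * ξ ^ 2 * y ^ 2 - 1 / 4) * Gk Λ δ x y) • u0 L δ μ i y := fun y => by
      rw [f1, u0]; module
    have d2 := (s_f1 L δ μ i).continuous
    rw [funext a2, funext a3]
    rw [intervalIntegral.integral_sub, intervalIntegral.integral_sub]
    · congr 1
    all_goals exact Continuous.intervalIntegrable (by fun_prop) _ _
  rw [e0, e1, e2, ← intervalIntegral.integral_const_mul, ← intervalIntegral.integral_const_mul,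
    ← intervalIntegral.integral_sub, ← intervalIntegral.integral_add]
  · congr 1; ext y
    simp only [real_smul]; push_cast; ring
  all_goals exact Continuous.intervalIntegrable (by fun_prop) _ _

omit hL hμ in
lemma pars_kernel {K : ℝ → ℝ} (hK : Continuous K) :
    HasSum (fun k : ℤ => ‖∫ y in (0 : ℝ)..δ, K y • ex δ k y‖ ^ 2) (∫ y in (0 : ℝ)..δ, K y ^ 2) := by
  have hm : MemLp (fun y => (K y : ℂ)) 2 (volume.restrict (Ioc 0 δ)) := by
    obtain ⟨C, hC⟩ := isCompact_Icc.exists_bound_of_continuousOn (s := Icc 0 δ)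
      (f := fun y => (K y : ℂ)) (by fun_prop)
    refine MemLp.of_bound (Continuous.aestronglyMeasurable (by fun_prop)) C ?_
    filter_upwards [ae_restrict_mem measurableSet_Ioc] with y hy
    exact hC y (Ioc_subset_Icc_self hy)
  have h := parseval1 hδ hm
  simp only [norm_real, Real.norm_eq_abs, sq_abs] at h
  rw [intervalIntegral.integral_of_le hδ.le]
  refine h.congr_fun fun k => ?_
  rw [intervalIntegral.integral_of_le hδ.le, ← norm_conj, ← integral_conj]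
  congr 3; ext y
  simp [mul_comm]

omit hL in
lemma hasSum_Xi {x : ℝ} (hx : x ∈ Icc 0 δ) (n : ℤ) (ε : ℝ) :
    HasSum (fun k => ‖u0 L δ μ (n, k) x - ε * u1 L δ μ (n, k) x + ε * ε * u2 L δ μ (n, k) x‖ ^ 2)
      (Xi (La L μ n) δ (xi L n) ε x) := by
  simp_rw [dual hδ hμ hx]
  have := continuous_Gk (La L μ n) δ x
  have := continuous_k1 (La L μ n) δ (xi L n) x
  have := continuous_k2 (La L μ n) δ (xi L n) x
  exact pars_kernel hδ (by fun_prop)

omit hL in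
lemma hasSum_G {x : ℝ} (hx : x ∈ Icc 0 δ) (n : ℤ) :
    HasSum (fun k => ‖u0 L δ μ (n, k) x‖ ^ 2) (∫ z in (0 : ℝ)..δ, Gk (La L μ n) δ x z ^ 2) := by
  simpa [Xi] using hasSum_Xi (L := L) hδ hμ hx n 0

omit hδ hμ in
lemma norm_weight {w : L2 (nu L δ)} {n : ℤ} {U : ℂ → ℂ}
    (hw : w =ᵐ[nu L δ] fun z => ex L n z.re • (!₂[μ ^ 2 * U z, 0, 0] : E3)) {χ : ℂ → ℝ}
    (hχ : Bs (nu L δ) fun z => χ z) :
    ‖sm (nu L δ) (fun z => χ z) w‖ ^ 2 = ∫ z, μ ^ 4 / L * (χ z ^ 2 * ‖U z‖ ^ 2) ∂nu L δ := by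
  rw [norm_sq_L2]
  refine integral_congr_ae ?_
  filter_upwards [sm_coe hχ w, hw] with z e1 e2
  rw [e1, e2, norm_smul, norm_smul, mul_pow, mul_pow, norm_ex_sq hL, norm_sq_E3]
  simp [mul_pow]
  ring

theorem HL_G0 {c : ℝ} (hc : 0 ≤ c)
    (h : μ ^ 4 * δ ^ 2 / 4 * ∑' n : ℤ, (La L μ n ^ (1 + 1))⁻¹ ≤ c ^ 2) :
    HL (p0 (nu L δ) * PK L δ μ * p0 (nu L δ)) c := by
  refine ⟨hc, ?_⟩
  rw [hs2_frame (pars_fr hL hδ) _ (by
    rw [show ContinuousLinearMap.adjoint (p0 (nu L δ)) = p0 (nu L δ) from proj_p0.sa,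
      ← ContinuousLinearMap.mul_def, mul_assoc, proj_p0.idem]), ENNReal.tsum_prod']
  have hs : Summable fun n => (La L μ n ^ (1 + 1))⁻¹ :=
    summable_lam (h := 2 * Real.pi / L) (by positivity) hμ (b := 1) le_rfl
  refine le_trans ?_ (ENNReal.ofReal_le_ofReal h)
  rw [← tsum_mul_left, ENNReal.ofReal_tsum_of_nonneg (fun n => by
    have := lam_pos (2 * Real.pi / L) hμ n
    unfold La; positivity) (hs.mul_left _)]
  refine ENNReal.tsum_le_tsum fun n => ?_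
  rw [ENNReal.tsum_eq_iSup_sum]
  refine iSup_le fun F => ?_
  unfold nsq
  rw [← ENNReal.ofReal_sum_of_nonneg fun _ _ => by positivity]
  apply ENNReal.ofReal_le_ofReal
  have hΛ : 0 < La L μ n := lam_pos _ hμ _
  have e : ∀ k, ‖(p0 (nu L δ) * PK L δ μ * p0 (nu L δ)) (fr L δ (n, k))‖ ^ 2 =
      ∫ z, μ ^ 4 / L * ‖u0 L δ μ (n, k) z.im‖ ^ 2 ∂nu L δ := by
    intro k
    have := (s_u0 L δ μ (n, k)).continuous
    have h0 : tv L δ n (fun x => μ ^ 2 * u0 L δ μ (n, k) x) 0 0 =ᵐ[nu L δ]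
        fun z => ex L n z.re • (!₂[μ ^ 2 * u0 L δ μ (n, k) z.im, 0, 0] : E3) :=
      tv_coe n (by fun_prop) continuous_zero continuous_zero
    have h1 := norm_weight hL (μ := μ) (χ := fun _ => 1) (U := fun z => u0 L δ μ (n, k) z.im)
      h0 (Bs.const _)
    simp only [ofReal_one, sm_one, one_pow, one_mul] at h1
    rw [V0 hL hδ hμ]
    exact h1
  simp_rw [e]
  rw [← integral_finsetSum _ fun k _ => integrable_rect fun _ _ => Continuous.continuousAt (by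
    have := (s_u0 L δ μ (n, k)).continuous
    fun_prop)]
  refine (Real.le_norm_self _).trans ((norm_integral_le_of_norm_le_const
    (C := μ ^ 4 / L * (δ * (2 * La L μ n)⁻¹ ^ 2)) ?_).trans (le_of_eq ?_))
  · filter_upwards [ae_rect L δ] with z hz
    have hx := Ioc_subset_Icc_self hz.2
    rw [Real.norm_of_nonneg (by positivity), ← Finset.mul_sum]
    gcongr
    refine (sum_le_hasSum F (fun _ _ => by positivity) (hasSum_G hδ hμ hx n)).trans ?_
    refine (Real.le_norm_self _).trans ((intervalIntegral.norm_integral_le_of_norm_le_const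
      (C := (2 * La L μ n)⁻¹ ^ 2) fun y hy => ?_).trans (le_of_eq ?_))
    · rw [uIoc_of_le hδ.le] at hy
      have hy' := Ioc_subset_Icc_self hy
      rw [Real.norm_of_nonneg (sq_nonneg _)]
      exact pow_le_pow_left₀ (Gk_nonneg hΛ hδ hx hy') (Gk_le hΛ hδ hx hy') 2
    · rw [sub_zero, abs_of_pos hδ, mul_comm]
  · rw [nu_univ hL.le hδ.le]
    field_simp
    ring

lemma horth {χ κ : ℝ → ℝ} (hχ : ContDiff ℝ ∞ χ) (hκ : Continuous κ) (i : ℤ × ℤ) :
    ⟪(sm (nu L δ) (fun z => χ z.im) * (p0 (nu L δ) * PK L δ μ * p0 (nu L δ))) (fr L δ i),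
      (sm (nu L δ) (fun z => χ z.im) * (p0 (nu L δ) * PK L δ μ * sm (nu L δ) (fun z => κ z.re) *
        A1 L δ * PK L δ μ * p0 (nu L δ) - sm (nu L δ) (fun z => κ z.re) *
        (p0 (nu L δ) * PK L δ μ * A1 L δ * PK L δ μ * p0 (nu L δ)))) (fr L δ i)⟫_ℂ = 0 := by
  have cχ := hχ.continuous
  have bχ : Bs (nu L δ) fun z => (χ z.im : ℂ) :=
    Bs_rect fun _ _ => Continuous.continuousAt (by fun_prop)
  have s0 := s_u0 L δ μ i
  have c0 := s0.continuous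
  have c1 := (s_u1 L δ μ i).continuous
  have so := s_ofReal
  have sχ : ContDiff ℝ ∞ fun x => (χ x : ℂ) := so.comp hχ
  have adj : ∀ {T : L2 (nu L δ) →L[ℂ] L2 (nu L δ)}, star T = T → ∀ a b, ⟪a, T b⟫_ℂ = ⟪T a, b⟫_ℂ := by
    intro T hT a b
    rw [← ContinuousLinearMap.adjoint_inner_left, show ContinuousLinearMap.adjoint T = T from hT]
  have hsm : sm (nu L δ) (fun z => (χ z.im : ℂ)) =
      dm L δ (fun x => χ x) (fun x => χ x) (fun x => χ x) := by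
    refine mm_eq_of fun z => ?_
    ext a b; fin_cases a <;> fin_cases b <;> simp [dg3]
  have one : ∀ w : L2 (nu L δ), sm (nu L δ) (fun z => (fun _ : ℝ => (1 : ℂ)) z.re) w = w := by
    intro w; rw [sm_one]; rfl
  rw [mul_apply_eq_comp, mul_apply_eq_comp (sm _ _), adj (sm_star bχ fun z => by simp),
    V0 hL hδ hμ, hsm, dm_tv (f' := fun x => χ x * (μ ^ 2 * u0 L δ μ i x)) (g' := 0) (h' := 0) _
    (by fun_prop) (by fun_prop) (by fun_prop) (by fun_prop) continuous_zero continuous_zero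
    (by simp) (by simp) (by simp),
    dm_tv (f' := fun x => χ x * (χ x * (μ ^ 2 * u0 L δ μ i x))) (g' := 0) (h' := 0) _
    (by fun_prop) (by fun_prop) (by fun_prop) (by fun_prop) continuous_zero continuous_zero
    (by simp) (by simp) (by simp), sub_apply, inner_sub_right, sub_eq_zero]
  set a : ℝ → ℂ := fun x => χ x * (χ x * (μ ^ 2 * u0 L δ μ i x)) with ha
  have sa : ContDiff ℝ ∞ a := by fun_prop
  have ca := sa.continuous
  obtain ⟨c, hc, h⟩ := PK_tv' hL hδ hμ i.1 (b := 0) sa contDiff_const ca (by simp)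
  have cS := continuous_Sol (Λ := La L μ i.1) (δ := δ) ca
  have key : ∀ w, ⟪tv L δ i.1 a 0 0, p0 (nu L δ) (PK L δ μ w)⟫_ℂ =
      ⟪tv L δ i.1 (fun x => μ ^ 2 * Sol (La L μ i.1) δ a x)
        (fun x => I * xi L i.1 * μ * Sol (La L μ i.1) δ a x) c, w⟫_ℂ := by
    intro w
    rw [adj proj_p0.sa, p0_tv _ ca continuous_zero continuous_zero, PK, adj (proj_PC _).sa, ← PK, h]
  have k1 := key (A1 L δ (PK L δ μ (p0 (nu L δ) (fr L δ i))))
  have v1 := V1 hL hδ hμ i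
  simp only [mul_apply_eq_comp] at v1 ⊢
  rw [v1, PW0' hL hδ hμ, ← one (tv L δ i.1 (fun x => μ ^ 2 * u1 L δ μ i x) 0 0),
    ← one (tv L δ i.1 0 (fun x => 2 * x * (I * xi L i.1 * μ * u0 L δ μ i x)) 0),
    inner_kappa hL hδ _ ca continuous_zero continuous_zero (by fun_prop) continuous_zero
      continuous_zero continuous_const,
    inner_kappa hL hδ _ (by fun_prop) (by fun_prop) hc continuous_zero (by fun_prop)
      continuous_zero continuous_const] at k1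
  rw [key, v1, PW0' hL hδ hμ, inner_kappa (κ := fun s => κ s) hL hδ _ ca continuous_zero
    continuous_zero (by fun_prop) continuous_zero continuous_zero (by fun_prop),
    inner_kappa (κ := fun s => κ s) hL hδ _ (by fun_prop) (by fun_prop) hc continuous_zero
      (by fun_prop) continuous_zero (by fun_prop)]
  congr 1
  have hne : ((L⁻¹ : ℝ) : ℂ) * ∫ s in (0 : ℝ)..L, (1 : ℂ) ≠ 0 := by
    have : (L : ℂ) ≠ 0 := by exact_mod_cast hL.ne'
    simp [this]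
  exact (mul_left_cancel₀ hne k1).symm

end

end Pool.Agent.Lib.MP_312682_mp
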