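import Pool.Agent.Lib.MP_312682_mp.Cyl2

/-! The curved cylinder: reduction to the flat one. -/

open scoped InnerProductSpace ENNReal ContDiff ComplexConjugate Topology
open MeasureTheory Complex Set Filter

set_option linter.unusedSectionVars false

noncomputable section

namespace Pool.Agent.Lib.MP_312682_mp

structure Kap (L K : ℝ) (κ : ℝ → ℝ) : Prop where
  smooth : ContDiff ℝ ∞ κ
  per : ∀ s, κ (s + L) = κ s
  one_le : 1 ≤ K
  b0 : ∀ s, |κ s| ≤ K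
  b1 : ∀ s, |deriv κ s| ≤ K
  b2 : ∀ s, |deriv (deriv κ) s| ≤ K

def Jf (κ : ℝ → ℝ) (z : ℂ) : ℝ := 1 - κ z.re * z.im
def al (κ : ℝ → ℝ) (z : ℂ) : ℝ := -(deriv κ z.re * z.im) / (2 * Jf κ z)
def be (κ : ℝ → ℝ) (z : ℂ) : ℝ := -κ z.re / (2 * Jf κ z)
def Vf (κ : ℝ → ℝ) (z : ℂ) : ℝ := -κ z.re ^ 2 / (4 * Jf κ z ^ 2) -
  deriv (deriv κ) z.re * z.im / (2 * Jf κ z ^ 3) -
  5 / 4 * (deriv κ z.re * z.im) ^ 2 / Jf κ z ^ 4
def Nm (κ : ℝ → ℝ) (μ : ℝ) (z : ℂ) : Mat :=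
  !![1, 0, 0; (-al κ z / (μ * Jf κ z) : ℝ), ((Jf κ z)⁻¹ : ℝ), 0; (-be κ z / μ : ℝ), 0, 1]
def Nm' (κ : ℝ → ℝ) (μ : ℝ) (z : ℂ) : Mat :=
  !![1, 0, 0; (al κ z / μ : ℝ), (Jf κ z : ℝ), 0; (be κ z / μ : ℝ), 0, 1]
def Am (κ : ℝ → ℝ) (μ : ℝ) (z : ℂ) : Mat :=
  dg3 (Vf κ z / μ ^ 2 : ℝ) (((Jf κ z) ^ 2)⁻¹ - 1 : ℝ) 0
def A3m (κ : ℝ → ℝ) (μ : ℝ) (z : ℂ) : Mat :=
  dg3 ((Vf κ z + κ z.re ^ 2 / 4) / μ ^ 2 : ℝ)
    (((Jf κ z) ^ 2)⁻¹ - 1 - 2 * (κ z.re * z.im) - 3 * (κ z.re * z.im) ^ 2 : ℝ) 0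

def NO (L δ μ : ℝ) (κ : ℝ → ℝ) : L2 (nu L δ) →L[ℂ] L2 (nu L δ) := mm (nu L δ) (Nm κ μ)
def QK (L δ μ : ℝ) (κ : ℝ → ℝ) : L2 (nu L δ) →L[ℂ] L2 (nu L δ) :=
  PC (NO L δ μ κ '' (DL (nu L δ) μ '' cylFns L δ))

lemma d1_eq {F : ℂ → ℂ} {z c : ℂ} (hF : DifferentiableAt ℝ F z)
    (h : HasDerivAt (fun s : ℝ => F (s + z.im * I)) c z.re) : d1 F z = c := by
  have := hd_line1 (F := F) (s := z.re) (x := z.im) (by rwa [re_add_im])
  rw [re_add_im] at this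
  exact this.unique h

lemma d2_eq {F : ℂ → ℂ} {z c : ℂ} (hF : DifferentiableAt ℝ F z)
    (h : HasDerivAt (fun x : ℝ => F (z.re + x * I)) c z.im) : d2 F z = c := by
  have := hd_line2 (F := F) (s := z.re) (x := z.im) (by rwa [re_add_im])
  rw [re_add_im] at this
  exact this.unique h

lemma continuousAt_mat {α : Type*} [TopologicalSpace α] {a b c d e f g h k : α → ℂ} {z : α}
    (ha : ContinuousAt a z) (hb : ContinuousAt b z) (hc : ContinuousAt c z)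
    (hd : ContinuousAt d z) (he : ContinuousAt e z) (hf : ContinuousAt f z)
    (hg : ContinuousAt g z) (hh : ContinuousAt h z) (hk : ContinuousAt k z) :
    ContinuousAt (fun z => (!![a z, b z, c z; d z, e z, f z; g z, h z, k z] : Mat)) z := by
  refine continuousAt_pi.2 fun i => continuousAt_pi.2 fun j => ?_
  fin_cases i <;> fin_cases j <;> simpa

variable {L δ μ K : ℝ} {κ : ℝ → ℝ}

namespace Kap

variable (h : Kap L K κ)
include h

lemma s1 : ContDiff ℝ ∞ (deriv κ) := (contDiff_infty_iff_deriv.1 h.smooth).2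
lemma s2 : ContDiff ℝ ∞ (deriv (deriv κ)) := (contDiff_infty_iff_deriv.1 h.s1).2
lemma per1 (s : ℝ) : deriv κ (s + L) = deriv κ s := by
  rw [← deriv_comp_add_const κ L s]; simp_rw [h.per]
lemma sJ : ContDiff ℝ ∞ (Jf κ) := by
  have := h.smooth.comp contDiff_re'
  have := contDiff_im'
  exact contDiff_const.sub (ContDiff.mul ‹_› ‹_›)

lemma t_le (hK : 100 * K ^ 3 * δ ≤ 1) {z : ℂ} (hz : z.im ∈ Icc 0 δ) {a : ℝ} (ha : |a| ≤ K) :
    |a * z.im| ≤ K * δ ∧ K * δ ≤ 1 / 100 := by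
  have h1 := h.one_le
  have hδ : 0 ≤ δ := hz.1.trans hz.2
  refine ⟨?_, ?_⟩
  · rw [abs_mul, abs_of_nonneg hz.1]
    exact mul_le_mul ha hz.2 hz.1 (by linarith)
  · have : K ≤ K ^ 3 := le_self_pow₀ h1 (by norm_num)
    nlinarith

lemma J_ge (hK : 100 * K ^ 3 * δ ≤ 1) {z : ℂ} (hz : z.im ∈ Icc 0 δ) :
    99 / 100 ≤ Jf κ z ∧ Jf κ z ≤ 101 / 100 := by
  obtain ⟨a, b⟩ := h.t_le hK hz (h.b0 z.re)
  have := abs_le.1 a
  unfold Jf
  constructor <;> linarith [this.1, this.2]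

lemma J_pos (hK : 100 * K ^ 3 * δ ≤ 1) {z : ℂ} (hz : z.im ∈ Icc 0 δ) : 0 < Jf κ z := by
  linarith [(h.J_ge hK hz).1]

lemma sal {z : ℂ} (hz : Jf κ z ≠ 0) : ContDiffAt ℝ ∞ (al κ) z :=
  (((h.s1.comp contDiff_re').mul contDiff_im').neg.contDiffAt).div
    (contDiff_const.mul h.sJ).contDiffAt (by simpa using hz)

lemma sbe {z : ℂ} (hz : Jf κ z ≠ 0) : ContDiffAt ℝ ∞ (be κ) z :=
  ((h.smooth.comp contDiff_re').neg.contDiffAt).div
    (contDiff_const.mul h.sJ).contDiffAt (by simpa using hz)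

lemma cV {z : ℂ} (hz : Jf κ z ≠ 0) : ContinuousAt (Vf κ) z := by
  have := h.smooth.continuous
  have := h.s1.continuous
  have := h.s2.continuous
  have := h.sJ.continuous
  unfold Vf
  fun_prop (disch := simpa using hz)

variable (hK : 100 * K ^ 3 * δ ≤ 1)
include hK

lemma bdN (hμ : 0 < μ) : Bd (nu L δ) (Nm κ μ) := Bd_rect fun z hz => by
  have hJ := (h.J_pos hK hz).ne'
  have := (h.sal hJ).continuousAt
  have := (h.sbe hJ).continuousAt
  have := h.sJ.continuous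
  have := hμ.ne'
  refine continuousAt_mat ?_ ?_ ?_ ?_ ?_ ?_ ?_ ?_ ?_ <;> fun_prop (disch := simp [*])

lemma bdN' : Bd (nu L δ) (Nm' κ μ) := Bd_rect fun z hz => by
  have hJ := (h.J_pos hK hz).ne'
  have := (h.sal hJ).continuousAt
  have := (h.sbe hJ).continuousAt
  have := h.sJ.continuous
  refine continuousAt_mat ?_ ?_ ?_ ?_ ?_ ?_ ?_ ?_ ?_ <;> fun_prop

lemma bdA : Bd (nu L δ) (Am κ μ) := Bd_rect fun z hz => by
  have hJ := (h.J_pos hK hz).ne'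
  have := h.cV hJ
  have := h.sJ.continuous
  refine continuous_dg3 ?_ ?_ ?_ <;> fun_prop (disch := simp [*])

lemma bdA3 : Bd (nu L δ) (A3m κ μ) := Bd_rect fun z hz => by
  have hJ := (h.J_pos hK hz).ne'
  have := h.cV hJ
  have := h.sJ.continuous
  have := h.smooth.continuous
  refine continuous_dg3 ?_ ?_ ?_ <;> fun_prop (disch := simp [*])

lemma NN' (hμ : 0 < μ) : NO L δ μ κ * mm (nu L δ) (Nm' κ μ) = 1 ∧
    mm (nu L δ) (Nm' κ μ) * NO L δ μ κ = 1 := by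
  rw [NO, mm_mul (h.bdN hK hμ) (h.bdN' hK), mm_mul (h.bdN' hK) (h.bdN hK hμ), ← mm_one]
  have hμ' : (μ : ℂ) ≠ 0 := by exact_mod_cast hμ.ne'
  constructor <;> refine mm_congr ?_ <;> filter_upwards [ae_rect L δ] with z hz <;>
    have hJ : (Jf κ z : ℂ) ≠ 0 := by exact_mod_cast (h.J_pos hK (Ioc_subset_Icc_self hz.2)).ne'
  all_goals
    ext a b
    fin_cases a <;> fin_cases b <;> simp [Nm, Nm', Matrix.mul_apply, Fin.sum_univ_three] <;>
      field_simp <;> ring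

lemma pN (hμ : 0 < μ) : p0 (nu L δ) * NO L δ μ κ = p0 (nu L δ) := by
  rw [NO, p0, mm_mul (Bd.const _) (h.bdN hK hμ)]
  refine mm_eq_of fun z => ?_
  ext a b
  fin_cases a <;> fin_cases b <;> simp [Nm, e00, Matrix.mul_apply, Fin.sum_univ_three]

omit hK in
lemma d_al {z : ℂ} (hz : Jf κ z ≠ 0) : d1 (fun z => ((al κ z / Jf κ z ^ 2 : ℝ) : ℂ)) z =
    ((-(deriv (deriv κ) z.re * z.im) / (2 * Jf κ z ^ 3) -
      3 / 2 * (deriv κ z.re * z.im) ^ 2 / Jf κ z ^ 4 : ℝ) : ℂ) := by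
  refine d1_eq ((ofRealCLM.contDiff.contDiffAt.comp z ((h.sal hz).div (h.sJ.pow 2).contDiffAt
    (by simpa using hz))).differentiableAt (by simp)) (HasDerivAt.ofReal_comp ?_)
  have k0 := (h.smooth.differentiable (by simp) z.re).hasDerivAt
  have k1 := (h.s1.differentiable (by simp) z.re).hasDerivAt
  have hJ : HasDerivAt (fun s => 1 - κ s * z.im) (-(deriv κ z.re * z.im)) z.re := by
    simpa using (k0.mul_const z.im).const_sub 1
  have := ((k1.mul_const z.im).neg.div (hJ.const_mul 2) (by simpa [Jf] using hz)).div (hJ.pow 2)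
    (by simpa [Jf] using hz)
  refine (this.congr_deriv ?_).congr_of_eventuallyEq (Eventually.of_forall fun s => ?_)
  · simp only [Pi.neg_apply, Pi.pow_apply, Pi.div_apply, Nat.cast_ofNat, Nat.add_one_sub_one,
      pow_one]
    rw [show 1 - κ z.re * z.im = Jf κ z from rfl]
    field_simp
    ring
  · simp [al, Jf]

omit hK in
lemma d_be {z : ℂ} (hz : Jf κ z ≠ 0) : d2 (fun z => ((be κ z : ℝ) : ℂ)) z =
    ((-κ z.re ^ 2 / (2 * Jf κ z ^ 2) : ℝ) : ℂ) := by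
  refine d2_eq ((ofRealCLM.contDiff.contDiffAt.comp z (h.sbe hz)).differentiableAt (by simp))
    (HasDerivAt.ofReal_comp ?_)
  have hJ : HasDerivAt (fun x => 1 - κ z.re * x) (-κ z.re) z.im := by
    simpa using ((hasDerivAt_id z.im).const_mul (κ z.re)).const_sub 1
  have := (hasDerivAt_const z.im (-κ z.re)).div (hJ.const_mul 2) (by simpa [Jf] using hz)
  refine (this.congr_deriv ?_).congr_of_eventuallyEq (Eventually.of_forall fun s => ?_)
  · rw [show 1 - κ z.re * z.im = Jf κ z from rfl]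
    field_simp
    ring
  · simp [be, Jf]

lemma form (hL : 0 < L) (hδ : 0 < δ) (hμ : 0 < μ) :
    PK L δ μ * (star (NO L δ μ κ) * NO L δ μ κ) * PK L δ μ =
      PK L δ μ * (1 + mm (nu L δ) (Am κ μ)) * PK L δ μ := by
  refine PC_form ?_
  rintro _ ⟨u, ⟨u1, u2, ε, hε, u3⟩, rfl⟩ _ ⟨v, ⟨v1, v2, -⟩, rfl⟩
  have sc := contDiff_conj' u1
  have suv := sc.mul v1
  have hμ' : (μ : ℂ) ≠ 0 := by exact_mod_cast hμ.ne'
  have sa : ∀ z : ℂ, z.im ∈ Icc 0 δ →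
      ContDiffAt ℝ ∞ (fun z => ((al κ z / Jf κ z ^ 2 : ℝ) : ℂ)) z := fun z hz =>
    ofRealCLM.contDiff.contDiffAt.comp z ((h.sal (h.J_pos hK hz).ne').div (h.sJ.pow 2).contDiffAt
      (by simpa using (h.J_pos hK hz).ne'))
  have sb : ∀ z : ℂ, z.im ∈ Icc 0 δ → ContDiffAt ℝ ∞ (fun z => ((be κ z : ℝ) : ℂ)) z :=
    fun z hz => ofRealCLM.contDiff.contDiffAt.comp z (h.sbe (h.J_pos hK hz).ne')
  have F1 : ∀ z : ℂ, z.im ∈ Icc 0 δ → ContDiffAt ℝ 1
      (fun z => ((al κ z / Jf κ z ^ 2 : ℝ) : ℂ) * (conj (u z) * v z)) z := fun z hz =>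
    ((sa z hz).mul suv.contDiffAt).of_le (by simp)
  have F2 : ∀ z : ℂ, z.im ∈ Icc 0 δ → ContDiffAt ℝ 1
      (fun z => ((be κ z : ℝ) : ℂ) * (conj (u z) * v z)) z := fun z hz =>
    ((sb z hz).mul suv.contDiffAt).of_le (by simp)
  have i1 := ibp1 hL.le hδ.le F1 (fun z => by simp [u2, v2, al, Jf, h.per, h.per1])
  have i2 := ibp2 hL.le hδ.le F2 (fun z hz => by
    rw [u3 z (by rcases hz with hz | hz; exacts [Or.inl (by linarith), Or.inr (by linarith)])]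
    simp)
  rw [← sub_eq_zero, mul_apply_eq_comp, ContinuousLinearMap.star_eq_adjoint,
    ContinuousLinearMap.adjoint_inner_right, L2.inner_def, L2.inner_def,
    ← integral_sub (L2.integrable_inner _ _) (L2.integrable_inner _ _), ← neg_zero,
    ← add_zero (0 : ℂ)]
  nth_rw 1 [← i1]
  rw [← i2, ← integral_add (integrable_rect fun z hz => contAt_d1 (F1 z hz))
    (integrable_rect fun z hz => contAt_d2 (F2 z hz)), ← integral_neg]
  refine integral_congr_ae ?_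
  filter_upwards [tl_coe (memLp_Dv_rect (L := L) (δ := δ) μ u1),
    tl_coe (memLp_Dv_rect (L := L) (δ := δ) μ v1), mm_coe (h.bdN hK hμ) (DL (nu L δ) μ u),
    mm_coe (h.bdN hK hμ) (DL (nu L δ) μ v), mm_coe (h.bdA (μ := μ) hK) (DL (nu L δ) μ v),
    Lp.coeFn_add (DL (nu L δ) μ v) (mm (nu L δ) (Am κ μ) (DL (nu L δ) μ v)), ae_rect L δ]
    with z e1 e2 e3 e4 e5 e6 hz
  have hz' := Ioc_subset_Icc_self hz.2
  have hJ := (h.J_pos hK hz').ne'
  have hJ' : (Jf κ z : ℂ) ≠ 0 := by exact_mod_cast hJ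
  rw [NO, e3, e4, add_apply, one_apply_eq_self, e6, Pi.add_apply,
    e5, DL, DL, e1, e2, inner_E3, inner_E3,
    d1_mul ((sa z hz').differentiableAt (by simp)) (suv.differentiable (by simp) z),
    d2_mul ((sb z hz').differentiableAt (by simp)) (suv.differentiable (by simp) z),
    d1_mul (sc.differentiable (by simp) z) (v1.differentiable (by simp) z),
    d2_mul (sc.differentiable (by simp) z) (v1.differentiable (by simp) z),
    (d_conj (u1.differentiable (by simp) z)).1, (d_conj (u1.differentiable (by simp) z)).2,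
    h.d_al hJ, h.d_be hJ]
  simp only [PiLp.add_apply, act_apply, Nm, Am, dg3, Dv_0, Dv_1, Dv_2, Matrix.of_apply,
    Matrix.cons_val', Matrix.cons_val_zero, Matrix.cons_val_one, Matrix.cons_val,
    Matrix.cons_val_fin_one, map_add, map_mul, conj_ofReal, map_one, map_zero, Vf, al, be]
  push_cast
  field_simp
  ring

lemma decomp (hμ : 0 < μ) : mm (nu L δ) (Am κ μ) = sm (nu L δ) (fun z => κ z.re) * A1 L δ +
    sm (nu L δ) (fun z => κ z.re) * sm (nu L δ) (fun z => κ z.re) * A2 L δ μ +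
      mm (nu L δ) (A3m κ μ) := by
  have cκ := h.smooth.continuous
  have bκ : Bs (nu L δ) fun z => (κ z.re : ℂ) :=
    Bs_rect fun _ _ => Continuous.continuousAt (by fun_prop)
  have b1 := Bd_dm (L := L) (δ := δ) (a := 0) (b := fun x => 2 * x) (c := 0) continuous_zero
    (by fun_prop) continuous_zero
  have b2 := Bd_dm (L := L) (δ := δ) (a := fun _ => -(4 * μ ^ 2 : ℂ)⁻¹) (b := fun x => 3 * x ^ 2)
    (c := 0) continuous_const (by fun_prop) continuous_zero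
  rw [mul_assoc, A1, A2, dm, dm, sm, mm_mul bκ.bd b1, mm_mul bκ.bd b2, mm_mul bκ.bd (bκ.bd.mul b2),
    mm_add (bκ.bd.mul b1) (bκ.bd.mul (bκ.bd.mul b2)),
    mm_add ((bκ.bd.mul b1).add (bκ.bd.mul (bκ.bd.mul b2))) (h.bdA3 hK)]
  have hμ' : (μ : ℂ) ≠ 0 := by exact_mod_cast hμ.ne'
  refine mm_eq_of fun z => ?_
  ext a b
  fin_cases a <;> fin_cases b <;> simp [Am, A3m, dg3]
  · field_simp; ring
  · ring

lemma nA3 (hδ : 0 < δ) (hμ : 1 ≤ μ * δ) :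
    ‖mm (nu L δ) (A3m κ μ)‖ ≤ 30 * K ^ 3 * δ ^ 3 := by
  have h1 := h.one_le
  refine mm_norm_le (by positivity) ?_
  filter_upwards [ae_rect L δ] with z hz
  have hz' := Ioc_subset_Icc_self hz.2
  obtain ⟨j1, j2⟩ := h.J_ge hK hz'
  obtain ⟨t0, t⟩ := h.t_le hK hz' (h.b0 z.re)
  obtain ⟨t1, -⟩ := h.t_le hK hz' (h.b1 z.re)
  obtain ⟨t2, -⟩ := h.t_le hK hz' (h.b2 z.re)
  have hμ0 : 0 < μ := by
    by_contra hc
    nlinarith
  have hJ : 0 < Jf κ z := by linarith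
  have j3 : (Jf κ z)⁻¹ ≤ 11 / 10 := by
    rw [inv_le_comm₀ hJ (by norm_num)]; linarith
  have j4 : 0 < (Jf κ z)⁻¹ := by positivity
  have hKδ : 0 ≤ K * δ := by positivity
  refine norm_act_diag ?_ ?_ (by simp; positivity) <;> rw [norm_real, Real.norm_eq_abs]
  · have e : Vf κ z + κ z.re ^ 2 / 4 = κ z.re ^ 2 / 4 * (κ z.re * z.im) * (κ z.re * z.im - 2) *
        (Jf κ z)⁻¹ ^ 2 - deriv (deriv κ) z.re * z.im / 2 * (Jf κ z)⁻¹ ^ 3 -
        5 / 4 * (deriv κ z.re * z.im) ^ 2 * (Jf κ z)⁻¹ ^ 4 := by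
      rw [Vf]
      field_simp
      rw [Jf]; ring
    have k2 : κ z.re ^ 2 ≤ K ^ 2 := by rw [← sq_abs]; gcongr; exact h.b0 _
    have a1 : |κ z.re ^ 2 / 4 * (κ z.re * z.im) * (κ z.re * z.im - 2) * (Jf κ z)⁻¹ ^ 2| ≤
        K ^ 2 / 4 * (K * δ) * 3 * (11 / 10) ^ 2 := by
      rw [abs_mul, abs_mul, abs_mul, abs_of_nonneg (by positivity : 0 ≤ κ z.re ^ 2 / 4),
        abs_of_pos (by positivity : 0 < (Jf κ z)⁻¹ ^ 2)]
      gcongr
      rw [abs_le] at t0 ⊢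
      constructor <;> linarith [t0.1, t0.2]
    have a2 : |deriv (deriv κ) z.re * z.im / 2 * (Jf κ z)⁻¹ ^ 3| ≤ K * δ / 2 * (11 / 10) ^ 3 := by
      rw [abs_mul, abs_div, abs_two, abs_of_pos (by positivity : 0 < (Jf κ z)⁻¹ ^ 3)]
      gcongr
    have a3 : |5 / 4 * (deriv κ z.re * z.im) ^ 2 * (Jf κ z)⁻¹ ^ 4| ≤
        5 / 4 * (K * δ) ^ 2 * (11 / 10) ^ 4 := by
      rw [abs_of_nonneg (by positivity), ← sq_abs]
      gcongr
    have a4 : |Vf κ z + κ z.re ^ 2 / 4| ≤ 30 * K ^ 3 * δ := by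
      rw [e]
      refine (abs_sub _ _).trans ((add_le_add ((abs_sub _ _).trans (add_le_add a1 a2)) a3).trans ?_)
      have : K * δ ≤ K ^ 3 * δ := by gcongr; exact le_self_pow₀ h1 (by norm_num)
      nlinarith
    rw [abs_div, abs_of_pos (by positivity : 0 < μ ^ 2), div_le_iff₀ (by positivity)]
    refine a4.trans ?_
    have : 1 ≤ (μ * δ) ^ 2 := one_le_pow₀ hμ
    have : 0 ≤ 30 * K ^ 3 * δ := by positivity
    nlinarith
  · have e : ((Jf κ z) ^ 2)⁻¹ - 1 - 2 * (κ z.re * z.im) - 3 * (κ z.re * z.im) ^ 2 =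
        (κ z.re * z.im) ^ 3 * (4 - 3 * (κ z.re * z.im)) * (Jf κ z)⁻¹ ^ 2 := by
      field_simp
      rw [Jf]; ring
    rw [e, abs_mul, abs_mul, abs_pow, abs_of_pos (by positivity : 0 < (Jf κ z)⁻¹ ^ 2)]
    calc _ ≤ (K * δ) ^ 3 * 5 * (11 / 10) ^ 2 := by
          gcongr
          rw [abs_le] at t0 ⊢
          constructor <;> linarith [t0.1, t0.2]
      _ ≤ _ := by
          have : 0 ≤ K ^ 3 * δ ^ 3 := by positivity
          nlinarith

end Kap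

lemma nA1 (hδ : 0 < δ) : ‖A1 L δ‖ ≤ 2 * δ := by
  refine mm_norm_le (by positivity) ?_
  filter_upwards [ae_rect L δ] with z hz
  refine norm_act_diag (by simp; positivity) ?_ (by simp; positivity)
  simp only [Complex.norm_mul, Complex.norm_ofNat, norm_real, Real.norm_eq_abs, abs_of_pos hz.2.1]
  linarith [hz.2.2]

lemma nA2 (hδ : 0 < δ) (hμ : 1 ≤ μ * δ) : ‖A2 L δ μ‖ ≤ 4 * δ ^ 2 := by
  have hμ0 : 0 < μ := by
    by_contra hc
    nlinarith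
  refine mm_norm_le (by positivity) ?_
  filter_upwards [ae_rect L δ] with z hz
  refine norm_act_diag ?_ ?_ (by simp; positivity)
  · simp only [norm_neg, norm_inv, Complex.norm_mul, Complex.norm_ofNat, norm_pow, norm_real,
      Real.norm_eq_abs, sq_abs]
    rw [inv_le_comm₀ (by positivity) (by positivity), inv_le_iff_one_le_mul₀ (by positivity)]
    have : 1 ≤ (μ * δ) ^ 2 := one_le_pow₀ hμ
    nlinarith
  · simp only [Complex.norm_mul, Complex.norm_ofNat, norm_pow, norm_real, Real.norm_eq_abs, sq_abs]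
    have : z.im ^ 2 ≤ δ ^ 2 := by gcongr; exacts [hz.2.1.le, hz.2.2]
    nlinarith

/-- the explicit second order approximation -/
def SK (L δ μ : ℝ) (κ χ : ℝ → ℝ) : L2 (nu L δ) →L[ℂ] L2 (nu L δ) :=
  sm (nu L δ) (fun z => χ z.im) * (p0 (nu L δ) * PK L δ μ * p0 (nu L δ) -
    sm (nu L δ) (fun z => κ z.re) * (p0 (nu L δ) * PK L δ μ * A1 L δ * PK L δ μ * p0 (nu L δ)) +
    sm (nu L δ) (fun z => κ z.re) * sm (nu L δ) (fun z => κ z.re) *
      (p0 (nu L δ) * PK L δ μ * (A1 L δ * PK L δ μ * A1 L δ - A2 L δ μ) * PK L δ μ * p0 (nu L δ)))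

theorem curved_expand (h : Kap L K κ) (hK : 100 * K ^ 3 * δ ≤ 1) (hL : 0 < L) (hδ : 0 < δ)
    (hμ : 1 ≤ μ * δ) {χ : ℝ → ℝ} (hχ : ContDiff ℝ ∞ χ) (hχ1 : ∀ x, |χ x| ≤ 1) {c : ℝ}
    (hc : HL (p0 (nu L δ) * PK L δ μ * p0 (nu L δ)) c) :
    HL (p0 (nu L δ) * QK L δ μ κ * p0 (nu L δ)) (2 * c) ∧ hs2 (SK L δ μ κ χ) ≠ ⊤ ∧
    |hsq (sm (nu L δ) (fun z => χ z.im) * (p0 (nu L δ) * QK L δ μ κ * p0 (nu L δ))) -
      hsq (SK L δ μ κ χ)| ≤ 2000000 * (30 * K ^ 3) ^ 12 * δ ^ 3 * c ^ 2 := by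
  have hμ0 : 0 < μ := by
    by_contra hc
    nlinarith
  have h1 := h.one_le
  have hK3 : K ≤ K ^ 3 := le_self_pow₀ h1 (by norm_num)
  have hδ1 : δ ≤ 1 / 100 := by nlinarith
  have cκ := h.smooth.continuous
  have sκ : ContDiff ℝ ∞ fun z : ℂ => (κ z.re : ℂ) :=
    s_ofReal.comp (h.smooth.comp contDiff_re')
  have mκ := mult_rect (L := L) (δ := δ) sκ
  have nκ : ‖sm (nu L δ) (fun z => (κ z.re : ℂ))‖ ≤ K :=
    sm_norm_le (by positivity) (ae_of_all _ fun z => by simpa using h.b0 _)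
  have n1 := nA1 (L := L) hδ
  have n2 := nA2 (L := L) hδ hμ
  have n3 := h.nA3 hK hδ hμ
  have nA : ‖mm (nu L δ) (Am κ μ)‖ ≤ 1 / 2 := by
    rw [h.decomp hK hμ0]
    refine (nadd (nadd (nmul nκ n1) (nmul (nmul nκ nκ) n2)) n3).trans ?_
    have a : K * δ ≤ 1 / 100 := by nlinarith
    have b : 0 ≤ K * δ := by positivity
    have : (K * δ) ^ 2 ≤ (1 / 100) ^ 2 := by gcongr
    have : (K * δ) ^ 3 ≤ (1 / 100) ^ 3 := by gcongr
    nlinarith
  obtain ⟨Z, hZ, hZ1, hQ⟩ := perturb (P := PK L δ μ) (Q := QK L δ μ κ) proj_p0 (proj_PC _)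
    (proj_PC _) (h.NN' hK hμ0).1 (h.pN hK hμ0)
    (PC_pres' _ fun x hx => mem_cl (mem_image_of_mem _ hx))
    (PC_pres' _ (by
      rintro _ ⟨x, hx, rfl⟩
      rw [← mul_apply_eq_comp, (h.NN' hK hμ0).2]
      exact mem_cl hx)) (h.form hK hL hδ hμ0) nA
  rw [hQ]
  refine ⟨HL.mid proj_p0 (proj_PC _) hc hZ, ?_⟩
  refine expand (E := EL (nu L δ) μ fun z => κ z.re) (A3 := mm (nu L δ) (A3m κ μ)) proj_p0
    (pars_fr hL hδ) (proj_PC _) (sm_star mκ.b0 fun z => by simp) hZ hZ1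
    (leibniz_pres hμ0 (core_cyl L δ) mκ fun u hu => mul_mem_cyl sκ (by simp [h.per]) hu)
    (p0_EM (mκ.c1 μ) (mκ.c2 μ)) (p0_sm mκ.b0) (h.decomp hK hμ0)
    (sm_comm mκ.b0 (Bd_dm (b := fun x => 2 * x) continuous_zero (by fun_prop) continuous_zero)) (by nlinarith) hδ
    (by linarith) (nκ.trans (by nlinarith)) ?_ n1 n2 n3
    (sm_norm_le zero_le_one (ae_of_all _ fun z => by simpa using hχ1 _)) hc
    (horth hL hδ hμ0 hχ cκ)
  refine EM_norm_le (by positivity) (ae_of_all _ fun z => ?_)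
  have := d_ten (a := fun s => (κ s : ℂ)) (b := fun _ => 1) (z := z)
    ((h.smooth.differentiable (by simp) z.re).hasDerivAt.ofReal_comp) (hasDerivAt_const _ _)
  simp only [mul_one, mul_zero] at this
  rw [this.1, this.2]
  simp only [Complex.norm_mul, norm_inv, norm_real, Real.norm_eq_abs, abs_of_pos hμ0, mul_zero,
    norm_zero, add_zero]
  have a : μ⁻¹ ≤ δ := by rw [inv_le_iff_one_le_mul₀' hμ0]; exact hμ
  calc _ ≤ δ * K := by gcongr; exact h.b1 _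
    _ ≤ _ := by nlinarith

end Pool.Agent.Lib.MP_312682_mp
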