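import Pool.Agent.Lib.MP_312682_mp.Cyl3

/-! Asymptotics on the curved and on the flat cylinder. -/

open scoped InnerProductSpace ENNReal ContDiff ComplexConjugate Topology
open MeasureTheory Complex Set Filter

set_option linter.unusedSectionVars false

noncomputable section

namespace Pool.Agent.Lib.MP_312682_mp

variable {L δ μ K : ℝ} {κ χ : ℝ → ℝ}

lemma SK_norm (hL : 0 < L) (hδ : 0 < δ) (hμ : 0 < μ) (hκ : Continuous κ) (hχ : Continuous χ)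
    (i : ℤ × ℤ) : ‖SK L δ μ κ χ (fr L δ i)‖ ^ 2 = ∫ z, μ ^ 4 / L * (χ z.im ^ 2 *
      ‖u0 L δ μ i z.im - κ z.re * u1 L δ μ i z.im + κ z.re * κ z.re * u2 L δ μ i z.im‖ ^ 2)
        ∂nu L δ := by
  have bκ : Bs (nu L δ) fun z => (κ z.re : ℂ) :=
    Bs_rect fun _ _ => Continuous.continuousAt (by fun_prop)
  have c0 := (s_u0 L δ μ i).continuous
  have c1 := (s_u1 L δ μ i).continuous
  have c2 := (s_u2 L δ μ i).continuous
  rw [SK, mul_apply_eq_comp]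
  refine norm_weight hL (n := i.1) (χ := fun z => χ z.im) (U := fun z => u0 L δ μ i z.im -
    κ z.re * u1 L δ μ i z.im + κ z.re * κ z.re * u2 L δ μ i z.im) ?_
    (Bs_rect fun _ _ => Continuous.continuousAt (by fun_prop))
  rw [add_apply, sub_apply, mul_apply_eq_comp (sm _ _), mul_apply_eq_comp (sm _ _ * sm _ _),
    V0 hL hδ hμ, V1 hL hδ hμ, V2 hL hδ hμ, sm_mul bκ bκ]
  set w0 := tv L δ i.1 (fun x => μ ^ 2 * u0 L δ μ i x) 0 0
  set w1 := tv L δ i.1 (fun x => μ ^ 2 * u1 L δ μ i x) 0 0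
  set w2 := tv L δ i.1 (fun x => μ ^ 2 * u2 L δ μ i x) 0 0
  filter_upwards [Lp.coeFn_add (w0 - sm (nu L δ) (fun z => κ z.re) w1)
    (sm (nu L δ) (fun z => κ z.re * κ z.re) w2),
    Lp.coeFn_sub w0 (sm (nu L δ) (fun z => κ z.re) w1), sm_coe bκ w1, sm_coe (bκ.mul bκ) w2,
    tv_coe (L := L) (δ := δ) i.1 (a := fun x => μ ^ 2 * u0 L δ μ i x) (by fun_prop)
      continuous_zero continuous_zero,
    tv_coe (L := L) (δ := δ) i.1 (a := fun x => μ ^ 2 * u1 L δ μ i x) (by fun_prop)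
      continuous_zero continuous_zero,
    tv_coe (L := L) (δ := δ) i.1 (a := fun x => μ ^ 2 * u2 L δ μ i x) (by fun_prop)
      continuous_zero continuous_zero] with z e1 e2 e3 e4 e5 e6 e7
  rw [e1, Pi.add_apply, e2, Pi.sub_apply, e3, e4, e5, e6, e7]
  refine E3_ext ?_ ?_ ?_ <;> simp
  ring

lemma tt_avg (hL : 0 < L) (hκ : Continuous κ) (Λ ξ m0 m1 m2 : ℝ) :
    ∫ s in (0 : ℝ)..L, tt Λ ξ m0 m1 m2 (κ s) (κ s ^ 2) =
      L * tt Λ ξ m0 m1 m2 ((∫ s in (0 : ℝ)..L, κ s) / L) ((∫ s in (0 : ℝ)..L, κ s ^ 2) / L) := by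
  have e : ∀ a b, tt Λ ξ m0 m1 m2 a b = tt Λ ξ m0 m1 m2 0 0 +
      (tt Λ ξ m0 m1 m2 1 0 - tt Λ ξ m0 m1 m2 0 0) * a +
      (tt Λ ξ m0 m1 m2 0 1 - tt Λ ξ m0 m1 m2 0 0) * b := fun a b => by
    simp only [tt]; ring
  rw [funext fun s => e (κ s) (κ s ^ 2), e (_ / L), intervalIntegral.integral_add,
    intervalIntegral.integral_add, intervalIntegral.integral_const_mul,
    intervalIntegral.integral_const_mul, intervalIntegral.integral_const]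
  · simp only [sub_zero, smul_eq_mul]
    field_simp
  all_goals exact Continuous.intervalIntegrable (by fun_prop) _ _

lemma avg_le (hL : 0 < L) {f : ℝ → ℝ} {c : ℝ} (h : ∀ s, |f s| ≤ c) :
    |(∫ s in (0 : ℝ)..L, f s) / L| ≤ c := by
  rw [abs_div, abs_of_pos hL, div_le_iff₀ hL]
  simpa [abs_of_pos hL] using intervalIntegral.norm_integral_le_of_norm_le_const
    (a := 0) (b := L) (f := f) (C := c) fun s _ => h s

/-- boundary contribution to the trace -/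
def mainB (L δ μ : ℝ) (κ w : ℝ → ℝ) : ℝ :=
  (L * mo δ w 0 - mo δ w 1 * ∫ s in (0 : ℝ)..L, κ s) / (4 * Real.pi) * (μ ^ 2)⁻¹ -
    L / 16 * (μ ^ 3)⁻¹ + (∫ s in (0 : ℝ)..L, κ s) / (12 * Real.pi) * (μ ^ 4)⁻¹ +
    3 * (∫ s in (0 : ℝ)..L, κ s ^ 2) / 1024 * (μ ^ 5)⁻¹

theorem SK_est (hL : 0 < L) (K : ℝ) : ∃ C, 0 ≤ C ∧ ∀ (δ μ E : ℝ) (κ χ : ℝ → ℝ), Kap L K κ →
    0 < δ → δ ≤ 1 → 1 ≤ μ * δ → Continuous χ → Wt δ (fun x => χ x ^ 2) →
    (∀ D, μ * δ ≤ D → (1 + D) ^ 7 * Real.exp (-(D / 2)) ≤ E) → hs2 (SK L δ μ κ χ) ≠ ⊤ →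
    |hsq (SK L δ μ κ χ) - μ ^ 4 * mainB L δ μ κ fun x => χ x ^ 2| ≤
      μ ^ 4 * C * (δ ^ 5 * μ⁻¹ + E * (μ ^ 2)⁻¹ + (μ ^ 6)⁻¹) := by
  obtain ⟨C1, hC1, h1⟩ := xi_est
  obtain ⟨C2, hC2, h2⟩ := xiE_int
  have hh : 0 < 2 * Real.pi / L := by positivity
  obtain ⟨C3, hC3, h3⟩ := tt_sum hh
  obtain ⟨C4, hC4, h4⟩ := lam_all hh
  refine ⟨(C1 + C2) * K ^ 4 * C4 + L / (2 * Real.pi) * C3 * K ^ 2, by positivity, ?_⟩
  intro δ μ E κ χ h hδ hδ1 hμ hχ hw hE hfin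
  have hμ1 : 1 ≤ μ := by nlinarith
  have hμ0 : 0 < μ := by linarith
  have cκ := h.smooth.continuous
  have hK := h.one_le
  have hE0 : 0 ≤ E := le_trans (by positivity) (hE _ le_rfl)
  have hΛ : ∀ n, μ ≤ La L μ n := le_lam _ hμ0
  have hΛ1 : ∀ n, 1 ≤ La L μ n := fun n => hμ1.trans (hΛ n)
  have hΛδ : ∀ n, μ * δ ≤ La L μ n * δ := fun n => by gcongr; exact hΛ n
  have hξ : ∀ n, xi L n ^ 2 ≤ La L μ n ^ 2 := fun n => by rw [La_sq]; nlinarith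
  have hs := hasSum_frame proj_p0 (pars_fr hL hδ) (T := SK L δ μ κ χ) (by
    simp only [SK, mul_assoc, add_mul, sub_mul, proj_p0.idem]) hfin
  simp_rw [SK_norm hL hδ hμ0 cκ hχ] at hs
  have cX := continuous_XiE
  obtain ⟨R, hR, hR'⟩ := sum_compare (fun i => integrable_rect fun _ _ =>
      Continuous.continuousAt (by
        have c0 := (s_u0 L δ μ i).continuous
        have c1 := (s_u1 L δ μ i).continuous
        have c2 := (s_u2 L δ μ i).continuous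
        fun_prop)) (fun _ _ => by positivity) hs
    (X := fun n z => μ ^ 4 / L * (χ z.im ^ 2 * Xi (La L μ n) δ (xi L n) (κ z.re) z.im))
    (E := fun n z => μ ^ 4 / L * (χ z.im ^ 2 * XiE (La L μ n) (xi L n) (κ z.re) (La L μ n * z.im)))
    (err := fun n => μ ^ 4 / L * (C1 * K ^ 4 * (δ ^ 4 * (La L μ n ^ 2)⁻¹ + E * (La L μ n ^ 3)⁻¹)))
    (fun n => by
      filter_upwards [ae_rect L δ] with z hz
      exact ((hasSum_Xi hδ hμ0 (Ioc_subset_Icc_self hz.2) n _).mul_left _).mul_left _)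
    (fun n => integrable_rect fun _ _ => Continuous.continuousAt (by
      have := (cX (La L μ n) (xi L n)).comp (f := fun z : ℂ => (κ z.re, La L μ n * z.im))
        (by fun_prop)
      exact continuous_const.mul (Continuous.mul (by fun_prop) this)))
    (fun n => by
      have := hΛ1 n
      filter_upwards [ae_rect L δ] with z hz
      rw [← mul_sub, ← mul_sub, abs_mul, abs_of_pos (by positivity), abs_mul,
        abs_of_nonneg (sq_nonneg _)]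
      refine mul_le_mul_of_nonneg_left ?_ (by positivity)
      rcases le_total z.im (δ / 2) with hx | hx
      · refine (mul_le_of_le_one_left (abs_nonneg _) (hw.le_one _)).trans
          ((h1 _ _ _ _ K _ (hΛ1 n) (hμ.trans (hΛδ n)) hδ1 (hξ n) (h.b0 _) hK
            ⟨hz.2.1.le, hx⟩).trans ?_)
        gcongr
        exact hE _ (hΛδ n)
      · rw [hw.zero _ hx, zero_mul]; positivity)
  obtain ⟨S, hS, hS'⟩ := h3 μ _ _ _ ((∫ s in (0 : ℝ)..L, κ s) / L)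
    ((∫ s in (0 : ℝ)..L, κ s ^ 2) / L) K hμ1 hK (mo_le hw hδ hδ1 0) (mo_le hw hδ hδ1 1)
    (mo_le hw hδ hδ1 2) (avg_le hL h.b0) (avg_le hL fun s => by
      rw [abs_pow]; gcongr; exact h.b0 s)
  have s2 : Summable fun n => (La L μ n ^ 2)⁻¹ := summable_lam hh hμ0 (b := 1) le_rfl
  have s3 : Summable fun n => (La L μ n ^ 3)⁻¹ := summable_lam hh hμ0 (b := 2) (by norm_num)
  have t2 : ∑' n, (La L μ n ^ 2)⁻¹ ≤ C4 * (μ ^ 1)⁻¹ := (h4 μ hμ1 1 (by simp)).2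
  have t3 : ∑' n, (La L μ n ^ 3)⁻¹ ≤ C4 * (μ ^ 2)⁻¹ := (h4 μ hμ1 2 (by simp)).2
  have key := (hR.sub (hS.mul_left (μ ^ 4))).norm_le_of_bounded
    (((s2.hasSum.mul_left (δ ^ 5)).add (s3.hasSum.mul_left E)).mul_left
      (μ ^ 4 * ((C1 + C2) * K ^ 4))) fun n => by
    have hn := hΛ1 n
    have a1 := hR' n
    rw [nu_univ hL.le hδ.le, integral_const_mul, int_rect hL.le hδ.le
      (integrable_rect fun _ _ => Continuous.continuousAt (by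
        have := (cX (La L μ n) (xi L n)).comp (f := fun z : ℂ => (κ z.re, La L μ n * z.im))
          (by fun_prop)
        exact Continuous.mul (by fun_prop) this))] at a1
    simp only [add_re, ofReal_re, mul_re, I_re, mul_zero, ofReal_im, I_im, mul_one, sub_self,
      add_zero, add_im, mul_im, zero_add] at a1
    have a2 := intervalIntegral.norm_integral_le_of_norm_le_const (a := 0) (b := L)
      fun s _ => (Real.norm_eq_abs _).trans_le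
        (h2 δ (La L μ n) (xi L n) (κ s) K _ hw hn hδ (hξ n) (h.b0 s) hK)
    rw [intervalIntegral.integral_sub (Continuous.intervalIntegrable (by
        refine intervalIntegral.continuous_parametric_intervalIntegral_of_continuous' ?_ _ _
        have := (cX (La L μ n) (xi L n)).comp (f := fun p : ℝ × ℝ => (κ p.1, La L μ n * p.2))
          (by fun_prop)
        exact Continuous.mul (by fun_prop) this) _ _)
      (Continuous.intervalIntegrable (by unfold tt; fun_prop) _ _), tt_avg hL cκ, sub_zero,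
      abs_of_pos hL, Real.norm_eq_abs] at a2
    have a3 := hE _ (hΛδ n)
    set I0 := ∫ s in (0 : ℝ)..L, ∫ x in (0 : ℝ)..δ,
      χ x ^ 2 * XiE (La L μ n) (xi L n) (κ s) (La L μ n * x)
    set T := tt (La L μ n) (xi L n) (mo δ (fun x => χ x ^ 2) 0) (mo δ (fun x => χ x ^ 2) 1)
      (mo δ (fun x => χ x ^ 2) 2) ((∫ s in (0 : ℝ)..L, κ s) / L) ((∫ s in (0 : ℝ)..L, κ s ^ 2) / L)
    change |R n - μ ^ 4 * T| ≤ _
    have e : R n - μ ^ 4 * T = (R n - μ ^ 4 / L * I0) + μ ^ 4 / L * (I0 - L * T) := by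
      field_simp; ring
    rw [e]
    refine (abs_add_le _ _).trans ?_
    rw [abs_mul, abs_of_pos (by positivity : 0 < μ ^ 4 / L)]
    have a4 : |I0 - L * T| ≤ C2 * K ^ 4 * (E * (La L μ n ^ 3)⁻¹) * L := a2.trans (by gcongr)
    calc _ ≤ μ ^ 4 / L * (C1 * K ^ 4 * (δ ^ 4 * (La L μ n ^ 2)⁻¹ + E * (La L μ n ^ 3)⁻¹)) *
          (L * δ) + μ ^ 4 / L * (C2 * K ^ 4 * (E * (La L μ n ^ 3)⁻¹) * L) := by gcongr
      _ = μ ^ 4 * K ^ 4 * (C1 * (δ ^ 5 * (La L μ n ^ 2)⁻¹ + δ * (E * (La L μ n ^ 3)⁻¹)) +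
          C2 * (0 + E * (La L μ n ^ 3)⁻¹)) := by field_simp; ring
      _ ≤ μ ^ 4 * K ^ 4 * (C1 * (δ ^ 5 * (La L μ n ^ 2)⁻¹ + 1 * (E * (La L μ n ^ 3)⁻¹)) +
          C2 * (δ ^ 5 * (La L μ n ^ 2)⁻¹ + E * (La L μ n ^ 3)⁻¹)) := by gcongr; positivity
      _ = _ := by ring
  have e : mainB L δ μ κ (fun x => χ x ^ 2) = L / (2 * Real.pi) *
      ((mo δ (fun x => χ x ^ 2) 0 - (∫ s in (0 : ℝ)..L, κ s) / L * mo δ (fun x => χ x ^ 2) 1) / 2 *
        (μ ^ 2)⁻¹ - Real.pi / 8 * (μ ^ 3)⁻¹ + (∫ s in (0 : ℝ)..L, κ s) / L / 6 * (μ ^ 4)⁻¹ +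
      3 * Real.pi / 512 * ((∫ s in (0 : ℝ)..L, κ s ^ 2) / L) * (μ ^ 5)⁻¹) := by
    rw [mainB]; field_simp; ring
  rw [e]
  set M := (mo δ (fun x => χ x ^ 2) 0 - (∫ s in (0 : ℝ)..L, κ s) / L *
    mo δ (fun x => χ x ^ 2) 1) / 2 * (μ ^ 2)⁻¹ - Real.pi / 8 * (μ ^ 3)⁻¹ +
      (∫ s in (0 : ℝ)..L, κ s) / L / 6 * (μ ^ 4)⁻¹ +
      3 * Real.pi / 512 * ((∫ s in (0 : ℝ)..L, κ s ^ 2) / L) * (μ ^ 5)⁻¹
  have e2 : hsq (SK L δ μ κ χ) - μ ^ 4 * (L / (2 * Real.pi) * M) = (hsq (SK L δ μ κ χ) -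
      μ ^ 4 * S) + μ ^ 4 * (L / (2 * Real.pi)) * (2 * Real.pi / L * S - M) := by
    field_simp; ring
  rw [e2]
  refine (abs_add_le _ _).trans ?_
  rw [abs_mul, abs_of_pos (by positivity : 0 < μ ^ 4 * (L / (2 * Real.pi)))]
  rw [pow_one] at t2
  calc _ ≤ μ ^ 4 * ((C1 + C2) * K ^ 4) * (δ ^ 5 * (C4 * μ⁻¹) + E * (C4 * (μ ^ 2)⁻¹)) +
        μ ^ 4 * (L / (2 * Real.pi)) * (C3 * K ^ 2 * (μ ^ 6)⁻¹) := by
        gcongr
        exact key.trans (by gcongr)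
    _ = μ ^ 4 * ((C1 + C2) * K ^ 4 * C4 * (δ ^ 5 * μ⁻¹ + E * (μ ^ 2)⁻¹ + 0) +
        L / (2 * Real.pi) * C3 * K ^ 2 * (0 + (μ ^ 6)⁻¹)) := by ring
    _ ≤ μ ^ 4 * ((C1 + C2) * K ^ 4 * C4 * (δ ^ 5 * μ⁻¹ + E * (μ ^ 2)⁻¹ + (μ ^ 6)⁻¹) +
        L / (2 * Real.pi) * C3 * K ^ 2 * (δ ^ 5 * μ⁻¹ + E * (μ ^ 2)⁻¹ + (μ ^ 6)⁻¹)) := by
        gcongr <;> positivity
    _ = _ := by ring

lemma HL_flat (hL : 0 < L) : ∃ C, 1 ≤ C ∧ ∀ δ μ : ℝ, 0 < δ → 1 ≤ μ →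
    HL (p0 (nu L δ) * PK L δ μ * p0 (nu L δ)) (C * δ * (μ * √μ)) := by
  obtain ⟨C4, hC4, h4⟩ := lam_all (h := 2 * Real.pi / L) (by positivity)
  refine ⟨1 + C4, by linarith, fun δ μ hδ hμ => HL_G0 hL hδ (by linarith) (by positivity) ?_⟩
  have t2 : ∑' n, (La L μ n ^ (1 + 1))⁻¹ ≤ C4 * (μ ^ 1)⁻¹ := (h4 μ hμ 1 (by simp)).2
  rw [mul_pow, mul_pow, mul_pow, Real.sq_sqrt (by linarith)]
  calc _ ≤ μ ^ 4 * δ ^ 2 / 4 * (C4 * (μ ^ 1)⁻¹) := by gcongr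
    _ = C4 / 4 * δ ^ 2 * (μ ^ 2 * μ) := by field_simp
    _ ≤ _ := by gcongr; nlinarith

/-- the boundary weight -/
def chi (δ x : ℝ) : ℝ := 1 - stp (δ / 4) (δ / 4) x

lemma contDiff_chi (δ : ℝ) : ContDiff ℝ ∞ (chi δ) := contDiff_const.sub (contDiff_stp _ _)
lemma chi_nonneg (δ x : ℝ) : 0 ≤ chi δ x := sub_nonneg.2 (stp_le_one _ _ _)
lemma chi_le_one (δ x : ℝ) : chi δ x ≤ 1 := sub_le_self _ (stp_nonneg _ _ _)
lemma abs_chi (δ x : ℝ) : |chi δ x| ≤ 1 := by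
  rw [abs_of_nonneg (chi_nonneg δ x)]; exact chi_le_one δ x
lemma chi_one (hδ : 0 < δ) {x : ℝ} (h : x ≤ δ / 4) : chi δ x = 1 := by
  rw [chi, stp_zero (by positivity) h, sub_zero]
lemma chi_zero (hδ : 0 < δ) {x : ℝ} (h : δ / 2 ≤ x) : chi δ x = 0 := by
  rw [chi, stp_one (by positivity) (by linarith), sub_self]
lemma wt_chi (hδ : 0 < δ) : Wt δ fun x => chi δ x ^ 2 :=
  ⟨(contDiff_chi δ).continuous.pow 2, fun _ => sq_nonneg _,
    fun x => pow_le_one₀ (chi_nonneg δ x) (chi_le_one δ x), fun x h => by simp [chi_one hδ h],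
    fun x h => by simp [chi_zero hδ h]⟩

theorem curved_main (hL : 0 < L) (h : Kap L K κ) : ∃ C, 0 ≤ C ∧ ∀ᶠ τ : ℝ in atTop,
    HL (p0 _ * QK L (τ ^ 5)⁻¹ (τ ^ 6) κ * p0 _) (C * τ ^ 12) ∧
    |hsq (sm _ (fun z => chi (τ ^ 5)⁻¹ z.im) * (p0 _ * QK L (τ ^ 5)⁻¹ (τ ^ 6) κ * p0 _)) -
      (τ ^ 6) ^ 4 * mainB L (τ ^ 5)⁻¹ (τ ^ 6) κ fun x => chi (τ ^ 5)⁻¹ x ^ 2| ≤
        C * (τ ^ 7)⁻¹ := by
  obtain ⟨C1, hC1, h1⟩ := SK_est hL K
  obtain ⟨C2, hC2, h2⟩ := HL_flat hL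
  obtain ⟨C3, hC3, h3⟩ := poly_exp_le 19 (c := 1 / 2) (by norm_num)
  have hK := h.one_le
  refine ⟨2 * C2 + 2000000 * (30 * K ^ 3) ^ 12 * C2 ^ 2 + C1 * (C3 + 2), by positivity, ?_⟩
  filter_upwards [eventually_ge_atTop 1, eventually_ge_atTop (100 * K ^ 3)] with τ t1 t2
  have t0 : 0 < τ := by linarith
  have e1 : τ ^ 6 * (τ ^ 5)⁻¹ = τ := by field_simp
  have t5 : τ ≤ τ ^ 5 := le_self_pow₀ t1 (by norm_num)
  have hδ : 0 < (τ ^ 5)⁻¹ := by positivity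
  have hc := h2 _ _ hδ (one_le_pow₀ (n := 6) t1)
  rw [show √(τ ^ 6) = τ ^ 3 by rw [show τ ^ 6 = (τ ^ 3) ^ 2 by ring, Real.sqrt_sq (by positivity)],
    show C2 * (τ ^ 5)⁻¹ * (τ ^ 6 * τ ^ 3) = C2 * τ ^ 4 by field_simp] at hc
  obtain ⟨a1, a2, a3⟩ := curved_expand h (by rw [mul_inv_le_iff₀ (by positivity)]; linarith) hL hδ
    (by rw [e1]; exact t1) (contDiff_chi (τ ^ 5)⁻¹) (abs_chi _) hc
  have a4 := h1 _ _ (C3 * (τ ^ 19)⁻¹) κ _ h hδ (inv_le_one_of_one_le₀ (by linarith))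
    (by rw [e1]; exact t1) (contDiff_chi _).continuous (wt_chi hδ) (fun D hD => by
      rw [show D / 2 = 1 / 2 * D by ring]; exact h3 D τ t1 (e1 ▸ hD)) a2
  refine ⟨a1.mono ?_, ?_⟩
  · have : τ ^ 4 ≤ τ ^ 12 := pow_le_pow_right₀ t1 (by norm_num)
    calc _ = (2 * C2 + 0 + 0) * τ ^ 4 := by ring
      _ ≤ _ := by gcongr <;> positivity
  · refine (abs_sub_le _ _ _).trans ((add_le_add a3 a4).trans ?_)
    have : (τ ^ 12)⁻¹ ≤ (τ ^ 7)⁻¹ := by gcongr; norm_num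
    calc _ = (0 + 2000000 * (30 * K ^ 3) ^ 12 * C2 ^ 2 + C1 * (C3 + 1)) * (τ ^ 7)⁻¹ +
          C1 * (τ ^ 12)⁻¹ := by field_simp; ring
      _ ≤ (2 * C2 + 2000000 * (30 * K ^ 3) ^ 12 * C2 ^ 2 + C1 * (C3 + 1)) * (τ ^ 7)⁻¹ +
          C1 * (τ ^ 7)⁻¹ := by gcongr; positivity
      _ = _ := by ring

theorem flat_main {M : ℝ} (hM : 1 ≤ M) : ∃ C, 0 ≤ C ∧ ∀ (μ : ℝ) (χ : ℂ → ℝ), 1 ≤ μ →
    AEStronglyMeasurable χ (nu M M) → (∀ z, |χ z| ≤ 1) →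
    (∀ z, χ z ≠ 0 → z.im ∈ Icc 1 (M / 2)) →
    HL (p0 _ * PK M M μ * p0 _) (C * μ ^ 2) ∧
    |hsq (sm _ (fun z => χ z) * (p0 _ * PK M M μ * p0 _)) -
      μ ^ 4 * ((∫ z, χ z ^ 2 ∂nu M M) / (4 * Real.pi) * (μ ^ 2)⁻¹)| ≤ C * (μ ^ 2)⁻¹ := by
  have hM0 : 0 < M := by linarith
  obtain ⟨C1, hC1, h1⟩ := xi0_est
  obtain ⟨C2, hC2, h2⟩ := HL_flat hM0
  obtain ⟨C3, hC3, h3⟩ := poly_exp_le 4 (c := 1 / 2) (by norm_num)
  obtain ⟨C5, hC5, h5⟩ := poly_exp_le 4 (c := 2) (by norm_num)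
  have hh : 0 < 2 * Real.pi / M := by positivity
  obtain ⟨C4, hC4, h4⟩ := lam_all hh
  refine ⟨C2 * M + M * (C1 * C3 + C5) * C4 + M ^ 2 * C4, by positivity, ?_⟩
  intro μ χ hμ mχ hχ sχ
  have hμ0 : 0 < μ := by linarith
  have hc : HL (p0 _ * PK M M μ * p0 _) (C2 * M * μ ^ 2) := (h2 M μ hM0 hμ).mono (by
    rw [sq]; gcongr
    rw [Real.sqrt_le_left hμ0.le]; nlinarith)
  refine ⟨hc.mono (by gcongr; rw [add_assoc]; exact le_add_of_nonneg_right (by positivity)), ?_⟩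
  have bχ : Bs (nu M M) fun z => (χ z : ℂ) :=
    ⟨continuous_ofReal.comp_aestronglyMeasurable mχ, 1, ae_of_all _ fun z => by simpa using hχ z⟩
  have hχ2 : ∀ z, χ z ^ 2 ≤ 1 := fun z => by rw [← sq_abs]; exact pow_le_one₀ (abs_nonneg _) (hχ z)
  have iχ : ∀ {f : ℂ → ℝ}, Integrable f (nu M M) → Integrable (fun z => χ z ^ 2 * f z) (nu M M) :=
    fun hf => hf.bdd_mul (c := 1) (mχ.pow 2) (ae_of_all _ fun z => by simpa using hχ z)
  have hs := hasSum_frame proj_p0 (pars_fr hM0 hM0)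
    (T := sm _ (fun z => χ z) * (p0 _ * PK M M μ * p0 _)) (by
      simp only [mul_assoc, proj_p0.idem])
    (hc.mleft (sm_norm_le zero_le_one (ae_of_all _ fun z => by simpa using hχ z))).ne_top
  have e : ∀ i, ‖(sm (nu M M) (fun z => χ z) * (p0 (nu M M) * PK M M μ * p0 (nu M M)))
      (fr M M i)‖ ^ 2 =
      ∫ z, μ ^ 4 / M * (χ z ^ 2 * ‖u0 M M μ i z.im‖ ^ 2) ∂nu M M := by
    intro i
    have := (s_u0 M M μ i).continuous
    have h0 : tv M M i.1 (fun x => μ ^ 2 * u0 M M μ i x) 0 0 =ᵐ[nu M M]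
        fun z => ex M i.1 z.re • (!₂[μ ^ 2 * u0 M M μ i z.im, 0, 0] : E3) :=
      tv_coe i.1 (by fun_prop) continuous_zero continuous_zero
    rw [mul_apply_eq_comp, V0 hM0 hM0 hμ0]
    exact norm_weight hM0 (μ := μ) (U := fun z => u0 M M μ i z.im) h0 bχ
  simp_rw [e] at hs
  have hΛ : ∀ n, μ ≤ La M μ n := le_lam _ hμ0
  obtain ⟨R, hR, hR'⟩ := sum_compare (fun i => (iχ (integrable_rect fun _ _ =>
      Continuous.continuousAt (by
        have c0 := (s_u0 M M μ i).continuous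
        fun_prop))).const_mul _) (fun _ _ => by positivity) hs
    (X := fun n z => μ ^ 4 / M * (χ z ^ 2 * ∫ y in (0 : ℝ)..M, Gk (La M μ n) M z.im y ^ 2))
    (E := fun n z => μ ^ 4 / M * (χ z ^ 2 * ((La M μ n ^ 3)⁻¹ / 4)))
    (err := fun n => μ ^ 4 / M * ((C1 * C3 + C5) * (μ ^ 4)⁻¹ * (La M μ n ^ 3)⁻¹))
    (fun n => by
      filter_upwards [ae_rect M M] with z hz
      exact ((hasSum_G hM0 hμ0 (Ioc_subset_Icc_self hz.2) n).mul_left _).mul_left _)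
    (fun n => (iχ (integrable_const _)).const_mul _)
    (fun n => ae_of_all _ fun z => by
      have l1 := hΛ n
      have l0 : 0 < La M μ n := by linarith
      rw [← mul_sub, ← mul_sub, abs_mul, abs_of_pos (by positivity), abs_mul,
        abs_of_nonneg (sq_nonneg _)]
      refine mul_le_mul_of_nonneg_left ?_ (by positivity)
      by_cases hz : χ z = 0
      · rw [hz]; simp only [ne_eq, OfNat.ofNat_ne_zero, not_false_eq_true, zero_pow, zero_mul]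
        positivity
      obtain ⟨z1, z2⟩ := sχ z hz
      refine (mul_le_of_le_one_left (abs_nonneg _) (hχ2 _)).trans ?_
      have b1 := h1 (La M μ n) M z.im l0 (by nlinarith) ⟨by linarith, z2⟩
      have b2 := h3 (La M μ n * M) μ hμ (by nlinarith)
      have b3 := h5 (La M μ n * z.im) μ hμ (by nlinarith)
      rw [show 1 / 2 * (La M μ n * M) = La M μ n * M / 2 by ring] at b2
      have b4 : |dn0 (La M μ n * z.im) - 1 / 4| ≤ C5 * (μ ^ 4)⁻¹ := by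
        refine le_trans ?_ b3
        have x0 : 0 ≤ La M μ n * z.im := by positivity
        generalize La M μ n * z.im = X at x0 ⊢
        rw [dn0, add_sub_cancel_left, abs_mul, abs_of_pos (Real.exp_pos _)]
        gcongr
        have : 1 + X ≤ (1 + X) ^ 7 := le_self_pow₀ (by linarith) (by norm_num)
        simp only [ev, w0, List.map_cons, List.map_nil, List.sum_cons, List.sum_nil]
        rw [abs_le]; constructor <;> norm_num <;> linarith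
      refine (abs_sub_le _ ((La M μ n ^ 3)⁻¹ * dn0 (La M μ n * z.im)) _).trans ?_
      rw [div_eq_mul_one_div ((La M μ n ^ 3)⁻¹), ← mul_sub, abs_mul,
        abs_of_pos (by positivity : 0 < (La M μ n ^ 3)⁻¹)]
      calc _ ≤ C1 * (C3 * (μ ^ 4)⁻¹) * (La M μ n ^ 3)⁻¹ + (La M μ n ^ 3)⁻¹ * (C5 * (μ ^ 4)⁻¹) := by
            gcongr
            exact b1.trans (by gcongr)
        _ = _ := by ring)
  have s3 : Summable fun n => (La M μ n ^ 3)⁻¹ := summable_lam hh hμ0 (b := 2) (by norm_num)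
  obtain ⟨t1, t3⟩ : |2 * Real.pi / M * ∑' n, (La M μ n ^ 3)⁻¹ - Jc 2 * (μ ^ 2)⁻¹| ≤
    C4 * (μ ^ 6)⁻¹ ∧ ∑' n, (La M μ n ^ 3)⁻¹ ≤ C4 * (μ ^ 2)⁻¹ := h4 μ hμ 2 (by simp)
  set a := ∫ z, χ z ^ 2 ∂nu M M with ha
  have a0 : |a| ≤ M ^ 2 := by
    have := norm_integral_le_of_norm_le_const (μ := nu M M) (f := fun z => χ z ^ 2) (C := 1)
      (ae_of_all _ fun z => by simpa using hχ z)
    rwa [nu_univ hM0.le hM0.le, one_mul, ← sq] at this
  have key := (hR.sub (s3.hasSum.mul_left (μ ^ 4 / M * a / 4))).norm_le_of_bounded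
    (s3.hasSum.mul_left (M * (C1 * C3 + C5))) fun n => by
      have a1 := hR' n
      rw [nu_univ hM0.le hM0.le, integral_const_mul, integral_mul_const] at a1
      rw [Real.norm_eq_abs]
      refine le_trans (le_of_eq ?_) (a1.trans (le_of_eq ?_))
      · congr 1; ring
      · field_simp
  rw [Jc_two] at t1
  set T := ∑' n, (La M μ n ^ 3)⁻¹
  set H := hsq (sm _ (fun z => χ z) * (p0 _ * PK M M μ * p0 _))
  have e2 : H - μ ^ 4 * (a / (4 * Real.pi) * (μ ^ 2)⁻¹) = (H - μ ^ 4 / M * a / 4 * T) +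
      μ ^ 4 / (8 * Real.pi) * a * (2 * Real.pi / M * T - 2 * (μ ^ 2)⁻¹) := by
    field_simp; ring
  rw [e2]
  refine (abs_add_le _ _).trans ?_
  rw [abs_mul, abs_mul, abs_of_pos (by positivity : 0 < μ ^ 4 / (8 * Real.pi))]
  have p1 : 1 ≤ 8 * Real.pi := by linarith [Real.pi_gt_three]
  calc _ ≤ M * (C1 * C3 + C5) * (C4 * (μ ^ 2)⁻¹) + μ ^ 4 / 1 * M ^ 2 * (C4 * (μ ^ 6)⁻¹) := by
        gcongr
        exact key.trans (by gcongr)
    _ = (0 + M * (C1 * C3 + C5) * C4 + M ^ 2 * C4) * (μ ^ 2)⁻¹ := by field_simp; ring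
    _ ≤ _ := by gcongr; positivity

end Pool.Agent.Lib.MP_312682_mp
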