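import Pool.Agent.Lib.MP_312682_mp.Ode

/-! Explicit half-line kernels and the local densities. -/

open MeasureTheory Set Real intervalIntegral

noncomputable section

namespace Pool.Agent.Lib.MP_312682_mp

abbrev Pl := List (ℝ × ℕ × ℕ)

def ev (l : Pl) (X z : ℝ) : ℝ := (l.map fun t => t.1 * X ^ t.2.1 * z ^ t.2.2).sum
def dv (l : Pl) (X z : ℝ) : ℝ := (l.map fun t => t.1 * X ^ t.2.1 * (t.2.2 * z ^ (t.2.2 - 1))).sum
def ab (l : Pl) : ℝ := (l.map fun t => |t.1|).sum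
def dg (l : Pl) : Prop := ∀ n ∈ l.map fun t => t.2.1 + t.2.2, n ≤ 5

lemma hd_ev (l : Pl) (X z : ℝ) : HasDerivAt (ev l X) (dv l X z) z := by
  induction l with
  | nil => exact hasDerivAt_const z 0
  | cons t l ih => exact ((hasDerivAt_pow t.2.2 z).const_mul (t.1 * X ^ t.2.1)).add ih

lemma continuous_ev (l : Pl) (X : ℝ) : Continuous (ev l X) :=
  continuous_iff_continuousAt.2 fun z => (hd_ev l X z).continuousAt

lemma ab_nonneg (l : Pl) : 0 ≤ ab l := by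
  induction l with
  | nil => exact le_rfl
  | cons t l ih => exact add_nonneg (abs_nonneg _) ih

lemma ev_le {l : Pl} (hl : dg l) {X z D : ℝ} (hX : X ∈ Icc 0 D) (hz : z ∈ Icc 0 D) :
    |ev l X z| ≤ ab l * (1 + D) ^ 5 := by
  induction l with
  | nil => simp [ev, ab]
  | cons t l ih =>
    have h1 := ih fun n hn => hl n (by simp only [List.map_cons, List.mem_cons]; exact Or.inr hn)
    have h2 : t.2.1 + t.2.2 ≤ 5 := hl _ (by simp)
    have hD : 0 ≤ D := hX.1.trans hX.2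
    have h3 : |t.1 * X ^ t.2.1 * z ^ t.2.2| ≤ |t.1| * (1 + D) ^ 5 := by
      rw [mul_assoc, abs_mul, abs_of_nonneg (mul_nonneg (pow_nonneg hX.1 _) (pow_nonneg hz.1 _))]
      gcongr
      calc _ ≤ (1 + D) ^ t.2.1 * (1 + D) ^ t.2.2 := by
            have := hX.1
            have := hz.1
            gcongr
            · linarith [hX.2]
            · linarith [hz.2]
        _ = (1 + D) ^ (t.2.1 + t.2.2) := (pow_add _ _ _).symm
        _ ≤ _ := pow_le_pow_right₀ (by linarith) h2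
    change |t.1 * X ^ t.2.1 * z ^ t.2.2 + ev l X z| ≤ (|t.1| + ab l) * _
    rw [add_mul]
    exact (abs_add_le _ _).trans (add_le_add h3 h1)

lemma explicit_int {f : ℝ → ℝ} (hf : Continuous f) (L0 L1 L2 R0 R1 R2 : Pl) (h0 : dg R0)
    (h1 : dg R1) (h2 : dg R2) {X D : ℝ} (hX : X ∈ Icc 0 (D / 2))
    (hL : ∀ z ≤ X, f z = (dv L0 X z + 2 * ev L0 X z) * exp (-(X - z)) ^ 2 +
      dv L1 X z * (exp (-(X - z)) * exp (-(z + X))) +
      (dv L2 X z - 2 * ev L2 X z) * exp (-(z + X)) ^ 2)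
    (hR : ∀ z ≥ X, f z = (dv R0 X z - 2 * ev R0 X z) * exp (-(z - X)) ^ 2 +
      (dv R1 X z - 2 * ev R1 X z) * (exp (-(z - X)) * exp (-(z + X))) +
      (dv R2 X z - 2 * ev R2 X z) * exp (-(z + X)) ^ 2) {d : ℝ}
    (hd : ∀ b : ℝ, b = exp (-(2 * X)) → ev L0 X X + ev L1 X X * b + ev L2 X X * b ^ 2 -
      (ev L0 X 0 + ev L1 X 0 + ev L2 X 0) * b - (ev R0 X X + ev R1 X X * b + ev R2 X X * b ^ 2) = d) :
    |(∫ z in (0 : ℝ)..D, f z) - d| ≤ (ab R0 + ab R1 + ab R2) * (1 + D) ^ 5 * exp (-(D / 2)) := by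
  have hD : 0 ≤ D := by linarith [hX.1, hX.2]
  have hXD : X ≤ D := by linarith [hX.2]
  have a1 : ∀ z, HasDerivAt (fun z => exp (-(X - z))) (exp (-(X - z))) z := fun z => by
    simpa using ((hasDerivAt_id z).const_sub X).neg.exp
  have a2 : ∀ z, HasDerivAt (fun z => exp (-(z - X))) (-exp (-(z - X))) z := fun z => by
    simpa using ((hasDerivAt_id z).sub_const X).neg.exp
  have a3 : ∀ z, HasDerivAt (fun z => exp (-(z + X))) (-exp (-(z + X))) z := fun z => by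
    simpa using ((hasDerivAt_id z).add_const X).neg.exp
  have i1 := integral_eq_sub_of_hasDerivAt (a := 0) (b := X) (f' := f)
    (f := fun z => ev L0 X z * exp (-(X - z)) ^ 2 + ev L1 X z * (exp (-(X - z)) * exp (-(z + X))) +
      ev L2 X z * exp (-(z + X)) ^ 2)
    (fun z hz => by
      rw [uIcc_of_le hX.1] at hz
      refine ((((hd_ev L0 X z).mul ((a1 z).pow 2)).add ((hd_ev L1 X z).mul ((a1 z).mul (a3 z)))).add
        ((hd_ev L2 X z).mul ((a3 z).pow 2))).congr_deriv ?_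
      rw [hL z hz.2]
      simp only [Pi.pow_apply, Pi.mul_apply]
      norm_num
      ring) (hf.intervalIntegrable _ _)
  have i2 := integral_eq_sub_of_hasDerivAt (a := X) (b := D) (f' := f)
    (f := fun z => ev R0 X z * exp (-(z - X)) ^ 2 + ev R1 X z * (exp (-(z - X)) * exp (-(z + X))) +
      ev R2 X z * exp (-(z + X)) ^ 2)
    (fun z hz => by
      rw [uIcc_of_le hXD] at hz
      refine ((((hd_ev R0 X z).mul ((a2 z).pow 2)).add ((hd_ev R1 X z).mul ((a2 z).mul (a3 z)))).add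
        ((hd_ev R2 X z).mul ((a3 z).pow 2))).congr_deriv ?_
      rw [hR z hz.1]
      simp only [Pi.pow_apply, Pi.mul_apply]
      norm_num
      ring) (hf.intervalIntegrable _ _)
  rw [← integral_add_adjacent_intervals (b := X) (hf.intervalIntegrable _ _)
    (hf.intervalIntegrable _ _), i1, i2, ← hd _ rfl]
  have e1 : exp (-(X + X)) = exp (-(2 * X)) := by congr 1; ring
  have e2 : exp (-X) ^ 2 = exp (-(2 * X)) := by rw [← exp_nat_mul]; congr 1; push_cast; ring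
  simp only [sub_self, neg_zero, exp_zero, sub_zero, zero_add, e1, ← pow_two, e2]
  have b1 : exp (-(D - X)) ≤ exp (-(D / 2)) := exp_le_exp.2 (by linarith [hX.2])
  have b2 : exp (-(D + X)) ≤ exp (-(D / 2)) := exp_le_exp.2 (by linarith [hX.1])
  have b3 : exp (-(D / 2)) ≤ 1 := exp_le_one_iff.2 (by linarith)
  have c0 := ev_le h0 ⟨hX.1, hXD⟩ ⟨hD, le_rfl⟩
  have c1 := ev_le h1 ⟨hX.1, hXD⟩ ⟨hD, le_rfl⟩
  have c2 := ev_le h2 ⟨hX.1, hXD⟩ ⟨hD, le_rfl⟩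
  have p1 := exp_pos (-(D - X))
  have p2 := exp_pos (-(D + X))
  have p3 := exp_pos (-(D / 2))
  have t : ∀ {q m u v : ℝ}, |q| ≤ m → 0 < u → u ≤ exp (-(D / 2)) → 0 < v → v ≤ exp (-(D / 2)) →
      |q * (u * v)| ≤ m * exp (-(D / 2)) := by
    intro q m u v hq hu hu' hv hv'
    rw [abs_mul, abs_of_pos (mul_pos hu hv)]
    refine mul_le_mul hq ?_ (mul_pos hu hv).le ((abs_nonneg _).trans hq)
    nlinarith
  have t0 := t c0 p1 b1 p1 b1
  have t1 := t c1 p1 b1 p2 b2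
  have t2 := t c2 p2 b2 p2 b2
  rw [abs_le] at *
  constructor <;> nlinarith [t0.1, t0.2, t1.1, t1.2, t2.1, t2.2]

def gE (X z : ℝ) : ℝ := (exp (-|z - X|) - exp (-(z + X))) / 2
def vE (X z : ℝ) : ℝ := ((1 + |z - X|) * exp (-|z - X|) - (1 + (z + X)) * exp (-(z + X))) / 4
def vE' (X z : ℝ) : ℝ := (-(z - X) * exp (-|z - X|) + (z + X) * exp (-(z + X))) / 4
def pE (X z : ℝ) : ℝ :=
  ((z + X) * (1 + |z - X|) * exp (-|z - X|) - (z ^ 2 + z + X ^ 2 + X) * exp (-(z + X))) / 8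
def pE' (X z : ℝ) : ℝ :=
  (((1 + |z - X|) - (z + X) * (z - X)) * exp (-|z - X|) -
    (2 * z + 1 - (z ^ 2 + z + X ^ 2 + X)) * exp (-(z + X))) / 8

lemma continuous_gE (X : ℝ) : Continuous (gE X) := by unfold gE; fun_prop
lemma continuous_vE (X : ℝ) : Continuous (vE X) := by unfold vE; fun_prop
lemma continuous_pE (X : ℝ) : Continuous (pE X) := by unfold pE; fun_prop

def q0L0 : Pl := [(1/8, 0, 0)]
def q0L1 : Pl := [(-1/2, 0, 1)]
def q0L2 : Pl := [(-1/8, 0, 0)]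
def q0R0 : Pl := [(-1/8, 0, 0)]
def q0R1 : Pl := [(1/4, 0, 0)]
def q0R2 : Pl := [(-1/8, 0, 0)]
def q1L0 : Pl := [(-1/32, 0, 0), (1/16, 0, 1), (-1/32, 0, 2), (1/32, 1, 0), (1/32, 2, 0)]
def q1L1 : Pl := [(-1/16, 0, 2), (-1/8, 1, 1), (-1/8, 2, 1)]
def q1L2 : Pl := [(-1/32, 0, 0), (-1/16, 0, 1), (-1/32, 0, 2), (-1/32, 1, 0), (-1/32, 2, 0)]
def q1R0 : Pl := [(-1/32, 0, 0), (-1/16, 0, 1), (-1/32, 0, 2), (-1/32, 1, 0), (1/32, 2, 0)]
def q1R1 : Pl := [(1/16, 0, 0), (1/8, 0, 1), (1/16, 0, 2), (1/16, 1, 0)]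
def q1R2 : Pl := [(-1/32, 0, 0), (-1/16, 0, 1), (-1/32, 0, 2), (-1/32, 1, 0), (-1/32, 2, 0)]
def qaL0 : Pl := [(35/64, 0, 0), (-35/32, 0, 1), (35/32, 0, 2), (-5/8, 0, 3), (5/32, 0, 4),
  (-1/32, 1, 0), (1/16, 1, 1), (1/8, 1, 2), (-1/8, 1, 3), (-7/32, 2, 0), (1/2, 2, 1), (-3/16, 2,
  2), (1/8, 3, 1), (1/32, 4, 0)]
def qaL1 : Pl := [(-5/24, 0, 3), (1/8, 0, 5), (-3/8, 1, 2), (-1/6, 1, 3), (-1/8, 2, 1), (-5/8, 2,
  2), (-1/4, 3, 1), (-1/4, 3, 2), (-1/8, 4, 1)]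
def qaL2 : Pl := [(-35/64, 0, 0), (-35/32, 0, 1), (-35/32, 0, 2), (-5/8, 0, 3), (-5/32, 0, 4),
  (-11/32, 1, 0), (-11/16, 1, 1), (-1/2, 1, 2), (-1/8, 1, 3), (-9/32, 2, 0), (-1/2, 2, 1), (-3/16,
  2, 2), (-1/8, 3, 0), (-1/8, 3, 1), (-1/32, 4, 0)]
def qaR0 : Pl := [(-35/64, 0, 0), (-35/32, 0, 1), (-35/32, 0, 2), (-5/8, 0, 3), (-5/32, 0, 4),
  (-1/32, 1, 0), (-1/16, 1, 1), (1/8, 1, 2), (1/8, 1, 3), (7/32, 2, 0), (1/2, 2, 1), (3/16, 2, 2),
  (-1/8, 3, 1), (-1/32, 4, 0)]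
def qaR1 : Pl := [(35/32, 0, 0), (35/16, 0, 1), (35/16, 0, 2), (5/4, 0, 3), (5/16, 0, 4), (3/8, 1,
  0), (3/4, 1, 1), (3/8, 1, 2), (1/16, 2, 0), (-1/8, 3, 0), (-1/4, 3, 1), (-1/16, 4, 0)]
def qaR2 : Pl := [(-35/64, 0, 0), (-35/32, 0, 1), (-35/32, 0, 2), (-5/8, 0, 3), (-5/32, 0, 4),
  (-11/32, 1, 0), (-11/16, 1, 1), (-1/2, 1, 2), (-1/8, 1, 3), (-9/32, 2, 0), (-1/2, 2, 1), (-3/16,
  2, 2), (-1/8, 3, 0), (-1/8, 3, 1), (-1/32, 4, 0)]
def qbL0 : Pl := [(5/64, 0, 0), (-5/32, 0, 1), (5/32, 0, 2), (-1/16, 0, 3), (1/32, 1, 0), (-1/16,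
  1, 1), (1/16, 1, 2)]
def qbL1 : Pl := [(-1/12, 0, 3), (-1/12, 1, 3)]
def qbL2 : Pl := [(-5/64, 0, 0), (-5/32, 0, 1), (-5/32, 0, 2), (-1/16, 0, 3), (-1/32, 1, 0),
  (-1/16, 1, 1), (-1/16, 1, 2)]
def qbR0 : Pl := [(-5/64, 0, 0), (-5/32, 0, 1), (-5/32, 0, 2), (-1/16, 0, 3), (1/32, 1, 0), (1/16,
  1, 1), (1/16, 1, 2)]
def qbR1 : Pl := [(5/32, 0, 0), (5/16, 0, 1), (5/16, 0, 2), (1/8, 0, 3)]
def qbR2 : Pl := [(-5/64, 0, 0), (-5/32, 0, 1), (-5/32, 0, 2), (-1/16, 0, 3), (-1/32, 1, 0),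
  (-1/16, 1, 1), (-1/16, 1, 2)]
def qcL0 : Pl := [(3/32, 0, 0), (-1/16, 0, 1), (1/16, 1, 0)]
def qcL1 : Pl := [(-1/4, 0, 1), (-1/4, 1, 1)]
def qcL2 : Pl := [(-3/32, 0, 0), (-1/16, 0, 1), (-1/16, 1, 0)]
def qcR0 : Pl := [(-3/32, 0, 0), (-1/16, 0, 1), (1/16, 1, 0)]
def qcR1 : Pl := [(3/16, 0, 0), (1/8, 0, 1)]
def qcR2 : Pl := [(-3/32, 0, 0), (-1/16, 0, 1), (-1/16, 1, 0)]
def w0 : Pl := [(-1/4, 0, 0), (-1/2, 0, 1)]
def W0 : Pl := [(1/4, 0, 0), (1/4, 0, 1)]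
def w1 : Pl := [(-3/16, 0, 1), (-1/4, 0, 2), (-1/8, 0, 3)]
def W1 : Pl := [(5/32, 0, 0), (5/16, 0, 1), (7/32, 0, 2), (1/16, 0, 3)]
def wa : Pl := [(-35/32, 0, 0), (-35/16, 0, 1), (-5/2, 0, 2), (-25/12, 0, 3), (-25/24, 0, 4),
  (-1/4, 0, 5)]
def Wa : Pl := [(15/4, 0, 0), (205/32, 0, 1), (85/16, 0, 2), (65/24, 0, 3), (5/6, 0, 4), (1/8, 0,
  5)]
def wb : Pl := [(-5/32, 0, 0), (-5/16, 0, 1), (-5/16, 0, 2), (-5/24, 0, 3), (-1/12, 0, 4)]
def Wb : Pl := [(3/8, 0, 0), (19/32, 0, 1), (7/16, 0, 2), (3/16, 0, 3), (1/24, 0, 4)]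
def wc : Pl := [(-3/16, 0, 0), (-3/8, 0, 1), (-1/4, 0, 2)]
def Wc : Pl := [(1/4, 0, 0), (5/16, 0, 1), (1/8, 0, 2)]

def dn0 (X : ℝ) : ℝ := 1 / 4 + ev w0 0 X * exp (-(2 * X))
def dn1 (X : ℝ) : ℝ := 3 / 16 * X + ev w1 0 X * exp (-(2 * X))
def dna (X : ℝ) : ℝ := 35 / 32 + 15 / 8 * X ^ 2 + ev wa 0 X * exp (-(2 * X))
def dnb (X : ℝ) : ℝ := 5 / 32 + 3 / 16 * X ^ 2 + ev wb 0 X * exp (-(2 * X))
def dnc (X : ℝ) : ℝ := 3 / 16 + ev wc 0 X * exp (-(2 * X))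

lemma absL {X z : ℝ} (h : z ≤ X) : |z - X| = X - z := by
  rw [abs_sub_comm, abs_of_nonneg (sub_nonneg.2 h)]
lemma absR {X z : ℝ} (h : z ≥ X) : |z - X| = z - X := abs_of_nonneg (sub_nonneg.2 h)

lemma int_0 : ∃ C, ∀ X D : ℝ, X ∈ Icc 0 (D / 2) →
    |(∫ z in (0 : ℝ)..D, gE X z * gE X z) - dn0 X| ≤ C * (1 + D) ^ 5 * exp (-(D / 2)) := by
  refine ⟨_, fun X D hX => explicit_int (by
      have := continuous_gE X; have := continuous_vE X; have := continuous_pE X; fun_prop)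
    q0L0 q0L1 q0L2 q0R0 q0R1 q0R2 (by unfold dg q0R0; decide) (by unfold dg q0R1; decide)
    (by unfold dg q0R2; decide) hX (fun z hz => ?_) (fun z hz => ?_) fun b hb => ?_⟩
  · simp only [gE, vE, pE, absL hz, ev, dv, q0L0, q0L1, q0L2, List.map, List.sum_cons,
      List.sum_nil]
    push_cast
    ring
  · simp only [gE, vE, pE, absR hz, ev, dv, q0R0, q0R1, q0R2, List.map, List.sum_cons,
      List.sum_nil]
    push_cast
    ring
  · simp only [dn0, ← hb, ev, w0, q0L0, q0L1, q0L2, q0R0, q0R1, q0R2, List.map,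
      List.sum_cons, List.sum_nil]
    ring

lemma int_1 : ∃ C, ∀ X D : ℝ, X ∈ Icc 0 (D / 2) →
    |(∫ z in (0 : ℝ)..D, gE X z * pE X z) - dn1 X| ≤ C * (1 + D) ^ 5 * exp (-(D / 2)) := by
  refine ⟨_, fun X D hX => explicit_int (by
      have := continuous_gE X; have := continuous_vE X; have := continuous_pE X; fun_prop)
    q1L0 q1L1 q1L2 q1R0 q1R1 q1R2 (by unfold dg q1R0; decide) (by unfold dg q1R1; decide)
    (by unfold dg q1R2; decide) hX (fun z hz => ?_) (fun z hz => ?_) fun b hb => ?_⟩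
  · simp only [gE, vE, pE, absL hz, ev, dv, q1L0, q1L1, q1L2, List.map, List.sum_cons,
      List.sum_nil]
    push_cast
    ring
  · simp only [gE, vE, pE, absR hz, ev, dv, q1R0, q1R1, q1R2, List.map, List.sum_cons,
      List.sum_nil]
    push_cast
    ring
  · simp only [dn1, ← hb, ev, w1, q1L0, q1L1, q1L2, q1R0, q1R1, q1R2, List.map,
      List.sum_cons, List.sum_nil]
    ring

lemma int_a : ∃ C, ∀ X D : ℝ, X ∈ Icc 0 (D / 2) →
    |(∫ z in (0 : ℝ)..D, 4 * (pE X z * pE X z) + 8 * (z * (vE X z * pE X z))) - dna X| ≤ C * (1 + D) ^ 5 * exp (-(D / 2)) := by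
  refine ⟨_, fun X D hX => explicit_int (by
      have := continuous_gE X; have := continuous_vE X; have := continuous_pE X; fun_prop)
    qaL0 qaL1 qaL2 qaR0 qaR1 qaR2 (by unfold dg qaR0; decide) (by unfold dg qaR1; decide)
    (by unfold dg qaR2; decide) hX (fun z hz => ?_) (fun z hz => ?_) fun b hb => ?_⟩
  · simp only [gE, vE, pE, absL hz, ev, dv, qaL0, qaL1, qaL2, List.map, List.sum_cons,
      List.sum_nil]
    push_cast
    ring
  · simp only [gE, vE, pE, absR hz, ev, dv, qaR0, qaR1, qaR2, List.map, List.sum_cons,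
      List.sum_nil]
    push_cast
    ring
  · simp only [dna, ← hb, ev, wa, qaL0, qaL1, qaL2, qaR0, qaR1, qaR2, List.map,
      List.sum_cons, List.sum_nil]
    ring

lemma int_b : ∃ C, ∀ X D : ℝ, X ∈ Icc 0 (D / 2) →
    |(∫ z in (0 : ℝ)..D, z ^ 2 * (vE X z * gE X z)) - dnb X| ≤ C * (1 + D) ^ 5 * exp (-(D / 2)) := by
  refine ⟨_, fun X D hX => explicit_int (by
      have := continuous_gE X; have := continuous_vE X; have := continuous_pE X; fun_prop)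
    qbL0 qbL1 qbL2 qbR0 qbR1 qbR2 (by unfold dg qbR0; decide) (by unfold dg qbR1; decide)
    (by unfold dg qbR2; decide) hX (fun z hz => ?_) (fun z hz => ?_) fun b hb => ?_⟩
  · simp only [gE, vE, pE, absL hz, ev, dv, qbL0, qbL1, qbL2, List.map, List.sum_cons,
      List.sum_nil]
    push_cast
    ring
  · simp only [gE, vE, pE, absR hz, ev, dv, qbR0, qbR1, qbR2, List.map, List.sum_cons,
      List.sum_nil]
    push_cast
    ring
  · simp only [dnb, ← hb, ev, wb, qbL0, qbL1, qbL2, qbR0, qbR1, qbR2, List.map,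
      List.sum_cons, List.sum_nil]
    ring

lemma int_c : ∃ C, ∀ X D : ℝ, X ∈ Icc 0 (D / 2) →
    |(∫ z in (0 : ℝ)..D, vE X z * gE X z) - dnc X| ≤ C * (1 + D) ^ 5 * exp (-(D / 2)) := by
  refine ⟨_, fun X D hX => explicit_int (by
      have := continuous_gE X; have := continuous_vE X; have := continuous_pE X; fun_prop)
    qcL0 qcL1 qcL2 qcR0 qcR1 qcR2 (by unfold dg qcR0; decide) (by unfold dg qcR1; decide)
    (by unfold dg qcR2; decide) hX (fun z hz => ?_) (fun z hz => ?_) fun b hb => ?_⟩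
  · simp only [gE, vE, pE, absL hz, ev, dv, qcL0, qcL1, qcL2, List.map, List.sum_cons,
      List.sum_nil]
    push_cast
    ring
  · simp only [gE, vE, pE, absR hz, ev, dv, qcR0, qcR1, qcR2, List.map, List.sum_cons,
      List.sum_nil]
    push_cast
    ring
  · simp only [dnc, ← hb, ev, wc, qcL0, qcL1, qcL2, qcR0, qcR1, qcR2, List.map,
      List.sum_cons, List.sum_nil]
    ring

end Pool.Agent.Lib.MP_312682_mp
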