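import Pool.Agent.Lib.MP_312682_mp.Abs

/-! Abstract second order perturbation expansion. -/

open scoped InnerProductSpace ENNReal
open ContinuousLinearMap

set_option linter.unusedSectionVars false

noncomputable section

namespace Pool.Agent.Lib.MP_312682_mp

variable {X : Type*} [NormedAddCommGroup X] [InnerProductSpace ℂ X] [CompleteSpace X]

lemma comm_bound {P κ E : X →L[ℂ] X} (hP : Proj P) (hκ : star κ = κ)
    (hpres : P * (κ + E) * P = (κ + E) * P) {b : ℝ} (hE : ‖E‖ ≤ b) : ‖P * κ - κ * P‖ ≤ 2 * b := by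
  have h1 : (1 - P) * κ * P = -((1 - P) * E * P) := by
    have : (1 - P) * κ * P + (1 - P) * E * P = (κ + E) * P - P * (κ + E) * P := by noncomm_ring
    rw [hpres, sub_self] at this
    exact eq_neg_of_add_eq_zero_left this
  have h2 : ‖(1 - P) * κ * P‖ ≤ b := by
    rw [h1, norm_neg]
    exact (nmul (nmul hP.compl.norm_le hE) hP.norm_le).trans (by simp)
  have h3 : ‖P * κ * (1 - P)‖ ≤ b := by
    have := nstar h2
    rwa [star_mul, star_mul, hP.sa, hκ, hP.compl.sa, ← mul_assoc] at this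
  have : P * κ - κ * P = P * κ * (1 - P) - (1 - P) * κ * P := by noncomm_ring
  rw [this]
  exact (nsub h3 h2).trans (by linarith)

lemma orth_term (x0 x y : X) (h : ⟪x0, y⟫_ℂ = 0) {δ : ℝ} (hδ : 0 < δ) :
    |‖x - y‖ ^ 2 - ‖x‖ ^ 2| ≤ δ * ‖x - x0‖ ^ 2 + (1 + δ⁻¹) * ‖y‖ ^ 2 := by
  rw [@norm_sub_sq ℂ]
  have h1 : ⟪x, y⟫_ℂ = ⟪x - x0, y⟫_ℂ := by rw [inner_sub_left, h, sub_zero]
  have h2 : |RCLike.re ⟪x, y⟫_ℂ| ≤ ‖x - x0‖ * ‖y‖ := by
    rw [h1]; exact (RCLike.abs_re_le_norm _).trans (norm_inner_le_norm _ _)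
  have h3 : 2 * (‖x - x0‖ * ‖y‖) ≤ δ * ‖x - x0‖ ^ 2 + δ⁻¹ * ‖y‖ ^ 2 := by
    have : 0 ≤ δ⁻¹ * (δ * ‖x - x0‖ - ‖y‖) ^ 2 := by positivity
    have h3 : δ⁻¹ * (δ * ‖x - x0‖ - ‖y‖) ^ 2 =
        δ * ‖x - x0‖ ^ 2 + δ⁻¹ * ‖y‖ ^ 2 - 2 * (‖x - x0‖ * ‖y‖) := by
      field_simp; ring
    linarith
  rw [abs_le] at *
  constructor <;> nlinarith [h2.1, h2.2, sq_nonneg ‖y‖]

lemma mid_bound {P Z κ E A A1 A2 A3 : X →L[ℂ] X} (hP : Proj P) (hκ : star κ = κ)
    (hZ : ‖Z‖ ≤ 2) (hpres : P * (κ + E) * P = (κ + E) * P) (hA : A = κ * A1 + κ * κ * A2 + A3)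
    (hc : A1 * κ = κ * A1) {K δ : ℝ} (hK : 1 ≤ K) (hδ : 0 < δ) (hδ1 : δ ≤ 1) (nκ : ‖κ‖ ≤ K)
    (nE : ‖E‖ ≤ K * δ) (n1 : ‖A1‖ ≤ 2 * δ) (n2 : ‖A2‖ ≤ 4 * δ ^ 2) (n3 : ‖A3‖ ≤ K * δ ^ 3) :
    ‖-A3 - (P * A * P) * (P * A * P) * (P * A * P) * Z + (A * P * A - κ * κ * A1 * P * A1) +
      ((κ + E) * (P * κ - (κ + E) * P) + (P * κ - (κ + E) * P) * κ) * (A1 * P * A1 - A2)‖ ≤
      1000 * K ^ 6 * δ ^ 3 := by
  have hcb := comm_bound hP hκ hpres nE
  have k2 : K ≤ K ^ 2 := by nlinarith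
  have k3 : K ^ 2 ≤ K ^ 6 := pow_le_pow_right₀ hK (by norm_num)
  have k4 : K ^ 4 ≤ K ^ 6 := pow_le_pow_right₀ hK (by norm_num)
  have k5 : K ^ 3 ≤ K ^ 6 := pow_le_pow_right₀ hK (by norm_num)
  have d2 : δ ^ 2 ≤ δ := by nlinarith
  have d3 : δ ^ 3 ≤ δ ^ 2 := by nlinarith
  have hK0 : 0 < K := by linarith
  have nA' : ‖κ * κ * A2 + A3‖ ≤ 5 * K ^ 2 * δ ^ 2 := by
    refine (nadd (nmul (nmul nκ nκ) n2) n3).trans ?_
    have : K * δ ^ 3 ≤ K ^ 2 * δ ^ 2 := by gcongr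
    nlinarith
  have nA : ‖A‖ ≤ 7 * K ^ 2 * δ := by
    rw [hA, add_assoc]
    refine (nadd (nmul nκ n1) nA').trans ?_
    have : K * δ ≤ K ^ 2 * δ := by gcongr
    have : K ^ 2 * δ ^ 2 ≤ K ^ 2 * δ := by gcongr
    nlinarith
  have nB : ‖P * A * P‖ ≤ 7 * K ^ 2 * δ :=
    (nmul (nmul hP.norm_le nA) hP.norm_le).trans (by simp)
  have nW : ‖P * κ - (κ + E) * P‖ ≤ 3 * K * δ := by
    have : P * κ - (κ + E) * P = (P * κ - κ * P) - E * P := by noncomm_ring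
    rw [this]
    exact (nsub hcb (nmul nE hP.norm_le)).trans (by linarith)
  have nΨ : ‖κ + E‖ ≤ 2 * K := (nadd nκ nE).trans (by nlinarith)
  have nM : ‖A1 * P * A1 - A2‖ ≤ 8 * δ ^ 2 :=
    (nsub (nmul (nmul n1 hP.norm_le) n1) n2).trans (by nlinarith)
  have e1 : A * P * A - κ * κ * A1 * P * A1 = (κ * κ * A2 + A3) * P * A +
      κ * A1 * P * (κ * κ * A2 + A3) + κ * A1 * (P * κ - κ * P) * A1 := by
    have : κ * κ * A1 * P * A1 = κ * A1 * κ * P * A1 := by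
      rw [mul_assoc κ A1 κ, hc]; noncomm_ring
    rw [this, hA]; noncomm_ring
  have n4 : ‖A * P * A - κ * κ * A1 * P * A1‖ ≤ 53 * K ^ 6 * δ ^ 3 := by
    rw [e1]
    refine (nadd (nadd (nmul (nmul nA' hP.norm_le) nA) (nmul (nmul (nmul nκ n1) hP.norm_le) nA'))
      (nmul (nmul (nmul nκ n1) hcb) n1)).trans ?_
    have : 0 < δ ^ 3 := by positivity
    nlinarith
  have n5 : ‖(P * A * P) * (P * A * P) * (P * A * P) * Z‖ ≤ 686 * K ^ 6 * δ ^ 3 :=
    (nmul (nmul (nmul nB nB) nB) hZ).trans (le_of_eq (by ring))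
  have n6 : ‖((κ + E) * (P * κ - (κ + E) * P) + (P * κ - (κ + E) * P) * κ) *
      (A1 * P * A1 - A2)‖ ≤ 72 * K ^ 6 * δ ^ 3 := by
    refine (nmul (nadd (nmul nΨ nW) (nmul nW nκ)) nM).trans ?_
    have : 0 < δ ^ 3 := by positivity
    nlinarith
  have n7 : ‖-A3‖ ≤ K ^ 6 * δ ^ 3 := by
    rw [norm_neg]; refine n3.trans ?_
    have : K ≤ K ^ 6 := k2.trans k3
    gcongr
  refine (nadd (nadd (nsub n7 n5) n4) n6).trans ?_
  have : 0 < K ^ 6 * δ ^ 3 := by positivity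
  nlinarith

theorem expand {ι : Type*} {v : ι → X} {p P Z κ E A A1 A2 A3 χ : X →L[ℂ] X} (hp : Proj p)
    (hv : Pars v p) (hP : Proj P) (hκ : star κ = κ) (hZ : ‖Z‖ ≤ 2)
    (hZ1 : (1 + P * A * P) * Z = 1) (hpres : P * (κ + E) * P = (κ + E) * P) (hpE : p * E = 0)
    (hpκ : p * κ = κ * p) (hA : A = κ * A1 + κ * κ * A2 + A3)
    (hc : A1 * κ = κ * A1) {K δ c : ℝ} (hK : 1 ≤ K) (hδ : 0 < δ) (hδ1 : δ ≤ 1) (nκ : ‖κ‖ ≤ K)
    (nE : ‖E‖ ≤ K * δ) (n1 : ‖A1‖ ≤ 2 * δ) (n2 : ‖A2‖ ≤ 4 * δ ^ 2) (n3 : ‖A3‖ ≤ K * δ ^ 3)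
    (hχ : ‖χ‖ ≤ 1) (hG : HL (p * P * p) c)
    (horth : ∀ i, ⟪(χ * (p * P * p)) (v i),
      (χ * (p * P * κ * A1 * P * p - κ * (p * P * A1 * P * p))) (v i)⟫_ℂ = 0) :
    hs2 (χ * (p * P * p - κ * (p * P * A1 * P * p) +
        κ * κ * (p * P * (A1 * P * A1 - A2) * P * p))) ≠ ⊤ ∧
    |hsq (χ * (p * P * Z * P * p)) - hsq (χ * (p * P * p - κ * (p * P * A1 * P * p) +
        κ * κ * (p * P * (A1 * P * A1 - A2) * P * p)))| ≤ 2000000 * K ^ 12 * δ ^ 3 * c ^ 2 := by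
  have hmid := mid_bound hP hκ hZ hpres hA hc hK hδ hδ1 nκ nE n1 n2 n3
  set W := P * κ - (κ + E) * P with hW
  set M := A1 * P * A1 - A2 with hM
  set B := P * A * P with hB
  set R := -A3 - B * B * B * Z + (A * P * A - κ * κ * A1 * P * A1) +
      ((κ + E) * W + W * κ) * M with hR
  set S := p * P * p - κ * (p * P * A1 * P * p) + κ * κ * (p * P * M * P * p) with hS
  set C := p * P * κ * A1 * P * p - κ * (p * P * A1 * P * p) with hC
  have hc0 := hG.1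
  have hK0 : 0 < K := by linarith
  have d2 : δ ^ 2 ≤ δ := by nlinarith
  have d3 : δ ^ 3 ≤ δ ^ 2 := by nlinarith
  have k2 : K ≤ K ^ 2 := by nlinarith
  have hκT : κ * (p * P) = p * P * ((κ + E) * P) := by
    calc κ * (p * P) = p * κ * P + p * E * P := by rw [hpκ, hpE]; noncomm_ring
      _ = p * ((κ + E) * P) := by noncomm_ring
      _ = p * (P * (κ + E) * P) := by rw [hpres]
      _ = _ := by noncomm_ring
  have hTW : p * P * W = p * P * κ - κ * (p * P) := by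
    rw [hκT, hW]
    calc p * P * (P * κ - (κ + E) * P) = p * (P * P) * κ - p * P * ((κ + E) * P) := by noncomm_ring
      _ = _ := by rw [hP.idem]
  have hκκ : κ * κ * (p * P) = p * P * κ * κ - p * P * ((κ + E) * W + W * κ) := by
    have a1 : κ * κ * (p * P) = p * P * ((κ + E) * (P * (κ + E) * P)) := by
      calc κ * κ * (p * P) = κ * (κ * (p * P)) := by noncomm_ring
        _ = κ * (p * P * ((κ + E) * P)) := by rw [hκT]
        _ = (κ * (p * P)) * ((κ + E) * P) := by noncomm_ring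
        _ = _ := by rw [hκT]; noncomm_ring
    rw [a1, hpres, hW]
    have a2 : p * P * ((κ + E) * (P * κ - (κ + E) * P) + (P * κ - (κ + E) * P) * κ) =
        p * (P * P) * κ * κ - p * P * ((κ + E) * ((κ + E) * P)) := by noncomm_ring
    rw [a2, hP.idem]; noncomm_ring
  have hZe : Z = 1 - B + B * B - B * B * B * Z := by
    calc Z = (1 - B + B * B) * ((1 + B) * Z) - B * B * B * Z := by noncomm_ring
      _ = _ := by rw [hZ1]; noncomm_ring
  have hmain : p * P * Z * P * p = S - C + p * P * R * P * p := by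
    have b1 : p * P * B * P * p = p * P * A * P * p := by
      calc p * P * B * P * p = p * (P * P) * A * (P * P) * p := by rw [hB]; noncomm_ring
        _ = _ := by rw [hP.idem]
    have b2 : p * P * (B * B) * P * p = p * P * (A * P * A) * P * p := by
      calc p * P * (B * B) * P * p = p * (P * P) * A * (P * P) * A * (P * P) * p := by
            rw [hB]; noncomm_ring
        _ = _ := by rw [hP.idem]; noncomm_ring
    have b3 : κ * κ * (p * P * M * P * p) = (κ * κ * (p * P)) * M * P * p := by noncomm_ring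
    have b4 : p * P * Z * P * p = p * (P * P) * p - p * P * B * P * p + p * P * (B * B) * P * p
        - p * P * (B * B * B * Z) * P * p := by
      conv_lhs => rw [hZe]
      noncomm_ring
    rw [b4, b1, b2, hP.idem, hS, hC, hR, b3, hκκ]
    have b5 : p * P * A * P * p = p * P * (κ * A1 + κ * κ * A2 + A3) * P * p := by rw [← hA]
    rw [b5, hM]
    noncomm_ring
  have nW : ‖W‖ ≤ 3 * K * δ := by
    have : W = (P * κ - κ * P) - E * P := by rw [hW]; noncomm_ring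
    rw [this]
    exact (nsub (comm_bound hP hκ hpres nE) (nmul nE hP.norm_le)).trans (by linarith)
  have nM : ‖M‖ ≤ 8 * δ ^ 2 :=
    (nsub (nmul (nmul n1 hP.norm_le) n1) n2).trans (by nlinarith)
  have hCe : C = p * P * (W * A1) * P * p := by
    calc C = (p * P * κ - κ * (p * P)) * A1 * P * p := by rw [hC]; noncomm_ring
      _ = _ := by rw [← hTW]; noncomm_ring
  have lC : HL (χ * C) (6 * K * δ ^ 2 * c) := by
    rw [hCe]
    exact ((hG.mid hp hP (nmul nW n1)).mleft hχ).mono (le_of_eq (by ring))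
  have lR : HL (χ * (p * P * R * P * p)) (1000 * K ^ 6 * δ ^ 3 * c) :=
    ((hG.mid hp hP hmid).mleft hχ).mono (le_of_eq (by ring))
  have lD : HL (χ * S - χ * (p * P * p)) (10 * K ^ 2 * δ * c) := by
    have : χ * S - χ * (p * P * p) =
        χ * (κ * κ * (p * P * M * P * p) - κ * (p * P * A1 * P * p)) := by
      rw [hS]; noncomm_ring
    rw [this]
    refine ((((hG.mid hp hP nM).mleft (nmul nκ nκ)).sub ((hG.mid hp hP n1).mleft nκ)).mleft
      hχ).mono ?_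
    have a1 : K ^ 2 * δ ^ 2 * c ≤ K ^ 2 * δ * c := by gcongr
    have a2 : K * δ * c ≤ K ^ 2 * δ * c := by gcongr
    nlinarith
  have lS : HL (χ * S) (11 * K ^ 2 * c) := by
    have := (hG.mleft hχ).add lD
    rw [add_sub_cancel] at this
    refine this.mono ?_
    have a1 : K ^ 2 * δ * c ≤ K ^ 2 * 1 * c := by gcongr
    have a2 : 1 * c ≤ K ^ 2 * c := by gcongr; nlinarith
    nlinarith
  have lSC : HL (χ * S - χ * C) (17 * K ^ 2 * c) := by
    refine (lS.sub lC).mono ?_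
    have a1 : K * δ ^ 2 * c ≤ K ^ 2 * 1 * c := by gcongr; nlinarith
    nlinarith
  refine ⟨lS.ne_top, ?_⟩
  have s1 := hsq_add_sub_le lSC lR
  have e1 : χ * S - χ * C + χ * (p * P * R * P * p) = χ * (p * P * Z * P * p) := by
    rw [hmain]; noncomm_ring
  rw [e1] at s1
  have pp : ∀ T : X →L[ℂ] X, T * p * p = T * p := fun T => by rw [mul_assoc, hp.idem]
  have hSp : χ * S * p = χ * S := by
    rw [hS]; simp only [mul_assoc, add_mul, sub_mul, hp.idem]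
  have hCp : χ * C * p = χ * C := by
    rw [hC]; simp only [mul_assoc, add_mul, sub_mul, hp.idem]
  have hGp : χ * (p * P * p) * p = χ * (p * P * p) := by simp only [mul_assoc, hp.idem]
  have u1 := hasSum_frame hp hv (T := χ * S - χ * C) (by rw [sub_mul, hSp, hCp]) lSC.ne_top
  have u2 := hasSum_frame hp hv hSp lS.ne_top
  have u3 := hasSum_frame hp hv (T := χ * S - χ * (p * P * p)) (by rw [sub_mul, hSp, hGp]) lD.ne_top
  have u4 := hasSum_frame hp hv hCp lC.ne_top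
  have s2 : |hsq (χ * S - χ * C) - hsq (χ * S)| ≤
      δ * hsq (χ * S - χ * (p * P * p)) + (1 + δ⁻¹) * hsq (χ * C) := by
    have w1 := u1.sub u2
    have w2 := (u3.mul_left δ).add (u4.mul_left (1 + δ⁻¹))
    have w3 : ∀ i, |‖(χ * S - χ * C) (v i)‖ ^ 2 - ‖(χ * S) (v i)‖ ^ 2| ≤
        δ * ‖(χ * S - χ * (p * P * p)) (v i)‖ ^ 2 + (1 + δ⁻¹) * ‖(χ * C) (v i)‖ ^ 2 :=
      fun i => orth_term _ _ _ (horth i) hδ
    rw [abs_le]
    constructor
    · have := hasSum_le (fun i => (abs_le.1 (w3 i)).1) w2.neg w1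
      exact this
    · exact hasSum_le (fun i => (abs_le.1 (w3 i)).2) w1 w2
  have s3 : δ * hsq (χ * S - χ * (p * P * p)) ≤ 100 * (K ^ 12 * δ ^ 3 * c ^ 2) := by
    have a1 := lD.hsq_le
    have a2 : K ^ 4 ≤ K ^ 12 := pow_le_pow_right₀ hK (by norm_num)
    calc _ ≤ δ * (10 * K ^ 2 * δ * c) ^ 2 := by gcongr
      _ = 100 * (K ^ 4 * δ ^ 3 * c ^ 2) := by ring
      _ ≤ _ := by gcongr
  have s4 : (1 + δ⁻¹) * hsq (χ * C) ≤ 72 * (K ^ 12 * δ ^ 3 * c ^ 2) := by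
    have a1 := lC.hsq_le
    have a2 : K ^ 2 ≤ K ^ 12 := pow_le_pow_right₀ hK (by norm_num)
    have a3 : 1 + δ⁻¹ ≤ 2 * δ⁻¹ := by
      have : 1 ≤ δ⁻¹ := (one_le_inv₀ hδ).2 hδ1
      linarith
    calc _ ≤ (2 * δ⁻¹) * (6 * K * δ ^ 2 * c) ^ 2 := by
          have := hsq_nonneg (χ * C)
          gcongr
      _ = 72 * (K ^ 2 * δ ^ 3 * c ^ 2) := by field_simp; ring
      _ ≤ _ := by gcongr
  have s5 : 1000 * K ^ 6 * δ ^ 3 * c * (2 * (17 * K ^ 2 * c) + 1000 * K ^ 6 * δ ^ 3 * c) ≤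
      1034000 * (K ^ 12 * δ ^ 3 * c ^ 2) := by
    have a2 : K ^ 2 ≤ K ^ 6 := pow_le_pow_right₀ hK (by norm_num)
    have a3 : δ ^ 3 ≤ 1 := pow_le_one₀ hδ.le hδ1
    calc _ ≤ 1000 * K ^ 6 * δ ^ 3 * c * (2 * (17 * K ^ 6 * c) + 1000 * K ^ 6 * 1 * c) := by gcongr
      _ = _ := by ring
  have s6 : 0 ≤ K ^ 12 * δ ^ 3 * c ^ 2 := by positivity
  rw [abs_le] at *
  constructor <;> nlinarith [s1.1, s1.2, s2.1, s2.2]

end Pool.Agent.Lib.MP_312682_mp
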