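import Pool.Agent.Lib.MP_312682_mp.Trace

/-! The boundary of a smooth domain as a finite union of closed curves, with collars. -/

open scoped ContDiff ComplexConjugate Topology NNReal
open MeasureTheory Complex Set Filter Metric

set_option linter.unusedSectionVars false

noncomputable section

namespace Pool.Agent.Lib.MP_312682_mp

lemma global_flow {X : ℂ → ℂ} {K : ℝ≥0} (hK : LipschitzWith K X) (h1 : ∀ z, ‖X z‖ ≤ 1) (z : ℂ) :
    ∃ γ : ℝ → ℂ, γ 0 = z ∧ ∀ t, HasDerivAt γ (X (γ t)) t := by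
  have loc : ∀ n : ℕ, ∃ α : ℝ → ℂ, α 0 = z ∧
      ∀ t ∈ Ioo (-(n + 1 : ℝ)) (n + 1), HasDerivAt α (X (α t)) t := by
    intro n
    have h0 : (0 : ℝ) ∈ Icc (-(n + 1 : ℝ)) (n + 1) := ⟨neg_nonpos.2 (by positivity), by positivity⟩
    obtain ⟨α, a1, a2⟩ := (IsPicardLindelof.of_time_independent (t₀ := ⟨0, h0⟩) (x₀ := z)
      (a := n + 1) (r := 0) (L := 1) (fun x _ => by simpa using h1 x) hK.lipschitzOnWith
      (by simp)).exists_eq_forall_mem_Icc_hasDerivWithinAt₀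
    exact ⟨α, a1, fun t ht => (a2 t (Ioo_subset_Icc_self ht)).hasDerivAt (Icc_mem_nhds ht.1 ht.2)⟩
  choose α a1 a2 using loc
  have agree : ∀ n m : ℕ, n ≤ m → EqOn (α n) (α m) (Ioo (-(n + 1 : ℝ)) (n + 1)) := by
    intro n m hnm
    have : (n : ℝ) ≤ m := by exact_mod_cast hnm
    exact ODE_solution_unique_of_mem_Ioo (v := fun _ => X) (s := fun _ => univ) (t₀ := 0)
      (fun _ _ => hK.lipschitzOnWith) ⟨neg_lt_zero.2 (by positivity), by positivity⟩
      (fun t ht => ⟨a2 n t ht, trivial⟩)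
      (fun t ht => ⟨a2 m t ⟨by linarith [ht.1], by linarith [ht.2]⟩, trivial⟩) (by rw [a1, a1])
  have mem : ∀ t : ℝ, t ∈ Ioo (-(⌈|t|⌉₊ + 1 : ℝ)) (⌈|t|⌉₊ + 1) := fun t => by
    have := abs_le.1 (Nat.le_ceil |t|)
    constructor <;> linarith [this.1, this.2]
  refine ⟨fun t => α ⌈|t|⌉₊ t, a1 _, fun t => ?_⟩
  have ev : (fun t => α ⌈|t|⌉₊ t) =ᶠ[𝓝 t] α (⌈|t|⌉₊ + 1) := by
    filter_upwards [ball_mem_nhds t one_pos] with s hs
    refine agree _ _ (Nat.ceil_le.2 ?_) (mem s)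
    have := Nat.le_ceil |t|
    have := abs_sub_abs_le_abs_sub s t
    rw [mem_ball, Real.dist_eq] at hs
    push_cast; linarith
  have := mem t
  refine HasDerivAt.congr_of_eventuallyEq ?_ ev
  simp only [show α ⌈|t|⌉₊ t = _ from ev.eq_of_nhds]
  exact a2 _ t ⟨by push_cast; linarith [this.1], by push_cast; linarith [this.2]⟩

lemma smooth_flow {X : ℂ → ℂ} (hX : ContDiff ℝ ∞ X) {γ : ℝ → ℂ}
    (h : ∀ t, HasDerivAt γ (X (γ t)) t) : ContDiff ℝ ∞ γ := by
  have hd : deriv γ = X ∘ γ := funext fun t => (h t).deriv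
  rw [contDiff_infty]
  intro n
  induction n with
  | zero => exact contDiff_zero.2 (continuous_iff_continuousAt.2 fun t => (h t).continuousAt)
  | succ n ih =>
    rw [Nat.cast_succ, contDiff_succ_iff_deriv, hd]
    exact ⟨fun t => (h t).differentiableAt, by simp, (hX.of_le (by exact_mod_cast le_top)).comp ih⟩

lemma fderiv_real (φ : ℂ → ℝ) (w v : ℂ) :
    fderiv ℝ φ w v = v.re * fderiv ℝ φ w 1 + v.im * fderiv ℝ φ w I := by
  conv_lhs => rw [show v = v.re • (1 : ℂ) + v.im • I by simp]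
  rw [map_add, map_smul, map_smul, smul_eq_mul, smul_eq_mul]

lemma Phi_real (γ : ℝ → ℂ) (s : ℝ) : Phi γ s = γ s := by simp [Phi]

lemma Cv0.sign {γ : ℝ → ℂ} (h : Cv0 γ) {φ : ℂ → ℝ} (hφ : ContDiff ℝ ∞ φ) (h0 : ∀ s, φ (γ s) = 0)
    {s : ℝ} (hn : fderiv ℝ φ (γ s) (I * deriv γ s) < 0) :
    ∀ᶠ p in 𝓝 (s : ℂ), (0 < p.im → φ (Phi γ p) < 0) ∧ (p.im < 0 → 0 < φ (Phi γ p)) := by
  have c1 := h.sPhi.continuous
  have c2 := h.s1.continuous
  have c3 := hφ.continuous_fderiv (by simp)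
  have cD : Continuous fun p : ℂ => fderiv ℝ φ (Phi γ p) (I * deriv γ p.re) := by fun_prop
  obtain ⟨η, hη, h1⟩ := Metric.eventually_nhds_iff_ball.1 (cD.continuousAt.eventually
    (gt_mem_nhds (show fderiv ℝ φ (Phi γ s) (I * deriv γ (s : ℂ).re) < 0 by
      simpa [Phi_real] using hn)))
  filter_upwards [ball_mem_nhds _ hη] with p hp
  have hd : ∀ x : ℝ, HasDerivAt (fun x : ℝ => φ (Phi γ (p.re + x * I)))
      (fderiv ℝ φ (Phi γ (p.re + x * I)) (I * deriv γ (p.re + x * I : ℂ).re)) x := fun x =>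
    (hφ.differentiable (by simp) _).hasFDerivAt.comp_hasDerivAt x
      (h.d2Phi _ ▸ hd_line2 (h.dPhi _))
  have hb : ∀ x : ℝ, |x| ≤ |p.im| → (p.re + x * I : ℂ) ∈ ball (s : ℂ) η := fun x hx => by
    refine mem_ball.2 (lt_of_le_of_lt ?_ (mem_ball.1 hp))
    rw [dist_eq_norm, dist_eq_norm, ← sq_le_sq₀ (norm_nonneg _) (norm_nonneg _), ← normSq_eq_norm_sq,
      ← normSq_eq_norm_sq, normSq_apply, normSq_apply]
    simp
    nlinarith [sq_abs x, sq_abs p.im, abs_nonneg x]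
  have e0 : φ (Phi γ (p.re + (0 : ℝ) * I)) = 0 := by simp [Phi_real, h0]
  constructor <;> intro h2
  · obtain ⟨c, hc, e⟩ := exists_hasDerivAt_eq_slope _ _ h2
      (fun x _ => (hd x).continuousAt.continuousWithinAt) fun x _ => hd x
    have := h1 _ (hb c (by rw [abs_of_pos hc.1, abs_of_pos h2]; exact hc.2.le))
    rw [e, e0, re_add_im, sub_zero, sub_zero] at this
    exact (div_neg_iff.1 this).elim (fun h => absurd h.2 (by linarith)) fun h => h.1
  · obtain ⟨c, hc, e⟩ := exists_hasDerivAt_eq_slope _ _ h2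
      (fun x _ => (hd x).continuousAt.continuousWithinAt) fun x _ => hd x
    have := h1 _ (hb c (by rw [abs_of_neg hc.2, abs_of_neg h2]; linarith [hc.1]))
    rw [e, e0, re_add_im] at this
    exact (div_neg_iff.1 this).elim (fun h => absurd h.2 (by linarith)) fun h => by linarith [h.1]

lemma Cv0.nhds_sub {γ : ℝ → ℂ} (h : Cv0 γ) (s : ℝ) {U : Set ℂ} (hU : U ∈ 𝓝 (s : ℂ)) :
    Phi γ '' U ∈ 𝓝 (γ s) := by
  obtain ⟨g, g1, g2, g3, -⟩ := h.local_inv (p := s) (by simp [Jf])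
  rw [← Phi_real γ s]
  filter_upwards [g3, g1.continuousAt.eventually (g2.symm ▸ hU)] with y e1 e2
  exact ⟨_, e2, e1⟩

/-- zeros of `φ` near a point of the curve are on the curve -/
lemma Cv0.near {γ : ℝ → ℂ} (h : Cv0 γ) {φ : ℂ → ℝ} (hφ : ContDiff ℝ ∞ φ) (h0 : ∀ s, φ (γ s) = 0)
    {s : ℝ} (hn : fderiv ℝ φ (γ s) (I * deriv γ s) < 0) :
    ∀ᶠ y in 𝓝 (γ s), φ y = 0 → ∃ t, |t - s| < 1 ∧ γ t = y := by
  filter_upwards [h.nhds_sub s (inter_mem (h.sign hφ h0 hn) (ball_mem_nhds _ one_pos))]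
  rintro _ ⟨p, ⟨h1, h2⟩, rfl⟩ h3
  have : p.im = 0 := by
    rcases lt_trichotomy p.im 0 with h4 | h4 | h4
    exacts [absurd h3 (h1.2 h4).ne', h4, absurd h3 (h1.1 h4).ne]
  refine ⟨p.re, ?_, by simp [Phi, this]⟩
  simpa using (abs_re_le_norm (p - s)).trans_lt (by simpa [dist_eq_norm] using h2)

structure Geo (Ω : Set ℂ) {ι : Type} (γ : ι → ℝ → ℂ) (L : ι → ℝ) (φ : ℂ → ℝ) : Prop where
  cv : ∀ i, Cv (γ i) (L i)
  disj : ∀ i j s t, γ i s = γ j t → i = j
  inj : ∀ i s t, γ i s = γ i t → ∃ n : ℤ, t = s + n * L i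
  smooth : ContDiff ℝ ∞ φ
  eq : Ω = {z | φ z < 0}
  zero : ∀ z, φ z = 0 ↔ ∃ i s, γ i s = z
  neg : ∀ i s, fderiv ℝ φ (γ i s) (I * deriv (γ i) s) < 0
  bdd : Bornology.IsBounded Ω

theorem exists_geo {Ω : Set ℂ} (hb : Bornology.IsBounded Ω) {φ : ℂ → ℝ} (hφ : ContDiff ℝ ∞ φ)
    (he : Ω = {z | φ z < 0}) (hr : ∀ z, φ z = 0 → fderiv ℝ φ z ≠ 0) :
    ∃ (ι : Type) (_ : Fintype ι) (γ : ι → ℝ → ℂ) (L : ι → ℝ), Geo Ω γ L φ := by
  obtain ⟨R, hR, hR'⟩ := hb.closure.exists_pos_norm_lt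
  let η : ContDiffBump (0 : ℂ) := ⟨R, R + 1, hR, by linarith⟩
  set g : ℂ → ℂ := fun z => fderiv ℝ φ z 1 + fderiv ℝ φ z I * I with hg
  have sf : ContDiff ℝ ∞ (fderiv ℝ φ) := hφ.fderiv_right (by simp)
  have sg : ContDiff ℝ ∞ g := (s_ofReal.comp (sf.clm_apply contDiff_const)).add
    ((s_ofReal.comp (sf.clm_apply contDiff_const)).mul contDiff_const)
  have g0 : ∀ z, φ z = 0 → g z ≠ 0 := fun z hz h => hr z hz (by
    ext1 v
    have a := congrArg re h
    have b := congrArg im h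
    simp [hg] at a b
    rw [fderiv_real, a, b]; simp)
  have q0 : ∀ z, 0 < ‖g z‖ ^ 2 + φ z ^ 2 := fun z => by
    by_cases h : φ z = 0
    · have := g0 z h; positivity
    · positivity
  set X : ℂ → ℂ := fun z => (η z * (√(‖g z‖ ^ 2 + φ z ^ 2))⁻¹) • (I * g z) with hX
  have sX : ContDiff ℝ ∞ X := (η.contDiff.mul (((((contDiff_norm_sq ℝ).comp sg).add
    (hφ.pow 2)).sqrt fun z => (q0 z).ne').inv fun z => (Real.sqrt_pos.2 (q0 z)).ne')).smul
      (contDiff_const.mul sg)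
  obtain ⟨K, hK⟩ : ∃ K, LipschitzWith K X := sX.lipschitzWith_of_hasCompactSupport
    (η.hasCompactSupport.mul_right.smul_right) (by simp)
  have nX : ∀ z, ‖X z‖ ≤ 1 := fun z => by
    have := Real.sqrt_pos.2 (q0 z)
    rw [hX]
    simp only [norm_smul, norm_mul, norm_I, one_mul, Real.norm_eq_abs, abs_inv, abs_of_pos this,
      abs_of_nonneg η.nonneg]
    rw [mul_assoc]
    refine mul_le_one₀ η.le_one (by positivity) ?_
    rw [inv_mul_le_iff₀ this, mul_one]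
    exact Real.le_sqrt_of_sq_le (by nlinarith [sq_nonneg (φ z)])
  have cl : ∀ z, φ z = 0 → z ∈ closure Ω := fun z hz => by
    by_contra h
    have : IsLocalMin φ z := by
      filter_upwards [isClosed_closure.isOpen_compl.mem_nhds h] with y hy
      rw [hz]
      exact not_lt.1 fun h1 => hy (subset_closure (he ▸ h1))
    exact hr z hz this.fderiv_eq_zero
  have XZ : ∀ z, φ z = 0 → X z = ‖g z‖⁻¹ • (I * g z) := fun z hz => by
    rw [hX]
    simp only [hz, η.one_of_mem_closedBall (x := z) (by simpa using (hR' z (cl z hz)).le)]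
    simp
  have cZ : IsCompact {z | φ z = 0} := hb.isCompact_closure.of_isClosed_subset
    (isClosed_eq hφ.continuous continuous_const) cl
  choose Γ Γ0 Γd using global_flow hK nX
  have uniq : ∀ z w s t, Γ z s = Γ w t → ∀ u, Γ z (s + u) = Γ w (t + u) := fun z w s t h u =>
    congrFun (ODE_solution_unique_univ (v := fun _ => X) (s := fun _ => univ) (t₀ := 0)
      (f := fun u => Γ z (s + u)) (g := fun u => Γ w (t + u)) (fun _ => hK.lipschitzOnWith)
      (fun u => ⟨(Γd z (s + u)).comp_const_add s u, trivial⟩)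
      (fun u => ⟨(Γd w (t + u)).comp_const_add t u, trivial⟩) (by simpa using h)) u
  have rng : ∀ z w s t, Γ z s = Γ w t → range (Γ z) = range (Γ w) := fun z w s t h => by
    apply Subset.antisymm <;> rintro _ ⟨u, rfl⟩
    · exact ⟨t + (u - s), by rw [← uniq z w s t h]; simp⟩
    · exact ⟨s + (u - t), by rw [uniq z w s t h]; simp⟩
  have Z0 : ∀ z, φ z = 0 → ∀ t, φ (Γ z t) = 0 := fun z hz t => by
    have : ∀ t, HasDerivAt (fun t => φ (Γ z t)) 0 t := fun t => by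
      refine ((hφ.differentiable (by simp) _).hasFDerivAt.comp_hasDerivAt t (Γd z t)).congr_deriv ?_
      rw [hX, map_smul, fderiv_real]
      simp [hg]; right; ring
    rw [is_const_of_deriv_eq_zero (fun t => (this t).differentiableAt) (fun t => (this t).deriv) t 0,
      Γ0, hz]
  have C0 : ∀ z, φ z = 0 → Cv0 (Γ z) := fun z hz => ⟨smooth_flow sX (Γd z), fun s => by
    rw [(Γd z s).deriv, XZ _ (Z0 z hz s)]
    simp [norm_smul, g0 _ (Z0 z hz s)]⟩
  have N0 : ∀ z, φ z = 0 → ∀ s, fderiv ℝ φ (Γ z s) (I * deriv (Γ z) s) < 0 := fun z hz s => by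
    have := g0 _ (Z0 z hz s)
    rw [(Γd z s).deriv, XZ _ (Z0 z hz s), mul_smul_comm, map_smul, ← mul_assoc, I_mul_I,
      fderiv_real, smul_eq_mul]
    refine mul_neg_of_pos_of_neg (by positivity) ?_
    have := normSq_pos.2 this
    rw [normSq_apply] at this
    simp [hg] at this ⊢
    linarith
  have near := fun z hz s => (C0 z hz).near hφ (Z0 z hz) (N0 z hz s)
  have per : ∀ z, φ z = 0 → ∃ L, 0 < L ∧ (∀ s, Γ z (s + L) = Γ z s) ∧
      ∀ s t, Γ z s = Γ z t → ∃ n : ℤ, t = s + n * L := by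
    intro z hz
    have c1 : IsClosed (range (Γ z)) := by
      refine isClosed_of_closure_subset fun y hy => ?_
      have hy0 : φ y = 0 := closure_minimal (t := {z | φ z = 0}) (by
        rintro _ ⟨t, rfl⟩; exact Z0 z hz t) cZ.isClosed hy
      have := near y hy0 0
      rw [Γ0] at this
      obtain ⟨_, h1, u, rfl⟩ := mem_closure_iff_nhds.1 hy _ this
      obtain ⟨t, -, h2⟩ := h1 (Z0 z hz u)
      rw [← rng y z t u h2]
      exact ⟨0, Γ0 y⟩
    obtain ⟨T, -, hT⟩ := (cZ.of_isClosed_subset c1 (by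
      rintro _ ⟨t, rfl⟩; exact Z0 z hz t)).elim_nhds_subcover
      (fun y => {w | φ w = 0 → ∃ t, |t - Function.invFun (Γ z) y| < 1 ∧ Γ z t = w}) fun y hy => by
        have := near z hz (Function.invFun (Γ z) y)
        rwa [Function.invFun_eq hy] at this
    obtain ⟨B, hB⟩ := (T.finite_toSet.image (Function.invFun (Γ z))).bddAbove
    obtain ⟨y, hy, h1⟩ := mem_iUnion₂.1 (hT ⟨B + 1, rfl⟩)
    obtain ⟨t, h2, h3⟩ := h1 (Z0 z hz _)
    have h4 : t < B + 1 := by linarith [(abs_lt.1 h2).2, hB (mem_image_of_mem _ hy)]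
    let P : AddSubgroup ℝ :=
      { carrier := {T | ∀ s, Γ z (s + T) = Γ z s}
        add_mem' := fun {a b} ha hb s => by rw [← add_assoc, hb, ha]
        zero_mem' := fun s => by rw [add_zero]
        neg_mem' := fun {a} ha s => by rw [← ha (s + -a)]; simp }
    have hP : ∀ s t, Γ z s = Γ z t → t - s ∈ P := fun s t h u => by
      have := uniq z z s t h (u - s)
      rw [show u + (t - s) = t + (u - s) by ring, ← this]; simp
    have cΓ := (C0 z hz).smooth.continuous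
    rcases P.dense_or_cyclic with h5 | ⟨a, h5⟩
    · exfalso
      have : ∀ T, Γ z (0 + T) = Γ z 0 := fun T =>
        closure_minimal (s := (P : Set ℝ)) (t := {T | Γ z (0 + T) = Γ z 0}) (fun T h => h 0)
          (isClosed_eq (by fun_prop) continuous_const) (h5 T)
      have e : Γ z = fun _ => Γ z 0 := funext fun T => by simpa using this T
      have := (C0 z hz).unit 0
      rw [e] at this
      simp at this
    · have ha : a ∈ P := h5 ▸ AddSubgroup.mem_closure_singleton_self a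
      have a0 : a ≠ 0 := by
        rintro rfl
        have := hP _ _ h3
        rw [h5, AddSubgroup.mem_closure_singleton] at this
        obtain ⟨n, hn⟩ := this
        simp at hn; linarith
      refine ⟨|a|, abs_pos.2 a0, abs_mem_iff.2 ha, fun s t h => ?_⟩
      have := hP s t h
      rw [h5, AddSubgroup.mem_closure_singleton] at this
      obtain ⟨n, hn⟩ := this
      rw [zsmul_eq_mul] at hn
      rcases abs_choice a with h6 | h6 <;> rw [h6]
      · exact ⟨n, by linarith⟩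
      · exact ⟨-n, by push_cast; linarith⟩
  choose! LL L1 L2 L3 using per
  obtain ⟨T, hT0, hT⟩ := cZ.elim_nhds_subcover
    (fun y => {w | φ w = 0 → ∃ t, |t - 0| < 1 ∧ Γ y t = w}) fun y hy => by
      have := near y hy 0
      rwa [Γ0] at this
  have fin : ((fun z => range (Γ z)) '' {z | φ z = 0}).Finite := by
    refine (T.finite_toSet.image fun z => range (Γ z)).subset ?_
    rintro _ ⟨z, hz, rfl⟩
    obtain ⟨y, hy, h1⟩ := mem_iUnion₂.1 (hT hz)
    obtain ⟨t, -, h2⟩ := h1 hz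
    exact ⟨y, hy, rng y z t 0 (h2.trans (Γ0 z).symm)⟩
  have hc : ∀ O : (fun z => range (Γ z)) '' {z | φ z = 0}, ∃ z, φ z = 0 ∧ range (Γ z) = O :=
    fun O => O.2
  choose c c1 c2 using hc
  refine ⟨_, fin.fintype, fun O => Γ (c O), fun O => LL (c O), fun O =>
    ⟨C0 _ (c1 O), L1 _ (c1 O), L2 _ (c1 O)⟩, fun O O' s t h => Subtype.ext ?_,
    fun O => L3 _ (c1 O), hφ, he, fun z => ⟨fun hz => ?_, ?_⟩, fun O => N0 _ (c1 O), hb⟩
  · rw [← c2, ← c2, rng _ _ _ _ h]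
  · refine ⟨⟨_, z, hz, rfl⟩, ?_⟩
    change z ∈ range _
    rw [c2]
    exact ⟨0, Γ0 z⟩
  · rintro ⟨O, s, rfl⟩
    exact Z0 _ (c1 O) s

lemma Cv.reduce {γ : ℝ → ℂ} {L : ℝ} (h : Cv γ L) (p : ℂ) :
    ∃ s ∈ Icc 0 L, ∃ n : ℤ, p = s + p.im * I + n * L := by
  refine ⟨toIcoMod h.pos 0 p.re, Ico_subset_Icc_self (toIcoMod_mem_Ico' h.pos _),
    toIcoDiv h.pos 0 p.re, ?_⟩
  rw [toIcoMod]
  apply Complex.ext <;> simp [-self_sub_toIcoDiv_zsmul]

namespace Geo

variable {Ω : Set ℂ} {ι : Type} [Fintype ι] {γ : ι → ℝ → ℂ} {L : ι → ℝ} {φ : ℂ → ℝ}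
  (h : Geo Ω γ L φ)
include h

lemma opn : IsOpen Ω := h.eq ▸ isOpen_lt h.smooth.continuous continuous_const
lemma z0 (i : ι) (s : ℝ) : φ (γ i s) = 0 := (h.zero _).2 ⟨i, s, rfl⟩
lemma mem {z : ℂ} : z ∈ Ω ↔ φ z < 0 := by rw [h.eq]; rfl

lemma sign (i : ι) : ∀ᶠ x : ℝ in 𝓝 0, ∀ p : ℂ, p.im = x →
    (0 < p.im → φ (Phi (γ i) p) < 0) ∧ (p.im < 0 → 0 < φ (Phi (γ i) p)) := by
  have := (isCompact_Icc (a := 0) (b := L i)).eventually_forall_of_forall_eventually (x₀ := (0 : ℝ))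
    (P := fun x s => (0 < x → φ (Phi (γ i) (s + x * I)) < 0) ∧
      (x < 0 → 0 < φ (Phi (γ i) (s + x * I)))) fun s _ => by
      have c : Continuous fun q : ℝ × ℝ => (q.2 + q.1 * I : ℂ) := by fun_prop
      have := (c.tendsto' (0, s) s (by simp)).eventually
        ((h.cv i).sign h.smooth (h.z0 i) (h.neg i s))
      simpa using this
  filter_upwards [this] with x hx p hp
  obtain ⟨s, hs, n, e⟩ := (h.cv i).reduce p
  rw [show Phi (γ i) p = Phi (γ i) (s + x * I) by rw [e, (h.cv i).Phi_per', hp], hp]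
  exact hx s hs

lemma inj2 (i j : ι) : ∀ᶠ x : ℝ × ℝ in 𝓝 0, ∀ p q : ℂ, p.im = x.1 → q.im = x.2 →
    Phi (γ i) p = Phi (γ j) q → i = j ∧ ∃ n : ℤ, q = p + n * L i := by
  have c1 := (h.cv i).sPhi.continuous
  have c2 := (h.cv j).sPhi.continuous
  have := ((isCompact_Icc (a := 0) (b := L i)).prod
    (isCompact_Icc (a := 0) (b := L j))).eventually_forall_of_forall_eventually
    (x₀ := (0 : ℝ × ℝ)) (P := fun x s => Phi (γ i) (s.1 + x.1 * I) = Phi (γ j) (s.2 + x.2 * I) →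
      i = j ∧ ∃ n : ℤ, (s.2 + x.2 * I : ℂ) = s.1 + x.1 * I + n * L i) fun s _ => by
      by_cases e : γ i s.1 = γ j s.2
      · obtain rfl := h.disj _ _ _ _ e
        obtain ⟨n, hn⟩ := h.inj _ _ _ e
        obtain ⟨g, -, -, -, g4⟩ := (h.cv i).local_inv (p := s.1) (by simp [Jf])
        have a1 : Continuous fun q : (ℝ × ℝ) × ℝ × ℝ => (q.2.1 + q.1.1 * I : ℂ) := by fun_prop
        have a2 : Continuous fun q : (ℝ × ℝ) × ℝ × ℝ => (q.2.2 + q.1.2 * I + (-n : ℤ) * L i : ℂ) := by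
          fun_prop
        filter_upwards [(a1.tendsto' (0, s) s.1 (by simp)).eventually g4,
          (a2.tendsto' (0, s) s.1 (by simp [hn])).eventually g4] with q e1 e2 e3
        rw [(h.cv i).Phi_per', ← e3, e1] at e2
        exact ⟨rfl, n, by rw [e2]; push_cast; ring⟩
      · have a1 : Continuous fun q : (ℝ × ℝ) × ℝ × ℝ =>
            Phi (γ i) (q.2.1 + q.1.1 * I) - Phi (γ j) (q.2.2 + q.1.2 * I) := by fun_prop
        filter_upwards [a1.continuousAt.eventually_ne (y := 0) (x := (0, s))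
          (by simpa [Phi_real, sub_eq_zero] using e)] with q e1 e2
        exact (e1 (sub_eq_zero.2 e2)).elim
  filter_upwards [this] with x hx p q hp hq e
  obtain ⟨s, hs, n, e1⟩ := (h.cv i).reduce p
  obtain ⟨t, ht, m, e2⟩ := (h.cv j).reduce q
  rw [hp] at e1
  rw [hq] at e2
  rw [e1, e2, (h.cv i).Phi_per', (h.cv j).Phi_per'] at e
  obtain ⟨rfl, k, hk⟩ := hx (s, t) ⟨hs, ht⟩ e
  exact ⟨rfl, k + m - n, by rw [e1, e2, hk]; push_cast; ring⟩

theorem fam : ∃ δ0, Fam Ω γ L δ0 ∧ ∀ i (p : ℂ), p.im ∈ Ioo (-δ0) 0 → 0 < φ (Phi (γ i) p) := by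
  obtain ⟨a, ha, h1⟩ := Metric.eventually_nhds_iff.1 (eventually_all.2 h.sign)
  obtain ⟨b, hb, h2⟩ := Metric.eventually_nhds_iff.1
    (eventually_all.2 fun i => eventually_all.2 (h.inj2 i))
  choose K hK using fun i => (h.cv i).exists_kap
  obtain ⟨B, hB⟩ := (finite_range K).bddAbove
  set δ := min (min a b) (2 * (|B| + 1))⁻¹ with hδ
  have d0 : 0 < δ := by positivity
  have da : δ ≤ a := (min_le_left _ _).trans (min_le_left _ _)
  have db : δ ≤ b := (min_le_left _ _).trans (min_le_right _ _)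
  have s1 : ∀ i (p : ℂ), |p.im| < δ → (0 < p.im → φ (Phi (γ i) p) < 0) ∧
      (p.im < 0 → 0 < φ (Phi (γ i) p)) := fun i p hp =>
    h1 (y := p.im) (by simpa using hp.trans_le da) i p rfl
  have s2 : ∀ i j, ∀ p ∈ strip δ, ∀ q ∈ strip δ, Phi (γ i) p = Phi (γ j) q →
      i = j ∧ ∃ n : ℤ, q = p + n * L i := fun i j p hp q hq =>
    h2 (y := (p.im, q.im)) (by
      simp only [dist_zero_right, Prod.norm_mk, Real.norm_eq_abs, abs_of_pos hp.1, abs_of_pos hq.1]
      exact max_lt (hp.2.trans_le db) (hq.2.trans_le db)) i j p q rfl rfl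
  refine ⟨δ, ⟨fun i => ⟨h.cv i, h.opn, d0, fun s => ?_, fun p hp => h.mem.2 ((s1 i p (by
    rw [abs_of_pos hp.1]; exact hp.2)).1 hp.1), fun s => by simp [h.mem, h.z0],
    fun p hp q hq e => (s2 i i p hp q hq e).2⟩, h.opn, d0, h.bdd,
    fun i j p hp q hq e => (s2 i j p hp q hq e).1, fun ε hε => ?_⟩,
    fun i p hp => (s1 i p (by rw [abs_of_neg hp.2]; linarith [hp.1])).2 hp.2⟩
  · calc _ ≤ (|B| + 1) * (2 * (|B| + 1))⁻¹ := by
          gcongr
          · linarith [(hK i).b0 s, hB ⟨i, rfl⟩, le_abs_self B]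
          · exact min_le_right _ _
      _ = _ := by field_simp
  · refine ⟨closure Ω \ interior (⋃ i, Phi (γ i) '' {p | |p.im| < min ε δ}),
      h.bdd.isCompact_closure.diff isOpen_interior, fun z hz => h.mem.2 (lt_of_le_of_ne ?_ ?_),
      fun z hz h3 => ?_⟩
    · exact closure_minimal (t := {z | φ z ≤ 0}) (fun z hz => (h.mem.1 hz).le)
        (isClosed_le h.smooth.continuous continuous_const) hz.1
    · intro h3
      obtain ⟨i, s, rfl⟩ := (h.zero z).1 h3
      refine hz.2 (mem_interior_iff_mem_nhds.2 (mem_of_superset ((h.cv i).nhds_sub s ?_)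
        (subset_iUnion (fun i => Phi (γ i) '' {p | |p.im| < min ε δ}) i)))
      exact (isOpen_lt (by fun_prop) continuous_const).mem_nhds (by simp [hε, d0])
    · obtain ⟨i, p, hp, rfl⟩ := mem_iUnion.1 (interior_subset
        (by_contra fun h4 => h3 ⟨subset_closure hz, h4⟩))
      have hp' : |p.im| < min ε δ := hp
      refine ⟨i, p, ⟨?_, (le_abs_self _).trans_lt (hp'.trans_le (min_le_left _ _))⟩, rfl⟩
      have := h.mem.1 hz
      rcases lt_trichotomy p.im 0 with h4 | h4 | h4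
      · exact absurd ((s1 i p (hp'.trans_le (min_le_right _ _))).2 h4) this.not_gt
      · simp [Phi, h4, h.z0] at this
      · exact h4

end Geo

end Pool.Agent.Lib.MP_312682_mp
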