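import Pool.Agent.Lib.MP_312682_mp.Rigid

/-! The ground state as a very weak solution. -/

open scoped ContDiff ComplexConjugate Topology InnerProductSpace
open MeasureTheory Complex Set Filter Metric

set_option linter.unusedSectionVars false

noncomputable section

namespace Pool.Agent.Lib.MP_312682_mp

def r1 (f : ℂ → ℝ) (z : ℂ) : ℝ := fderiv ℝ f z 1
def r2 (f : ℂ → ℝ) (z : ℂ) : ℝ := fderiv ℝ f z I
def gs (f : ℂ → ℝ) (z : ℂ) : ℝ := r1 f z ^ 2 + r2 f z ^ 2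
def ER (f : ℂ → ℝ) : ℝ := ∫ z, gs f z
def M2 (f : ℂ → ℝ) : ℝ := ∫ z, f z ^ 2
def lap (f : ℂ → ℝ) (z : ℂ) : ℝ := r1 (r1 f) z + r2 (r2 f) z

structure TR (Ω : Set ℂ) (f : ℂ → ℝ) : Prop where
  smooth : ContDiff ℝ ∞ f
  cpt : HasCompactSupport f
  supp : tsupport f ⊆ Ω

lemma gs_nonneg (f : ℂ → ℝ) (z : ℂ) : 0 ≤ gs f z := by unfold gs; positivity
lemma ER_nonneg (f : ℂ → ℝ) : 0 ≤ ER f := integral_nonneg (gs_nonneg f)
lemma M2_nonneg (f : ℂ → ℝ) : 0 ≤ M2 f := integral_nonneg fun _ => sq_nonneg _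

section calc'

variable {f g : ℂ → ℝ} {z : ℂ}

lemma r_comp {h : ℝ → ℝ} {h' : ℝ} (hf : DifferentiableAt ℝ f z) (hh : HasDerivAt h h' (f z)) :
    r1 (fun z => h (f z)) z = h' * r1 f z ∧ r2 (fun z => h (f z)) z = h' * r2 f z := by
  have : HasFDerivAt (fun z => h (f z)) _ z := hh.comp_hasFDerivAt z hf.hasFDerivAt
  simp [r1, r2, this.fderiv]

lemma r_mul (hf : DifferentiableAt ℝ f z) (hg : DifferentiableAt ℝ g z) :
    r1 (fun z => f z * g z) z = f z * r1 g z + r1 f z * g z ∧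
      r2 (fun z => f z * g z) z = f z * r2 g z + r2 f z * g z := by
  simp [r1, r2, fderiv_fun_mul hf hg, mul_comm]

lemma r_lin (hf : DifferentiableAt ℝ f z) (hg : DifferentiableAt ℝ g z) (a b : ℝ) :
    r1 (fun z => a * f z + b * g z) z = a * r1 f z + b * r1 g z ∧
      r2 (fun z => a * f z + b * g z) z = a * r2 f z + b * r2 g z := by
  have : HasFDerivAt (fun z => a * f z + b * g z) _ z :=
    (hf.hasFDerivAt.const_mul a).add (hg.hasFDerivAt.const_mul b)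
  simp [r1, r2, this.fderiv]

lemma r_congr (h : f =ᶠ[𝓝 z] g) : r1 f z = r1 g z ∧ r2 f z = r2 g z := by
  simp [r1, r2, h.fderiv_eq]

lemma d_cf (hf : DifferentiableAt ℝ f z) : d1 (cf f) z = r1 f z ∧ d2 (cf f) z = r2 f z := by
  have : HasFDerivAt (cf f) _ z := ofRealCLM.hasFDerivAt.comp z hf.hasFDerivAt
  simp [d1, d2, r1, r2, this.fderiv]

lemma s_r (hf : ContDiff ℝ ∞ f) : ContDiff ℝ ∞ (r1 f) ∧ ContDiff ℝ ∞ (r2 f) :=
  ⟨(hf.fderiv_right (by simp)).clm_apply contDiff_const,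
    (hf.fderiv_right (by simp)).clm_apply contDiff_const⟩

end calc'

namespace TR

variable {Ω : Set ℂ} {f g : ℂ → ℝ}

lemma diff (h : TR Ω f) (z : ℂ) : DifferentiableAt ℝ f z := h.smooth.differentiable (by simp) z
lemma univ (h : TR Ω f) : TR univ f := ⟨h.smooth, h.cpt, subset_univ _⟩
lemma t1 (h : TR Ω f) : TR Ω (r1 f) :=
  ⟨(s_r h.smooth).1, h.cpt.fderiv_apply ℝ 1, (tsupport_fderiv_apply_subset ℝ 1).trans h.supp⟩
lemma t2 (h : TR Ω f) : TR Ω (r2 f) :=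
  ⟨(s_r h.smooth).2, h.cpt.fderiv_apply ℝ I, (tsupport_fderiv_apply_subset ℝ I).trans h.supp⟩
lemma memLp (h : TR Ω f) : MemLp f 2 vol := h.smooth.continuous.memLp_of_hasCompactSupport h.cpt
lemma int (h : TR Ω f) : Integrable f vol :=
  h.smooth.continuous.integrable_of_hasCompactSupport h.cpt
lemma of_zero (h : TR Ω f) (hg : ContDiff ℝ ∞ g) (h0 : ∀ z, f z = 0 → g z = 0) : TR Ω g :=
  have : Function.support g ⊆ Function.support f := fun z hz h1 => hz (h0 z h1)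
  ⟨hg, h.cpt.mono this, (closure_mono this).trans h.supp⟩
lemma mul (h : TR Ω f) (hg : ContDiff ℝ ∞ g) : TR Ω fun z => g z * f z :=
  h.of_zero (hg.mul h.smooth) fun z hz => by simp [hz]
lemma lin (h : TR Ω f) (hg : TR Ω g) (a b : ℝ) : TR Ω fun z => a * f z + b * g z := by
  have h1 := h.mul (g := fun _ => a) contDiff_const
  have h2 := hg.mul (g := fun _ => b) contDiff_const
  exact ⟨h1.smooth.add h2.smooth, h1.cpt.add h2.cpt,
    (tsupport_add _ _).trans (union_subset h1.supp h2.supp)⟩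
lemma lap (h : TR Ω f) : TR Ω (lap f) := by
  have := h.t1.t1.lin h.t2.t2 1 1
  simp only [one_mul] at this
  exact this
lemma int_mul {Ω' : Set ℂ} (h : TR Ω f) (hg : TR Ω' g) : Integrable (fun z => f z * g z) vol :=
  h.memLp.integrable_mul hg.memLp
lemma int_rr {Ω' : Set ℂ} (h : TR Ω f) (hg : TR Ω' g) :
    Integrable (fun z => r1 f z * r1 g z + r2 f z * r2 g z) vol :=
  (h.t1.int_mul hg.t1).add (h.t2.int_mul hg.t2)
lemma int_gs (h : TR Ω f) : Integrable (gs f) vol :=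
  h.t1.memLp.integrable_sq.add h.t2.memLp.integrable_sq
lemma test (h : TR Ω f) : cf f ∈ testC Ω :=
  have : Function.support (cf f) ⊆ Function.support f := fun z hz h1 => hz (by simp [cf, h1])
  ⟨s_ofReal.comp h.smooth, h.cpt.mono this, (closure_mono this).trans h.supp⟩
lemma energy (h : TR Ω f) : energyC (cf f) = ER f := by
  unfold energyC ER
  congr 1; ext z
  simp [d_cf (h.diff z), gs]

lemma int_r (h : TR Ω f) : ∫ z, r1 f z = 0 ∧ ∫ z, r2 f z = 0 := by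
  have a : ∫ z, d1 (cf f) z = 0 := int_fderiv h.test.1 h.test.2.1 1
  have b : ∫ z, d2 (cf f) z = 0 := int_fderiv h.test.1 h.test.2.1 I
  simp only [d_cf (h.diff _), integral_complex_ofReal, ofReal_eq_zero] at a b
  exact ⟨a, b⟩

lemma ibp {Ω' : Set ℂ} (h : TR Ω f) (hg : TR Ω' g) :
    ∫ z, (r1 f z * r1 g z + r2 f z * r2 g z) = -∫ z, f z * MP_312682_mp.lap g z := by
  have a := (hg.t1.mul h.smooth).int_r.1
  have b := (hg.t2.mul h.smooth).int_r.2
  rw [eq_neg_iff_add_eq_zero, ← integral_add (h.int_rr hg)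
    (h.int_mul hg.lap), ← add_zero (0 : ℝ)]
  nth_rw 1 [← a]
  rw [← b, ← integral_add (hg.t1.mul h.smooth).t1.int (hg.t2.mul h.smooth).t2.int]
  congr 1; ext z
  rw [(r_mul (h.diff z) (hg.t1.diff z)).1, (r_mul (h.diff z) (hg.t2.diff z)).2, MP_312682_mp.lap]
  ring

end TR

lemma mass_cf (f : ℂ → ℝ) : massC (cf f) = M2 f := by simp [massC, M2, cf]

def Low (Ω : Set ℂ) (l : ℝ) : Prop := ∀ u ∈ testC Ω, l * massC u ≤ energyC u

lemma Low.var {Ω : Set ℂ} {l : ℝ} (h : Low Ω l) {f g : ℂ → ℝ} (hf : TR Ω f) (hg : TR Ω g) (s : ℝ) :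
    0 ≤ (ER f - l * M2 f) + 2 * s * ((∫ z, (r1 f z * r1 g z + r2 f z * r2 g z)) -
      l * ∫ z, f z * g z) + s ^ 2 * (ER g - l * M2 g) := by
  have h1 := h _ (hf.lin hg 1 s).test
  rw [(hf.lin hg 1 s).energy, mass_cf] at h1
  have e1 : ER (fun z => 1 * f z + s * g z) = ER f +
      2 * s * (∫ z, (r1 f z * r1 g z + r2 f z * r2 g z)) + s ^ 2 * ER g := by
    have i1 := (hf.int_rr hg).const_mul (2 * s)
    have i2 : Integrable (fun z => gs f z + 2 * s * (r1 f z * r1 g z + r2 f z * r2 g z)) vol :=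
      hf.int_gs.add i1
    rw [ER, ER, ER, ← integral_const_mul, ← integral_const_mul, ← integral_add hf.int_gs i1,
      ← integral_add i2 (hg.int_gs.const_mul _)]
    congr 1; ext z
    simp only [gs, r_lin (hf.diff z) (hg.diff z), Pi.add_apply]; ring
  have e2 : M2 (fun z => 1 * f z + s * g z) = M2 f + 2 * s * (∫ z, f z * g z) + s ^ 2 * M2 g := by
    have i1 := (hf.int_mul hg).const_mul (2 * s)
    have i2 : Integrable (fun z => f z ^ 2 + 2 * s * (f z * g z)) vol :=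
      hf.memLp.integrable_sq.add i1
    rw [M2, M2, M2, ← integral_const_mul, ← integral_const_mul,
      ← integral_add hf.memLp.integrable_sq i1,
      ← integral_add i2 (hg.memLp.integrable_sq.const_mul _)]
    congr 1; ext z
    ring
  rw [e1, e2] at h1
  linarith

lemma Low.transfer {Ω Ω' : Set ℂ} {l : ℝ} (h : Low Ω l) (hc : ∀ l, CC Ω' 1 l → CC Ω 1 l) :
    Low Ω' l := by
  intro u hu
  by_cases h0 : u = 0
  · simp [h0, massC, energyC_nonneg]
  have m0 := massC_pos hu.1.continuous hu.2.1 h0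
  rw [← le_div_iff₀ m0]
  refine le_of_forall_gt_imp_ge_of_dense fun l' hl' => ?_
  obtain ⟨W, hW, h1, -, l'', h2, h3⟩ := hc l' ⟨Submodule.span ℂ {u},
    (Submodule.span_singleton_le_iff_mem _ _).2 hu, finrank_span_singleton h0, inferInstance, _, hl',
    fun w hw => by
      obtain ⟨c, rfl⟩ := Submodule.mem_span_singleton.1 hw
      have e1 : massC (c • u) = ‖c‖ ^ 2 * massC u := by
        simp [massC, mul_pow, integral_const_mul]
      have e2 : energyC (c • u) = ‖c‖ ^ 2 * energyC u := by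
        rw [energyC, energyC, ← integral_const_mul]
        congr 1; ext z
        simp [d1, d2, fderiv_const_smul (hu.1.differentiable (by simp) z), mul_pow, mul_add]
      rw [e1, e2]
      exact le_of_eq (by field_simp)⟩
  obtain ⟨w, hw, w0⟩ := Submodule.exists_mem_ne_zero_of_ne_bot (p := W) (by
    rintro rfl; simp at h1)
  have := (h w (hW hw)).trans (h3 w hw)
  exact (le_of_mul_le_mul_right this (massC_pos (hW hw).1.continuous (hW hw).2.1 w0)).trans h2.le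

/-- `U` is approximated by nonnegative test functions of almost minimal energy -/
structure App (Ω : Set ℂ) (l : ℝ) (U : ℂ → ℝ) : Prop where
  mem : MemLp U 2 vol
  app : ∀ ε > 0, ∃ f, TR Ω f ∧ (∀ z, 0 ≤ f z) ∧ M2 (fun z => f z - U z) ≤ ε ∧ ER f ≤ l * M2 U + ε

lemma inner_toLp {f g : ℂ → ℝ} (hf : MemLp f 2 vol) (hg : MemLp g 2 vol) :
    ⟪hf.toLp f, hg.toLp g⟫_ℝ = ∫ z, f z * g z := by
  rw [L2.inner_def]
  refine integral_congr_ae ?_
  filter_upwards [hf.coeFn_toLp, hg.coeFn_toLp] with z e1 e2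
  simp [e1, e2, mul_comm]

lemma App.seq {Ω : Set ℂ} {l : ℝ} {U : ℂ → ℝ} (h : App Ω l U) : ∃ (f : ℕ → ℂ → ℝ) (e : ℕ → ℝ),
    (∀ n, TR Ω (f n) ∧ (∀ z, 0 ≤ f n z) ∧ ER (f n) ≤ e n) ∧ Tendsto e atTop (𝓝 (l * M2 U)) ∧
    Tendsto (fun n => M2 (f n)) atTop (𝓝 (M2 U)) ∧
    ∀ g, MemLp g 2 vol → Tendsto (fun n => ∫ z, f n z * g z) atTop (𝓝 (∫ z, U z * g z)) := by
  choose f f1 f2 f3 f4 using fun n : ℕ => h.app (1 / (n + 1)) Nat.one_div_pos_of_nat
  have t : Tendsto (fun n => (f1 n).memLp.toLp _) atTop (𝓝 (h.mem.toLp U)) := by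
    rw [tendsto_iff_norm_sub_tendsto_zero]
    have := (squeeze_zero (fun n => M2_nonneg _) f3 tendsto_one_div_add_atTop_nhds_zero_nat).sqrt
    rw [Real.sqrt_zero] at this
    refine this.congr fun n => ?_
    rw [← MemLp.toLp_sub, norm_eq_sqrt_real_inner, inner_toLp, M2]
    simp [sq]
  refine ⟨f, _, fun n => ⟨f1 n, f2 n, f4 n⟩, by
    simpa using tendsto_one_div_add_atTop_nhds_zero_nat.const_add (l * M2 U), ?_, fun g hg => ?_⟩
  · have := t.inner (𝕜 := ℝ) t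
    simp only [inner_toLp, ← sq] at this
    exact this
  · simpa [inner_toLp] using t.inner (𝕜 := ℝ) (tendsto_const_nhds (x := hg.toLp g))

lemma lim_s {X C : ℝ} (h : ∀ s > 0, 0 ≤ 2 * s * X + s ^ 2 * C) : 0 ≤ X := by
  have : Tendsto (fun s : ℝ => 2 * X + s * C) (𝓝[>] 0) (𝓝 (2 * X)) :=
    (Continuous.tendsto' (by fun_prop) _ _ (by simp)).mono_left nhdsWithin_le_nhds
  have := ge_of_tendsto (b := 0) this (by
    filter_upwards [self_mem_nhdsWithin] with s hs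
    exact nonneg_of_mul_nonneg_right (le_of_le_of_eq (h s hs) (by ring)) hs)
  linarith

lemma App.super {Ω : Set ℂ} {l : ℝ} {U : ℂ → ℝ} (h : App Ω l U) (hl : Low Ω l) {φ : ℂ → ℝ}
    (hφ : TR Ω φ) : 0 ≤ -(∫ z, U z * lap φ z) - l * ∫ z, U z * φ z := by
  obtain ⟨f, e, h1, h2, h3, h4⟩ := h.seq
  refine lim_s (C := ER φ - l * M2 φ) fun s hs => ?_
  have := ge_of_tendsto' (((h2.sub (h3.const_mul l)).add ((((h4 _ hφ.lap.memLp).neg.sub
    ((h4 _ hφ.memLp).const_mul l))).const_mul (2 * s))).add_const (s ^ 2 * (ER φ - l * M2 φ)))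
    fun n => (hl.var (h1 n).1 hφ s).trans (by rw [(h1 n).1.ibp hφ]; linarith [(h1 n).2.2])
  linarith

lemma App.sub {Ω : Set ℂ} {l : ℝ} {U : ℂ → ℝ} (h : App Ω l U) (hl : Low Ω l) (l0 : 0 ≤ l)
    {φ : ℂ → ℝ} (hφ : TR univ φ) (h0 : ∀ z, 0 ≤ φ z) :
    -(∫ z, U z * lap φ z) - l * ∫ z, U z * φ z ≤ 0 := by
  obtain ⟨f, e, h1, h2, h3, h4⟩ := h.seq
  obtain ⟨S, hS⟩ := hφ.cpt.exists_bound_of_continuous hφ.smooth.continuous
  have key : ∀ η > 0, -(∫ z, U z * lap φ z) - l * ∫ z, U z * φ z ≤ η * ∫ z, |lap φ z| := by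
    intro η hη
    have q0 : ∀ t : ℝ, 0 < t ^ 2 + η ^ 2 := fun t => by positivity
    have q1 : ∀ t : ℝ, 0 < √(t ^ 2 + η ^ 2) := fun t => Real.sqrt_pos.2 (q0 t)
    have sq : ContDiff ℝ ∞ fun t : ℝ => √(t ^ 2 + η ^ 2) :=
      ContDiff.sqrt (by fun_prop) fun t => (q0 t).ne'
    have dq : ∀ t : ℝ, HasDerivAt (fun t : ℝ => √(t ^ 2 + η ^ 2)) (t / √(t ^ 2 + η ^ 2)) t :=
      fun t => (((hasDerivAt_pow 2 t).add_const _).sqrt (q0 t).ne').congr_deriv (by
        have := q1 t; field_simp; norm_num)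
    have dθ : ∀ t : ℝ, ∃ c ∈ Icc 0 η⁻¹, HasDerivAt (fun t : ℝ => t / √(t ^ 2 + η ^ 2)) c t := by
      intro t
      have a := q1 t
      have b := Real.sq_sqrt (q0 t).le
      have c : η ≤ √(t ^ 2 + η ^ 2) := Real.le_sqrt_of_sq_le (by nlinarith)
      refine ⟨η ^ 2 / √(t ^ 2 + η ^ 2) ^ 3, ⟨by positivity, ?_⟩,
        ((hasDerivAt_id' t).div (dq t) a.ne').congr_deriv (by field_simp; linarith)⟩
      calc _ ≤ η ^ 2 / η ^ 3 := by gcongr
        _ = _ := by field_simp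
    have bθ : ∀ t : ℝ, 0 ≤ t → t / √(t ^ 2 + η ^ 2) ∈ Icc 0 1 := fun t ht =>
      ⟨by positivity, (div_le_one (q1 t)).2 (Real.le_sqrt_of_sq_le (by nlinarith))⟩
    rw [← sub_nonneg]
    refine lim_s (C := 2 * ER φ + 2 * (S * η⁻¹) ^ 2 * (l * M2 U)) fun s hs => ?_
    have := ge_of_tendsto' (b := 0) (((h2.sub (h3.const_mul l)).add (((((h4 _ hφ.lap.memLp).neg.sub
      ((h4 _ hφ.memLp).const_mul l))).const_sub (η * ∫ z, |lap φ z|)).const_mul (2 * s))).add
      (((h2.const_mul (2 * (S * η⁻¹) ^ 2)).const_add (2 * ER φ)).const_mul (s ^ 2))) fun n => ?_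
    · linarith
    obtain ⟨a1, a2, a3⟩ := h1 n
    generalize f n = f at a1 a2 a3
    have tθ : TR Ω fun z => f z / √(f z ^ 2 + η ^ 2) := a1.of_zero
      (a1.smooth.div (sq.comp a1.smooth) fun z => (q1 _).ne') fun z hz => by simp [hz]
    have tH : TR Ω fun z => √(f z ^ 2 + η ^ 2) - η := a1.of_zero
      ((sq.comp a1.smooth).sub contDiff_const) fun z hz => by simp [hz, hη.le]
    have tψ := tθ.mul hφ.smooth
    have v := hl.var a1 tψ (-s)
    have b1 : ER (fun z => φ z * (f z / √(f z ^ 2 + η ^ 2))) ≤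
        2 * ER φ + 2 * (S * η⁻¹) ^ 2 * ER f := by
      rw [ER, ER, ER, ← integral_const_mul, ← integral_const_mul,
        ← integral_add (hφ.int_gs.const_mul _) (a1.int_gs.const_mul _)]
      refine integral_mono tψ.int_gs ((hφ.int_gs.const_mul _).add (a1.int_gs.const_mul _))
        fun z => ?_
      obtain ⟨c, hc, dc⟩ := dθ (f z)
      simp only [gs, r_mul (hφ.diff z) (tθ.diff z), r_comp (a1.diff z) dc]
      have k1 : (φ z * c) ^ 2 ≤ (S * η⁻¹) ^ 2 := by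
        exact pow_le_pow_left₀ (mul_nonneg (h0 z) hc.1) (mul_le_mul ((le_abs_self _).trans (hS z))
          hc.2 hc.1 ((norm_nonneg _).trans (hS z))) 2
      have k2 := pow_le_one₀ (n := 2) (bθ _ (a2 z)).1 (bθ _ (a2 z)).2
      generalize f z / √(f z ^ 2 + η ^ 2) = θ at k2
      nlinarith [mul_le_mul_of_nonneg_right k1 (gs_nonneg f z),
        mul_le_mul_of_nonneg_right k2 (gs_nonneg φ z), sq_nonneg (φ z * (c * r1 f z) - r1 φ z * θ),
        sq_nonneg (φ z * (c * r2 f z) - r2 φ z * θ), gs.eq_1 f z, gs.eq_1 φ z]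
    have b2 : -(∫ z, f z * lap φ z) - η * ∫ z, |lap φ z| ≤
        ∫ z, (r1 f z * r1 (fun z => φ z * (f z / √(f z ^ 2 + η ^ 2))) z +
          r2 f z * r2 (fun z => φ z * (f z / √(f z ^ 2 + η ^ 2))) z) := by
      refine le_trans ?_ ((tH.ibp hφ).ge.trans (integral_mono
        ((tH.t1.int_mul hφ.t1).add (tH.t2.int_mul hφ.t2))
        ((a1.t1.int_mul tψ.t1).add (a1.t2.int_mul tψ.t2)) fun z => ?_))
      · rw [← integral_const_mul, ← neg_add', ← integral_add (a1.int_mul hφ.lap)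
          (hφ.lap.int.abs.const_mul _), neg_le_neg_iff]
        refine integral_mono (tH.int_mul hφ.lap) ((a1.int_mul hφ.lap).add
          (hφ.lap.int.abs.const_mul _)) fun z => ?_
        have k1 : f z ≤ √(f z ^ 2 + η ^ 2) := Real.le_sqrt_of_sq_le (by nlinarith)
        have k2 : √(f z ^ 2 + η ^ 2) ≤ f z + η :=
          Real.sqrt_le_iff.2 ⟨by linarith [a2 z], by nlinarith [a2 z]⟩
        simp only
        rcases abs_cases (lap φ z) with h | h <;> rw [h.1] <;> nlinarith [h.2]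
      · obtain ⟨c, hc, dc⟩ := dθ (f z)
        simp only [r_mul (hφ.diff z) (tθ.diff z), r_comp (a1.diff z) dc,
          r_comp (a1.diff z) ((dq (f z)).sub_const η)]
        have := mul_nonneg (mul_nonneg (h0 z) hc.1) (gs_nonneg f z)
        rw [gs] at this
        linarith
    have b3 : ∫ z, f z * (φ z * (f z / √(f z ^ 2 + η ^ 2))) ≤ ∫ z, f z * φ z :=
      integral_mono (a1.int_mul tψ) (a1.int_mul hφ) fun z => mul_le_mul_of_nonneg_left
        (mul_le_of_le_one_right (h0 z) (bθ _ (a2 z)).2) (a2 z)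
    have b4 := mul_nonneg l0 (M2_nonneg fun z => φ z * (f z / √(f z ^ 2 + η ^ 2)))
    have b5 := mul_le_mul_of_nonneg_left a3 (show 0 ≤ 2 * (S * η⁻¹) ^ 2 by positivity)
    have b6 := mul_le_mul_of_nonneg_left b3 l0
    refine v.trans ?_
    rw [neg_sq]
    gcongr ?_ + ?_ + s ^ 2 * ?_
    · linarith
    · nlinarith
    · linarith
  have : Tendsto (fun η : ℝ => η * ∫ z, |lap φ z|) (𝓝[>] 0) (𝓝 0) :=
    (Continuous.tendsto' (by fun_prop) _ _ (by simp)).mono_left nhdsWithin_le_nhds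
  exact ge_of_tendsto this (eventually_nhdsWithin_of_forall key)

lemma M2_tri {f g U : ℂ → ℝ} {K : Set ℂ} (hK : IsCompact K) {c : ℝ} (h1 : ∀ z, |f z - g z| ≤ c)
    (h2 : ∀ z ∉ K, f z = g z) (hg : Integrable (fun z => (g z - U z) ^ 2) vol) :
    M2 (fun z => f z - U z) ≤ 2 * c ^ 2 * vol.real K + 2 * M2 fun z => g z - U z := by
  have i1 : Integrable (K.indicator fun _ => 2 * c ^ 2) vol :=
    (integrable_indicator_iff hK.measurableSet).2 (integrableOn_const hK.measure_lt_top.ne)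
  calc _ ≤ ∫ z, (K.indicator (fun _ => 2 * c ^ 2) z + 2 * (g z - U z) ^ 2) := by
        refine integral_mono_of_nonneg (ae_of_all _ fun _ => sq_nonneg _) (i1.add (hg.const_mul _))
          (ae_of_all _ fun z => ?_)
        by_cases hz : z ∈ K
        · have := sq_le_sq' (abs_le.1 (h1 z)).1 (abs_le.1 (h1 z)).2
          simp only [indicator_of_mem hz]
          nlinarith [sq_nonneg (f z - g z - (g z - U z))]
        · simp only [indicator_of_notMem hz, h2 z hz]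
          nlinarith [sq_nonneg (g z - U z)]
    _ = _ := by
        rw [integral_add i1 (hg.const_mul _), integral_const_mul, integral_indicator hK.measurableSet,
          M2]
        simp [mul_comm]

lemma small_eta (V : ℝ) {ε : ℝ} (hε : 0 < ε) : ∃ η > 0, 2 * (3 * η) ^ 2 * V ≤ ε := by
  have : Tendsto (fun η : ℝ => 2 * (3 * η) ^ 2 * V) (𝓝[>] 0) (𝓝 0) :=
    (Continuous.tendsto' (by fun_prop) _ _ (by simp)).mono_left nhdsWithin_le_nhds
  obtain ⟨η, h1, h2⟩ := ((this.eventually (ge_mem_nhds hε)).and self_mem_nhdsWithin).exists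
  exact ⟨η, h2, h1⟩

theorem ground {Ω : Set ℂ} (ho : IsOpen Ω) (hb : Bornology.IsBounded Ω) (hn : Ω.Nonempty) :
    ∃ l U, 0 ≤ l ∧ Low Ω l ∧ App Ω l U ∧ (∀ z, 0 ≤ U z) ∧ (∀ᵐ z, z ∉ Ω → U z = 0) ∧ 0 < M2 U := by
  obtain ⟨c, -, h1⟩ := HL_GO hb
  obtain ⟨z0, hz0⟩ := hn
  obtain ⟨f0, a1, a2, a3, -, a4⟩ := exists_contDiff_tsupport_subset (n := ⊤) (ho.mem_nhds hz0)
  have t0 := (TR.mk a3 a2 a1).test
  obtain ⟨σ, σ0, ⟨x, x1, x2, x3⟩, x4, -⟩ := exists_top (T := TO 1 Ω) (TT_GO 1 Ω ▸ (h1 1 le_rfl).ne_top)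
    (adj_mem 1 Ω) fun h => by
      have := T_DL 1 t0
      rw [h] at this
      refine (massC_pos t0.1.continuous t0.2.1 fun h => ?_).ne (by simpa using this)
      simpa [cf, a4] using congrFun h z0
  have xP : PO 1 Ω x = x := PC_self (by rw [← range_DLm] at x1; exact x1)
  rw [TO, mul_apply_eq_comp, xP] at x3
  have nx := norm_pos_iff.2 x2
  have σ1 : σ ≤ 1 := by
    have := (p0 vol).le_of_opNorm_le proj_p0.norm_le x
    have := pow_le_pow_left₀ (norm_nonneg _) this 2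
    rw [x3, one_mul] at this
    exact le_of_mul_le_mul_right (by linarith) (pow_pos nx 2)
  have eM : M2 (fun z => ‖x z 0‖) = σ * ‖x‖ ^ 2 := by rw [← x3, norm_p0, M2]
  have mU : MemLp (fun z => ‖x z 0‖) 2 vol :=
    ((EuclideanSpace.proj (𝕜 := ℂ) (0 : Fin 3)).comp_memLp' (Lp.memLp x)).norm
  refine ⟨σ⁻¹ - 1, fun z => ‖x z 0‖, sub_nonneg.2 (one_le_inv₀ σ0 |>.2 σ1), fun u hu => ?_,
    ⟨mU, fun ε hε => ?_⟩, fun z => norm_nonneg _, ?_, by rw [eM]; positivity⟩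
  · have := x4 (DL vol 1 u)
    rw [T_DL 1 hu, norm_DL hu.1 hu.2.1, one_pow, one_mul, ← inv_mul_le_iff₀ σ0] at this
    linarith
  · have c1 : Continuous fun y : L2 vol => ‖p0 vol (y - x)‖ ^ 2 := by fun_prop
    have c2 : Continuous fun y : L2 vol => ‖y‖ ^ 2 - ‖p0 vol y‖ ^ 2 := by fun_prop
    obtain ⟨_, ⟨b1, b2⟩, ⟨u, hu⟩, rfl⟩ := mem_closure_iff_nhds.1 x1 _ (inter_mem
      (c1.continuousAt.eventually (gt_mem_nhds (show _ < ε / 4 by simpa using hε)))
      (c2.continuousAt.eventually (gt_mem_nhds (lt_add_of_pos_right _ hε))))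
    change ‖p0 vol (DL vol 1 u - x)‖ ^ 2 < _ at b1
    change ‖DL vol 1 u‖ ^ 2 - ‖p0 vol (DL vol 1 u)‖ ^ 2 < ‖x‖ ^ 2 - ‖p0 vol x‖ ^ 2 + ε at b2
    rw [norm_DL hu.1 hu.2.1, norm_p0_DL hu.1 hu.2.1, x3] at b2
    obtain ⟨η, hη, b3⟩ := small_eta (vol.real (tsupport u)) (half_pos hε)
    have q0 : ∀ z, 0 < ‖u z‖ ^ 2 + η ^ 2 := fun t => by positivity
    have su : ContDiff ℝ ∞ fun z => ‖u z‖ ^ 2 + η ^ 2 :=
      ((contDiff_norm_sq ℝ).comp hu.1).add contDiff_const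
    have z0 : ∀ z, u z = 0 → √(‖u z‖ ^ 2 + η ^ 2) - η = 0 := fun z hz => by simp [hz, hη.le]
    have sp : Function.support (fun z => √(‖u z‖ ^ 2 + η ^ 2) - η) ⊆ Function.support u :=
      fun z hz h => hz (z0 z h)
    have tf : TR Ω fun z => √(‖u z‖ ^ 2 + η ^ 2) - η :=
      ⟨(su.sqrt fun z => (q0 z).ne').sub contDiff_const, hu.2.1.mono sp,
        (closure_mono sp).trans hu.2.2⟩
    have mu : MemLp (fun z => ‖u z‖) 2 vol :=
      (hu.1.continuous.memLp_of_hasCompactSupport hu.2.1).norm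
    refine ⟨_, tf, fun z => sub_nonneg.2 (Real.le_sqrt_of_sq_le (by nlinarith [sq_nonneg ‖u z‖])),
      (M2_tri (g := fun z => ‖u z‖) (c := 3 * η) hu.2.1.isCompact (fun z => ?_) (fun z hz => ?_)
        (mu.sub mU).integrable_sq).trans ?_, ?_⟩
    · have k1 : ‖u z‖ ≤ √(‖u z‖ ^ 2 + η ^ 2) := Real.le_sqrt_of_sq_le (by nlinarith)
      have k2 : √(‖u z‖ ^ 2 + η ^ 2) ≤ ‖u z‖ + η :=
        Real.sqrt_le_iff.2 ⟨by positivity, by nlinarith [norm_nonneg (u z)]⟩
      rw [abs_le]; constructor <;> linarith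
    · rw [z0 z (image_eq_zero_of_notMem_tsupport hz), image_eq_zero_of_notMem_tsupport hz, norm_zero]
    · have : M2 (fun z => ‖u z‖ - ‖x z 0‖) ≤ ‖p0 vol (DL vol 1 u - x)‖ ^ 2 := by
        rw [norm_p0]
        refine integral_mono_ae (mu.sub mU).integrable_sq
          (((EuclideanSpace.proj (𝕜 := ℂ) (0 : Fin 3)).comp_memLp'
            (Lp.memLp (DL vol 1 u - x))).norm.integrable_sq) ?_
        filter_upwards [Lp.coeFn_sub (DL vol 1 u) x, tl_coe ((core_test Ω).mem 1 u hu)] with z e1 e2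
        rw [e1, Pi.sub_apply, DL, e2, ← sq_abs]
        gcongr
        simpa using abs_norm_sub_norm_le (u z) (x z 0)
      linarith
    · have : ER (fun z => √(‖u z‖ ^ 2 + η ^ 2) - η) ≤ energyC u := by
        refine integral_mono tf.int_gs (integrable_energy hu.1 hu.2.1) fun z => ?_
        have d := (hu.1.differentiable (by simp) z).hasFDerivAt
        have d' : HasFDerivAt (fun z => √(‖u z‖ ^ 2 + η ^ 2) - η) _ z :=
          ((d.norm_sq.add_const _).sqrt (q0 z).ne').sub_const η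
        have k : ∀ w : ℂ, ((√(‖u z‖ ^ 2 + η ^ 2))⁻¹ * ⟪u z, w⟫_ℝ) ^ 2 ≤ ‖w‖ ^ 2 := fun w => by
          rw [mul_pow, inv_pow, Real.sq_sqrt (q0 z).le, inv_mul_le_iff₀ (q0 z), ← sq_abs]
          nlinarith [pow_le_pow_left₀ (abs_nonneg _) (abs_real_inner_le_norm (u z) w) 2,
            mul_nonneg (sq_nonneg η) (sq_nonneg ‖w‖)]
        refine le_trans (le_of_eq ?_) (add_le_add (k (d1 u z)) (k (d2 u z)))
        simp only [gs, r1, r2, d'.fderiv, d1, d2, smul_apply, ContinuousLinearMap.comp_apply,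
          innerSL_apply_apply, smul_eq_mul, nsmul_eq_mul]
        have := Real.sqrt_pos.2 (q0 z)
        field_simp
        norm_num
      rw [eM]
      have e : (σ⁻¹ - 1) * (σ * ‖x‖ ^ 2) = ‖x‖ ^ 2 - σ * ‖x‖ ^ 2 := by field_simp
      linarith
  · have := congrArg (fun T => T x) (ind_PO (μ := 1) ho.measurableSet subset_rfl)
    simp only [mul_apply_eq_comp, xP] at this
    filter_upwards [sm_coe (Bs_ind ho.measurableSet) x] with z e hz
    rw [this] at e
    rw [e]; simp [hz]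

/-- a nonnegative very weak supersolution -/
structure Sup (Y : Set ℂ) (g : ℂ → ℝ) : Prop where
  mem : MemLp g 2 vol
  nonneg : ∀ z ∈ Y, 0 ≤ g z
  sup : ∀ φ, TR Y φ → (∀ z, 0 ≤ φ z) → ∫ z, g z * lap φ z ≤ 0

lemma Sup.spread {Y : Set ℂ} {g : ℂ → ℝ} (h : Sup Y g) {y : ℂ} {ρ s : ℝ} (hρ : 0 < ρ)
    (hs : closedBall y s ⊆ Y) (h0 : ∀ᵐ z, z ∈ ball y ρ → g z = 0) :
    ∀ᵐ z, z ∈ ball y s → g z = 0 := by
  set a := 2 * s ^ 2 + s ^ 4 / ρ ^ 2 + 1 with ha
  have a0 : 0 < a := by positivity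
  set u : ℂ → ℝ := fun z => (s ^ 2 - ‖z - y‖ ^ 2) / a with hu
  have su : ContDiff ℝ ∞ u := (contDiff_const.sub ((contDiff_norm_sq ℝ).comp
    (contDiff_id.sub contDiff_const))).div_const a
  have du := su.differentiable (by simp)
  have ru : ∀ z, r1 u z = -2 / a * (z - y).re ∧ r2 u z = -2 / a * (z - y).im := fun z => by
    have : HasFDerivAt u _ z :=
      (((hasFDerivAt_id z).sub_const y).norm_sq.const_sub (s ^ 2)).mul_const a⁻¹
    simp [r1, r2, this.fderiv, Complex.inner]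
    constructor <;> ring
  have E1 : ∀ x, HasDerivAt expNegInvGlue (x⁻¹ ^ 2 * expNegInvGlue x) x := fun x => by
    simpa using expNegInvGlue.hasDerivAt_polynomial_eval_inv_mul 1 x
  have E2 : ∀ x, HasDerivAt (fun x => x⁻¹ ^ 2 * expNegInvGlue x)
      ((x⁻¹ ^ 4 - 2 * x⁻¹ ^ 3) * expNegInvGlue x) x := fun x => by
    have := expNegInvGlue.hasDerivAt_polynomial_eval_inv_mul (Polynomial.X ^ 2) x
    simp only [Polynomial.eval_pow, Polynomial.eval_X] at this
    refine this.congr_deriv ?_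
    simp; left; ring
  have z0 : ∀ z, z ∉ ball y s → u z ≤ 0 ∨ s < 0 := fun z hz => by
    rcases lt_or_ge s 0 with h | h
    · exact Or.inr h
    · refine Or.inl (div_nonpos_of_nonpos_of_nonneg (sub_nonpos.2 ?_) a0.le)
      exact pow_le_pow_left₀ h (by simpa [dist_eq_norm] using hz) 2
  rcases lt_or_ge s 0 with s0 | s0
  · simp [ball_eq_empty.2 s0.le]
  replace z0 := fun z hz => expNegInvGlue.zero_of_nonpos ((z0 z hz).resolve_right s0.not_gt)
  have z1 : ∀ z ∉ closedBall y s, expNegInvGlue (u z) = 0 := fun z hz =>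
    z0 z fun h => hz (ball_subset_closedBall h)
  have tφ : TR Y fun z => expNegInvGlue (u z) := ⟨expNegInvGlue.contDiff.comp su,
    HasCompactSupport.intro (isCompact_closedBall y s) z1,
    (closure_minimal (s := Function.support _) (fun z hz => by_contra fun h => hz (z1 z h))
      isClosed_closedBall).trans hs⟩
  have el : ∀ z, lap (fun z => expNegInvGlue (u z)) z = 4 / a * (u z)⁻¹ ^ 2 * expNegInvGlue (u z) *
      (((u z)⁻¹ ^ 2 - 2 * (u z)⁻¹) * ‖z - y‖ ^ 2 / a - 1) := fun z => by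
    have d1 : DifferentiableAt ℝ (fun z => (u z)⁻¹ ^ 2 * expNegInvGlue (u z)) z :=
      (E2 (u z)).differentiableAt.comp z (du z)
    have l1 : HasFDerivAt (fun z : ℂ => -2 / a * (z - y).re) _ z :=
      (reCLM.hasFDerivAt.comp z ((hasFDerivAt_id z).sub_const y)).const_mul _
    have l2 : HasFDerivAt (fun z : ℂ => -2 / a * (z - y).im) _ z :=
      (imCLM.hasFDerivAt.comp z ((hasFDerivAt_id z).sub_const y)).const_mul _
    rw [lap, show r1 (fun z => expNegInvGlue (u z)) = _ from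
        funext fun z => (r_comp (du z) (E1 _)).1.trans (by rw [(ru z).1]),
      show r2 (fun z => expNegInvGlue (u z)) = _ from
        funext fun z => (r_comp (du z) (E1 _)).2.trans (by rw [(ru z).2]),
      (r_mul d1 l1.differentiableAt).1, (r_mul d1 l2.differentiableAt).2,
      (r_comp (du z) (E2 _)).1, (r_comp (du z) (E2 _)).2, (ru z).1, (ru z).2, r1, r2, l1.fderiv,
      l2.fderiv, ← normSq_eq_norm_sq, normSq_apply]
    simp
    ring
  have pos : ∀ z ∈ ball y s, z ∉ ball y ρ → 0 < lap (fun z => expNegInvGlue (u z)) z := by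
    intro z h1 h2
    rw [mem_ball_iff_norm] at h1 h2
    have t0 : 0 < s ^ 2 - ‖z - y‖ ^ 2 := sub_pos.2 (pow_lt_pow_left₀ h1 (norm_nonneg _) two_ne_zero)
    have u0 : 0 < u z := div_pos t0 a0
    have := expNegInvGlue.pos_of_pos u0
    rw [el]
    refine mul_pos (by positivity) (sub_pos.2 ?_)
    have r : ρ ^ 2 ≤ ‖z - y‖ ^ 2 := pow_le_pow_left₀ hρ.le (not_lt.1 h2) 2
    have t1 : s ^ 2 - ‖z - y‖ ^ 2 ≤ s ^ 2 := sub_le_self _ (sq_nonneg _)
    simp only [hu]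
    generalize s ^ 2 - ‖z - y‖ ^ 2 = t at t0 t1
    rw [show ((t / a)⁻¹ ^ 2 - 2 * (t / a)⁻¹) * ‖z - y‖ ^ 2 / a = (a - 2 * t) * ‖z - y‖ ^ 2 / t ^ 2 by
      field_simp, one_lt_div (by positivity)]
    calc t ^ 2 ≤ (s ^ 2) ^ 2 := by gcongr
      _ < (s ^ 4 / ρ ^ 2 + 1) * ρ ^ 2 := by field_simp; nlinarith
      _ ≤ _ := by
        have : 0 ≤ s ^ 4 / ρ ^ 2 := by positivity
        exact mul_le_mul (by linarith) r (sq_nonneg _) (by linarith)
  have n0 : 0 ≤ᵐ[vol] fun z => g z * lap (fun z => expNegInvGlue (u z)) z := by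
    filter_upwards [h0] with z hz
    by_cases h1 : z ∈ ball y ρ
    · simp [hz h1]
    by_cases h2 : z ∈ ball y s
    · exact mul_nonneg (h.nonneg z (hs (ball_subset_closedBall h2))) (pos z h2 h1).le
    · simp [el, z0 z h2]
  filter_upwards [h0, (integral_eq_zero_iff_of_nonneg_ae n0 (h.mem.integrable_mul tφ.lap.memLp)).1
    (le_antisymm (h.sup _ tφ fun z => expNegInvGlue.nonneg _) (integral_nonneg_of_ae n0))]
    with z e1 e2 h2
  by_cases h1 : z ∈ ball y ρ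
  · exact e1 h1
  · exact (mul_eq_zero.1 e2).resolve_right (pos z h2 h1).ne'

theorem Sup.prop {Y : Set ℂ} {g : ℂ → ℝ} (h : Sup Y g) (hY : IsOpen Y) {S : Set ℂ}
    (hS : IsPreconnected S) (hs : S ⊆ Y) {x : ℂ} (hx : x ∈ S)
    (h0 : ∃ ρ > 0, ∀ᵐ z, z ∈ ball x ρ → g z = 0) :
    ∀ y ∈ S, ∃ ρ > 0, ∀ᵐ z, z ∈ ball y ρ → g z = 0 := by
  have op : ∀ {y : ℂ} {ρ : ℝ}, (∀ᵐ z, z ∈ ball y ρ → g z = 0) → ∀ w ∈ ball y ρ,
      ∃ ρ > 0, ∀ᵐ z, z ∈ ball w ρ → g z = 0 := fun h1 w hw => by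
    obtain ⟨ε, e1, e2⟩ := Metric.isOpen_iff.1 isOpen_ball w hw
    exact ⟨ε, e1, h1.mono fun z h2 h3 => h2 (e2 h3)⟩
  refine hS.subset_of_closure_inter_subset (u := {y | ∃ ρ > 0, ∀ᵐ z, z ∈ ball y ρ → g z = 0})
    (Metric.isOpen_iff.2 fun y ⟨ρ, h1, h2⟩ => ⟨ρ, h1, op h2⟩) ⟨x, hx, h0⟩ ?_
  rintro y ⟨h1, h2⟩
  obtain ⟨ε, e1, e2⟩ := Metric.isOpen_iff.1 hY y (hs h2)
  obtain ⟨w, ⟨ρ, w1, w2⟩, w3⟩ := Metric.mem_closure_iff.1 h1 (ε / 3) (by positivity)
  exact op (h.spread (s := ε / 3) w1 ((closedBall_subset_ball' (by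
    rw [dist_comm]; linarith)).trans e2) w2) y w3

end Pool.Agent.Lib.MP_312682_mp
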