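import Mathlib

/-! Hilbert-Schmidt norms (with values in `ℝ≥0∞`). -/

open scoped InnerProductSpace ENNReal
open ContinuousLinearMap

noncomputable section

namespace Pool.Agent.Lib.MP_312682_mp

variable {A B C : Type*} [NormedAddCommGroup A] [InnerProductSpace ℂ A] [CompleteSpace A]
  [NormedAddCommGroup B] [InnerProductSpace ℂ B] [CompleteSpace B]
  [NormedAddCommGroup C] [InnerProductSpace ℂ C] [CompleteSpace C]

/-- squared norm in `ℝ≥0∞` -/
def nsq {E : Type*} [NormedAddCommGroup E] (x : E) : ℝ≥0∞ := ENNReal.ofReal (‖x‖ ^ 2)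

lemma nsq_zero {E : Type*} [NormedAddCommGroup E] : nsq (0 : E) = 0 := by simp [nsq]

lemma nsq_eq_zero {E : Type*} [NormedAddCommGroup E] {x : E} (h : nsq x = 0) : x = 0 := by
  have : ‖x‖ ^ 2 ≤ 0 := by simpa [nsq] using h
  have h2 : ‖x‖ ^ 2 = 0 := le_antisymm this (by positivity)
  simpa using h2

lemma nsq_ne_top {E : Type*} [NormedAddCommGroup E] (x : E) : nsq x ≠ ⊤ := ENNReal.ofReal_ne_top

lemma nsq_inner_symm (x y : A) : nsq ⟪x, y⟫_ℂ = nsq ⟪y, x⟫_ℂ := by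
  simp [nsq, norm_inner_symm x y]

variable (A) in
def hbS : Set A := (exists_hilbertBasis ℂ A).choose

variable (A) in
def hb : HilbertBasis (hbS A) ℂ A := (exists_hilbertBasis ℂ A).choose_spec.choose

/-- square of the Hilbert-Schmidt norm -/
def hs2 (T : A →L[ℂ] B) : ℝ≥0∞ := ∑' i, nsq (T (hb A i))

lemma hasSum_parseval {ι : Type*} (b : HilbertBasis ι ℂ A) (y : A) :
    HasSum (fun i => ‖⟪b i, y⟫_ℂ‖ ^ 2) (‖y‖ ^ 2) := by
  have h := (b.hasSum_inner_mul_inner y y).mapL Complex.reCLM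
  have h1 : Complex.reCLM ⟪y, y⟫_ℂ = ‖y‖ ^ 2 := by
    simp [inner_self_eq_norm_sq_to_K, ← Complex.ofReal_pow]
  rw [h1] at h
  refine h.congr_fun ?_
  intro i
  rw [← inner_conj_symm y (b i), Complex.reCLM_apply, Complex.conj_mul', ← Complex.ofReal_pow,
    Complex.ofReal_re]

lemma parseval {ι : Type*} (b : HilbertBasis ι ℂ A) (y : A) :
    nsq y = ∑' i, nsq ⟪b i, y⟫_ℂ := by
  have h := hasSum_parseval b y
  unfold nsq
  rw [← h.tsum_eq, ENNReal.ofReal_tsum_of_nonneg (fun i => by positivity) h.summable]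

/-- a family that is a Parseval frame for the range of `p` -/
def Pars {ι : Type*} (v : ι → A) (p : A →L[ℂ] A) : Prop :=
  ∀ y, nsq (p y) = ∑' i, nsq ⟪v i, y⟫_ℂ

lemma tsum_frame {ι : Type*} {v : ι → A} {p : A →L[ℂ] A} (h : Pars v p) (T : A →L[ℂ] B) :
    ∑' i, nsq (T (v i)) = hs2 (p ∘L adjoint T) := by
  simp_rw [parseval (hb B)]
  rw [ENNReal.tsum_comm]
  unfold hs2
  congr 1
  ext j
  rw [comp_apply, h]
  congr 1
  ext i
  rw [adjoint_inner_right, nsq_inner_symm]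

lemma pars_basis {ι : Type*} (b : HilbertBasis ι ℂ A) : Pars b (ContinuousLinearMap.id ℂ A) :=
  fun y => parseval b y

lemma hs2_adjoint (T : A →L[ℂ] B) : hs2 (adjoint T) = hs2 T := by
  have := tsum_frame (pars_basis (hb A)) T
  simpa [hs2] using this.symm

lemma hs2_basis {ι : Type*} (b : HilbertBasis ι ℂ A) (T : A →L[ℂ] B) :
    hs2 T = ∑' i, nsq (T (b i)) := by
  have := tsum_frame (pars_basis b) T
  rw [this, id_comp, hs2_adjoint]

lemma hs2_frame {ι : Type*} {v : ι → A} {p : A →L[ℂ] A} (h : Pars v p) (T : A →L[ℂ] B)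
    (hT : T ∘L adjoint p = T) : hs2 T = ∑' i, nsq (T (v i)) := by
  rw [tsum_frame h, ← hs2_adjoint (p ∘L adjoint T), adjoint_comp, adjoint_adjoint, hT]

lemma nsq_apply_le {E F : Type*} [NormedAddCommGroup E] [NormedAddCommGroup F] [NormedSpace ℂ E]
    [NormedSpace ℂ F] (X : E →L[ℂ] F) {m : ℝ} (hm : ‖X‖ ≤ m) (y : E) :
    nsq (X y) ≤ ENNReal.ofReal (m ^ 2) * nsq y := by
  unfold nsq
  rw [← ENNReal.ofReal_mul (by positivity), ← mul_pow]
  apply ENNReal.ofReal_le_ofReal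
  have : ‖X y‖ ≤ m * ‖y‖ := (X.le_opNorm y).trans (by gcongr)
  gcongr

lemma hs2_comp_left (X : B →L[ℂ] C) (T : A →L[ℂ] B) {m : ℝ} (hm : ‖X‖ ≤ m) :
    hs2 (X ∘L T) ≤ ENNReal.ofReal (m ^ 2) * hs2 T := by
  unfold hs2
  rw [← ENNReal.tsum_mul_left]
  exact ENNReal.tsum_le_tsum fun i => nsq_apply_le X hm _

lemma hs2_comp_right (T : B →L[ℂ] C) (X : A →L[ℂ] B) {m : ℝ} (hm : ‖X‖ ≤ m) :
    hs2 (T ∘L X) ≤ ENNReal.ofReal (m ^ 2) * hs2 T := by
  rw [← hs2_adjoint, adjoint_comp, ← hs2_adjoint T]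
  exact hs2_comp_left _ _ (by simpa using hm)

lemma norm_add_sq_le {E : Type*} [NormedAddCommGroup E] (x y : E) {η : ℝ} (hη : 0 < η) :
    ‖x + y‖ ^ 2 ≤ (1 + η) * ‖x‖ ^ 2 + (1 + η⁻¹) * ‖y‖ ^ 2 := by
  have h1 : ‖x + y‖ ^ 2 ≤ (‖x‖ + ‖y‖) ^ 2 := by
    have := norm_add_le x y
    gcongr
  have h2 : 2 * (‖x‖ * ‖y‖) ≤ η * ‖x‖ ^ 2 + η⁻¹ * ‖y‖ ^ 2 := by
    have : 0 ≤ η⁻¹ * (η * ‖x‖ - ‖y‖) ^ 2 := by positivity
    have h3 : η⁻¹ * (η * ‖x‖ - ‖y‖) ^ 2 = η * ‖x‖ ^ 2 + η⁻¹ * ‖y‖ ^ 2 - 2 * (‖x‖ * ‖y‖) := by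
      field_simp; ring
    linarith
  nlinarith

lemma hs2_add_le (S T : A →L[ℂ] B) {η : ℝ} (hη : 0 < η) :
    hs2 (S + T) ≤ ENNReal.ofReal (1 + η) * hs2 S + ENNReal.ofReal (1 + η⁻¹) * hs2 T := by
  unfold hs2
  rw [← ENNReal.tsum_mul_left, ← ENNReal.tsum_mul_left, ← ENNReal.tsum_add]
  refine ENNReal.tsum_le_tsum fun i => ?_
  unfold nsq
  rw [← ENNReal.ofReal_mul (by positivity), ← ENNReal.ofReal_mul (by positivity),
    ← ENNReal.ofReal_add (by positivity) (by positivity)]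
  exact ENNReal.ofReal_le_ofReal (norm_add_sq_le _ _ hη)

/-- the Hilbert-Schmidt norm is at most `c` -/
def HL (T : A →L[ℂ] B) (c : ℝ) : Prop := 0 ≤ c ∧ hs2 T ≤ ENNReal.ofReal (c ^ 2)

lemma HL.mono {T : A →L[ℂ] B} {c d : ℝ} (h : HL T c) (hcd : c ≤ d) : HL T d :=
  ⟨h.1.trans hcd, h.2.trans (ENNReal.ofReal_le_ofReal (by have := h.1; gcongr))⟩

lemma HL.ne_top {T : A →L[ℂ] B} {c : ℝ} (h : HL T c) : hs2 T ≠ ⊤ :=
  ne_top_of_le_ne_top ENNReal.ofReal_ne_top h.2

lemma HL.adj {T : A →L[ℂ] B} {c : ℝ} (h : HL T c) : HL (adjoint T) c :=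
  ⟨h.1, by rw [hs2_adjoint]; exact h.2⟩

lemma HL.left {T : A →L[ℂ] B} {c : ℝ} (h : HL T c) (X : B →L[ℂ] C) {m : ℝ} (hm : ‖X‖ ≤ m) :
    HL (X ∘L T) (m * c) := by
  have h0 : 0 ≤ m := (norm_nonneg _).trans hm
  refine ⟨mul_nonneg h0 h.1, (hs2_comp_left X T hm).trans ?_⟩
  rw [mul_pow, ENNReal.ofReal_mul (by positivity)]
  gcongr
  exact h.2

lemma HL.right {T : B →L[ℂ] C} {c : ℝ} (h : HL T c) (X : A →L[ℂ] B) {m : ℝ} (hm : ‖X‖ ≤ m) :
    HL (T ∘L X) (m * c) := by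
  have h0 : 0 ≤ m := (norm_nonneg _).trans hm
  refine ⟨mul_nonneg h0 h.1, (hs2_comp_right T X hm).trans ?_⟩
  rw [mul_pow, ENNReal.ofReal_mul (by positivity)]
  gcongr
  exact h.2

lemma hs2_congr_zero {S : A →L[ℂ] B} (h : hs2 S = 0) (T : A →L[ℂ] B) : hs2 (S + T) = hs2 T := by
  unfold hs2 at *
  rw [ENNReal.tsum_eq_zero] at h
  congr 1
  ext i
  rw [add_apply, nsq_eq_zero (h i), zero_add]

lemma HL.add {S T : A →L[ℂ] B} {a b : ℝ} (hS : HL S a) (hT : HL T b) : HL (S + T) (a + b) := by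
  refine ⟨add_nonneg hS.1 hT.1, ?_⟩
  rcases hS.1.eq_or_lt with ha | ha
  · subst ha
    have : hs2 S = 0 := by simpa using hS.2
    rw [hs2_congr_zero this, zero_add]; exact hT.2
  rcases hT.1.eq_or_lt with hb | hb
  · subst hb
    have : hs2 T = 0 := by simpa using hT.2
    rw [add_comm, hs2_congr_zero this, add_zero]; exact hS.2
  have hη : 0 < b / a := by positivity
  refine (hs2_add_le S T hη).trans ?_
  calc _ ≤ ENNReal.ofReal (1 + b / a) * ENNReal.ofReal (a ^ 2) +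
        ENNReal.ofReal (1 + (b / a)⁻¹) * ENNReal.ofReal (b ^ 2) := by
        gcongr
        exacts [hS.2, hT.2]
    _ = _ := by
        rw [← ENNReal.ofReal_mul (by positivity), ← ENNReal.ofReal_mul (by positivity),
          ← ENNReal.ofReal_add (by positivity) (by positivity)]
        congr 1
        field_simp
        ring

lemma hs2_neg (T : A →L[ℂ] B) : hs2 (-T) = hs2 T := by simp [hs2, nsq]

lemma HL.neg {T : A →L[ℂ] B} {c : ℝ} (h : HL T c) : HL (-T) c := ⟨h.1, by rw [hs2_neg]; exact h.2⟩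

lemma HL.sub {S T : A →L[ℂ] B} {a b : ℝ} (hS : HL S a) (hT : HL T b) : HL (S - T) (a + b) := by
  rw [sub_eq_add_neg]; exact hS.add hT.neg

/-- real valued square of the Hilbert-Schmidt norm -/
def hsq (T : A →L[ℂ] B) : ℝ := (hs2 T).toReal

lemma hsq_nonneg (T : A →L[ℂ] B) : 0 ≤ hsq T := ENNReal.toReal_nonneg

lemma HL.hsq_le {T : A →L[ℂ] B} {c : ℝ} (h : HL T c) : hsq T ≤ c ^ 2 :=
  ENNReal.toReal_le_of_le_ofReal (by positivity) h.2

lemma HL_sqrt {T : A →L[ℂ] B} (h : hs2 T ≠ ⊤) : HL T (Real.sqrt (hsq T)) :=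
  ⟨Real.sqrt_nonneg _, by rw [Real.sq_sqrt (hsq_nonneg T), hsq, ENNReal.ofReal_toReal h]⟩

lemma hsq_add_sub_le {S E : A →L[ℂ] B} {a e : ℝ} (hS : HL S a) (hE : HL E e) :
    |hsq (S + E) - hsq S| ≤ e * (2 * a + e) := by
  have h1 := HL_sqrt hS.ne_top
  have h2 := HL_sqrt (hS.add hE).ne_top
  have h3 := (h1.add hE).hsq_le
  have h4 := (h2.sub hE).hsq_le
  rw [add_sub_cancel_right] at h4
  have h5 : Real.sqrt (hsq S) ≤ a := Real.sqrt_le_iff.2 ⟨hS.1, hS.hsq_le⟩
  have h6 := Real.sq_sqrt (hsq_nonneg S)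
  have h7 := Real.sq_sqrt (hsq_nonneg (S + E))
  have h8 := Real.sqrt_nonneg (hsq S)
  have h9 := Real.sqrt_nonneg (hsq (S + E))
  have he := hE.1
  set x := Real.sqrt (hsq S)
  set y := Real.sqrt (hsq (S + E))
  have hxy : x ≤ y + e := by
    by_contra hc
    push Not at hc
    nlinarith
  rw [abs_le]
  constructor
  · rcases le_total x y with h | h
    · nlinarith
    · nlinarith
  · nlinarith

lemma norm_le_of_HL {T : A →L[ℂ] B} {c : ℝ} (h : HL T c) : ‖T‖ ≤ c := by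
  refine opNorm_le_bound _ h.1 fun y => ?_
  have h1 : nsq (T y) ≤ hs2 (adjoint T) * nsq y := by
    rw [parseval (hb B), hs2, ← ENNReal.tsum_mul_right]
    refine ENNReal.tsum_le_tsum fun i => ?_
    rw [← adjoint_inner_left]
    unfold nsq
    rw [← ENNReal.ofReal_mul (by positivity), ← mul_pow]
    apply ENNReal.ofReal_le_ofReal
    have := norm_inner_le_norm (𝕜 := ℂ) (adjoint T (hb B i)) y
    gcongr
  have h2 : nsq (T y) ≤ ENNReal.ofReal ((c * ‖y‖) ^ 2) := by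
    refine h1.trans ?_
    rw [mul_pow, ENNReal.ofReal_mul (by positivity)]
    unfold nsq
    gcongr
    exact h.adj.2
  unfold nsq at h2
  rw [ENNReal.ofReal_le_ofReal_iff (by positivity)] at h2
  exact (pow_le_pow_iff_left₀ (norm_nonneg _) (mul_nonneg h.1 (norm_nonneg _)) two_ne_zero).1 h2

lemma isCompact_of_hs2 {T : A →L[ℂ] B} (h : hs2 T ≠ ⊤) : IsCompactOperator T := by
  classical
  let P : Finset (hbS A) → A →L[ℂ] B := fun F =>
    ∑ i ∈ F, (toSpanSingleton ℂ (T (hb A i))) ∘L (innerSL ℂ (hb A i))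
  have hP : ∀ F, IsCompactOperator (P F) := by
    intro F
    induction F using Finset.induction_on with
    | empty => simpa [P] using isCompactOperator_zero
    | insert i F hi ih =>
      simp only [P, Finset.sum_insert hi]
      refine IsCompactOperator.add ?_ ih
      exact (isCompactOperator_of_locallyCompactSpace_rng
        (toSpanSingleton ℂ (T (hb A i)))).comp_clm (innerSL ℂ (hb A i))
  have hval : ∀ F j, (T - P F) (hb A j) = if j ∈ F then 0 else T (hb A j) := by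
    intro F j
    have ho := orthonormal_iff_ite.1 (hb A).orthonormal
    simp only [P, sub_apply, _root_.sum_apply, comp_apply, innerSL_apply_apply,
      toSpanSingleton_apply, ho, ite_smul, one_smul, zero_smul, Finset.sum_ite_eq']
    split_ifs <;> simp
  have hhs : ∀ F, hs2 (T - P F) = ∑' j : {j // j ∉ F}, nsq (T (hb A j)) := by
    intro F
    unfold hs2
    refine Eq.trans ?_ (tsum_subtype {j | j ∉ F} (fun j => nsq (T (hb A j)))).symm
    congr 1
    ext j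
    rw [hval]
    by_cases hj : j ∈ F <;> simp [hj, nsq_zero]
  have ht := ENNReal.tendsto_tsum_compl_atTop_zero (f := fun j => nsq (T (hb A j))) h
  refine isCompactOperator_of_tendsto (l := Filter.atTop) (F := P) ?_
    (Filter.Eventually.of_forall hP)
  rw [Metric.tendsto_nhds]
  intro ε hε
  have h2 : (0 : ℝ≥0∞) < ENNReal.ofReal ((ε / 2) ^ 2) := by
    rw [ENNReal.ofReal_pos]; positivity
  filter_upwards [ht.eventually (gt_mem_nhds h2)] with F hF
  rw [dist_comm, dist_eq_norm]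
  have : HL (T - P F) (ε / 2) := ⟨by positivity, by rw [hhs]; exact hF.le⟩
  linarith [norm_le_of_HL this]

/-- a Hilbert basis of eigenvectors -/
lemma exists_eigenbasis {G : A →L[ℂ] A} (hG : IsSelfAdjoint G) (h : hs2 G ≠ ⊤) :
    ∃ (w : Set A) (b : HilbertBasis w ℂ A) (s : w → ℝ), ∀ i, G (b i) = (s i : ℂ) • b i := by
  have hsym : (G : A →ₗ[ℂ] A).IsSymmetric := hG.isSymmetric
  have hbot := orthogonalComplement_iSup_eigenspaces_eq_bot (isCompact_of_hs2 h) hsym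
  let V : ℂ → Submodule ℂ A := fun μ => Module.End.eigenspace (G : Module.End ℂ A) μ
  have hcl : ∀ μ, IsClosed (V μ : Set A) := by
    intro μ
    have : (V μ : Set A) = {x | G x = μ • x} := by
      ext x; simp [V]
    rw [this]
    exact isClosed_eq G.continuous (by fun_prop)
  have : ∀ μ, CompleteSpace (V μ) := fun μ => (hcl μ).completeSpace_coe
  have hof := hsym.orthogonalFamily_eigenspaces
  let v : (Σ μ : ℂ, hbS (V μ)) → A := fun a => (hb (V a.1) a.2 : V a.1)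
  have hv : Orthonormal ℂ v :=
    hof.orthonormal_sigma_orthonormal (v_family := fun μ => hb (V μ))
      fun μ => (hb (V μ)).orthonormal
  have hsp : (Submodule.span ℂ (Set.range v))ᗮ = ⊥ := by
    rw [eq_bot_iff, ← hbot]
    intro y hy
    rw [← Submodule.iInf_orthogonal, Submodule.mem_iInf]
    intro μ
    rw [Submodule.mem_orthogonal]
    intro u hu
    have h1 := ((hb (V μ)).hasSum_repr ⟨u, hu⟩).mapL
      ((innerSL ℂ y) ∘L (V μ).subtypeL)
    have h2 : ∀ i, ⟪y, (hb (V μ) i : A)⟫_ℂ = 0 := by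
      intro i
      rw [Submodule.mem_orthogonal'] at hy
      exact hy _ (Submodule.subset_span ⟨⟨μ, i⟩, rfl⟩)
    simp only [comp_apply, Submodule.subtypeL_apply, innerSL_apply_apply, Submodule.coe_smul,
      inner_smul_right, h2, mul_zero] at h1
    rw [inner_eq_zero_symm]
    exact h1.unique hasSum_zero
  have hev : ∀ a, G (v a) = (a.1.re : ℂ) • v a := by
    intro a
    have h0 : v a ∈ Module.End.eigenspace (G : Module.End ℂ A) a.1 := (hb (V a.1) a.2).2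
    have h1 : G (v a) = a.1 • v a := Module.End.mem_eigenspace_iff.1 h0
    have h2 : v a ≠ 0 := hv.ne_zero a
    have h3 : (starRingEnd ℂ) a.1 = a.1 :=
      hsym.conj_eigenvalue_eq_self (Module.End.hasEigenvalue_of_hasEigenvector ⟨h0, h2⟩)
    rw [Complex.conj_eq_iff_re] at h3
    rw [h3, h1]
  have hv' : Orthonormal ℂ ((↑) : Set.range v → A) := hv.toSubtypeRange
  have hsp' : (Submodule.span ℂ (Set.range ((↑) : Set.range v → A)))ᗮ = ⊥ := by
    rw [Subtype.range_coe]; exact hsp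
  refine ⟨Set.range v, HilbertBasis.mkOfOrthogonalEqBot hv' hsp', fun i => i.2.choose.1.re,
    fun i => ?_⟩
  rw [HilbertBasis.coe_mkOfOrthogonalEqBot]
  have := hev i.2.choose
  rw [i.2.choose_spec] at this
  exact this

end Pool.Agent.Lib.MP_312682_mp
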