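import Pool.Agent.Lib.MP_312682_mp.Collar

/-! Localisation in a collar and in the interior. -/

open scoped InnerProductSpace ENNReal ContDiff ComplexConjugate Topology
open MeasureTheory Complex Set Filter ContinuousLinearMap

set_option linter.unusedSectionVars false

noncomputable section

namespace Pool.Agent.Lib.MP_312682_mp

lemma MO.mono {Ω : Set ℂ} {f : ℂ → ℝ} {B G G' : ℝ} (h : MO Ω f B G) (hG : G ≤ G') : MO Ω f B G' :=
  ⟨h.smooth, h.zero, h.bd, fun z hz => (h.grad z hz).trans hG⟩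

/-- decreasing step -/
def dstp (T a w x : ℝ) : ℝ := T * (1 - stp a w x)

lemma contDiff_dstp (T a w : ℝ) : ContDiff ℝ ∞ (dstp T a w) :=
  contDiff_const.mul (contDiff_const.sub (contDiff_stp _ _))
lemma dstp_bd {T : ℝ} (hT : 0 ≤ T) (a w x : ℝ) : 0 ≤ dstp T a w x ∧ dstp T a w x ≤ T :=
  ⟨mul_nonneg hT (sub_nonneg.2 (stp_le_one _ _ _)),
    mul_le_of_le_one_right hT (sub_le_self _ (stp_nonneg _ _ _))⟩
lemma dstp_one {T a w x : ℝ} (hw : 0 < w) (h : x ≤ a) : dstp T a w x = T := by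
  rw [dstp, stp_zero hw h, sub_zero, mul_one]
lemma dstp_zero {T a w x : ℝ} (hw : 0 < w) (h : a + w ≤ x) : dstp T a w x = 0 := by
  rw [dstp, stp_one hw h, sub_self, mul_zero]
lemma deriv_dstp {T : ℝ} (hT : 0 ≤ T) (a : ℝ) {w : ℝ} (hw : 0 < w) (x : ℝ) :
    |deriv (dstp T a w) x| ≤ T * (KT / w) := by
  have : HasDerivAt (dstp T a w) _ x := ((hd_stp a w x).const_sub 1).const_mul T
  rw [this.deriv, abs_mul, abs_neg, abs_of_nonneg hT]
  gcongr
  exact deriv_stp_le a hw x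

lemma push_meas_aux {γ : ℝ → ℂ} {δ0 : ℝ} {w : ℂ → ℝ} {z : ℂ} (h : push γ δ0 w z ≠ 0) :
    z ∈ Phi γ '' strip δ0 := by_contra fun h1 => h (indicator_of_notMem h1 _)

lemma Cv.mem_rect {γ : ℝ → ℂ} {L : ℝ} (h : Cv γ L) {p : ℂ} {δ : ℝ} (hp : p.im ∈ Ioc 0 δ) :
    Phi γ p ∈ Phi γ '' rect L δ := by
  refine ⟨p + (-toIocDiv h.pos 0 p.re : ℤ) * L, ⟨?_, by simpa using hp⟩, h.Phi_per' _ _⟩
  have := toIocMod_mem_Ioc h.pos 0 p.re
  rw [toIocMod] at this
  simpa [sub_eq_add_neg] using this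

namespace Col

variable {Ω : Set ℂ} {γ : ℝ → ℂ} {L δ0 : ℝ} (h : Col Ω γ L δ0)
include h

lemma push_ev {w : ℂ → ℝ} (hp : ∀ z, w (z + L) = w z) {p : ℂ} (h1 : p ∈ strip δ0) {a : ℝ}
    (hw : ∀ᶠ q in 𝓝 p, w q = a) : ∀ᶠ y in 𝓝 (Phi γ p), push γ δ0 w y = a := by
  obtain ⟨g, g1, g2, g3, -⟩ := h.local_inv (h.Jpos h1).ne'
  filter_upwards [g3, g1.continuousAt.eventually ((isOpen_strip δ0).mem_nhds (g2.symm ▸ h1)),
    g1.continuousAt.eventually (g2.symm ▸ hw)] with y e1 e2 e3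
  rw [← e3, ← h.push_Phi hp e2, e1]

lemma mo_dstp {T a w : ℝ} (hT : 0 ≤ T) (hw : 0 < w) (hb : a + w < δ0) :
    MO Ω (push γ δ0 fun z => dstp T a w z.im) T (2 * (T * (KT / w))) :=
  h.mo_push (contDiff_dstp _ _ _) (dstp_bd hT _ _) (deriv_dstp hT _ hw) hb fun _ hx => dstp_zero hw hx.le

lemma mo_chi {δ : ℝ} (hδ : 0 < δ) (hδ0 : δ < δ0) :
    ∃ G, MO Ω (push γ δ0 fun z => chi δ z.im) 1 G := by
  have := h.mo_dstp (T := 1) (a := δ / 4) (w := δ / 4) zero_le_one (by positivity) (by linarith)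
  simp only [dstp, one_mul] at this
  exact ⟨_, this⟩

lemma pull_mem {K δ μ : ℝ} (hκ : Kap L K (kap γ)) (hK : 100 * K ^ 3 * δ ≤ 1) (hδ0 : δ < δ0)
    (hμ : 0 < μ) {k : ℂ → ℂ} (hk : k ∈ testC Ω) {b : ℝ} (hb : b < δ)
    (h0 : ∀ p ∈ strip δ0, b < p.im → k (Phi γ p) = 0) :
    (h.ch hδ0).Θ (DL vol μ k) ∈ cl (NO L δ μ (kap γ) '' (DL (nu L δ) μ '' cylFns L δ)) := by
  obtain ⟨ε, hε, h1⟩ := hk.2.1.isCompact.exists_thickening_subset_open h.opn hk.2.2
  have h2 : ∀ p ∈ strip δ0, p.im < ε → k (Phi γ p) = 0 := by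
    intro p hp h3
    by_contra h4
    refine h.bdry p.re (h1 (Metric.mem_thickening_iff.2 ⟨_, subset_tsupport _ h4, ?_⟩))
    simpa [Phi, h.unit, abs_of_pos hp.1] using h3
  set v : ℂ → ℂ := (strip δ0).indicator fun z => (√(Jf (kap γ) z) : ℂ) * k (Phi γ z) with hv
  have ev : ∀ p ∈ strip δ0, v =ᶠ[𝓝 p] fun z => (√(Jf (kap γ) z) : ℂ) * k (Phi γ z) := by
    intro p hp
    filter_upwards [(isOpen_strip δ0).mem_nhds hp] with q hq
    exact indicator_of_mem hq _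
  have v0 : ∀ q : ℂ, q.im < ε ∨ b < q.im → v q = 0 := by
    intro q hq
    by_cases h3 : q ∈ strip δ0
    · rw [hv, indicator_of_mem h3, hq.elim (h2 q h3) (h0 q h3), mul_zero]
    · exact indicator_of_notMem h3 _
  have sv : ContDiff ℝ ∞ v := contDiff_iff_contDiffAt.2 fun p => by
    by_cases h3 : p ∈ strip δ0
    · exact ((h.ssq (h.Jpos h3)).mul (hk.1.comp h.sPhi).contDiffAt).congr_of_eventuallyEq (ev p h3)
    · refine (contDiffAt_const (c := (0 : ℂ))).congr_of_eventuallyEq ?_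
      have : IsOpen {q : ℂ | q.im < ε ∨ b < q.im} :=
        (isOpen_lt continuous_im continuous_const).union (isOpen_lt continuous_const continuous_im)
      filter_upwards [this.mem_nhds (show p.im < ε ∨ b < p.im by
        by_contra h4
        push Not at h4
        exact h3 ⟨by linarith [h4.1], by linarith [h4.2]⟩)] with q hq
      exact v0 q hq
  have mv : v ∈ cylFns L δ := by
    refine ⟨sv, fun z => ?_, min (ε / 2) ((δ - b) / 2), by
      have : 0 < δ - b := by linarith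
      positivity, fun z hz => v0 z ?_⟩
    · simp [hv, indicator, strip, Jf, h.per_kap, h.Phi_per]
    · rcases hz with hz | hz
      · left; linarith [min_le_left (ε / 2) ((δ - b) / 2)]
      · right; linarith [min_le_right (ε / 2) ((δ - b) / 2)]
  refine mem_cl ⟨_, ⟨v, mv, rfl⟩, ?_⟩
  ext1
  filter_upwards [(h.ch hδ0).Θ_tl ((core_test Ω).mem μ k hk), mm_coe (hκ.bdN hK hμ) (DL _ μ v),
    tl_coe (memLp_Dv_rect (L := L) (δ := δ) μ sv), ae_rect L δ] with z e1 e2 e3 hz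
  have hz' := rect_sub hδ0 hz
  rw [NO, e2, DL, e3, DL, e1, h.pull hμ (h.Jpos hz') (hk.1.differentiable (by simp) _) (ev z hz')]

lemma push_mem {K δ μ : ℝ} (hκ : Kap L K (kap γ)) (hK : 100 * K ^ 3 * δ ≤ 1) (hδ0 : δ < δ0)
    (hμ : 0 < μ) {v : ℂ → ℂ} (hv : v ∈ cylFns L δ) : ∃ g ∈ testC Ω,
      (h.ch hδ0).Θ (DL vol μ g) = NO L δ μ (kap γ) (DL (nu L δ) μ v) := by
  obtain ⟨sv, pv, ε, hε, v0⟩ := hv
  have hp : ∀ z, (√(Jf (kap γ) (z + L)) : ℂ)⁻¹ * v (z + L) = (√(Jf (kap γ) z) : ℂ)⁻¹ * v z :=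
    fun z => by simp [Jf, h.per_kap, pv]
  have ne : ∀ p ∈ strip δ0, (√(Jf (kap γ) p) : ℂ) ≠ 0 := fun p hp => by
    exact_mod_cast (Real.sqrt_pos.2 (h.Jpos hp)).ne'
  have hg := h.push_test (w := fun z => (√(Jf (kap γ) z) : ℂ)⁻¹ * v z) hp
    (fun p hp => ((h.ssq (h.Jpos hp)).inv (ne p hp)).mul sv.contDiffAt) hε
    (b := δ - ε) (by linarith) fun p _ h2 => by
      rw [v0 p (by
        by_contra h3
        push Not at h3
        exact h2 ⟨h3.1.le, h3.2.le⟩), mul_zero]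
  refine ⟨_, hg, ?_⟩
  ext1
  filter_upwards [(h.ch hδ0).Θ_tl ((core_test Ω).mem μ _ hg), mm_coe (hκ.bdN hK hμ) (DL _ μ v),
    tl_coe (memLp_Dv_rect (L := L) (δ := δ) μ sv), ae_rect L δ] with z e1 e2 e3 hz
  have hz' := rect_sub hδ0 hz
  rw [NO, e2, DL, e1, DL, e3]
  refine h.pull hμ (h.Jpos hz') (hg.1.differentiable (by simp) _) ?_
  filter_upwards [(isOpen_strip δ0).mem_nhds hz'] with q hq
  rw [h.push_Phi hp hq, mul_inv_cancel_left₀ (ne q hq)]

theorem loc {K δ μ c : ℝ} (hκ : Kap L K (kap γ)) (hK : 100 * K ^ 3 * δ ≤ 1) (hδ : 0 < δ)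
    (hδ0 : δ < δ0) (hμ : 32 * KT ≤ μ * δ) (hc : HL (GO μ Ω) c)
    (hc' : HL (p0 _ * QK L δ μ (kap γ) * p0 _) c) :
    |hsq (sm vol (cf (push γ δ0 fun z => chi δ z.im)) * GO μ Ω) -
      hsq (sm _ (fun z => chi δ z.im) * (p0 _ * QK L δ μ (kap γ) * p0 _))| ≤
      2 * ((3 + 8 * 1) * Real.exp (-(μ * δ / (128 * KT))) * c) *
        (2 * c + (3 + 8 * 1) * Real.exp (-(μ * δ / (128 * KT))) * c) := by
  have k1 := one_le_KT
  have hμ0 : 0 < μ := by
    by_contra hc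
    nlinarith
  have hw : 0 < δ / 16 := by positivity
  obtain ⟨G, mχ⟩ := h.mo_chi hδ hδ0
  have hf := (h.mo_dstp (T := 1) (a := 3 * δ / 4) zero_le_one hw (by linarith)).mono (G' := μ) (by
    rw [show 2 * (1 * (KT / (δ / 16))) = 32 * KT / δ by field_simp; norm_num, div_le_iff₀ hδ]
    exact hμ)
  have hρ := (h.mo_dstp (T := μ * δ / (128 * KT)) (a := δ / 2) (by positivity) hw
    (by linarith)).mono (G' := μ / 4) (le_of_eq (by field_simp; norm_num))
  have cχ := (contDiff_chi δ).continuous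
  refine transfer (h.ch hδ0) h.opn hμ0 hf hρ (χ' := fun z => chi δ z.im) (mχ.meas h.opn)
    (fun z => by rw [abs_of_nonneg (mχ.bd z).1]; exact (mχ.bd z).2)
    (Continuous.aestronglyMeasurable (by fun_prop)) (fun z => abs_chi _ _)
    (fun z hz => h.push_Phi (by simp) (rect_sub hδ0 hz)) (fun z hz => ?_) (fun z hz => ?_)
    (fun z hz h1 => ?_) (fun u hu => ?_) ?_ hc hc'
  · obtain ⟨p, hp, rfl⟩ := push_meas_aux hz
    rw [h.push_Phi (by simp) hp] at hz
    have : p.im < δ / 2 := not_le.1 fun h1 => hz (chi_zero hδ h1)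
    rw [h.push_Phi (by simp) hp, h.push_Phi (by simp) hp, dstp_one hw this.le,
      dstp_one hw (by linarith)]
    exact ⟨le_rfl, rfl⟩
  · obtain ⟨p, hp, rfl⟩ := push_meas_aux hz
    rw [h.push_Phi (by simp) hp] at hz
    have : p.im < δ / 2 + δ / 16 := not_le.1 fun h1 => hz (dstp_zero hw h1)
    refine h.push_ev (by simp) hp ?_
    filter_upwards [(isOpen_lt continuous_im continuous_const).mem_nhds this] with q hq
    exact dstp_one hw (by linarith)
  · refine h.push_zero' (a := 0) (b := 3 * δ / 4 + δ / 16) (fun p h2 h3 => dstp_zero hw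
      (not_le.1 fun h4 => h3 ⟨h2.1.le, h4⟩).le) ?_
    rintro ⟨p, hp, e⟩
    exact h1 (e ▸ h.mem_rect ⟨h.box_pos hz hp e, by linarith [hp.2.2]⟩)
  · refine h.pull_mem hκ hK hδ0 hμ0 (mul_mem_test' h.opn (hf.cs h.opn) hu)
      (b := 3 * δ / 4 + δ / 16) (by linarith) fun p hp h1 => ?_
    rw [cf, h.push_Phi (by simp) hp, dstp_zero hw h1.le]; simp
  · rintro _ ⟨_, ⟨v, hv, rfl⟩, rfl⟩
    obtain ⟨g, g1, g2⟩ := h.push_mem hκ hK hδ0 hμ0 hv
    exact ⟨g, g1.1, g1.2.1, g2, mul_mem_test' h.opn (hf.cs h.opn) g1⟩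

lemma int_chi {δ : ℝ} (hδ : 0 < δ) (hδ0 : δ < δ0) :
    ∫ z, push γ δ0 (fun z => chi δ z.im) z ^ 2 = L * mo δ (fun x => chi δ x ^ 2) 0 -
      mo δ (fun x => chi δ x ^ 2) 1 * ∫ s in (0 : ℝ)..L, kap γ s := by
  have cχ := (contDiff_chi δ).continuous
  have cκ := h.s_kap.continuous
  rw [← setIntegral_eq_integral_of_forall_compl_eq_zero (s := Phi γ '' rect L δ), (h.ch hδ0).int_eq,
    integral_congr_ae (g := fun z => (1 - kap γ z.re * z.im) * chi δ z.im ^ 2),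
    int_rect h.pos.le hδ.le (integrable_rect fun _ _ => Continuous.continuousAt (by fun_prop))]
  · simp only [add_re, ofReal_re, mul_re, I_re, mul_zero, ofReal_im, I_im, mul_one, sub_self,
      add_zero, add_im, mul_im, zero_add]
    have : ∀ s, ∫ x in (0 : ℝ)..δ, (1 - kap γ s * x) * chi δ x ^ 2 =
        mo δ (fun x => chi δ x ^ 2) 0 - mo δ (fun x => chi δ x ^ 2) 1 * kap γ s := fun s => by
      rw [mo, mo, ← intervalIntegral.integral_mul_const, ← intervalIntegral.integral_sub]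
      · congr 1; ext x; ring
      all_goals exact Continuous.intervalIntegrable (by fun_prop) _ _
    simp_rw [this]
    rw [intervalIntegral.integral_sub, intervalIntegral.integral_const_mul,
      intervalIntegral.integral_const]
    · simp
    all_goals exact Continuous.intervalIntegrable (by fun_prop) _ _
  · filter_upwards [ae_rect L δ] with z hz
    rw [h.push_Phi (by simp) (rect_sub hδ0 hz)]; rfl
  · intro z hz
    by_contra h1
    have h2 := (pow_ne_zero_iff two_ne_zero).1 h1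
    obtain ⟨p, hp, rfl⟩ := push_meas_aux h2
    rw [h.push_Phi (by simp) hp] at h2
    have : p.im < δ / 2 := not_le.1 fun h1 => h2 (chi_zero hδ h1)
    exact hz (h.mem_rect ⟨hp.1, by linarith⟩)

end Col

/-! the flat chart -/

lemma ch_flat (M : ℝ) (a : ℂ) : Ch M M (fun z => z - a) (fun _ => 1) (fun _ => 1) where
  dΦ := by fun_prop
  inj := fun p _ q _ e => sub_left_injective e
  det := fun z _ => by
    rw [fderiv_sub_const, fderiv_fun_id, ContinuousLinearMap.det]; simp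
  cJ := continuous_const
  bJ := fun _ _ => by norm_num
  cO := continuous_const
  uO := fun _ => by simp
  eO := fun _ => by simp

lemma Dv_shift (μ : ℝ) (u : ℂ → ℂ) (a z : ℂ) : Dv μ (fun z => u (z - a)) z = Dv μ u (z - a) := by
  simp [Dv, d1, d2, fderiv_comp_sub]

/-- `Ω` sits well inside the box of size `M` after translation by `a` -/
def InBox (Ω : Set ℂ) (M : ℝ) (a : ℂ) : Prop :=
  2 ≤ M ∧ ∀ z ∈ Ω, (z + a).re ∈ Icc 1 (M / 2) ∧ (z + a).im ∈ Icc 1 (M / 2)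

lemma exists_inBox {Ω : Set ℂ} (h : Bornology.IsBounded Ω) : ∃ M a, InBox Ω M a := by
  obtain ⟨R, hR, h1⟩ := h.exists_pos_norm_le
  refine ⟨4 * R + 2, (R + 1) + (R + 1) * I, by linarith, fun z hz => ?_⟩
  have a := abs_le.1 ((abs_re_le_norm z).trans (h1 z hz))
  have b := abs_le.1 ((abs_im_le_norm z).trans (h1 z hz))
  simp only [mem_Icc, add_re, add_im, ofReal_re, ofReal_im, one_re, one_im, mul_re, mul_im, I_re,
    I_im]
  refine ⟨⟨?_, ?_⟩, ?_, ?_⟩ <;> linarith [a.1, a.2, b.1, b.2]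

namespace InBox

variable {Ω : Set ℂ} {M : ℝ} {a : ℂ} (h : InBox Ω M a)
include h

lemma sub : Ω ⊆ (fun z => z - a) '' rect M M := fun z hz => by
  obtain ⟨h1, h2⟩ := h.2 z hz
  have := h.1
  exact ⟨z + a, ⟨⟨by linarith [h1.1], by linarith [h1.2]⟩, by linarith [h2.1], by linarith [h2.2]⟩,
    by simp⟩

lemma pull_mem (μ : ℝ) {k : ℂ → ℂ} (hk : k ∈ testC Ω) :
    (ch_flat M a).Θ (DL vol μ k) ∈ cl (DL (nu M M) μ '' cylFns M M) := by
  have hM := h.1
  have hM0 : 0 < M := by linarith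
  have k0 : ∀ z, z ∉ Ω → k z = 0 := fun z hz =>
    image_eq_zero_of_notMem_tsupport fun h1 => hz (hk.2.2 h1)
  set v : ℂ → ℂ := fun z => k (z - toIocDiv hM0 0 z.re * M - a) with hv
  have ev : ∀ (n : ℤ) (z : ℂ), z.re - n * M ∈ Ioo 0 (M + 1) → v z = k (z - n * M - a) := by
    intro n z hz
    rcases le_or_gt (z.re - n * M) M with h1 | h1
    · rw [hv]
      simp only
      rw [toIocDiv_eq_of_sub_zsmul_mem_Ioc hM0 (n := n) (by simpa using ⟨by linarith [hz.1], by linarith⟩)]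
    · rw [hv]
      simp only
      rw [toIocDiv_eq_of_sub_zsmul_mem_Ioc hM0 (n := n + 1) (by
        simp only [zsmul_eq_mul, zero_add, mem_Ioc]
        push_cast
        constructor <;> linarith [hz.2]), k0, k0]
      · intro h2
        have := (h.2 _ h2).1.2
        simp at this; linarith
      · intro h2
        have := (h.2 _ h2).1.1
        simp at this; linarith [hz.2]
  have ev' : ∀ (n : ℤ) (p : ℂ), p.re - n * M ∈ Ioc 0 M →
      v =ᶠ[𝓝 p] fun z => k (z - n * M - a) := by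
    intro n p hp
    have : IsOpen {z : ℂ | z.re - n * M ∈ Ioo 0 (M + 1)} := isOpen_Ioo.preimage (by fun_prop)
    filter_upwards [this.mem_nhds (show p.re - n * M ∈ Ioo 0 (M + 1) from
      ⟨hp.1, by linarith [hp.2]⟩)] with q hq
    exact ev n q hq
  have sv : ContDiff ℝ ∞ v := contDiff_iff_contDiffAt.2 fun p => by
    have := hk.1
    refine ContDiffAt.congr_of_eventuallyEq ?_ (ev' (toIocDiv hM0 0 p.re) p (by
      simpa using sub_toIocDiv_zsmul_mem_Ioc hM0 0 p.re))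
    exact ContDiff.contDiffAt (by fun_prop)
  refine mem_cl ⟨v, ⟨sv, fun z => ?_, 1 / 2, by norm_num, fun z hz => k0 _ fun h2 => ?_⟩, ?_⟩
  · simp only [hv, add_re, ofReal_re, toIocDiv_add_right]
    push_cast
    congr 1; ring
  · have := (h.2 _ h2).2
    simp at this
    rcases hz with hz | hz <;> linarith [this.1, this.2]
  · ext1
    filter_upwards [(ch_flat M a).Θ_tl ((core_test Ω).mem μ k hk),
      tl_coe (memLp_Dv_rect (L := M) (δ := M) μ sv), ae_rect M M] with z e1 e3 hz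
    rw [DL, e3, DL, e1, Dv_congr (ev' 0 z (by simpa using hz.1))]
    simp [Dv_shift, act_one]

omit h in
lemma push_mem (μ : ℝ) {v : ℂ → ℂ} (hv : ContDiff ℝ ∞ v) : ∃ g, ContDiff ℝ ∞ g ∧
    HasCompactSupport g ∧ (ch_flat M a).Θ (DL vol μ g) = DL (nu M M) μ v := by
  obtain ⟨R, hR, h1⟩ := ((compact_box M M).isBounded.subset (rect_subset M M)).exists_pos_norm_lt
  let η : ContDiffBump (0 : ℂ) := ⟨R, R + 1, hR, by linarith⟩
  have s1 : ContDiff ℝ ∞ fun z => (η z : ℂ) * v z := (s_ofReal.comp η.contDiff).mul hv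
  have s2 : ContDiff ℝ ∞ fun z => (η (z + a) : ℂ) * v (z + a) := s1.comp (by fun_prop)
  have c2 : HasCompactSupport fun z => (η (z + a) : ℂ) * v (z + a) := by
    refine HasCompactSupport.intro (isCompact_closedBall (-a) (R + 1)) fun z hz => ?_
    rw [η.zero_of_le_dist]
    · simp
    · simpa [dist_eq_norm] using (not_le.1 (mt Metric.mem_closedBall.2 hz)).le
  refine ⟨_, s2, c2, ?_⟩
  ext1
  filter_upwards [(ch_flat M a).Θ_tl (memLp_Dv_of_compact μ s2 c2),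
    tl_coe (memLp_Dv_rect (L := M) (δ := M) μ hv), ae_rect M M] with z e1 e3 hz
  rw [DL, e1, DL, e3, ← Dv_shift]
  simp only [Real.sqrt_one, ofReal_one, act_one, one_apply_eq_self, one_smul, sub_add_cancel]
  refine Dv_congr ?_
  filter_upwards [η.eventuallyEq_one_of_mem_ball (x := z) (by simpa using h1 z hz)] with q hq
  simp [hq]

end InBox

theorem HL_GO {Ω : Set ℂ} (h : Bornology.IsBounded Ω) :
    ∃ C, 0 ≤ C ∧ ∀ μ : ℝ, 1 ≤ μ → HL (GO μ Ω) (C * μ ^ 2) := by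
  obtain ⟨M, a, h1⟩ := exists_inBox h
  obtain ⟨C, hC, h2⟩ := flat_main (M := M) (by linarith [h1.1])
  exact ⟨C, hC, fun μ hμ => HL_transfer (ch_flat M a) h1.sub (fun u hu => h1.pull_mem μ hu)
    (h2 μ 0 hμ aestronglyMeasurable_const (by simp) (by simp)).1⟩

end Pool.Agent.Lib.MP_312682_mp
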