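import Pool.Agent.Lib.MP_312682_mp.Expand

/-! Multiplication by bounded matrix functions on `L²(ν; ℂ³)`. -/

open scoped InnerProductSpace ENNReal Matrix
open ContinuousLinearMap MeasureTheory

set_option linter.unusedSectionVars false

noncomputable section

namespace Pool.Agent.Lib.MP_312682_mp

abbrev E3 := EuclideanSpace ℂ (Fin 3)
abbrev Mat := Matrix (Fin 3) (Fin 3) ℂ

def act (M : Mat) : E3 →L[ℂ] E3 := Matrix.toEuclideanCLM (𝕜 := ℂ) M

lemma act_apply (M : Mat) (v : E3) (i : Fin 3) :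
    act M v i = M i 0 * v 0 + M i 1 * v 1 + M i 2 * v 2 := by
  have : (act M v).ofLp = M *ᵥ v.ofLp := rfl
  rw [this]
  simp [Matrix.mulVec, dotProduct, Fin.sum_univ_three]

lemma act_mul (M N : Mat) : act (M * N) = act M * act N := map_mul _ _ _
lemma act_add (M N : Mat) : act (M + N) = act M + act N := map_add _ _ _
lemma act_sub (M N : Mat) : act (M - N) = act M - act N := map_sub _ _ _
lemma act_one : act 1 = 1 := map_one _
lemma act_zero : act 0 = 0 := map_zero _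
lemma act_smul (c : ℂ) (M : Mat) : act (c • M) = c • act M := map_smul _ _ _
lemma act_star (M : Mat) : act (star M) = star (act M) := map_star _ _

lemma continuous_act : Continuous act :=
  ((Matrix.toEuclideanCLM (𝕜 := ℂ) (n := Fin 3)).toAlgEquiv.toLinearMap).continuous_of_finiteDimensional

lemma norm_sq_E3 (v : E3) : ‖v‖ ^ 2 = ‖v 0‖ ^ 2 + ‖v 1‖ ^ 2 + ‖v 2‖ ^ 2 := by
  rw [EuclideanSpace.norm_sq_eq, Fin.sum_univ_three]

lemma norm_act_le (M : Mat) : ‖act M‖ ≤ ∑ i, ∑ j, ‖M i j‖ := by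
  refine opNorm_le_bound _ (by positivity) fun v => ?_
  have h1 : ∀ j, ‖v j‖ ≤ ‖v‖ := fun j => PiLp.norm_apply_le v j
  have h2 : ∀ i, ‖act M v i‖ ≤ (∑ j, ‖M i j‖) * ‖v‖ := by
    intro i
    rw [act_apply, Fin.sum_univ_three, add_mul, add_mul]
    refine (norm_add₃_le).trans ?_
    simp only [norm_mul]
    gcongr <;> exact h1 _
  have h3 : ‖act M v‖ ≤ ‖act M v 0‖ + ‖act M v 1‖ + ‖act M v 2‖ := by
    refine (pow_le_pow_iff_left₀ (norm_nonneg _) (by positivity) two_ne_zero).1 ?_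
    rw [norm_sq_E3]
    have a := norm_nonneg (act M v 0)
    have b := norm_nonneg (act M v 1)
    have c := norm_nonneg (act M v 2)
    nlinarith [mul_nonneg a b, mul_nonneg a c, mul_nonneg b c]
  rw [Fin.sum_univ_three, add_mul, add_mul]
  linarith [h2 0, h2 1, h2 2]

lemma norm_act_diag {a b c : ℂ} {m : ℝ} (ha : ‖a‖ ≤ m) (hb : ‖b‖ ≤ m) (hc : ‖c‖ ≤ m) :
    ‖act !![a, 0, 0; 0, b, 0; 0, 0, c]‖ ≤ m := by
  have h0 : 0 ≤ m := (norm_nonneg _).trans ha
  refine opNorm_le_bound _ h0 fun v => ?_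
  refine (pow_le_pow_iff_left₀ (norm_nonneg _) (by positivity) two_ne_zero).1 ?_
  rw [norm_sq_E3, mul_pow, norm_sq_E3]
  simp only [act_apply, Matrix.of_apply, Matrix.cons_val', Matrix.cons_val_zero,
    Matrix.cons_val_one, Matrix.cons_val_two, Matrix.cons_val_fin_one, Matrix.head_cons,
    Matrix.tail_cons, zero_mul, add_zero, zero_add, norm_mul, mul_pow, Matrix.head_fin_const,
    Matrix.cons_val]
  have a2 : ‖a‖ ^ 2 ≤ m ^ 2 := by gcongr
  have b2 : ‖b‖ ^ 2 ≤ m ^ 2 := by gcongr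
  have c2 : ‖c‖ ^ 2 ≤ m ^ 2 := by gcongr
  nlinarith [sq_nonneg ‖v 0‖, sq_nonneg ‖v 1‖, sq_nonneg ‖v 2‖]

lemma norm_act_scalar (c : ℂ) : ‖act (c • (1 : Mat))‖ ≤ ‖c‖ := by
  rw [act_smul, act_one, norm_smul]
  exact mul_le_of_le_one_right (norm_nonneg _) norm_id_le

variable {α : Type*} [MeasurableSpace α] {ν : Measure α}

abbrev L2 (ν : Measure α) := Lp E3 2 ν

/-- bounded measurable matrix function -/
structure Bd (ν : Measure α) (M : α → Mat) : Prop where
  meas : AEStronglyMeasurable (fun z => act (M z)) ν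
  bdd : ∃ C, ∀ᵐ z ∂ν, ‖act (M z)‖ ≤ C

lemma Bd.memLp {M : α → Mat} (h : Bd ν M) (f : L2 ν) : MemLp (fun z => act (M z) (f z)) 2 ν := by
  obtain ⟨C, hC⟩ := h.bdd
  refine MemLp.of_le_mul (c := C) (Lp.memLp f) ?_ ?_
  · exact (isBoundedBilinearMap_apply (𝕜 := ℂ) (E := E3) (F := E3)).continuous.comp_aestronglyMeasurable
      (h.meas.prodMk (Lp.aestronglyMeasurable f))
  · filter_upwards [hC] with z hz
    exact ((act (M z)).le_opNorm _).trans (by gcongr)

lemma Bd.norm_toLp {M : α → Mat} (h : Bd ν M) {C : ℝ} (hC : ∀ᵐ z ∂ν, ‖act (M z)‖ ≤ C)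
    (f : L2 ν) : ‖(h.memLp f).toLp _‖ ≤ C * ‖f‖ := by
  refine Lp.norm_le_mul_norm_of_ae_le_mul ?_
  filter_upwards [hC, (h.memLp f).coeFn_toLp] with z hz h2
  rw [h2]
  exact ((act (M z)).le_opNorm _).trans (by gcongr)

def Bd.op {M : α → Mat} (h : Bd ν M) : L2 ν →L[ℂ] L2 ν :=
  LinearMap.mkContinuous
    { toFun := fun f => (h.memLp f).toLp _
      map_add' := fun f g => by
        rw [← MemLp.toLp_add]
        refine MemLp.toLp_congr _ _ ?_
        filter_upwards [Lp.coeFn_add f g] with z hz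
        rw [hz, Pi.add_apply, map_add, Pi.add_apply]
      map_smul' := fun c f => by
        rw [RingHom.id_apply, ← MemLp.toLp_const_smul]
        refine MemLp.toLp_congr _ _ ?_
        filter_upwards [Lp.coeFn_smul c f] with z hz
        simp [hz] }
    h.bdd.choose (h.norm_toLp h.bdd.choose_spec)

open Classical in
def mm (ν : Measure α) (M : α → Mat) : L2 ν →L[ℂ] L2 ν := if h : Bd ν M then h.op else 0

lemma mm_coe {M : α → Mat} (h : Bd ν M) (f : L2 ν) :
    mm ν M f =ᵐ[ν] fun z => act (M z) (f z) := by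
  rw [mm, dif_pos h]
  exact (h.memLp f).coeFn_toLp

lemma mm_norm_le {M : α → Mat} {C : ℝ} (h0 : 0 ≤ C) (hC : ∀ᵐ z ∂ν, ‖act (M z)‖ ≤ C) :
    ‖mm ν M‖ ≤ C := by
  by_cases h : Bd ν M
  · refine opNorm_le_bound _ h0 fun f => ?_
    rw [mm, dif_pos h]
    exact h.norm_toLp hC f
  · rw [mm, dif_neg h, norm_zero]; exact h0

lemma Bd.mul {M N : α → Mat} (hM : Bd ν M) (hN : Bd ν N) : Bd ν fun z => M z * N z := by
  obtain ⟨C, hC⟩ := hM.bdd
  obtain ⟨D, hD⟩ := hN.bdd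
  refine ⟨by simp only [act_mul]; exact hM.meas.mul hN.meas, C * D, ?_⟩
  filter_upwards [hC, hD] with z h1 h2
  rw [act_mul]; exact nmul h1 h2

lemma Bd.add {M N : α → Mat} (hM : Bd ν M) (hN : Bd ν N) : Bd ν fun z => M z + N z := by
  obtain ⟨C, hC⟩ := hM.bdd
  obtain ⟨D, hD⟩ := hN.bdd
  refine ⟨by simp only [act_add]; exact hM.meas.add hN.meas, C + D, ?_⟩
  filter_upwards [hC, hD] with z h1 h2
  rw [act_add]; exact nadd h1 h2

lemma Bd.sub {M N : α → Mat} (hM : Bd ν M) (hN : Bd ν N) : Bd ν fun z => M z - N z := by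
  obtain ⟨C, hC⟩ := hM.bdd
  obtain ⟨D, hD⟩ := hN.bdd
  refine ⟨by simp only [act_sub]; exact hM.meas.sub hN.meas, C + D, ?_⟩
  filter_upwards [hC, hD] with z h1 h2
  rw [act_sub]; exact nsub h1 h2

lemma Bd.const (M : Mat) : Bd ν fun _ => M :=
  ⟨aestronglyMeasurable_const, ‖act M‖, Filter.Eventually.of_forall fun _ => le_rfl⟩

lemma Bd.star {M : α → Mat} (hM : Bd ν M) : Bd ν fun z => star (M z) := by
  obtain ⟨C, hC⟩ := hM.bdd
  refine ⟨?_, C, ?_⟩
  · simp only [act_star, star_eq_adjoint]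
    exact (adjoint (𝕜 := ℂ) (E := E3) (F := E3)).continuous.comp_aestronglyMeasurable hM.meas
  · filter_upwards [hC] with z h1
    rw [act_star]; exact nstar h1

lemma Bd.congr {M N : α → Mat} (hM : Bd ν M) (h : M =ᵐ[ν] N) : Bd ν N := by
  obtain ⟨C, hC⟩ := hM.bdd
  refine ⟨hM.meas.congr ?_, C, ?_⟩
  · filter_upwards [h] with z hz; rw [hz]
  · filter_upwards [hC, h] with z h1 hz; rwa [← hz]

lemma Bd.of_entries {M : α → Mat} (h1 : ∀ i j, AEStronglyMeasurable (fun z => M z i j) ν)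
    (h2 : ∀ i j, ∃ C, ∀ᵐ z ∂ν, ‖M z i j‖ ≤ C) : Bd ν M := by
  choose C hC using h2
  refine ⟨?_, ∑ i, ∑ j, C i j, ?_⟩
  · have : (fun z => act (M z)) = fun z => ∑ i, ∑ j, M z i j • act (Matrix.single i j 1) := by
      ext1 z
      conv_lhs => rw [Matrix.matrix_eq_sum_single (M z)]
      simp only [act, map_sum, ← map_smul, Matrix.smul_single, smul_eq_mul, mul_one]
    rw [this]
    refine Finset.aestronglyMeasurable_fun_sum _ fun i _ =>
      Finset.aestronglyMeasurable_fun_sum _ fun j _ => (h1 i j).smul_const _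
  · have : ∀ᵐ z ∂ν, ∀ i j, ‖M z i j‖ ≤ C i j := by
      simp only [ae_all_iff]; exact hC
    filter_upwards [this] with z hz
    refine (norm_act_le _).trans ?_
    gcongr with i _ j _
    exact hz i j

lemma Bd.scalar {f : α → ℂ} (h1 : AEStronglyMeasurable f ν) {C : ℝ} (h2 : ∀ᵐ z ∂ν, ‖f z‖ ≤ C) :
    Bd ν fun z => f z • (1 : Mat) := by
  refine ⟨by simp only [act_smul]; exact h1.smul_const _, C, ?_⟩
  filter_upwards [h2] with z hz
  exact (norm_act_scalar _).trans hz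

lemma mm_congr {M N : α → Mat} (h : M =ᵐ[ν] N) : mm ν M = mm ν N := by
  by_cases hM : Bd ν M
  · ext1 f
    ext1
    filter_upwards [mm_coe hM f, mm_coe (hM.congr h) f, h] with z h1 h2 h3
    rw [h1, h2, h3]
  · have : ¬ Bd ν N := fun hN => hM (hN.congr h.symm)
    rw [mm, mm, dif_neg hM, dif_neg this]

lemma mm_mul {M N : α → Mat} (hM : Bd ν M) (hN : Bd ν N) :
    mm ν M * mm ν N = mm ν fun z => M z * N z := by
  ext1 f
  ext1
  filter_upwards [mm_coe hM (mm ν N f), mm_coe hN f, mm_coe (hM.mul hN) f] with z h1 h2 h3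
  rw [mul_apply_eq_comp, h1, h2, h3, act_mul, mul_apply_eq_comp]

lemma mm_add {M N : α → Mat} (hM : Bd ν M) (hN : Bd ν N) :
    mm ν M + mm ν N = mm ν fun z => M z + N z := by
  ext1 f
  ext1
  filter_upwards [mm_coe hM f, mm_coe hN f, mm_coe (hM.add hN) f,
    Lp.coeFn_add (mm ν M f) (mm ν N f)] with z h1 h2 h3 h4
  rw [add_apply, h4, Pi.add_apply, h1, h2, h3, act_add, add_apply]

lemma mm_sub {M N : α → Mat} (hM : Bd ν M) (hN : Bd ν N) :
    mm ν M - mm ν N = mm ν fun z => M z - N z := by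
  ext1 f
  ext1
  filter_upwards [mm_coe hM f, mm_coe hN f, mm_coe (hM.sub hN) f,
    Lp.coeFn_sub (mm ν M f) (mm ν N f)] with z h1 h2 h3 h4
  rw [sub_apply, h4, Pi.sub_apply, h1, h2, h3, act_sub, sub_apply]

lemma mm_one : mm ν (fun _ => 1) = 1 := by
  ext1 f
  ext1
  filter_upwards [mm_coe (Bd.const 1) f] with z h1
  rw [h1, act_one]; rfl

lemma mm_zero : mm ν (fun _ => 0) = 0 := by
  ext1 f
  ext1
  filter_upwards [mm_coe (Bd.const 0) f, Lp.coeFn_zero E3 2 ν] with z h1 h2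
  rw [h1, act_zero, zero_apply, zero_apply, h2]; rfl

lemma mm_star {M : α → Mat} (hM : Bd ν M) : star (mm ν M) = mm ν fun z => star (M z) := by
  rw [star_eq_adjoint]
  symm
  rw [eq_adjoint_iff]
  intro f g
  rw [L2.inner_def, L2.inner_def]
  refine integral_congr_ae ?_
  filter_upwards [mm_coe hM g, mm_coe hM.star f] with z h1 h2
  rw [h1, h2, act_star, star_eq_adjoint, adjoint_inner_left]

lemma mm_eq_of {M N : α → Mat} (h : ∀ z, M z = N z) : mm ν M = mm ν N := by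
  rw [show M = N from funext h]

/-- projection onto the first component -/
def e00 : Mat := !![1, 0, 0; 0, 0, 0; 0, 0, 0]

def p0 (ν : Measure α) : L2 ν →L[ℂ] L2 ν := mm ν fun _ => e00

lemma proj_p0 : Proj (p0 ν) := by
  constructor
  · rw [p0, mm_star (Bd.const _)]
    refine mm_eq_of fun _ => ?_
    ext i j; fin_cases i <;> fin_cases j <;> simp [e00]
  · rw [p0, mm_mul (Bd.const _) (Bd.const _)]
    refine mm_eq_of fun _ => ?_
    ext i j; fin_cases i <;> fin_cases j <;> simp [e00, Matrix.mul_apply, Fin.sum_univ_three]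

/-- scalar multiplication operator -/
def sm (ν : Measure α) (f : α → ℂ) : L2 ν →L[ℂ] L2 ν := mm ν fun z => f z • (1 : Mat)

/-- bounded measurable scalar function -/
def Bs (ν : Measure α) (f : α → ℂ) : Prop :=
  AEStronglyMeasurable f ν ∧ ∃ C, ∀ᵐ z ∂ν, ‖f z‖ ≤ C

lemma Bs.bd {f : α → ℂ} (h : Bs ν f) : Bd ν fun z => f z • (1 : Mat) :=
  Bd.scalar h.1 h.2.choose_spec

lemma Bs.mul {f g : α → ℂ} (hf : Bs ν f) (hg : Bs ν g) : Bs ν fun z => f z * g z := by
  obtain ⟨C, hC⟩ := hf.2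
  obtain ⟨D, hD⟩ := hg.2
  refine ⟨hf.1.mul hg.1, C * D, ?_⟩
  filter_upwards [hC, hD] with z h1 h2
  rw [norm_mul]
  exact mul_le_mul h1 h2 (norm_nonneg _) ((norm_nonneg _).trans h1)

lemma Bs.const (c : ℂ) : Bs ν fun _ => c :=
  ⟨aestronglyMeasurable_const, ‖c‖, Filter.Eventually.of_forall fun _ => le_rfl⟩

lemma sm_coe {f : α → ℂ} (h : Bs ν f) (w : L2 ν) : sm ν f w =ᵐ[ν] fun z => f z • w z := by
  filter_upwards [mm_coe h.bd w] with z hz
  rw [sm, hz, act_smul, act_one]; rfl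

lemma sm_norm_le {f : α → ℂ} {C : ℝ} (h0 : 0 ≤ C) (hC : ∀ᵐ z ∂ν, ‖f z‖ ≤ C) : ‖sm ν f‖ ≤ C := by
  refine mm_norm_le h0 ?_
  filter_upwards [hC] with z hz
  exact (norm_act_scalar _).trans hz

lemma sm_comm {f : α → ℂ} (h : Bs ν f) {M : α → Mat} (hM : Bd ν M) :
    mm ν M * sm ν f = sm ν f * mm ν M := by
  rw [sm, mm_mul hM h.bd, mm_mul h.bd hM]
  exact mm_eq_of fun z => by simp

lemma sm_mul {f g : α → ℂ} (hf : Bs ν f) (hg : Bs ν g) :
    sm ν f * sm ν g = sm ν fun z => f z * g z := by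
  rw [sm, sm, mm_mul hf.bd hg.bd]
  exact mm_eq_of fun z => by simp [smul_smul, mul_comm]

lemma sm_mul_mm {f : α → ℂ} (hf : Bs ν f) {M : α → Mat} (hM : Bd ν M) :
    sm ν f * mm ν M = mm ν fun z => f z • M z := by
  rw [sm, mm_mul hf.bd hM]
  exact mm_eq_of fun z => by simp

lemma sm_star {f : α → ℂ} (hf : Bs ν f) (hr : ∀ z, star (f z) = f z) : star (sm ν f) = sm ν f := by
  rw [sm, mm_star hf.bd]
  exact mm_eq_of fun z => by rw [star_smul, hr, star_one]

lemma sm_one : sm ν (fun _ => 1) = 1 := by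
  rw [sm, ← mm_one]; exact mm_eq_of fun _ => by simp

lemma one_sub_sm {f : α → ℂ} (hf : Bs ν f) : 1 - sm ν f = sm ν fun z => 1 - f z := by
  rw [← mm_one, sm, mm_sub (Bd.const _) hf.bd]
  exact mm_eq_of fun z => by simp [sub_smul]

lemma sm_congr {f g : α → ℂ} (h : f =ᵐ[ν] g) : sm ν f = sm ν g :=
  mm_congr (by filter_upwards [h] with z hz; rw [hz])

lemma norm_sq_L2 (w : L2 ν) : ‖w‖ ^ 2 = ∫ z, ‖w z‖ ^ 2 ∂ν := by
  rw [← inner_self_eq_norm_sq (𝕜 := ℂ), L2.inner_def, ← integral_re (L2.integrable_inner w w)]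
  simp only [inner_self_eq_norm_sq]

lemma integrable_sq_L2 (w : L2 ν) : Integrable (fun z => ‖w z‖ ^ 2) ν :=
  (Lp.memLp w).integrable_norm_pow two_ne_zero

end Pool.Agent.Lib.MP_312682_mp
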