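import Mathlib

/-! The Dirichlet problem for `-u'' + Λ² u = h` on an interval. -/

open MeasureTheory Set Real intervalIntegral
open scoped ContDiff

noncomputable section

namespace Pool.Agent.Lib.MP_312682_mp

variable {F : Type*} [NormedAddCommGroup F] [NormedSpace ℝ F] [CompleteSpace F]

def Sol (Λ δ : ℝ) (h : ℝ → F) (x : ℝ) : F :=
  (Λ * sinh (Λ * δ))⁻¹ • (sinh (Λ * (δ - x)) • (∫ y in (0 : ℝ)..x, sinh (Λ * y) • h y) -
    sinh (Λ * x) • ∫ y in δ..x, sinh (Λ * (δ - y)) • h y)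

def Sol' (Λ δ : ℝ) (h : ℝ → F) (x : ℝ) : F :=
  (Λ * sinh (Λ * δ))⁻¹ • (-(Λ * cosh (Λ * (δ - x))) • (∫ y in (0 : ℝ)..x, sinh (Λ * y) • h y) -
    (Λ * cosh (Λ * x)) • ∫ y in δ..x, sinh (Λ * (δ - y)) • h y)

lemma hd_prim {f : ℝ → F} (hf : Continuous f) (a x : ℝ) :
    HasDerivAt (fun x => ∫ y in a..x, f y) (f x) x :=
  (hf.integral_hasStrictDerivAt a x).hasDerivAt

lemma hd_lin (Λ x : ℝ) : HasDerivAt (fun x => Λ * x) Λ x := by
  simpa using (hasDerivAt_id x).const_mul Λ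

lemma hd_lin' (Λ δ x : ℝ) : HasDerivAt (fun x => Λ * (δ - x)) (-Λ) x := by
  simpa using ((hasDerivAt_id x).const_sub δ).const_mul Λ

variable {Λ δ : ℝ} {h : ℝ → F}

lemma hd_Sol (hh : Continuous h) (x : ℝ) : HasDerivAt (Sol Λ δ h) (Sol' Λ δ h x) x := by
  have h1 := hd_prim (f := fun y => sinh (Λ * y) • h y) (by fun_prop) 0 x
  have h2 := hd_prim (f := fun y => sinh (Λ * (δ - y)) • h y) (by fun_prop) δ x
  have := (((hd_lin' Λ δ x).sinh.smul h1).sub ((hd_lin Λ x).sinh.smul h2)).const_smul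
    (Λ * sinh (Λ * δ))⁻¹
  refine this.congr_deriv ?_
  unfold Sol'
  congr 1
  module

lemma hd_Sol' (hΛ : 0 < Λ) (hδ : 0 < δ) (hh : Continuous h) (x : ℝ) :
    HasDerivAt (Sol' Λ δ h) (Λ ^ 2 • Sol Λ δ h x - h x) x := by
  have h1 := hd_prim (f := fun y => sinh (Λ * y) • h y) (by fun_prop) 0 x
  have h2 := hd_prim (f := fun y => sinh (Λ * (δ - y)) • h y) (by fun_prop) δ x
  have := (((((hd_lin' Λ δ x).cosh).const_mul Λ).neg.smul h1).sub
    (((hd_lin Λ x).cosh.const_mul Λ).smul h2)).const_smul (Λ * sinh (Λ * δ))⁻¹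
  refine this.congr_deriv ?_
  have hs : sinh (Λ * δ) = sinh (Λ * x) * cosh (Λ * (δ - x)) +
      cosh (Λ * x) * sinh (Λ * (δ - x)) := by
    rw [← sinh_add]; congr 1; ring
  have hpos : 0 < sinh (Λ * δ) := sinh_pos_iff.2 (by positivity)
  have e : h x = (Λ * sinh (Λ * δ))⁻¹ • ((Λ * sinh (Λ * δ)) • h x) := by
    rw [smul_smul, inv_mul_cancel₀ (by positivity), one_smul]
  unfold Sol
  conv_rhs => rw [e, smul_comm, ← smul_sub]
  congr 1
  simp only [Pi.neg_apply]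
  rw [hs]
  module

lemma Sol_zero : Sol Λ δ h 0 = 0 := by simp [Sol]
lemma Sol_end : Sol Λ δ h δ = 0 := by simp [Sol]

lemma continuous_Sol (hh : Continuous h) : Continuous (Sol Λ δ h) :=
  continuous_iff_continuousAt.2 fun x => (hd_Sol hh x).continuousAt

lemma continuous_Sol' (hΛ : 0 < Λ) (hδ : 0 < δ) (hh : Continuous h) : Continuous (Sol' Λ δ h) :=
  continuous_iff_continuousAt.2 fun x => (hd_Sol' hΛ hδ hh x).continuousAt

lemma contDiff_prim {f : ℝ → F} (hf : ContDiff ℝ ∞ f) (a : ℝ) :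
    ContDiff ℝ ∞ fun x => ∫ y in a..x, f y := by
  rw [contDiff_infty_iff_deriv]
  refine ⟨fun x => (hd_prim hf.continuous a x).differentiableAt, ?_⟩
  have : deriv (fun x => ∫ y in a..x, f y) = f := funext fun x => (hd_prim hf.continuous a x).deriv
  rwa [this]

lemma contDiff_Sol (hh : ContDiff ℝ ∞ h) : ContDiff ℝ ∞ (Sol Λ δ h) := by
  have h1 := contDiff_prim (f := fun y => sinh (Λ * y) • h y) (by fun_prop) 0
  have h2 := contDiff_prim (f := fun y => sinh (Λ * (δ - y)) • h y) (by fun_prop) δ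
  unfold Sol
  fun_prop

/-- Green kernel -/
def Gk (Λ δ x y : ℝ) : ℝ :=
  (Λ * sinh (Λ * δ))⁻¹ * (sinh (Λ * min x y) * sinh (Λ * (δ - max x y)))

lemma continuous_Gk (Λ δ x : ℝ) : Continuous (Gk Λ δ x) := by unfold Gk; fun_prop

lemma Sol_eq (hh : Continuous h) {x : ℝ} (hx : x ∈ Icc 0 δ) :
    Sol Λ δ h x = ∫ y in (0 : ℝ)..δ, Gk Λ δ x y • h y := by
  have hc : Continuous fun y => Gk Λ δ x y • h y := (continuous_Gk Λ δ x).smul hh
  rw [← integral_add_adjacent_intervals (b := x) (hc.intervalIntegrable _ _)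
    (hc.intervalIntegrable _ _), Sol, integral_symm x δ, smul_neg, sub_neg_eq_add, smul_add,
    ← intervalIntegral.integral_smul, ← intervalIntegral.integral_smul,
    ← intervalIntegral.integral_smul, ← intervalIntegral.integral_smul]
  congr 1
  · refine integral_congr fun y hy => ?_
    rw [uIcc_of_le hx.1] at hy
    simp only [Gk, min_eq_right hy.2, max_eq_left hy.2, smul_smul]
    congr 1; ring
  · refine integral_congr fun y hy => ?_
    rw [uIcc_of_le hx.2] at hy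
    simp only [Gk, min_eq_left hy.1, max_eq_right hy.1, smul_smul]

lemma Gk_nonneg (hΛ : 0 < Λ) (hδ : 0 < δ) {x y : ℝ} (hx : x ∈ Icc 0 δ) (hy : y ∈ Icc 0 δ) :
    0 ≤ Gk Λ δ x y := by
  have hpos : 0 < sinh (Λ * δ) := sinh_pos_iff.2 (by positivity)
  have h1 : 0 ≤ sinh (Λ * min x y) := sinh_nonneg_iff.2 (mul_nonneg hΛ.le (le_min hx.1 hy.1))
  have h2 : 0 ≤ sinh (Λ * (δ - max x y)) :=
    sinh_nonneg_iff.2 (mul_nonneg hΛ.le (sub_nonneg.2 (max_le hx.2 hy.2)))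
  unfold Gk
  positivity

lemma Gk_le (hΛ : 0 < Λ) (hδ : 0 < δ) {x y : ℝ} (hx : x ∈ Icc 0 δ) (hy : y ∈ Icc 0 δ) :
    Gk Λ δ x y ≤ (2 * Λ)⁻¹ := by
  have hpos : 0 < sinh (Λ * δ) := sinh_pos_iff.2 (by positivity)
  set a := Λ * min x y
  set b := Λ * (δ - max x y)
  have ha : 0 ≤ a := mul_nonneg hΛ.le (le_min hx.1 hy.1)
  have hb : 0 ≤ b := mul_nonneg hΛ.le (sub_nonneg.2 (max_le hx.2 hy.2))
  have h1 : sinh (a + b) ≤ sinh (Λ * δ) := by
    rw [sinh_le_sinh]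
    have : min x y ≤ max x y := min_le_max
    have : Λ * min x y ≤ Λ * max x y := by gcongr
    simp only [a, b]; linarith
  have h2 : 2 * (sinh a * sinh b) ≤ sinh (a + b) := by
    rw [sinh_add]
    have := sinh_nonneg_iff.2 ha
    have := sinh_nonneg_iff.2 hb
    have := (sinh_lt_cosh a).le
    have := (sinh_lt_cosh b).le
    nlinarith
  unfold Gk
  rw [inv_mul_le_iff₀ (by positivity)]
  have : Λ * sinh (Λ * δ) * (2 * Λ)⁻¹ = sinh (Λ * δ) / 2 := by field_simp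
  rw [this]
  linarith

/-- uniqueness, with one exceptional point allowed -/
lemma ode_unique {Λ δ x : ℝ} {D D' : ℝ → ℝ} (hx : x ∈ Icc 0 δ) (hD : Continuous D)
    (hD' : Continuous D') (h1 : ∀ z ∈ Ioo 0 δ, z ≠ x → HasDerivAt D (D' z) z)
    (h2 : ∀ z ∈ Ioo 0 δ, z ≠ x → HasDerivAt D' (Λ ^ 2 * D z) z) (h0 : D 0 = 0) (hδ : D δ = 0) :
    ∀ z ∈ Icc 0 δ, D z = 0 := by
  have piece : ∀ a b, 0 ≤ a → b ≤ δ → x ∉ Ioo a b →
      MonotoneOn (fun z => D z * D' z) (Icc a b) := by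
    intro a b ha hb hx'
    have hh : ∀ z ∈ interior (Icc a b), HasDerivAt (fun z => D z * D' z)
        (D' z * D' z + D z * (Λ ^ 2 * D z)) z := by
      intro z hz
      rw [interior_Icc] at hz
      have hz' : z ∈ Ioo 0 δ := ⟨ha.trans_lt hz.1, hz.2.trans_le hb⟩
      have hne : z ≠ x := fun h => hx' (h ▸ hz)
      exact (h1 z hz' hne).mul (h2 z hz' hne)
    refine monotoneOn_of_deriv_nonneg (convex_Icc a b) (hD.mul hD').continuousOn
      (fun z hz => (hh z hz).differentiableAt.differentiableWithinAt) fun z hz => ?_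
    rw [(hh z hz).deriv]
    nlinarith [mul_self_nonneg (D' z), mul_self_nonneg (Λ * D z)]
  have m1 := piece 0 x le_rfl hx.2 (by simp)
  have m2 := piece x δ hx.1 le_rfl (by simp)
  have a1 := m1 (left_mem_Icc.2 hx.1) (right_mem_Icc.2 hx.1) hx.1
  have a2 := m2 (left_mem_Icc.2 hx.2) (right_mem_Icc.2 hx.2) hx.2
  simp only [h0, hδ, zero_mul] at a1 a2
  have w0 : ∀ z ∈ Icc 0 δ, D z * D' z = 0 := by
    intro z hz
    rcases le_total z x with h | h
    · have b1 := m1 (left_mem_Icc.2 hx.1) ⟨hz.1, h⟩ hz.1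
      have b2 := m1 ⟨hz.1, h⟩ (right_mem_Icc.2 hx.1) h
      simp only [h0, zero_mul] at b1 b2
      linarith
    · have b1 := m2 (left_mem_Icc.2 hx.2) ⟨h, hz.2⟩ h
      have b2 := m2 ⟨h, hz.2⟩ (right_mem_Icc.2 hx.2) hz.2
      simp only [hδ, zero_mul] at b1 b2
      linarith
  have piece2 : ∀ a b, 0 ≤ a → b ≤ δ → x ∉ Ioo a b →
      MonotoneOn (fun z => D z * D z) (Icc a b) ∧ AntitoneOn (fun z => D z * D z) (Icc a b) := by
    intro a b ha hb hx'
    have hh : ∀ z ∈ interior (Icc a b), HasDerivAt (fun z => D z * D z) 0 z := by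
      intro z hz
      rw [interior_Icc] at hz
      have hz' : z ∈ Ioo 0 δ := ⟨ha.trans_lt hz.1, hz.2.trans_le hb⟩
      have hne : z ≠ x := fun h => hx' (h ▸ hz)
      refine ((h1 z hz' hne).mul (h1 z hz' hne)).congr_deriv ?_
      have := w0 z (Ioo_subset_Icc_self hz')
      linarith
    exact ⟨monotoneOn_of_deriv_nonneg (convex_Icc a b) (hD.mul hD).continuousOn
      (fun z hz => (hh z hz).differentiableAt.differentiableWithinAt) fun z hz =>
        (hh z hz).deriv.ge,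
      antitoneOn_of_deriv_nonpos (convex_Icc a b) (hD.mul hD).continuousOn
      (fun z hz => (hh z hz).differentiableAt.differentiableWithinAt) fun z hz =>
        (hh z hz).deriv.le⟩
  intro z hz
  rw [← mul_self_eq_zero]
  refine le_antisymm ?_ (mul_self_nonneg _)
  rcases le_total z x with h | h
  · simpa [h0] using (piece2 0 x le_rfl hx.2 (by simp)).2 (left_mem_Icc.2 hx.1) ⟨hz.1, h⟩ hz.1
  · simpa [hδ] using (piece2 x δ hx.1 le_rfl (by simp)).1 ⟨h, hz.2⟩ (right_mem_Icc.2 hx.2) hz.2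

/-- comparison with an explicit solution vanishing at `0` -/
lemma Sol_approx {Λ δ x : ℝ} (hΛ : 0 < Λ) (hδ : 0 < δ) {f U U' : ℝ → ℝ} (hx : x ∈ Icc 0 δ)
    (hf : Continuous f) (hU : Continuous U) (hU' : Continuous U')
    (h1 : ∀ z ∈ Ioo 0 δ, z ≠ x → HasDerivAt U (U' z) z)
    (h2 : ∀ z ∈ Ioo 0 δ, z ≠ x → HasDerivAt U' (Λ ^ 2 * U z - f z) z) (h0 : U 0 = 0) :
    ∀ z ∈ Icc 0 δ, |Sol Λ δ f z - U z| ≤ |U δ| := by
  have hpos : 0 < sinh (Λ * δ) := sinh_pos_iff.2 (by positivity)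
  have := ode_unique (Λ := Λ) hx
    (D := fun z => Sol Λ δ f z - U z + U δ / sinh (Λ * δ) * sinh (Λ * z))
    (D' := fun z => Sol' Λ δ f z - U' z + U δ / sinh (Λ * δ) * (cosh (Λ * z) * Λ))
    (by have := continuous_Sol (Λ := Λ) (δ := δ) hf; fun_prop)
    (by have := continuous_Sol' hΛ hδ hf; fun_prop)
    (fun z hz hne => ((hd_Sol hf z).sub (h1 z hz hne)).add ((hd_lin Λ z).sinh.const_mul _))
    (fun z hz hne => by
      refine (((hd_Sol' hΛ hδ hf z).sub (h2 z hz hne)).add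
        (((hd_lin Λ z).cosh.mul_const Λ).const_mul _)).congr_deriv ?_
      simp only [smul_eq_mul]; ring)
    (by simp [Sol_zero, h0]) (by rw [Sol_end]; field_simp; ring)
  intro z hz
  have h3 := this z hz
  have h4 : Sol Λ δ f z - U z = -(U δ * (sinh (Λ * z) / sinh (Λ * δ))) := by
    have : U δ / sinh (Λ * δ) * sinh (Λ * z) = U δ * (sinh (Λ * z) / sinh (Λ * δ)) := by ring
    linarith
  have h5 : 0 ≤ sinh (Λ * z) := sinh_nonneg_iff.2 (mul_nonneg hΛ.le hz.1)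
  have h6 : sinh (Λ * z) ≤ sinh (Λ * δ) := sinh_le_sinh.2 (by have := hz.2; gcongr)
  rw [h4, abs_neg, abs_mul, abs_of_nonneg (div_nonneg h5 hpos.le)]
  exact mul_le_of_le_one_right (abs_nonneg _) ((div_le_one hpos).2 h6)

lemma integral_Gk_le (hΛ : 0 < Λ) (hδ : 0 < δ) {x : ℝ} (hx : x ∈ Icc 0 δ) :
    ∫ y in (0 : ℝ)..δ, Gk Λ δ x y ≤ (Λ ^ 2)⁻¹ := by
  have h1 := Sol_eq (Λ := Λ) (h := fun _ => (1 : ℝ)) continuous_const hx
  simp only [smul_eq_mul, mul_one] at h1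
  rw [← h1]
  have hpos : 0 < sinh (Λ * δ) := sinh_pos_iff.2 (by positivity)
  have := ode_unique (Λ := Λ) hx
    (D := fun z => Sol Λ δ (fun _ => (1 : ℝ)) z - (Λ ^ 2)⁻¹ +
      (Λ ^ 2 * sinh (Λ * δ))⁻¹ * (sinh (Λ * z) + sinh (Λ * (δ - z))))
    (D' := fun z => Sol' Λ δ (fun _ => (1 : ℝ)) z +
      (Λ ^ 2 * sinh (Λ * δ))⁻¹ * (cosh (Λ * z) * Λ + cosh (Λ * (δ - z)) * -Λ))
    (by have := continuous_Sol (Λ := Λ) (δ := δ) (h := fun _ => (1 : ℝ)) continuous_const; fun_prop)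
    (by have := continuous_Sol' (h := fun _ => (1 : ℝ)) hΛ hδ continuous_const; fun_prop)
    (fun z hz hne => ((hd_Sol continuous_const z).sub_const _).add
      (((hd_lin Λ z).sinh.add (hd_lin' Λ δ z).sinh).const_mul _))
    (fun z hz hne => by
      refine ((hd_Sol' hΛ hδ continuous_const z).add ((((hd_lin Λ z).cosh.mul_const Λ).add
        ((hd_lin' Λ δ z).cosh.mul_const (-Λ))).const_mul _)).congr_deriv ?_
      simp only [smul_eq_mul]; field_simp)
    (by simp [Sol_zero]; field_simp; ring) (by simp [Sol_end]; field_simp; ring) x hx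
  have h5 : 0 ≤ sinh (Λ * x) := sinh_nonneg_iff.2 (mul_nonneg hΛ.le hx.1)
  have h6 : 0 ≤ sinh (Λ * (δ - x)) := sinh_nonneg_iff.2 (mul_nonneg hΛ.le (sub_nonneg.2 hx.2))
  have : 0 ≤ (Λ ^ 2 * sinh (Λ * δ))⁻¹ * (sinh (Λ * x) + sinh (Λ * (δ - x))) := by positivity
  linarith

lemma norm_Sol_le (hΛ : 0 < Λ) (hδ : 0 < δ) (hh : Continuous h) {m : ℝ}
    (hm : ∀ y ∈ Icc 0 δ, ‖h y‖ ≤ m) {x : ℝ} (hx : x ∈ Icc 0 δ) : ‖Sol Λ δ h x‖ ≤ m / Λ ^ 2 := by
  have hm0 : 0 ≤ m := (norm_nonneg _).trans (hm x hx)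
  rw [Sol_eq hh hx]
  have h1 : ‖∫ y in (0 : ℝ)..δ, Gk Λ δ x y • h y‖ ≤ ∫ y in (0 : ℝ)..δ, m * Gk Λ δ x y := by
    refine norm_integral_le_of_norm_le hδ.le (Filter.Eventually.of_forall fun y hy => ?_)
      ((continuous_const.mul (continuous_Gk Λ δ x)).intervalIntegrable _ _)
    have hy' := Ioc_subset_Icc_self hy
    rw [norm_smul, norm_of_nonneg (Gk_nonneg hΛ hδ hx hy'), mul_comm]
    exact mul_le_mul_of_nonneg_right (hm y hy') (Gk_nonneg hΛ hδ hx hy')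
  rw [intervalIntegral.integral_const_mul] at h1
  refine h1.trans ?_
  rw [div_eq_mul_inv]
  exact mul_le_mul_of_nonneg_left (integral_Gk_le hΛ hδ hx) hm0

lemma Sol_symm (hΛ : 0 < Λ) (hδ : 0 < δ) {k : ℝ → ℝ} (hk : Continuous k) (hh : Continuous h) :
    ∫ y in (0 : ℝ)..δ, k y • Sol Λ δ h y = ∫ y in (0 : ℝ)..δ, Sol Λ δ k y • h y := by
  have c1 := continuous_Sol (Λ := Λ) (δ := δ) hk
  have c2 := continuous_Sol (Λ := Λ) (δ := δ) hh
  have h1 := integral_eq_sub_of_hasDerivAt (a := 0) (b := δ)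
    (f := fun y => Sol Λ δ k y • Sol' Λ δ h y - Sol' Λ δ k y • Sol Λ δ h y)
    (f' := fun y => k y • Sol Λ δ h y - Sol Λ δ k y • h y)
    (fun y _ => by
      refine (((hd_Sol hk y).smul (hd_Sol' hΛ hδ hh y)).sub
        ((hd_Sol' hΛ hδ hk y).smul (hd_Sol hh y))).congr_deriv ?_
      simp only [smul_eq_mul]
      module)
    (Continuous.intervalIntegrable (by fun_prop) _ _)
  rw [intervalIntegral.integral_sub (Continuous.intervalIntegrable (by fun_prop) _ _)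
    (Continuous.intervalIntegrable (by fun_prop) _ _)] at h1
  simp only [Sol_zero, Sol_end, zero_smul, smul_zero, sub_self] at h1
  exact sub_eq_zero.1 h1

lemma Sol_smul (c : ℝ) (x : ℝ) : Sol Λ δ (fun y => c • h y) x = c • Sol Λ δ h x := by
  unfold Sol
  simp_rw [smul_comm _ c, intervalIntegral.integral_smul]
  module

lemma Sol_sub {h' : ℝ → F} (hh : Continuous h) (hh' : Continuous h') (x : ℝ) :
    Sol Λ δ (fun y => h y - h' y) x = Sol Λ δ h x - Sol Λ δ h' x := by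
  unfold Sol
  simp_rw [smul_sub]
  rw [intervalIntegral.integral_sub (Continuous.intervalIntegrable (by fun_prop) _ _)
    (Continuous.intervalIntegrable (by fun_prop) _ _),
    intervalIntegral.integral_sub (Continuous.intervalIntegrable (by fun_prop) _ _)
    (Continuous.intervalIntegrable (by fun_prop) _ _)]
  module

lemma Gk_scale (hΛ : 0 < Λ) (x y : ℝ) : Gk Λ δ x y = Λ⁻¹ * Gk 1 (Λ * δ) (Λ * x) (Λ * y) := by
  unfold Gk
  rw [← mul_min_of_nonneg _ _ hΛ.le, ← mul_max_of_nonneg _ _ hΛ.le, ← mul_sub]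
  simp only [one_mul, mul_inv]
  ring

lemma Sol_scale (hΛ : 0 < Λ) (x : ℝ) :
    Sol Λ δ (fun y => h (Λ * y)) x = (Λ ^ 2)⁻¹ • Sol 1 (Λ * δ) h (Λ * x) := by
  unfold Sol
  have h1 := intervalIntegral.integral_comp_mul_left (a := 0) (b := x)
    (fun y => sinh y • h y) hΛ.ne'
  have h2 := intervalIntegral.integral_comp_mul_left (a := δ) (b := x)
    (fun y => sinh (Λ * δ - y) • h y) hΛ.ne'
  simp only [mul_sub, one_mul, mul_zero] at *
  rw [h1, h2, mul_inv, pow_two, mul_inv]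
  module

end Pool.Agent.Lib.MP_312682_mp
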