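import Pool.Agent.Lib.MP_312682_mp.Ground

/-! Polarization and strict monotonicity of the first eigenvalue of eccentric annuli. -/

open scoped ContDiff ComplexConjugate Topology InnerProductSpace
open MeasureTheory Complex Set Filter Metric

set_option linter.unusedSectionVars false

noncomputable section

namespace Pool.Agent.Lib.MP_312682_mp

lemma mp_iso (a : ℂ) (A : ℂ ≃ₗᵢ[ℝ] ℂ) : MeasurePreserving (fun z => a + A z) vol vol :=
  (measurePreserving_add_left vol a).comp A.measurePreserving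

lemma int_iso (a : ℂ) (A : ℂ ≃ₗᵢ[ℝ] ℂ) (F : ℂ → ℝ) : ∫ z, F (a + A z) = ∫ z, F z :=
  (A.measurePreserving.integral_comp A.toHomeomorph.measurableEmbedding fun z => F (a + z)).trans
    (integral_add_left_eq_self F a)

def rf (m : ℝ) (z : ℂ) : ℂ := 2 * m - conj z
def sg (m : ℝ) (z : ℂ) : ℝ := if z.re ≤ m then 1 else -1
def pol (m : ℝ) (U : ℂ → ℝ) (z : ℂ) : ℝ :=
  (U z + U (rf m z)) / 2 + sg m z * |U z - U (rf m z)| / 2

section refl

variable {m : ℝ}

@[simp] lemma rf_re (z : ℂ) : (rf m z).re = 2 * m - z.re := by simp [rf]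
@[simp] lemma rf_im (z : ℂ) : (rf m z).im = z.im := by simp [rf]
@[simp] lemma rf_rf (z : ℂ) : rf m (rf m z) = z := Complex.ext (by simp) (by simp)
lemma rf_self {z : ℂ} (h : z.re = m) : rf m z = z := Complex.ext (by simp [h]; ring) (by simp)
lemma rf_eq : rf m = fun z => (2 * m : ℂ) + (conjLIE.trans (LinearIsometryEquiv.neg ℝ)) z := by
  ext z; simp [rf, sub_eq_add_neg]
lemma mp_rf : MeasurePreserving (rf m) vol vol := rf_eq ▸ mp_iso _ _
lemma int_rf (F : ℂ → ℝ) : ∫ z, F (rf m z) = ∫ z, F z := by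
  rw [rf_eq]; exact int_iso _ _ F
lemma s_rf : ContDiff ℝ ∞ (rf m) := contDiff_const.sub conjCLE.contDiff
lemma rf_dist (z w : ℂ) : ‖rf m z - w‖ = ‖z - rf m w‖ := by
  rw [← norm_conj, ← norm_neg]; congr 1; exact Complex.ext (by simp; ring) (by simp; ring)

lemma gs_rf {f : ℂ → ℝ} (hf : Differentiable ℝ f) (z : ℂ) :
    gs (fun z => f (rf m z)) z = gs f (rf m z) := by
  have h1 : HasFDerivAt (rf m) _ z := (conjCLE.hasFDerivAt (x := z)).const_sub (2 * m : ℂ)
  have : HasFDerivAt (fun z => f (rf m z)) _ z := (hf _).hasFDerivAt.comp z h1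
  simp [gs, r1, r2, this.fderiv]

lemma TR.rf {Ω : Set ℂ} {f : ℂ → ℝ} (h : TR Ω f) : TR Set.univ fun z => f (rf m z) :=
  ⟨h.smooth.comp s_rf, HasCompactSupport.intro (h.cpt.isCompact.image (s_rf (m := m)).continuous)
    fun z hz => image_eq_zero_of_notMem_tsupport fun h1 => hz ⟨_, h1, rf_rf z⟩, subset_univ _⟩

lemma ER_rf {f : ℂ → ℝ} (hf : Differentiable ℝ f) : ER (fun z => f (rf m z)) = ER f := by
  simp only [ER, gs_rf hf]; exact int_rf (gs f)

lemma sg_sq (z : ℂ) : sg m z = 1 ∨ sg m z = -1 := by unfold sg; split_ifs <;> simp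

lemma sg_rf {z : ℂ} (h : z.re ≠ m) : sg m (rf m z) = -sg m z := by
  unfold sg
  rw [rf_re]
  split_ifs with h1 h2 h2
  · exact absurd (by linarith) h
  · simp
  · simp
  · exfalso; linarith [not_le.1 h1, not_le.1 h2]

lemma pol_sq (U : ℂ → ℝ) (z : ℂ) :
    pol m U z ^ 2 + pol m U (rf m z) ^ 2 = U z ^ 2 + U (rf m z) ^ 2 := by
  by_cases h : z.re = m
  · simp [pol, rf_self h]
  · simp only [pol, sg_rf h, rf_rf, abs_sub_comm (U (rf m z))]
    have := sq_abs (U z - U (rf m z))
    rcases sg_sq (m := m) z with h | h <;> rw [h] <;> linarith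

lemma pol_sub (f U : ℂ → ℝ) (z : ℂ) :
    (pol m f z - pol m U z) ^ 2 ≤ (f z - U z) ^ 2 + (f (rf m z) - U (rf m z)) ^ 2 := by
  unfold pol
  generalize f z = a, f (rf m z) = b, U z = c, U (rf m z) = d
  have := sq_le_sq.2 (abs_abs_sub_abs_le_abs_sub (a - b) (c - d))
  generalize |a - b| = x, |c - d| = y at this
  rcases sg_sq (m := m) z with h | h <;> rw [h]
  · nlinarith [sq_nonneg (a + b - c - d - (x - y))]
  · nlinarith [sq_nonneg (a + b - c - d + (x - y))]

lemma pol_mem {U : ℂ → ℝ} (h : MemLp U 2 vol) : MemLp (pol m U) 2 vol := by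
  have h1 : MemLp (fun z => U (rf m z)) 2 vol := h.comp_measurePreserving mp_rf
  have ms : Measurable (sg m) := Measurable.ite (measurableSet_le measurable_re measurable_const)
    measurable_const measurable_const
  refine (h.abs.add h1.abs).of_le (((h.1.add h1.1).mul_const _).add
    ((ms.aestronglyMeasurable.mul (h.sub h1).abs.1).mul_const _)) (ae_of_all _ fun z => ?_)
  simp only [pol, Pi.add_apply, Pi.abs_apply, Real.norm_eq_abs]
  refine le_trans ?_ (le_abs_self _)
  generalize U z = c, U (rf m z) = d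
  rw [abs_le]
  rcases sg_sq (m := m) z with h | h <;> rw [h] <;> rcases abs_cases (c - d) with h2 | h2 <;>
    rw [h2.1] <;> constructor <;>
    linarith [le_abs_self c, le_abs_self d, neg_abs_le c, neg_abs_le d, abs_nonneg c, abs_nonneg d]

lemma M2_pol {U : ℂ → ℝ} (h : MemLp U 2 vol) : M2 (pol m U) = M2 U := by
  have i1 := (pol_mem (m := m) h).integrable_sq
  have i2 := h.integrable_sq
  have := integral_add i1 ((mp_rf (m := m)).integrable_comp_of_integrable i1)
  simp only [Function.comp_apply, pol_sq] at this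
  erw [integral_add i2 ((mp_rf (m := m)).integrable_comp_of_integrable i2)] at this
  simp only [Function.comp_apply] at this
  rw [int_rf fun z => U z ^ 2, int_rf fun z => pol m U z ^ 2] at this
  unfold M2
  linarith

end refl

lemma exists_k {η : ℝ} (hη : 0 < η) : ∃ k : ℝ → ℝ, ContDiff ℝ ∞ k ∧
    (∀ t, ∃ c ∈ Icc (0 : ℝ) 1, HasDerivAt k c t) ∧ (∀ t ≤ η, k t = 0) ∧ (∀ t, 0 ≤ k t) ∧
    ∀ t, 0 ≤ t → t - 2 * η ≤ k t ∧ k t ≤ t := by
  have c := (contDiff_stp η η).continuous
  have z : ∀ t ≤ η, ∫ s in (0 : ℝ)..t, stp η η s = 0 := fun t ht => by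
    rw [intervalIntegral.integral_congr (g := fun _ => 0) fun s hs =>
      stp_zero hη (hs.2.trans (max_le hη.le ht))]
    simp
  have p : ∀ t, 0 ≤ ∫ s in (0 : ℝ)..t, stp η η s := fun t => by
    rcases le_total t 0 with h | h
    · exact (z t (h.trans hη.le)).ge
    · exact intervalIntegral.integral_nonneg h fun _ _ => stp_nonneg _ _ _
  refine ⟨_, contDiff_prim (contDiff_stp η η) 0, fun t => ⟨_, ⟨stp_nonneg _ _ _, stp_le_one _ _ _⟩,
    hd_prim c 0 t⟩, z, p, fun t ht => ⟨?_, ?_⟩⟩
  · rcases le_total t (2 * η) with h | h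
    · linarith [p t]
    · rw [← intervalIntegral.integral_add_adjacent_intervals (b := 2 * η) (c.intervalIntegrable _ _)
        (c.intervalIntegrable _ _), intervalIntegral.integral_congr (a := 2 * η) (g := fun _ => 1)
        fun s hs => stp_one hη (by rw [uIcc_of_le h] at hs; linarith [hs.1])]
      simpa using p (2 * η)
  · simpa using intervalIntegral.integral_mono_on (μ := volume) ht (c.intervalIntegrable _ _)
      (continuous_const.intervalIntegrable _ _) fun s _ => stp_le_one η η s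

theorem App.pol {Ω Ω' : Set ℂ} {l m : ℝ} {U : ℂ → ℝ} (h : App Ω l U)
    (h1 : ∀ z : ℂ, z.re ≤ m → z ∈ Ω ∨ rf m z ∈ Ω → z ∈ Ω') (h2 : ∀ z ∈ Ω, rf m z ∈ Ω → z ∈ Ω') :
    App Ω' l (pol m U) := by
  refine ⟨pol_mem h.mem, fun ε hε => ?_⟩
  obtain ⟨f, tf, f0, f1, f2⟩ := h.app (ε / 8) (by positivity)
  have cr := (s_rf (m := m)).continuous
  have tr := tf.rf (m := m)
  have cK : IsCompact (tsupport f ∪ rf m '' tsupport f) := tf.cpt.isCompact.union (tf.cpt.isCompact.image cr)
  have zK : ∀ z ∉ tsupport f ∪ rf m '' tsupport f, f z = 0 ∧ f (rf m z) = 0 := fun z hz =>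
    ⟨image_eq_zero_of_notMem_tsupport fun h => hz (Or.inl h),
      image_eq_zero_of_notMem_tsupport fun h => hz (Or.inr ⟨_, h, rf_rf z⟩)⟩
  obtain ⟨η, hη, b3⟩ := small_eta (vol.real (tsupport f ∪ rf m '' tsupport f)) (half_pos hε)
  obtain ⟨k, k1, k2, k3, k4, k5⟩ := exists_k hη
  set w : ℂ → ℝ := fun z => 1 * f z + -1 * f (rf m z) with hw
  have tw : TR Set.univ w := tf.univ.lin tr 1 (-1)
  set H : ℝ → ℝ := fun t => k t + k (-t) with hH
  have sH : ContDiff ℝ ∞ H := k1.add (k1.comp contDiff_neg)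
  have dH : ∀ t, ∃ c, c ^ 2 ≤ 1 ∧ HasDerivAt H c t := fun t => by
    obtain ⟨c, hc, dc⟩ := k2 t
    obtain ⟨c', hc', dc'⟩ := k2 (-t)
    exact ⟨c + c' * -1, by nlinarith [hc.1, hc.2, hc'.1, hc'.2],
      dc.add (dc'.comp t (hasDerivAt_neg t))⟩
  have aH : ∀ t, |t| - 2 * η ≤ H t ∧ H t ≤ |t| := fun t => by
    rcases le_total 0 t with h | h
    · simp only [hH, abs_of_nonneg h, k3 (-t) (by linarith), add_zero]; exact k5 t h
    · simp only [hH, abs_of_nonpos h, k3 t (by linarith), zero_add]; exact k5 _ (by linarith)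
  have loc : ∀ z : ℂ, ∃ c, (c = 1 ∨ c = -1) ∧
      (fun z => sg m z * H (w z)) =ᶠ[𝓝 z] fun z => c * H (w z) := fun z => by
    rcases lt_trichotomy z.re m with h | h | h
    · refine ⟨1, Or.inl rfl, ?_⟩
      filter_upwards [continuous_re.continuousAt.eventually (gt_mem_nhds h)] with y hy
      simp [sg, hy.le]
    · refine ⟨1, Or.inl rfl, ?_⟩
      filter_upwards [tw.smooth.continuous.abs.continuousAt.eventually
        (gt_mem_nhds (show |w z| < η by simpa [hw, rf_self h] using hη))] with y hy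
      simp [hH, k3 _ (abs_lt.1 hy).2.le, k3 (-w y) (by linarith [(abs_lt.1 hy).1])]
    · refine ⟨-1, Or.inr rfl, ?_⟩
      filter_upwards [continuous_re.continuousAt.eventually (lt_mem_nhds h)] with y hy
      simp [sg, hy.not_ge]
  set q : ℂ → ℝ := fun z => sg m z * H (w z) with hq
  have tq : TR Set.univ q := tw.of_zero (contDiff_iff_contDiffAt.2 fun z => by
    obtain ⟨c, -, hc⟩ := loc z
    exact (contDiff_const.mul (sH.comp tw.smooth)).contDiffAt.congr_of_eventuallyEq hc)
    fun z hz => by simp [hq, hz, hH, k3 0 hη.le]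
  set p : ℂ → ℝ := fun z => 1 * f z + 1 * f (rf m z) with hp
  have tp : TR Set.univ p := tf.univ.lin tr 1 1
  set G : ℂ → ℝ := fun z => 2⁻¹ * p z + 2⁻¹ * q z with hG
  have tG : TR Set.univ G := tp.lin tq _ _
  have eG : (fun z => G (rf m z)) = fun z => 2⁻¹ * p z + -2⁻¹ * q z := by
    ext z
    by_cases h : z.re = m
    · simp [hG, hq, hw, hH, rf_self h, k3 0 hη.le]
    · have : w (rf m z) = -w z := by simp [hw]
      simp only [hG, hq, sg_rf h, this, hH, neg_neg, hp, rf_rf]; ring
  have EG : ER G ≤ ER f := by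
    have : ∫ z, (gs G z + gs (fun z => G (rf m z)) z) ≤ ∫ z, (gs f z + gs (fun z => f (rf m z)) z) := by
      refine integral_mono (tG.int_gs.add tG.rf.int_gs) (tf.int_gs.add tr.int_gs) fun z => ?_
      obtain ⟨c, c1, hc⟩ := loc z
      obtain ⟨d, d1, hd⟩ := dH (w z)
      have e := r_congr hc
      rw [(r_comp (tw.diff z) (hd.const_mul c)).1, (r_comp (tw.diff z) (hd.const_mul c)).2] at e
      have cd : (c * d) ^ 2 ≤ 1 := by rcases c1 with rfl | rfl <;> simpa using d1
      have a1 : r1 G z = _ ∧ r2 G z = _ := r_lin (tp.diff z) (tq.diff z) _ _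
      have a2 : r1 p z = _ ∧ r2 p z = _ := r_lin (tf.diff z) (tr.diff z) _ _
      have a3 : r1 w z = _ ∧ r2 w z = _ := r_lin (tf.diff z) (tr.diff z) _ _
      rw [eG]
      simp only [gs, a1, r_lin (tp.diff z) (tq.diff z), e, a2, a3]
      generalize c * d = x at cd
      nlinarith [mul_le_mul_of_nonneg_right cd (sq_nonneg (r1 f z - r1 (fun z => f (rf m z)) z)),
        mul_le_mul_of_nonneg_right cd (sq_nonneg (r2 f z - r2 (fun z => f (rf m z)) z))]
    rw [integral_add tG.int_gs tG.rf.int_gs, integral_add tf.int_gs tr.int_gs] at this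
    change ER G + ER _ ≤ ER f + ER _ at this
    rw [ER_rf tG.diff, ER_rf tf.diff] at this
    linarith
  have aG : ∀ z, MP_312682_mp.pol m f z - η ≤ G z ∧ G z ≤ MP_312682_mp.pol m f z + η := fun z => by
    have := aH (w z)
    simp only [hG, hp, hq, MP_312682_mp.pol]
    rw [show f z - f (rf m z) = w z by simp [hw, sub_eq_add_neg]]
    rcases sg_sq (m := m) z with h | h <;> rw [h] <;> constructor <;> linarith [this.1, this.2]
  have p0 : ∀ z, 0 ≤ MP_312682_mp.pol m f z := fun z => by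
    unfold MP_312682_mp.pol
    rcases sg_sq (m := m) z with h | h <;> rw [h] <;> rcases abs_cases (f z - f (rf m z)) with h | h <;>
      linarith [h.1, f0 z, f0 (rf m z)]
  have t0 : TR Set.univ fun z => k (G z) := tG.of_zero (k1.comp tG.smooth) fun z hz => by
    rw [hz, k3 0 hη.le]
  have tg : TR Ω' fun z => k (G z) := by
    refine ⟨t0.smooth, t0.cpt, (closure_minimal (t := ({z | z.re ≤ m} ∩
      (tsupport f ∪ rf m ⁻¹' tsupport f)) ∪ (tsupport f ∩ rf m ⁻¹' tsupport f)) (fun z hz => ?_)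
      (((isClosed_le continuous_re continuous_const).inter ((isClosed_tsupport f).union
        ((isClosed_tsupport f).preimage cr))).union ((isClosed_tsupport f).inter
        ((isClosed_tsupport f).preimage cr)))).trans ?_⟩
    · have : 0 < MP_312682_mp.pol m f z := by
        by_contra h
        exact hz (k3 _ (by linarith [(aG z).2, not_lt.1 h]))
      unfold MP_312682_mp.pol sg at this
      split_ifs at this with h
      · refine Or.inl ⟨h, by_contra fun h' => ?_⟩
        rw [mem_union, not_or] at h'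
        simp [image_eq_zero_of_notMem_tsupport h'.1, image_eq_zero_of_notMem_tsupport h'.2] at this
      · refine Or.inr ⟨subset_tsupport f (ne_of_gt ?_), subset_tsupport f (ne_of_gt ?_)⟩
        · linarith [neg_abs_le (f z - f (rf m z))]
        · linarith [le_abs_self (f z - f (rf m z))]
    · rintro z (⟨a, b⟩ | ⟨a, b⟩)
      · exact h1 z a (b.imp (fun h => tf.supp h) fun h => tf.supp h)
      · exact h2 z (tf.supp a) (tf.supp b)
  have i1 := (tf.memLp.sub h.mem).integrable_sq
  have i2 := (mp_rf (m := m)).integrable_comp_of_integrable i1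
  have i3 := ((pol_mem (m := m) tf.memLp).sub (pol_mem (m := m) h.mem)).integrable_sq
  refine ⟨_, tg, fun z => k4 _, (M2_tri (g := MP_312682_mp.pol m f) (c := 3 * η) cK (fun z => ?_)
    (fun z hz => ?_) i3).trans ?_, ?_⟩
  · rw [abs_le]
    rcases le_total 0 (G z) with h | h
    · constructor <;> linarith [k5 _ h, aG z]
    · rw [k3 _ (h.trans hη.le)]; constructor <;> linarith [aG z, p0 z]
  · simp [MP_312682_mp.pol, hG, hp, hq, hw, hH, zK z hz, k3 0 hη.le]
  · have := integral_mono i3 (i1.add i2) fun z => pol_sub f U z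
    erw [integral_add i1 i2, int_rf fun z => (f z - U z) ^ 2] at this
    change M2 (fun z => MP_312682_mp.pol m f z - MP_312682_mp.pol m U z) ≤
      M2 (fun z => f z - U z) + M2 (fun z => f z - U z) at this
    linarith
  · have : ER (fun z => k (G z)) ≤ ER G := integral_mono tg.int_gs tG.int_gs fun z => by
      obtain ⟨c, hc, dc⟩ := k2 (G z)
      simp only [gs, r_comp (tG.diff z) dc]
      nlinarith [mul_le_mul_of_nonneg_right (pow_le_one₀ (n := 2) hc.1 hc.2)
        (add_nonneg (sq_nonneg (r1 G z)) (sq_nonneg (r2 G z)))]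
    rw [M2_pol h.mem]
    linarith

end Pool.Agent.Lib.MP_312682_mp
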