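import Pool.Agent.Lib.MP_312682_mp.Sob
import Pool.Agent.Lib.MP_312682_mp.Ode

/-! The rectangle `(0, L] × (0, δ]`: Fubini, Parseval and integration by parts. -/

open scoped InnerProductSpace ENNReal ContDiff ComplexConjugate
open MeasureTheory Complex Set

set_option linter.unusedSectionVars false

noncomputable section

namespace Pool.Agent.Lib.MP_312682_mp

def rect (L δ : ℝ) : Set ℂ := {z | z.re ∈ Ioc 0 L ∧ z.im ∈ Ioc 0 δ}

def nu (L δ : ℝ) : Measure ℂ := volume.restrict (rect L δ)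

def rho (L δ : ℝ) : Measure (ℝ × ℝ) :=
  (volume.restrict (Ioc 0 L)).prod (volume.restrict (Ioc 0 δ))

lemma measurableSet_rect (L δ : ℝ) : MeasurableSet (rect L δ) :=
  (measurable_re measurableSet_Ioc).inter (measurable_im measurableSet_Ioc)

lemma ae_rect (L δ : ℝ) : ∀ᵐ z ∂nu L δ, z ∈ rect L δ := ae_restrict_mem (measurableSet_rect L δ)

lemma rect_subset (L δ : ℝ) : rect L δ ⊆ Icc 0 L ×ℂ Icc 0 δ := fun _ hz =>
  ⟨Ioc_subset_Icc_self hz.1, Ioc_subset_Icc_self hz.2⟩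

lemma compact_box (L δ : ℝ) : IsCompact (Icc 0 L ×ℂ Icc 0 δ) := isCompact_Icc.reProdIm isCompact_Icc

instance (L δ : ℝ) : IsFiniteMeasure (nu L δ) :=
  isFiniteMeasure_restrict.2
    ((measure_mono (rect_subset L δ)).trans_lt (compact_box L δ).measure_lt_top).ne

instance (L δ : ℝ) : IsFiniteMeasure (rho L δ) := by unfold rho; infer_instance

lemma mp_rect (L δ : ℝ) : MeasurePreserving measurableEquivRealProd.symm (rho L δ) (nu L δ) := by
  have h := (volume_preserving_equiv_real_prod.symm _).restrict_preimage (measurableSet_rect L δ)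
  have e : measurableEquivRealProd.symm ⁻¹' rect L δ = Ioc 0 L ×ˢ Ioc 0 δ := rfl
  rw [e] at h
  rw [rho, Measure.prod_restrict]
  exact h

variable {L δ : ℝ}

section cont

variable {E : Type*} [NormedAddCommGroup E]

lemma bound_rect {f : ℂ → E} (hf : ∀ z, z.im ∈ Icc 0 δ → ContinuousAt f z) :
    ∃ C, ∀ᵐ z ∂nu L δ, ‖f z‖ ≤ C := by
  obtain ⟨C, hC⟩ := (compact_box L δ).exists_bound_of_continuousOn (f := f)
    fun z hz => (hf z hz.2).continuousWithinAt
  exact ⟨C, by filter_upwards [ae_rect L δ] with z hz using hC z (rect_subset L δ hz)⟩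

lemma meas_rect {f : ℂ → E} (hf : ∀ z, z.im ∈ Icc 0 δ → ContinuousAt f z) :
    AEStronglyMeasurable f (nu L δ) :=
  ContinuousOn.aestronglyMeasurable
    (fun z hz => (hf z (Ioc_subset_Icc_self hz.2)).continuousWithinAt) (measurableSet_rect L δ)

lemma memLp_rect {f : ℂ → E} (hf : ∀ z, z.im ∈ Icc 0 δ → ContinuousAt f z) (p : ℝ≥0∞) :
    MemLp f p (nu L δ) := by
  obtain ⟨C, hC⟩ := bound_rect (L := L) hf
  exact MemLp.of_bound (meas_rect hf) C hC

lemma integrable_rect {f : ℂ → E} (hf : ∀ z, z.im ∈ Icc 0 δ → ContinuousAt f z) :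
    Integrable f (nu L δ) := memLp_one_iff_integrable.1 (memLp_rect hf 1)

end cont

lemma Bs_rect {f : ℂ → ℂ} (hf : ∀ z, z.im ∈ Icc 0 δ → ContinuousAt f z) : Bs (nu L δ) f :=
  ⟨meas_rect hf, bound_rect hf⟩

lemma Bd_rect {M : ℂ → Mat} (hf : ∀ z, z.im ∈ Icc 0 δ → ContinuousAt M z) : Bd (nu L δ) M :=
  ⟨meas_rect fun z hz => continuous_act.continuousAt.comp (hf z hz),
    bound_rect fun z hz => continuous_act.continuousAt.comp (hf z hz)⟩

section fubini

variable {E : Type*} [NormedAddCommGroup E] [NormedSpace ℝ E]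

lemma symm_apply_eq (p : ℝ × ℝ) : measurableEquivRealProd.symm p = (p.1 : ℂ) + p.2 * I := by
  apply Complex.ext <;> simp

lemma int_rect (hL : 0 ≤ L) (hδ : 0 ≤ δ) {f : ℂ → E} (hf : Integrable f (nu L δ)) :
    ∫ z, f z ∂nu L δ = ∫ s in (0 : ℝ)..L, ∫ x in (0 : ℝ)..δ, f (s + x * I) := by
  rw [← (mp_rect L δ).integral_comp' f, rho, integral_prod (fun p => f (measurableEquivRealProd.symm p))
    (((mp_rect L δ).integrable_comp_emb (MeasurableEquiv.measurableEmbedding _)).2 hf)]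
  simp only [intervalIntegral.integral_of_le hL, intervalIntegral.integral_of_le hδ, symm_apply_eq]

lemma int_rect' (hL : 0 ≤ L) (hδ : 0 ≤ δ) {f : ℂ → E} (hf : Integrable f (nu L δ)) :
    ∫ z, f z ∂nu L δ = ∫ x in (0 : ℝ)..δ, ∫ s in (0 : ℝ)..L, f (s + x * I) := by
  rw [← (mp_rect L δ).integral_comp' f, rho,
    integral_prod_symm (fun p => f (measurableEquivRealProd.symm p)) (((mp_rect L δ).integrable_comp_emb (MeasurableEquiv.measurableEmbedding _)).2 hf)]
  simp only [intervalIntegral.integral_of_le hL, intervalIntegral.integral_of_le hδ, symm_apply_eq]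

end fubini

lemma nu_univ (hL : 0 ≤ L) (hδ : 0 ≤ δ) : (nu L δ).real univ = L * δ := by
  have := int_rect hL hδ (f := fun _ => (1 : ℝ)) (integrable_const _)
  simpa using this

lemma hd_line1 {F : ℂ → ℂ} {s x : ℝ} (h : DifferentiableAt ℝ F (s + x * I)) :
    HasDerivAt (fun s : ℝ => F (s + x * I)) (d1 F (s + x * I)) s := by
  have h1 : HasDerivAt (fun s : ℝ => (s : ℂ) + x * I) 1 s :=
    (ofRealCLM.hasDerivAt (x := s)).add_const _
  exact h.hasFDerivAt.comp_hasDerivAt s h1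

lemma hd_line2 {F : ℂ → ℂ} {s x : ℝ} (h : DifferentiableAt ℝ F (s + x * I)) :
    HasDerivAt (fun x : ℝ => F (s + x * I)) (d2 F (s + x * I)) x := by
  have h1 : HasDerivAt (fun x : ℝ => (s : ℂ) + x * I) I x := by
    simpa using ((ofRealCLM.hasDerivAt (x := x)).mul_const I).const_add (s : ℂ)
  exact h.hasFDerivAt.comp_hasDerivAt x h1

lemma contAt_d1 {F : ℂ → ℂ} {z : ℂ} (h : ContDiffAt ℝ 1 F z) : ContinuousAt (d1 F) z :=
  (h.continuousAt_fderiv one_ne_zero).clm_apply continuousAt_const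

lemma contAt_d2 {F : ℂ → ℂ} {z : ℂ} (h : ContDiffAt ℝ 1 F z) : ContinuousAt (d2 F) z :=
  (h.continuousAt_fderiv one_ne_zero).clm_apply continuousAt_const

lemma ibp1 (hL : 0 ≤ L) (hδ : 0 ≤ δ) {F : ℂ → ℂ} (hF : ∀ z, z.im ∈ Icc 0 δ → ContDiffAt ℝ 1 F z)
    (hp : ∀ z, F (z + L) = F z) : ∫ z, d1 F z ∂nu L δ = 0 := by
  rw [int_rect' hL hδ (integrable_rect fun z hz => contAt_d1 (hF z hz))]
  refine (intervalIntegral.integral_congr (g := fun _ => 0) fun x hx => ?_).trans (by simp)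
  rw [uIcc_of_le hδ] at hx
  have h1 : ∀ s : ℝ, ContDiffAt ℝ 1 F (s + x * I) := fun s => hF _ (by simpa using hx)
  have := intervalIntegral.integral_eq_sub_of_hasDerivAt (a := 0) (b := L)
    (fun s _ => hd_line1 ((h1 s).differentiableAt one_ne_zero))
    (Continuous.intervalIntegrable (continuous_iff_continuousAt.2 fun s =>
      ContinuousAt.comp (f := fun s : ℝ => (s : ℂ) + x * I) (contAt_d1 (h1 s)) (by fun_prop)) _ _)
  simp only [this, ofReal_zero, zero_add]
  rw [add_comm, hp, sub_self]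

lemma ibp2 (hL : 0 ≤ L) (hδ : 0 ≤ δ) {F : ℂ → ℂ} (hF : ∀ z, z.im ∈ Icc 0 δ → ContDiffAt ℝ 1 F z)
    (h0 : ∀ z, z.im = 0 ∨ z.im = δ → F z = 0) : ∫ z, d2 F z ∂nu L δ = 0 := by
  rw [int_rect hL hδ (integrable_rect fun z hz => contAt_d2 (hF z hz))]
  refine (intervalIntegral.integral_congr (g := fun _ => 0) fun s _ => ?_).trans (by simp)
  have h1 : ∀ x ∈ uIcc 0 δ, ContDiffAt ℝ 1 F (s + x * I) := fun x hx =>
    hF _ (by simpa [uIcc_of_le hδ] using hx)
  have := intervalIntegral.integral_eq_sub_of_hasDerivAt (a := 0) (b := δ)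
    (fun x hx => hd_line2 ((h1 x hx).differentiableAt one_ne_zero))
    (ContinuousOn.intervalIntegrable fun x hx => (ContinuousAt.comp
      (f := fun x : ℝ => (s : ℂ) + x * I) (contAt_d2 (h1 x hx)) (by fun_prop)).continuousWithinAt)
  simp only [this]
  rw [h0 _ (Or.inr (by simp)), h0 _ (Or.inl (by simp)), sub_self]

/-- normalised exponential -/
def ex (L : ℝ) (n : ℤ) (s : ℝ) : ℂ := (Real.sqrt L : ℂ)⁻¹ * exp (I * (2 * Real.pi / L * n : ℝ) * s)

lemma contDiff_ex (L : ℝ) (n : ℤ) : ContDiff ℝ ∞ (ex L n) :=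
  contDiff_const.mul (contDiff_const.mul ofRealCLM.contDiff).cexp

lemma continuous_ex (L : ℝ) (n : ℤ) : Continuous (ex L n) := (contDiff_ex L n).continuous

lemma hd_ex (L : ℝ) (n : ℤ) (s : ℝ) :
    HasDerivAt (ex L n) (I * (2 * Real.pi / L * n : ℝ) * ex L n s) s := by
  refine ((((ofRealCLM.hasDerivAt (x := s)).const_mul
    (I * (2 * Real.pi / L * n : ℝ))).cexp).const_mul (Real.sqrt L : ℂ)⁻¹).congr_deriv ?_
  simp [ex]; ring

lemma ex_periodic (hL : 0 < L) (n : ℤ) (s : ℝ) : ex L n (s + L) = ex L n s := by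
  unfold ex
  congr 1
  have : (L : ℂ) ≠ 0 := by exact_mod_cast hL.ne'
  rw [exp_eq_exp_iff_exists_int]
  refine ⟨n, ?_⟩
  push_cast
  field_simp

lemma norm_ex_sq (hL : 0 < L) (n : ℤ) (s : ℝ) : ‖ex L n s‖ ^ 2 = L⁻¹ := by
  unfold ex
  rw [norm_mul, mul_assoc, ← ofReal_mul, norm_exp_I_mul_ofReal, mul_one, norm_inv, norm_real,
    Real.norm_eq_abs, inv_pow, sq_abs, Real.sq_sqrt hL.le]

lemma conj_ex_mul (hL : 0 < L) (n : ℤ) (s : ℝ) : conj (ex L n s) * ex L n s = (L⁻¹ : ℝ) := by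
  rw [conj_mul', ← norm_ex_sq hL n s]; simp

lemma parseval1 (hL : 0 < L) {f : ℝ → ℂ} (hf : MemLp f 2 (volume.restrict (Ioc 0 L))) :
    HasSum (fun n : ℤ => ‖∫ s in Ioc 0 L, conj (ex L n s) * f s‖ ^ 2)
      (∫ s in Ioc 0 L, ‖f s‖ ^ 2) := by
  have h := (hasSum_sq_fourierCoeffOn hL hf).mul_left L
  rw [sub_zero, smul_eq_mul, mul_inv_cancel_left₀ hL.ne', intervalIntegral.integral_of_le hL.le]
    at h
  refine h.congr_fun fun n => ?_
  rw [fourierCoeffOn_eq_integral, intervalIntegral.integral_of_le hL.le]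
  have e : ∀ s : ℝ, conj (ex L n s) * f s =
      (Real.sqrt L : ℂ)⁻¹ * (fourier (-n) (s : AddCircle (L - 0)) • f s) := by
    intro s
    rw [fourier_coe_apply, ex, map_mul, map_inv₀, conj_ofReal, ← exp_conj, smul_eq_mul, mul_assoc]
    congr 3
    simp only [map_mul, conj_I, conj_ofReal]
    push_cast
    ring
  simp_rw [e]
  rw [integral_const_mul, norm_mul, norm_smul, mul_pow, mul_pow, norm_inv, norm_real,
    Real.norm_eq_abs, inv_pow, sq_abs, Real.sq_sqrt hL.le, Real.norm_eq_abs, sq_abs]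
  simp only [sub_zero]
  field_simp

lemma parseval1' (hL : 0 < L) {f : ℝ → ℂ} (hf : MemLp f 2 (volume.restrict (Ioc 0 L))) :
    ENNReal.ofReal (∫ s in Ioc 0 L, ‖f s‖ ^ 2) =
      ∑' n : ℤ, nsq (∫ s in Ioc 0 L, conj (ex L n s) * f s) := by
  have h := parseval1 hL hf
  unfold nsq
  rw [← h.tsum_eq, ENNReal.ofReal_tsum_of_nonneg (fun i => by positivity) h.summable]

lemma parseval2 (hL : 0 < L) (hδ : 0 < δ) {F : ℝ × ℝ → ℂ} (hF : MemLp F 2 (rho L δ)) :
    ENNReal.ofReal (∫ p, ‖F p‖ ^ 2 ∂rho L δ) =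
      ∑' i : ℤ × ℤ, nsq (∫ p, conj (ex L i.1 p.1 * ex δ i.2 p.2) * F p ∂rho L δ) := by
  have hi : Integrable (fun p => ‖F p‖ ^ 2) (rho L δ) := hF.integrable_norm_pow two_ne_zero
  have hb : ∀ (T : ℝ) (n : ℤ) (s : ℝ), ‖ex T n s‖ ≤ ‖(Real.sqrt T : ℂ)⁻¹‖ := by
    intro T n s
    rw [ex, norm_mul, mul_assoc, ← ofReal_mul, norm_exp_I_mul_ofReal, mul_one]
  have h1 : Integrable F (rho L δ) := hF.integrable one_le_two
  have hn : ∀ n : ℤ, Integrable (fun p : ℝ × ℝ => conj (ex L n p.1) * F p) (rho L δ) := fun n =>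
    h1.bdd_mul (c := ‖(Real.sqrt L : ℂ)⁻¹‖)
      (Continuous.aestronglyMeasurable (by have := continuous_ex L n; fun_prop))
      (Filter.Eventually.of_forall fun p => by rw [norm_conj]; exact hb _ _ _)
  let G : ℤ → ℝ → ℂ := fun n x => ∫ s in Ioc 0 L, conj (ex L n s) * F (s, x)
  have hG : ∀ n, AEStronglyMeasurable (G n) (volume.restrict (Ioc 0 δ)) := fun n =>
    (hn n).integral_prod_right.aestronglyMeasurable
  have e1 : ENNReal.ofReal (∫ p, ‖F p‖ ^ 2 ∂rho L δ) =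
      ∑' n, ∫⁻ x in Ioc 0 δ, nsq (G n x) := by
    rw [rho, integral_prod_symm _ hi, ofReal_integral_eq_lintegral_ofReal hi.integral_prod_right
      (Filter.Eventually.of_forall fun x => integral_nonneg fun s => by positivity),
      ← lintegral_tsum (f := fun n x => nsq (G n x)) fun n => ((hG n).norm.aemeasurable.pow_const 2).ennreal_ofReal]
    refine lintegral_congr_ae ?_
    filter_upwards [hi.prod_left_ae, hF.1.prodMk_right] with x a1 a2
    exact parseval1' hL ((memLp_two_iff_integrable_sq_norm a2).2 a1)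
  have hfin : ∀ n, ∫⁻ x in Ioc 0 δ, nsq (G n x) ≠ ⊤ := fun n =>
    ne_top_of_le_ne_top (e1 ▸ ENNReal.ofReal_ne_top)
      (ENNReal.le_tsum (f := fun n => ∫⁻ x in Ioc 0 δ, nsq (G n x)) n)
  rw [e1, ENNReal.tsum_prod']
  congr 1
  ext n
  have hGi : Integrable (fun x => ‖G n x‖ ^ 2) (volume.restrict (Ioc 0 δ)) :=
    (lintegral_ofReal_ne_top_iff_integrable ((hG n).norm.pow 2)
      (Filter.Eventually.of_forall fun x => sq_nonneg ‖G n x‖)).1 (hfin n)
  have := parseval1' hδ ((memLp_two_iff_integrable_sq_norm (hG n)).2 hGi)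
  rw [ofReal_integral_eq_lintegral_ofReal hGi
    (Filter.Eventually.of_forall fun x => by positivity)] at this
  refine this.trans ?_
  congr 1
  ext k
  congr 1
  have hnk : Integrable (fun p : ℝ × ℝ => conj (ex δ k p.2) * (conj (ex L n p.1) * F p))
      (rho L δ) := (hn n).bdd_mul (c := ‖(Real.sqrt δ : ℂ)⁻¹‖)
      (Continuous.aestronglyMeasurable (by have := continuous_ex δ k; fun_prop))
      (Filter.Eventually.of_forall fun p => by rw [norm_conj]; exact hb _ _ _)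
  have e2 : ∀ p : ℝ × ℝ, conj (ex L n p.1 * ex δ k p.2) * F p =
      conj (ex δ k p.2) * (conj (ex L n p.1) * F p) := fun p => by rw [map_mul]; ring
  simp_rw [e2]
  rw [rho, integral_prod_symm _ hnk]
  simp only [integral_const_mul, G]

/-- tensor product of an exponential with a vector function -/
def tv (L δ : ℝ) (n : ℤ) (a b c : ℝ → ℂ) : L2 (nu L δ) :=
  tl (nu L δ) fun z => ex L n z.re • (!₂[a z.im, b z.im, c z.im] : E3)

lemma tv_coe (n : ℤ) {a b c : ℝ → ℂ} (ha : Continuous a) (hb : Continuous b) (hc : Continuous c) :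
    tv L δ n a b c =ᵐ[nu L δ] fun z => ex L n z.re • (!₂[a z.im, b z.im, c z.im] : E3) :=
  tl_coe (memLp_rect (fun _ _ => (((continuous_ex L n).comp continuous_re).smul
    (continuous_E3 (ha.comp continuous_im) (hb.comp continuous_im)
      (hc.comp continuous_im))).continuousAt) 2)

def fr (L δ : ℝ) (i : ℤ × ℤ) : L2 (nu L δ) := tv L δ i.1 (ex δ i.2) 0 0

lemma inner_E3 (v w : E3) :
    ⟪v, w⟫_ℂ = starRingEnd ℂ (v 0) * w 0 + starRingEnd ℂ (v 1) * w 1 +
      starRingEnd ℂ (v 2) * w 2 := by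
  simp [PiLp.inner_apply, Fin.sum_univ_three, mul_comm]

lemma pars_fr (hL : 0 < L) (hδ : 0 < δ) : Pars (fr L δ) (p0 (nu L δ)) := by
  intro y
  have hy : MemLp (fun z => y z 0) 2 (nu L δ) :=
    (EuclideanSpace.proj (𝕜 := ℂ) (0 : Fin 3)).comp_memLp' (Lp.memLp y)
  have h := parseval2 hL hδ (hy.comp_measurePreserving (mp_rect L δ))
  rw [nsq, norm_p0, ← (mp_rect L δ).integral_comp']
  refine h.trans ?_
  congr 1
  ext i
  congr 1
  rw [L2.inner_def, ← (mp_rect L δ).integral_comp']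
  refine integral_congr_ae ?_
  filter_upwards [(mp_rect L δ).quasiMeasurePreserving.ae
    (tv_coe (L := L) (δ := δ) i.1 (continuous_ex δ i.2) continuous_zero continuous_zero)] with p hp
  rw [fr, hp, inner_E3]
  simp

end Pool.Agent.Lib.MP_312682_mp
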