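import Pool.Agent.Lib.MP_312682_mp.Area

/-! Rigidity: the four invariants of a disc with equal round holes. -/

open scoped ContDiff ComplexConjugate Topology NNReal
open MeasureTheory Complex Set Filter Metric

set_option linter.unusedSectionVars false

noncomputable section

namespace Pool.Agent.Lib.MP_312682_mp

lemma alg1 {ρ e α : ℝ} (hρ : 0 < ρ) (he : 1 / ρ ≤ e)
    (h : ∀ j : ℕ, 0 ≤ ρ ^ 3 * e + ρ ^ 2 * (j ^ 2 - 3 * j - 1) + j * (j + 1) * α) :
    e⁻¹ ^ 2 - (ρ - e⁻¹) ^ 2 ≤ α := by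
  have e0 : 0 < e := lt_of_lt_of_le (by positivity) he
  have t1 : 1 ≤ ρ * e := by rwa [div_le_iff₀' hρ] at he
  have h1 := h ⌊ρ * e⌋₊
  have j1 : (1 : ℝ) ≤ ⌊ρ * e⌋₊ := by exact_mod_cast Nat.one_le_floor_iff _ |>.2 t1
  have j2 : (⌊ρ * e⌋₊ : ℝ) ≤ ρ * e := Nat.floor_le (by linarith)
  have j3 := (Nat.lt_floor_add_one (ρ * e)).le
  generalize (⌊ρ * e⌋₊ : ℝ) = j at *
  have k : 2 * j * (j + 1) ≤ ρ * e * (4 * j + 1 - ρ * e) := by
    nlinarith [mul_nonneg (sub_nonneg.2 j2) (sub_nonneg.2 j3)]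
  refine le_of_mul_le_mul_left ?_ (show 0 < j * (j + 1) * e by positivity)
  have : j * (j + 1) * e * (e⁻¹ ^ 2 - (ρ - e⁻¹) ^ 2) = j * (j + 1) * (2 * ρ - ρ ^ 2 * e) := by
    field_simp; ring
  rw [this]
  nlinarith [mul_le_mul_of_nonneg_left k hρ.le, mul_nonneg h1 e0.le]

lemma tangent {x r : ℝ} (hx : 0 < x) (hr : 0 < r) : 1 / x - (2 / r - x / r ^ 2) =
    (x - r) ^ 2 / (x * r ^ 2) := by field_simp; ring

lemma alg {κ : Type} [Fintype κ] {R r ρ0 e0 A0 : ℝ} {ρ e α : κ → ℝ} (hr : 0 < r) (hR : r < R)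
    (h0 : 0 < ρ0) (h1 : ∀ i, 0 < ρ i) (hL : ρ0 + ∑ i, ρ i = R + Fintype.card κ * r)
    (hE : e0 + ∑ i, e i = 1 / R + Fintype.card κ / r)
    (hA : A0 - ∑ i, α i = R ^ 2 - Fintype.card κ * r ^ 2) (hH : A0 ≤ ρ0 ^ 2) (he0 : 1 / ρ0 ≤ e0)
    (he : ∀ i, 1 / ρ i ≤ e i) (hα : ∀ i, (e i)⁻¹ ^ 2 - (ρ i - (e i)⁻¹) ^ 2 ≤ α i) :
    ρ0 = R ∧ e0 = 1 / R ∧ ∀ i, ρ i = r ∧ e i = 1 / r := by
  set k : ℝ := (Fintype.card κ : ℝ) with hk
  have R0 : 0 < R := by linarith
  have e0' : ∀ i, 0 < e i := fun i => lt_of_lt_of_le (by have := h1 i; positivity) (he i)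
  have tg : ∀ {x : ℝ}, 0 < x → 2 / r - x / r ^ 2 ≤ 1 / x := fun hx => by
    rw [← sub_nonneg, tangent hx hr]; positivity
  have s1 : ρ0 ≤ R := by
    by_contra hc
    push Not at hc
    have a := Finset.sum_le_sum fun i (_ : i ∈ Finset.univ) => (tg (h1 i)).trans (he i)
    rw [Finset.sum_sub_distrib, Finset.sum_const, ← Finset.sum_div, Finset.card_univ, nsmul_eq_mul,
      ← hk, show ∑ i, ρ i = R + k * r - ρ0 by linarith] at a
    have b : (ρ0 - R) / r ^ 2 ≤ (ρ0 - R) / (R * ρ0) := by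
      have : (ρ0 - R) / (R * ρ0) = 1 / R - 1 / ρ0 := by field_simp
      have : (ρ0 - R) / r ^ 2 = k * (2 / r) - (R + k * r - ρ0) / r ^ 2 - k / r := by
        field_simp; ring
      linarith
    rw [div_le_div_iff_of_pos_left (by linarith) (by positivity) (by positivity)] at b
    nlinarith
  have s2 : 1 / R ≤ 1 / ρ0 := one_div_le_one_div_of_le h0 s1
  set x := fun i => (e i)⁻¹ with hx
  have x0 : ∀ i, 0 < x i := fun i => inv_pos.2 (e0' i)
  have x1 : ∀ i, x i ≤ ρ i := fun i => by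
    rw [hx, inv_le_comm₀ (e0' i) (h1 i), ← one_div]; exact he i
  have x2 : ∀ i, 1 / x i = e i := fun i => by simp [hx]
  have s3 : ∑ i, (x i - r) ^ 2 / (x i * r ^ 2) = ∑ i, e i - (k * (2 / r) - (∑ i, x i) / r ^ 2) := by
    simp_rw [← fun i => tangent (x0 i) hr, x2]
    rw [Finset.sum_sub_distrib, Finset.sum_sub_distrib, Finset.sum_const, ← Finset.sum_div,
      Finset.card_univ, nsmul_eq_mul]
  have s4 : 0 ≤ ∑ i, (x i - r) ^ 2 / (x i * r ^ 2) :=
    Finset.sum_nonneg fun i _ => by have := x0 i; positivity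
  have s5 : k * r ≤ ∑ i, x i := by
    have : k / r ≤ (∑ i, x i) / r ^ 2 := by
      have : k * (2 / r) = 2 * (k / r) := by ring
      linarith
    rw [div_le_div_iff₀ hr (by positivity)] at this
    nlinarith
  have s6 : k * r ^ 2 ≤ ∑ i, x i ^ 2 := by
    have a := Finset.sum_le_sum (f := fun i => 2 * r * x i - r ^ 2) (g := fun i => x i ^ 2)
      fun i (_ : i ∈ Finset.univ) => by nlinarith [sq_nonneg (x i - r)]
    rw [Finset.sum_sub_distrib, ← Finset.mul_sum, Finset.sum_const, Finset.card_univ,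
      nsmul_eq_mul, ← hk] at a
    nlinarith
  have s7 : ∑ i, (ρ i - x i) ≤ R - ρ0 := by rw [Finset.sum_sub_distrib]; linarith
  have s8 : ∑ i, (ρ i - x i) ^ 2 ≤ (R - ρ0) ^ 2 :=
    (Finset.sum_sq_le_sq_sum_of_nonneg fun i _ => sub_nonneg.2 (x1 i)).trans
      (pow_le_pow_left₀ (Finset.sum_nonneg fun i _ => sub_nonneg.2 (x1 i)) s7 2)
  have s9 := Finset.sum_le_sum fun i (_ : i ∈ Finset.univ) => hα i
  rw [Finset.sum_sub_distrib] at s9
  have s10 : ρ0 = R := by nlinarith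
  subst s10
  have s11 : ∀ i, ρ i = x i := fun i => by
    have := (Finset.sum_eq_zero_iff_of_nonneg fun i _ => sub_nonneg.2 (x1 i)).1
      (le_antisymm (by linarith) (Finset.sum_nonneg fun i _ => sub_nonneg.2 (x1 i))) i
      (Finset.mem_univ i)
    linarith
  have s12 : ∑ i, x i = k * r := by simp_rw [← s11]; linarith
  have s13 : k * (2 / r) - k * r / r ^ 2 = k / r := by field_simp; ring
  rw [s12, s13] at s3
  refine ⟨rfl, by linarith, fun i => ?_⟩
  have := (Finset.sum_eq_zero_iff_of_nonneg fun i _ => by have := x0 i; positivity).1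
    (le_antisymm (by linarith) s4) i (Finset.mem_univ i)
  have e : x i = r := by
    rwa [div_eq_zero_iff, or_iff_left (by have := x0 i; positivity), pow_eq_zero_iff two_ne_zero,
      sub_eq_zero] at this
  exact ⟨(s11 i).trans e, by rw [← x2, e]⟩

/-- a disc with round holes -/
def perf {k : ℕ} (a : ℂ) (R : ℝ) (b : Fin k → ℂ) (r : ℝ) : Set ℂ :=
  ball a R \ ⋃ i, closedBall (b i) r

structure Adm {k : ℕ} (a : ℂ) (R : ℝ) (b : Fin k → ℂ) (r : ℝ) : Prop where
  pos : 0 < r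
  lt : r < R
  ins : ∀ i, ‖b i - a‖ + r < R
  sep : ∀ i j, i ≠ j → 2 * r < ‖b i - b j‖

def circ (c : ℂ) (ρ m s : ℝ) : ℂ := c + ρ * exp ((m / ρ * s : ℝ) * I)

section circ

variable {c : ℂ} {ρ m : ℝ} (hρ : 0 < ρ) (hm : m = 1 ∨ m = -1)
include hρ hm

omit hm in
lemma hd_circ (s : ℝ) : HasDerivAt (circ c ρ m) (m * I * exp ((m / ρ * s : ℝ) * I)) s := by
  have : (ρ : ℂ) ≠ 0 := by exact_mod_cast hρ.ne'
  refine ((((hd_lin (m / ρ) s).ofReal_comp.mul_const I).cexp.const_mul _).const_add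
    c).congr_deriv ?_
  push_cast; field_simp

lemma cv_circ : Cv (circ c ρ m) (2 * Real.pi * ρ) := by
  have := s_ofReal
  refine ⟨⟨by unfold circ; fun_prop, fun s => ?_⟩, by positivity, fun s => ?_⟩
  · rw [(hd_circ hρ s).deriv, norm_mul, norm_exp_ofReal_mul_I]
    rcases hm with rfl | rfl <;> simp
  · rw [circ, circ, show m / ρ * (s + 2 * Real.pi * ρ) = m / ρ * s + m * (2 * Real.pi) by
      field_simp, ofReal_add, add_mul, exp_add]
    rcases hm with rfl | rfl <;> simp [exp_neg]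

lemma kap_circ (s : ℝ) : kap (circ c ρ m) s = m / ρ := by
  have h1 : deriv (circ c ρ m) = _ := funext fun s => (hd_circ (c := c) (m := m) hρ s).deriv
  have h2 := (cv_circ (c := c) hρ hm).dd s
  rw [h1, (((hd_lin (m / ρ) s).ofReal_comp.mul_const I).cexp.const_mul _).deriv] at h2
  have : (m : ℂ) ≠ 0 := by rcases hm with rfl | rfl <;> simp
  have := exp_ne_zero ((m / ρ * s : ℝ) * I)
  apply ofReal_injective
  field_simp at h2
  exact h2.symm

lemma circ_inj {s t : ℝ} (h : circ c ρ m s = circ c ρ m t) :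
    ∃ n : ℤ, t = s + n * (2 * Real.pi * ρ) := by
  have : (ρ : ℂ) ≠ 0 := by exact_mod_cast hρ.ne'
  obtain ⟨n, hn⟩ := exp_eq_exp_iff_exists_int.1 (mul_left_cancel₀ this (add_left_cancel h)).symm
  have := congrArg im hn
  simp only [mul_im, ofReal_re, I_im, mul_one, ofReal_im, I_re, mul_zero, add_zero, add_im,
    intCast_re, intCast_im, mul_re, re_ofNat, im_ofNat, zero_mul, sub_zero] at this
  field_simp at this
  rcases hm with rfl | rfl
  · exact ⟨n, by linarith⟩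
  · exact ⟨-n, by push_cast; linarith⟩

lemma range_circ {z : ℂ} : (∃ s, circ c ρ m s = z) ↔ ‖z - c‖ = ρ := by
  have : (ρ : ℂ) ≠ 0 := by exact_mod_cast hρ.ne'
  constructor
  · rintro ⟨s, rfl⟩
    rw [circ, add_sub_cancel_left, norm_mul, norm_exp_ofReal_mul_I]; simp [hρ.le]
  · intro h
    obtain ⟨θ, hθ⟩ := (norm_eq_one_iff ((z - c) / ρ)).1 (by simp [h, abs_of_pos hρ, hρ.ne'])
    refine ⟨θ / (m / ρ), ?_⟩
    rw [circ, mul_div_cancel₀ _ (div_ne_zero (by rcases hm with rfl | rfl <;> simp) hρ.ne'), hθ]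
    field_simp; ring

lemma sa_circ : sa (circ c ρ m) (2 * Real.pi * ρ) = m * (Real.pi * ρ ^ 2) := by
  have := (cv_circ (c := c) hρ hm).int_kq
  simp_rw [kap_circ hρ hm] at this
  rw [intervalIntegral.integral_const_mul] at this
  rw [sa]
  generalize (∫ s in (0 : ℝ)..2 * Real.pi * ρ, qq (circ c ρ m) s) = Q at this ⊢
  field_simp at this
  rcases hm with rfl | rfl <;> linarith

omit hm in
lemma normal_circ (s : ℝ) :
    fderiv ℝ (fun z : ℂ => ‖z - c‖ ^ 2 - ρ ^ 2) (circ c ρ m s) (I * deriv (circ c ρ m) s) =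
      -(2 * m * ρ) := by
  have h0 : HasFDerivAt (fun z : ℂ => ‖z - c‖ ^ 2 - ρ ^ 2) _ _ :=
    ((hasFDerivAt_id (circ c ρ m s)).sub_const c).norm_sq.sub_const _
  rw [h0.fderiv, (hd_circ hρ s).deriv]
  have := normSq_eq_norm_sq (exp ((m / ρ * s : ℝ) * I))
  rw [norm_exp_ofReal_mul_I, normSq_apply] at this
  simp only [circ]
  generalize exp ((m / ρ * s : ℝ) * I) = E at this ⊢
  simp [Complex.inner]
  linear_combination (-2 * m * ρ) * this

end circ

namespace Adm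

variable {k : ℕ} {a : ℂ} {R r : ℝ} {b : Fin k → ℂ} (h : Adm a R b r)
include h

lemma Rpos : 0 < R := h.pos.trans h.lt

lemma out {z : ℂ} (hz : R ≤ ‖z - a‖) (i : Fin k) : r < ‖z - b i‖ := by
  have := norm_sub_le_norm_sub_add_norm_sub z (b i) a
  linarith [h.ins i]

lemma inn {z : ℂ} {i : Fin k} (hz : ‖z - b i‖ ≤ r) :
    ‖z - a‖ < R ∧ ∀ j ≠ i, r < ‖z - b j‖ := by
  refine ⟨not_le.1 fun h1 => (h.out h1 i).not_ge hz, fun j hj => ?_⟩
  have := norm_sub_le_norm_sub_add_norm_sub (b j) z (b i)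
  rw [norm_sub_rev (b j) z] at this
  linarith [h.sep j i hj]

omit h in
lemma mem {z : ℂ} : z ∈ perf a R b r ↔ ‖z - a‖ < R ∧ ∀ i, r < ‖z - b i‖ := by
  simp [perf, dist_eq_norm]

theorem geo : Geo (perf a R b r) (fun o : Option (Fin k) => circ (o.elim a b) (o.elim R fun _ => r)
    (o.elim 1 fun _ => -1)) (fun o => 2 * Real.pi * o.elim R fun _ => r)
    fun z => ∏ o : Option (Fin k), (‖z - o.elim a b‖ ^ 2 - (o.elim R fun _ => r) ^ 2) := by
  classical
  have p : ∀ o : Option (Fin k), 0 < o.elim R fun _ => r := by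
    rintro (_ | i); exacts [h.Rpos, h.pos]
  have q : ∀ o : Option (Fin k), (o.elim 1 fun _ => -1 : ℝ) = 1 ∨
      (o.elim 1 fun _ => -1 : ℝ) = -1 := by rintro (_ | i) <;> simp
  have sp : ∀ {x y : ℝ}, 0 < y → y < x → 0 < x ^ 2 - y ^ 2 := fun h1 h2 => by nlinarith
  have sn : ∀ {x y : ℝ}, 0 ≤ x → x < y → x ^ 2 - y ^ 2 < 0 := fun h1 h2 => by nlinarith
  have sm : ∀ o : Option (Fin k),
      ContDiff ℝ ∞ fun z : ℂ => ‖z - o.elim a b‖ ^ 2 - (o.elim R fun _ => r) ^ 2 := fun o =>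
    ((contDiff_norm_sq ℝ).comp (contDiff_id.sub contDiff_const)).sub contDiff_const
  refine ⟨fun o => cv_circ (p o) (q o), fun o o' s t e => ?_, fun o s t e => circ_inj (p o) (q o) e,
    contDiff_prod fun o _ => sm o, ?_, fun z => ?_, fun o s => ?_,
    isBounded_ball.subset sdiff_subset⟩
  · have e1 := (range_circ (c := o.elim a b) (p o) (q o)).1 ⟨s, rfl⟩
    have e2 := (range_circ (c := o'.elim a b) (p o') (q o')).1 ⟨t, e.symm⟩
    rcases o with _ | i <;> rcases o' with _ | j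
    · rfl
    · exact absurd e2 (h.out e1.ge j).ne'
    · exact absurd e1 (h.out e2.ge i).ne'
    · by_contra hc
      exact ((h.inn e1.le).2 j fun h => hc (by rw [h])).ne' e2
  · ext z
    rw [mem, mem_ofPred_eq, Fintype.prod_option]
    simp only [Option.elim]
    constructor
    · rintro ⟨h1, h2⟩
      exact mul_neg_of_neg_of_pos (sn (norm_nonneg _) h1)
        (Finset.prod_pos fun i _ => sp h.pos (h2 i))
    · intro h1
      by_contra h2
      refine h1.not_ge ?_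
      rcases le_or_gt R ‖z - a‖ with h3 | h3
      · exact mul_nonneg (by nlinarith [h.Rpos])
          (Finset.prod_pos fun i _ => sp h.pos (h.out h3 i)).le
      · obtain ⟨i, hi⟩ := not_forall.1 fun h4 => h2 ⟨h3, h4⟩
        rw [not_lt] at hi
        rw [← Finset.mul_prod_erase _ _ (Finset.mem_univ i), ← mul_assoc]
        refine mul_nonneg (mul_nonneg_of_nonpos_of_nonpos (sn (norm_nonneg _) h3).le ?_)
          (Finset.prod_pos fun j hj => sp h.pos ((h.inn hi).2 j (Finset.ne_of_mem_erase hj))).le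
        nlinarith [norm_nonneg (z - b i)]
  · simp only [Finset.prod_eq_zero_iff, Finset.mem_univ, true_and]
    refine exists_congr fun o => ?_
    rw [range_circ (p o) (q o), sub_eq_zero, sq_eq_sq₀ (norm_nonneg _) (p o).le]
  · have e1 := (range_circ (c := o.elim a b) (p o) (q o)).1 ⟨s, rfl⟩
    simp_rw [← Finset.mul_prod_erase _ _ (Finset.mem_univ o)]
    rw [fderiv_fun_mul ((sm o).differentiable (by simp) _)
      ((contDiff_prod fun o _ => sm o).differentiable (by simp) _)]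
    simp only [e1, sub_self, zero_smul, zero_add, smul_apply, normal_circ (p o), smul_eq_mul]
    rcases o with _ | i
    · refine mul_neg_of_pos_of_neg (Finset.prod_pos ?_) (by simpa using h.Rpos)
      rintro (_ | j) hj
      · simp at hj
      · exact sp h.pos (h.out e1.ge j)
    · refine mul_neg_of_neg_of_pos ?_ (by simpa using h.pos)
      rw [← Finset.mul_prod_erase _ _ (a := none) (by simp)]
      refine mul_neg_of_neg_of_pos (sn (norm_nonneg _) (h.inn e1.le).1) (Finset.prod_pos ?_)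
      rintro (_ | j) hj
      · simp at hj
      · exact sp h.pos ((h.inn e1.le).2 j (by simpa using hj))

lemma area : vol.real (perf a R b r) = Real.pi * (R ^ 2 - k * r ^ 2) := by
  obtain ⟨δ, h1, -⟩ := h.geo.fam
  rw [h1.area, Fintype.sum_option]
  simp only [Option.elim, sa_circ h.Rpos (Or.inl rfl), sa_circ h.pos (Or.inr rfl)]
  simp; ring

theorem asym : ∃ C, ∀ᶠ τ : ℝ in atTop,
    |hsq (GO (τ ^ 6) (perf a R b r)) - (τ ^ 6) ^ 4 * tr4 (Real.pi * (R ^ 2 - k * r ^ 2))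
      (2 * Real.pi * (R + k * r)) (2 * Real.pi * (1 - k)) (2 * Real.pi * (1 / R + k / r))
      (τ ^ 6)| ≤ C * (τ ^ 7)⁻¹ := by
  obtain ⟨δ, h1, -⟩ := h.geo.fam
  have := trace_asym h1
  simp only [Fintype.sum_option, Option.elim, kap_circ h.Rpos (Or.inl rfl),
    kap_circ h.pos (Or.inr rfl), h.area, intervalIntegral.integral_const, Finset.sum_const,
    Finset.card_univ, Fintype.card_fin, nsmul_eq_mul, smul_eq_mul] at this
  have a := h.pos.ne'
  have b := h.Rpos.ne'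
  refine (congrArg₂ (fun x y : ℝ × ℝ => ∃ C, ∀ᶠ τ : ℝ in atTop,
    |hsq (GO (τ ^ 6) _) - (τ ^ 6) ^ 4 * tr4 x.1 x.2 y.1 y.2 (τ ^ 6)| ≤ C * (τ ^ 7)⁻¹)
    (x := (_, _)) (y := (_, _)) (x' := (_, _)) (y' := (_, _)) ?_ ?_).mp this
  · congr 1; ring
  · congr 1 <;> field_simp <;> ring

end Adm

lemma tr4_unique {H : ℝ → ℝ} {A L K E A' L' K' E' C C' : ℝ}
    (h : ∀ᶠ τ : ℝ in atTop, |H τ - (τ ^ 6) ^ 4 * tr4 A L K E (τ ^ 6)| ≤ C * (τ ^ 7)⁻¹)
    (h' : ∀ᶠ τ : ℝ in atTop, |H τ - (τ ^ 6) ^ 4 * tr4 A' L' K' E' (τ ^ 6)| ≤ C' * (τ ^ 7)⁻¹) :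
    A = A' ∧ L = L' ∧ K = K' ∧ E = E' := by
  have p := Real.pi_pos
  have := (Polynomial.degree_le_iff_coeff_zero _ _).1 ((Polynomial.isBoundedUnder_abs_atTop_iff
    (Polynomial.C ((A - A') / (4 * Real.pi)) * Polynomial.X ^ 19 +
      Polynomial.C (-(L - L') / 16) * Polynomial.X ^ 13 +
      Polynomial.C ((K - K') / (12 * Real.pi)) * Polynomial.X ^ 7 +
      Polynomial.C (3 * (E - E') / 1024) * Polynomial.X ^ 1)).1 ⟨C' + C, ?_⟩)
  · have a := this 19 (by simp)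
    have b := this 13 (by simp)
    have c := this 7 (by simp)
    have d := this 1 (by simp)
    simp only [Polynomial.coeff_add, Polynomial.coeff_C_mul, Polynomial.coeff_X_pow] at a b c d
    norm_num at a b c d
    exact ⟨by linarith, by linarith, by linarith, by linarith⟩
  · rw [eventually_map]
    filter_upwards [h, h', eventually_gt_atTop 0] with τ e1 e2 t0
    have := (abs_sub _ _).trans (add_le_add e2 e1)
    rw [← add_mul, le_mul_inv_iff₀ (by positivity), ← abs_of_pos (pow_pos t0 7), ← abs_mul] at this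
    refine le_trans (le_of_eq ?_) this
    congr 1
    simp only [tr4, Polynomial.eval_add, Polynomial.eval_mul, Polynomial.eval_C,
      Polynomial.eval_pow, Polynomial.eval_X]
    field_simp; ring

lemma far_pt (b z : ℂ) {r : ℝ} (hr : 0 < r) : (∃ w ∈ sphere b r, ‖w - z‖ = ‖b - z‖ + r) ∧
    ∃ w ∈ sphere b r, ‖w - z‖ = |‖b - z‖ - r| := by
  obtain ⟨u, hu, e⟩ : ∃ u : ℂ, ‖u‖ = 1 ∧ b - z = ‖b - z‖ * u :=
    ⟨exp (arg (b - z) * I), norm_exp_ofReal_mul_I _, (norm_mul_exp_arg_mul_I _).symm⟩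
  refine ⟨⟨b + r * u, by simp [hu, hr.le], ?_⟩, b - r * u, by simp [hu, hr.le], ?_⟩
  · rw [show b + r * u - z = (‖b - z‖ + r : ℝ) * u by push_cast; linear_combination e, norm_mul, hu,
      mul_one, norm_real, Real.norm_of_nonneg (by positivity)]
  · rw [show b - r * u - z = (‖b - z‖ - r : ℝ) * u by push_cast; linear_combination e, norm_mul, hu,
      mul_one, norm_real, Real.norm_eq_abs]

theorem Geo.rigid {Ω : Set ℂ} {ι : Type} [Fintype ι] {γ : ι → ℝ → ℂ} {L : ι → ℝ} {φ : ℂ → ℝ}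
    (h : Geo Ω γ L φ) (hc : IsConnected Ω) {k : ℕ} {R r : ℝ} (hr : 0 < r) (hR : r < R)
    (hA : vol.real Ω = Real.pi * (R ^ 2 - k * r ^ 2)) (hL : ∑ i, L i = 2 * Real.pi * (R + k * r))
    (hK : ∑ i, ∫ s in (0 : ℝ)..L i, kap (γ i) s = 2 * Real.pi * (1 - k))
    (hE : ∑ i, ∫ s in (0 : ℝ)..L i, kap (γ i) s ^ 2 = 2 * Real.pi * (1 / R + k / r)) :
    ∃ (a : ℂ) (b : Fin k → ℂ), Adm a R b r ∧ Ω = perf a R b r := by
  classical
  have p := Real.pi_pos
  obtain ⟨i0, k0, k1⟩ := h.outer hc.2 hc.1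
  obtain ⟨δ, h1, -⟩ := h.fam
  have hδ := h1.dpos
  have hA' := hA
  rw [h1.area] at hA
  rw [Fintype.sum_eq_add_sum_subtype_ne _ i0] at hA hL hK hE
  have card : Fintype.card {j // j ≠ i0} = k := by
    rw [k0, Finset.sum_congr rfl fun j _ => k1 j.1 j.2, Finset.sum_const, Finset.card_univ,
      nsmul_eq_mul] at hK
    have : (Fintype.card {j // j ≠ i0} : ℝ) = k := by
      apply mul_left_cancel₀ (show 2 * Real.pi ≠ 0 by positivity); linarith
    exact_mod_cast this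
  have eL : ∀ i, L i = 2 * Real.pi * (L i / (2 * Real.pi)) := fun i => by field_simp
  have ρ0 : ∀ i, 0 < L i / (2 * Real.pi) := fun i => by have := (h.cv i).pos; positivity
  have k0' : ∫ s in (0 : ℝ)..L i0, kap (γ i0) s = 1 * (2 * Real.pi) := by rw [k0, one_mul]
  have k1' : ∀ j ≠ i0, ∫ s in (0 : ℝ)..L j, kap (γ j) s = -1 * (2 * Real.pi) := fun j hj => by
    rw [k1 j hj, neg_one_mul]
  have eg : ∀ {E ρ : ℝ}, 2 * Real.pi / ρ ≤ E → 1 / ρ ≤ E / (2 * Real.pi) := fun h => by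
    rw [le_div_iff₀ (by positivity), mul_comm, ← div_eq_mul_one_div]; exact h
  have g1 := fun j : {j // j ≠ i0} => eg ((h.cv j).energy_ge (eL j) (by simp) (k1' j.1 j.2))
  obtain ⟨r1, r2, r3⟩ := alg (κ := {j // j ≠ i0}) (ρ := fun j => L j / (2 * Real.pi))
    (e := fun j => (∫ s in (0 : ℝ)..L j, kap (γ j) s ^ 2) / (2 * Real.pi))
    (α := fun j => -sa (γ j) (L j) / Real.pi) (A0 := sa (γ i0) (L i0) / Real.pi) hr hR (ρ0 i0)
    (fun j => ρ0 j) (by rw [← Finset.sum_div, card, ← add_div, hL]; field_simp)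
    (by rw [← Finset.sum_div, card, ← add_div, hE]; field_simp)
    (by rw [← Finset.sum_div, card, Finset.sum_neg_distrib, ← sub_div, sub_neg_eq_add, hA]; field_simp)
    (by rw [div_le_iff₀' p]; exact (h.cv i0).hurwitz (eL i0))
    (eg ((h.cv i0).energy_ge (eL i0) (by simp) k0')) g1
    fun j => alg1 (ρ0 j) (g1 j) ((h.cv j).inner_ineq (eL j) (k1 j.1 j.2))
  obtain ⟨a, a1, a2⟩ := (h.cv i0).circle (ρ := R) (r1 ▸ eL i0) (by simp) k0' (by
    rw [div_eq_iff (by positivity)] at r2; rw [r2]; ring)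
  choose b b1 b2 using fun j : {j // j ≠ i0} => (h.cv j).circle (ρ := r) ((r3 j).1 ▸ eL j)
    (by simp) (k1' j.1 j.2) (by
      have := (r3 j).2
      rw [div_eq_iff (by positivity)] at this; rw [this]; ring)
  have R0 : 0 < R := by linarith
  have ins : ∀ i (x : ℝ), x ∈ Ioo 0 δ → γ i 0 + x * (I * deriv (γ i) 0) ∈ Ω := fun i x hx => by
    simpa [Phi] using (h1.col i).inside (x * I) (by simpa [strip] using hx)
  have sp : ∀ {i c ρ z}, range (γ i) = sphere c ρ → z ∈ Ω → z ∈ ball c ρ ∪ (closedBall c ρ)ᶜ := by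
    intro i c ρ z e hz
    rcases lt_trichotomy (dist z c) ρ with h2 | h2 | h2
    · exact Or.inl h2
    · obtain ⟨t, rfl⟩ : z ∈ range (γ i) := e ▸ h2
      exact (h.not_mem i t hz).elim
    · exact Or.inr (not_le.2 h2)
  have dj : ∀ (c : ℂ) (ρ : ℝ), Disjoint (ball c ρ) (closedBall c ρ)ᶜ := fun c ρ =>
    disjoint_compl_right.mono_left ball_subset_closedBall
  have s1 : Ω ⊆ ball a R := by
    refine hc.2.subset_left_of_subset_union isOpen_ball isClosed_closedBall.isOpen_compl (dj _ _)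
      (fun z => sp a1) ⟨_, ins i0 (min (δ / 2) R) ⟨by positivity, by
        linarith [min_le_left (δ / 2) R]⟩, ?_⟩
    have e : ‖γ i0 0 - a‖ = R := mem_sphere_iff_norm.1 (a1 ▸ mem_range_self 0)
    have x0 : 0 < min (δ / 2) R := by positivity
    have x1 := min_le_right (δ / 2) R
    generalize min (δ / 2) R = x at x0 x1
    rw [mem_ball_iff_norm, a2, show γ i0 0 + x * ((1 / R : ℝ) * (a - γ i0 0)) - a =
      (1 - x / R : ℝ) * (γ i0 0 - a) by push_cast; ring, norm_mul, e, norm_real,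
      Real.norm_of_nonneg (sub_nonneg.2 ((div_le_one R0).2 x1)), sub_mul, div_mul_cancel₀ _ R0.ne']
    linarith
  have s2 : ∀ j, Ω ⊆ (closedBall (b j) r)ᶜ := fun j => by
    refine hc.2.subset_right_of_subset_union isOpen_ball isClosed_closedBall.isOpen_compl (dj _ _)
      (fun z => sp (b1 j)) ⟨_, ins j (δ / 2) ⟨by positivity, by linarith⟩, ?_⟩
    have e : ‖γ j 0 - b j‖ = r := mem_sphere_iff_norm.1 (b1 j ▸ mem_range_self 0)
    rw [mem_compl_iff, mem_closedBall_iff_norm, b2,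
      show γ j 0 + (δ / 2 : ℝ) * ((-1 / r : ℝ) * (b j - γ j 0)) - b j =
      (1 + δ / 2 / r : ℝ) * (γ j 0 - b j) by push_cast; ring, norm_mul, e, norm_real,
      Real.norm_of_nonneg (by positivity), add_mul, div_mul_cancel₀ _ hr.ne']
    linarith
  have cl : ∀ i t, γ i t ∈ closure Ω := fun i t => by
    have c := (h.cv i).sPhi.continuous
    refine mem_closure_of_tendsto (f := fun x : ℝ => Phi (γ i) (t + x * I)) (b := 𝓝[>] 0)
      ((Continuous.tendsto' (by fun_prop) _ _ (by simp [Phi_real])).mono_left nhdsWithin_le_nhds) ?_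
    filter_upwards [Ioo_mem_nhdsGT hδ] with x hx
    exact (h1.col i).inside _ (by simpa [strip] using hx)
  let e := (Fintype.equivFinOfCardEq card).symm
  have adm : Adm a R (fun i => b (e i)) r := by
    refine ⟨hr, hR, fun i => ?_, fun i j hij => ?_⟩
    · obtain ⟨w, w1, w2⟩ := (far_pt (b (e i)) a hr).1
      obtain ⟨t, rfl⟩ : w ∈ range (γ (e i)) := b1 _ ▸ w1
      rw [← w2]
      refine lt_of_le_of_ne (mem_closedBall_iff_norm.1 (closure_minimal
        (s1.trans ball_subset_closedBall) isClosed_closedBall (cl _ t))) fun h2 => ?_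
      obtain ⟨s, hs⟩ : γ (e i) t ∈ range (γ i0) := a1 ▸ mem_sphere_iff_norm.2 h2
      exact (e i).2 (h.disj _ _ _ _ hs).symm
    · obtain ⟨w, w1, w2⟩ := (far_pt (b (e i)) (b (e j)) hr).2
      obtain ⟨t, rfl⟩ : w ∈ range (γ (e i)) := b1 _ ▸ w1
      have : r < |‖b (e i) - b (e j)‖ - r| := by
        rw [← w2]
        refine lt_of_le_of_ne (not_lt.1 (mt mem_ball_iff_norm.2 (closure_minimal
          ((s2 (e j)).trans (compl_subset_compl.2 ball_subset_closedBall))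
            isOpen_ball.isClosed_compl (cl _ t)))) fun h2 => ?_
        obtain ⟨s, hs⟩ : γ (e i) t ∈ range (γ (e j)) := b1 _ ▸ mem_sphere_iff_norm.2 h2.symm
        exact hij (e.injective (Subtype.ext (h.disj _ _ _ _ hs).symm))
      rcases lt_abs.1 this with h2 | h2 <;> linarith [norm_nonneg (b (e i) - b (e j))]
  have s3 : Ω ⊆ perf a R (fun i => b (e i)) r := fun z hz =>
    ⟨s1 hz, fun h2 => by obtain ⟨i, hi⟩ := mem_iUnion.1 h2; exact s2 _ hz hi⟩
  refine ⟨a, _, adm, s3.antisymm fun z hz => by_contra fun h2 => ?_⟩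
  have fin := adm.geo.bdd.measure_lt_top (μ := vol)
  have z0 := measureReal_sdiff s3 h.opn.measurableSet fin.ne
  rw [adm.area, hA', sub_self, measureReal_eq_zero_iff (measure_ne_top_of_subset sdiff_subset
    fin.ne)] at z0
  refine ((adm.geo.opn.inter (isOpen_lt continuous_const h.smooth.continuous)).measure_pos vol
    ⟨z, hz, lt_of_le_of_ne (not_lt.1 (mt h.mem.2 h2)) fun h3 => ?_⟩).ne' (measure_mono_null
      (fun w hw => mem_sdiff_of_mem hw.1 fun h4 => (h.mem.1 h4).not_gt hw.2) z0)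
  obtain ⟨i, t, rfl⟩ := (h.zero z).1 h3.symm
  rw [Adm.mem] at hz
  by_cases hi : i = i0
  · subst hi
    exact hz.1.ne (mem_sphere_iff_norm.1 (a1 ▸ mem_range_self t))
  · have := hz.2 (e.symm ⟨i, hi⟩)
    rw [e.apply_symm_apply] at this
    exact this.ne' (mem_sphere_iff_norm.1 (b1 ⟨i, hi⟩ ▸ mem_range_self t))

theorem class_rigid {Ω : Set ℂ} (hc : IsConnected Ω) (hb : Bornology.IsBounded Ω) {φ : ℂ → ℝ}
    (hφ : ContDiff ℝ ∞ φ) (he : Ω = {z | φ z < 0}) (hr : ∀ z, φ z = 0 → fderiv ℝ φ z ≠ 0)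
    {k : ℕ} {a : ℂ} {R r : ℝ} {b : Fin k → ℂ} (h : Adm a R b r)
    (hs : ∀ n l, 0 < n → (CC Ω n l ↔ CC (perf a R b r) n l)) :
    ∃ (a' : ℂ) (b' : Fin k → ℂ), Adm a' R b' r ∧ Ω = perf a' R b' r := by
  obtain ⟨ι, _, γ, L, g⟩ := exists_geo hb hφ he hr
  obtain ⟨δ, h1, -⟩ := g.fam
  obtain ⟨C, h2⟩ := trace_asym h1
  obtain ⟨C', h3⟩ := h.asym
  obtain ⟨c, -, h4⟩ := HL_GO hb
  obtain ⟨c', -, h5⟩ := HL_GO h.geo.bdd
  obtain ⟨e1, e2, e3, e4⟩ := tr4_unique h2 (by
    filter_upwards [h3, eventually_ge_atTop 1] with τ e t1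
    have := one_le_pow₀ (n := 6) t1
    rwa [hsq_GO_eq (by positivity) (h4 _ this).ne_top (h5 _ this).ne_top hs])
  exact g.rigid hc h.pos h.lt e1 e2 e3 e4

end Pool.Agent.Lib.MP_312682_mp
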