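import Pool.Agent.Lib.MP_312682_mp.Mul

/-! Form domains as closed subspaces of `L²(ν; ℂ³)`. -/

open scoped InnerProductSpace ENNReal Matrix ContDiff
open ContinuousLinearMap MeasureTheory Complex

set_option linter.unusedSectionVars false

noncomputable section

namespace Pool.Agent.Lib.MP_312682_mp

section cl

variable {X Y : Type*} [NormedAddCommGroup X] [InnerProductSpace ℂ X] [CompleteSpace X]
  [NormedAddCommGroup Y] [InnerProductSpace ℂ Y] [CompleteSpace Y]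

def cl (s : Set X) : Submodule ℂ X := (Submodule.span ℂ s).topologicalClosure

instance (s : Set X) : CompleteSpace (cl s) :=
  (Submodule.isClosed_topologicalClosure _).completeSpace_coe

def PC (s : Set X) : X →L[ℂ] X := (cl s).starProjection

lemma proj_PC (s : Set X) : Proj (PC s) := proj_star _

lemma PC_mem (s : Set X) (x : X) : PC s x ∈ cl s := (cl s).starProjection_apply_mem x

lemma PC_self {s : Set X} {x : X} (h : x ∈ cl s) : PC s x = x :=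
  Submodule.starProjection_eq_self_iff.2 h

lemma mem_cl {s : Set X} {x : X} (h : x ∈ s) : x ∈ cl s :=
  Submodule.le_topologicalClosure _ (Submodule.subset_span h)

lemma isClosed_cl (s : Set X) : IsClosed (cl s : Set X) := Submodule.isClosed_topologicalClosure _

lemma cl_le {s : Set X} {U : Submodule ℂ X} (hU : IsClosed (U : Set X)) (h : s ⊆ U) : cl s ≤ U :=
  Submodule.topologicalClosure_minimal _ (Submodule.span_le.2 h) hU

lemma cl_map {s : Set X} {t : Set Y} (Ψ : X →L[ℂ] Y) (h : ∀ x ∈ s, Ψ x ∈ cl t) {x : X}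
    (hx : x ∈ cl s) : Ψ x ∈ cl t :=
  cl_le (U := (cl t).comap (Ψ : X →ₗ[ℂ] Y)) ((isClosed_cl t).preimage Ψ.continuous) h hx

lemma PC_pres {s : Set X} {t : Set Y} (Ψ : X →L[ℂ] Y) (h : ∀ x ∈ s, Ψ x ∈ cl t) :
    PC t ∘L Ψ ∘L PC s = Ψ ∘L PC s := by
  ext1 x
  exact PC_self (cl_map Ψ h (PC_mem s x))

lemma PC_pres' {s t : Set X} (Ψ : X →L[ℂ] X) (h : ∀ x ∈ s, Ψ x ∈ cl t) :
    PC t * Ψ * PC s = Ψ * PC s := PC_pres Ψ h

lemma inner_cl {s : Set X} {y : X} (h : ∀ x ∈ s, ⟪y, x⟫_ℂ = 0) {x : X} (hx : x ∈ cl s) :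
    ⟪y, x⟫_ℂ = 0 :=
  cl_le (U := LinearMap.ker (innerSL ℂ y : X →ₗ[ℂ] ℂ)) (innerSL ℂ y).isClosed_ker h hx

lemma PC_eq {s : Set X} {h w : X} (hw : w ∈ cl s) (ho : ∀ x ∈ s, ⟪h - w, x⟫_ℂ = 0) :
    PC s h = w :=
  Submodule.eq_starProjection_of_mem_of_inner_eq_zero hw fun _ hx => inner_cl ho hx

lemma PC_form {s : Set X} {M M' : X →L[ℂ] X}
    (h : ∀ x ∈ s, ∀ y ∈ s, ⟪x, M y⟫_ℂ = ⟪x, M' y⟫_ℂ) : PC s * M * PC s = PC s * M' * PC s := by
  have h1 : ∀ x ∈ s, ∀ y ∈ cl s, ⟪x, (M - M') y⟫_ℂ = 0 := by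
    intro x hx y hy
    rw [← adjoint_inner_left]
    refine inner_cl (fun y hy => ?_) hy
    rw [adjoint_inner_left, sub_apply, inner_sub_right, h x hx y hy, sub_self]
  ext1 y
  have h2 : PC s ((M - M') (PC s y)) = 0 := by
    refine PC_eq (zero_mem _) fun x hx => ?_
    rw [sub_zero, inner_eq_zero_symm]
    exact h1 x hx _ (PC_mem s y)
  rw [sub_apply, map_sub, sub_eq_zero] at h2
  exact h2

lemma PC_mono {s t : Set X} (h : ∀ x ∈ s, x ∈ cl t) : PC t * PC s * PC t = PC s := by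
  have h1 : PC t * PC s = PC s := by
    simpa using PC_pres' (s := s) (t := t) 1 h
  have h2 : PC s * PC t = PC s := by
    have := congrArg star h1
    rwa [star_mul, (proj_PC s).sa, (proj_PC t).sa] at this
  rw [h1, h2]

end cl

def d1 (u : ℂ → ℂ) (z : ℂ) : ℂ := fderiv ℝ u z 1
def d2 (u : ℂ → ℂ) (z : ℂ) : ℂ := fderiv ℝ u z I

def Dv (μ : ℝ) (u : ℂ → ℂ) (z : ℂ) : E3 := !₂[μ * u z, d1 u z, d2 u z]

@[simp] lemma Dv_0 (μ : ℝ) (u : ℂ → ℂ) (z : ℂ) : Dv μ u z 0 = μ * u z := rfl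
@[simp] lemma Dv_1 (μ : ℝ) (u : ℂ → ℂ) (z : ℂ) : Dv μ u z 1 = d1 u z := rfl
@[simp] lemma Dv_2 (μ : ℝ) (u : ℂ → ℂ) (z : ℂ) : Dv μ u z 2 = d2 u z := rfl

lemma E3_ext {v w : E3} (h0 : v 0 = w 0) (h1 : v 1 = w 1) (h2 : v 2 = w 2) : v = w := by
  ext i; fin_cases i
  exacts [h0, h1, h2]

lemma d1_mul {f u : ℂ → ℂ} {z : ℂ} (hf : DifferentiableAt ℝ f z) (hu : DifferentiableAt ℝ u z) :
    d1 (fun z => f z * u z) z = f z * d1 u z + d1 f z * u z := by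
  simp only [d1, fderiv_fun_mul hf hu, add_apply, smul_apply, smul_eq_mul]; ring

lemma d2_mul {f u : ℂ → ℂ} {z : ℂ} (hf : DifferentiableAt ℝ f z) (hu : DifferentiableAt ℝ u z) :
    d2 (fun z => f z * u z) z = f z * d2 u z + d2 f z * u z := by
  simp only [d2, fderiv_fun_mul hf hu, add_apply, smul_apply, smul_eq_mul]; ring

lemma continuous_d1 {u : ℂ → ℂ} (hu : ContDiff ℝ ∞ u) : Continuous (d1 u) :=
  (hu.continuous_fderiv (by simp)).clm_apply continuous_const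

lemma continuous_d2 {u : ℂ → ℂ} (hu : ContDiff ℝ ∞ u) : Continuous (d2 u) :=
  (hu.continuous_fderiv (by simp)).clm_apply continuous_const

lemma contDiff_d1 {u : ℂ → ℂ} (hu : ContDiff ℝ ∞ u) : ContDiff ℝ ∞ (d1 u) :=
  (hu.fderiv_right (m := ∞) (by simp)).clm_apply contDiff_const

lemma contDiff_d2 {u : ℂ → ℂ} (hu : ContDiff ℝ ∞ u) : ContDiff ℝ ∞ (d2 u) :=
  (hu.fderiv_right (m := ∞) (by simp)).clm_apply contDiff_const

lemma continuous_E3 {α : Type*} [TopologicalSpace α] {a b c : α → ℂ} (ha : Continuous a)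
    (hb : Continuous b) (hc : Continuous c) : Continuous fun z => (!₂[a z, b z, c z] : E3) := by
  refine (PiLp.continuous_toLp 2 _).comp (continuous_pi fun i => ?_)
  fin_cases i
  exacts [ha, hb, hc]

lemma continuous_Dv (μ : ℝ) {u : ℂ → ℂ} (hu : ContDiff ℝ ∞ u) : Continuous (Dv μ u) :=
  continuous_E3 (continuous_const.mul hu.continuous) (continuous_d1 hu) (continuous_d2 hu)

lemma Dv_add (μ : ℝ) {u v : ℂ → ℂ} (hu : ContDiff ℝ ∞ u) (hv : ContDiff ℝ ∞ v) :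
    Dv μ (u + v) = Dv μ u + Dv μ v := by
  ext1 z
  have h1 := hu.differentiable (by simp) z
  have h2 := hv.differentiable (by simp) z
  refine E3_ext ?_ ?_ ?_ <;> simp [d1, d2, fderiv_add h1 h2, mul_add]

lemma Dv_smul (μ : ℝ) (c : ℂ) {u : ℂ → ℂ} (hu : ContDiff ℝ ∞ u) :
    Dv μ (c • u) = c • Dv μ u := by
  ext1 z
  have h1 := hu.differentiable (by simp) z
  refine E3_ext ?_ ?_ ?_ <;> simp [d1, d2, fderiv_const_smul h1]
  ring

variable {ν : Measure ℂ}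

open Classical in
/-- class in `L²` of a function -/
def tl {α : Type*} [MeasurableSpace α] (ν : Measure α) (f : α → E3) : L2 ν :=
  if h : MemLp f 2 ν then h.toLp f else 0

lemma tl_coe {α : Type*} [MeasurableSpace α] {ν : Measure α} {f : α → E3} (h : MemLp f 2 ν) :
    tl ν f =ᵐ[ν] f := by
  rw [tl, dif_pos h]; exact h.coeFn_toLp

def DL (ν : Measure ℂ) (μ : ℝ) (u : ℂ → ℂ) : L2 ν := tl ν (Dv μ u)

structure Core (ν : Measure ℂ) (𝒯 : Set (ℂ → ℂ)) : Prop where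
  smooth : ∀ u ∈ 𝒯, ContDiff ℝ ∞ u
  mem : ∀ μ, ∀ u ∈ 𝒯, MemLp (Dv μ u) 2 ν

def Em (a b : ℂ) : Mat := !![0, 0, 0; a, 0, 0; b, 0, 0]

lemma norm_act_Em (a b : ℂ) : ‖act (Em a b)‖ ≤ ‖a‖ + ‖b‖ :=
  (norm_act_le _).trans (by simp [Em, Fin.sum_univ_three])

lemma Bd_Em {α : Type*} [MeasurableSpace α] {ν : Measure α} {a b : α → ℂ} (ha : Bs ν a)
    (hb : Bs ν b) : Bd ν fun z => Em (a z) (b z) := by
  have : (fun z => Em (a z) (b z)) =
      fun z => (a z • (1 : Mat)) * Em 1 0 + (b z • (1 : Mat)) * Em 0 1 := by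
    ext z i j; fin_cases i <;> fin_cases j <;> simp [Em]
  rw [this]
  exact (ha.bd.mul (Bd.const _)).add (hb.bd.mul (Bd.const _))

def EM {α : Type*} [MeasurableSpace α] (ν : Measure α) (a b : α → ℂ) : L2 ν →L[ℂ] L2 ν :=
  mm ν fun z => Em (a z) (b z)

section EM

variable {α : Type*} [MeasurableSpace α] {ν : Measure α} {a b : α → ℂ}

lemma p0_EM (ha : Bs ν a) (hb : Bs ν b) : p0 ν * EM ν a b = 0 := by
  rw [p0, EM, mm_mul (Bd.const _) (Bd_Em ha hb), ← mm_zero]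
  refine mm_eq_of fun z => ?_
  ext i j; fin_cases i <;> fin_cases j <;> simp [Em, e00, Matrix.mul_apply, Fin.sum_univ_three]

lemma EM_p0 (ha : Bs ν a) (hb : Bs ν b) : EM ν a b * p0 ν = EM ν a b := by
  rw [p0, EM, mm_mul (Bd_Em ha hb) (Bd.const _)]
  refine mm_eq_of fun z => ?_
  ext i j; fin_cases i <;> fin_cases j <;> simp [Em, e00, Matrix.mul_apply, Fin.sum_univ_three]

lemma EM_EM (ha : Bs ν a) (hb : Bs ν b) : EM ν a b * EM ν a b = 0 := by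
  rw [EM, mm_mul (Bd_Em ha hb) (Bd_Em ha hb), ← mm_zero]
  refine mm_eq_of fun z => ?_
  ext i j; fin_cases i <;> fin_cases j <;> simp [Em, Matrix.mul_apply, Fin.sum_univ_three]

lemma EM_norm_le {C : ℝ} (h0 : 0 ≤ C) (h : ∀ᵐ z ∂ν, ‖a z‖ + ‖b z‖ ≤ C) : ‖EM ν a b‖ ≤ C := by
  refine mm_norm_le h0 ?_
  filter_upwards [h] with z hz
  exact (norm_act_Em _ _).trans hz

lemma p0_sm {f : α → ℂ} (hf : Bs ν f) : p0 ν * sm ν f = sm ν f * p0 ν := sm_comm hf (Bd.const _)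

lemma sm_EM {f : α → ℂ} (hf : Bs ν f) (ha : Bs ν a) (hb : Bs ν b) :
    sm ν f * EM ν a b = EM ν (fun z => f z * a z) (fun z => f z * b z) := by
  rw [EM, sm_mul_mm hf (Bd_Em ha hb)]
  refine mm_eq_of fun z => ?_
  ext i j; fin_cases i <;> fin_cases j <;> simp [Em]

lemma EM_congr {a' b' : α → ℂ} (ha : a =ᵐ[ν] a') (hb : b =ᵐ[ν] b') : EM ν a b = EM ν a' b' :=
  mm_congr (by filter_upwards [ha, hb] with z h1 h2; rw [h1, h2])

end EM

/-- a smooth multiplier, bounded with bounded gradient -/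
structure Mult (ν : Measure ℂ) (f : ℂ → ℂ) : Prop where
  smooth : ContDiff ℝ ∞ f
  b0 : Bs ν f
  b1 : Bs ν (d1 f)
  b2 : Bs ν (d2 f)

def EL (ν : Measure ℂ) (μ : ℝ) (f : ℂ → ℂ) : L2 ν →L[ℂ] L2 ν :=
  EM ν (fun z => (μ : ℂ)⁻¹ * d1 f z) (fun z => (μ : ℂ)⁻¹ * d2 f z)

lemma Mult.c1 {f : ℂ → ℂ} (h : Mult ν f) (μ : ℝ) : Bs ν fun z => (μ : ℂ)⁻¹ * d1 f z :=
  (Bs.const _).mul h.b1

lemma Mult.c2 {f : ℂ → ℂ} (h : Mult ν f) (μ : ℝ) : Bs ν fun z => (μ : ℂ)⁻¹ * d2 f z :=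
  (Bs.const _).mul h.b2

lemma leibniz {μ : ℝ} (hμ : 0 < μ) {f u : ℂ → ℂ} (hf : Mult ν f) (hu : ContDiff ℝ ∞ u)
    (h1 : MemLp (Dv μ u) 2 ν) (h2 : MemLp (Dv μ fun z => f z * u z) 2 ν) :
    (sm ν f + EL ν μ f) (DL ν μ u) = DL ν μ fun z => f z * u z := by
  ext1
  filter_upwards [Lp.coeFn_add (sm ν f (DL ν μ u)) (EL ν μ f (DL ν μ u)), sm_coe hf.b0 (DL ν μ u),
    mm_coe (Bd_Em (hf.c1 μ) (hf.c2 μ)) (DL ν μ u), tl_coe h1, tl_coe h2] with z e1 e2 e3 e4 e5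
  rw [add_apply, e1, Pi.add_apply, e2, EL, EM, e3, DL, DL, e4, e5]
  have a1 := hf.smooth.differentiable (by simp) z
  have a2 := hu.differentiable (by simp) z
  have a3 : (μ : ℂ) ≠ 0 := by exact_mod_cast hμ.ne'
  refine E3_ext ?_ ?_ ?_
  · simp [act_apply, Em]; ring
  · simp [act_apply, Em, d1_mul a1 a2]; field_simp
  · simp [act_apply, Em, d2_mul a1 a2]; field_simp

lemma leibniz_pres {μ : ℝ} (hμ : 0 < μ) {𝒯 : Set (ℂ → ℂ)} (hc : Core ν 𝒯) {f : ℂ → ℂ}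
    (hf : Mult ν f) (h : ∀ u ∈ 𝒯, (fun z => f z * u z) ∈ 𝒯) :
    PC (DL ν μ '' 𝒯) * (sm ν f + EL ν μ f) * PC (DL ν μ '' 𝒯) =
      (sm ν f + EL ν μ f) * PC (DL ν μ '' 𝒯) := by
  refine PC_pres' _ ?_
  rintro _ ⟨u, hu, rfl⟩
  rw [leibniz hμ hf (hc.smooth u hu) (hc.mem μ u hu) (hc.mem μ _ (h u hu))]
  exact mem_cl ⟨_, h u hu, rfl⟩

/-- smooth complex functions with compact support in `Ω` -/
def testC (Ω : Set ℂ) : Submodule ℂ (ℂ → ℂ) where
  carrier := {u | ContDiff ℝ ∞ u ∧ HasCompactSupport u ∧ tsupport u ⊆ Ω}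
  add_mem' := fun {u v} hu hv => ⟨hu.1.add hv.1, hu.2.1.add hv.2.1,
    (tsupport_add u v).trans (Set.union_subset hu.2.2 hv.2.2)⟩
  zero_mem' := ⟨contDiff_const, HasCompactSupport.zero, by simp⟩
  smul_mem' := fun c u hu => ⟨hu.1.const_smul c, hu.2.1.smul_left,
    (tsupport_smul_subset_right (fun _ => c) u).trans hu.2.2⟩

lemma Dv_eq_zero (μ : ℝ) {u : ℂ → ℂ} {z : ℂ} (h : z ∉ tsupport u) : Dv μ u z = 0 := by
  have h1 : u =ᶠ[nhds z] 0 := notMem_tsupport_iff_eventuallyEq.1 h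
  refine E3_ext ?_ ?_ ?_ <;> simp [d1, d2, h1.fderiv_eq, h1.eq_of_nhds]

lemma memLp_Dv_of_compact (μ : ℝ) {u : ℂ → ℂ} (hu : ContDiff ℝ ∞ u) (hc : HasCompactSupport u) :
    MemLp (Dv μ u) 2 volume :=
  (continuous_Dv μ hu).memLp_of_hasCompactSupport
    (HasCompactSupport.intro hc fun _ hz => Dv_eq_zero μ hz)

lemma core_test (Ω : Set ℂ) : Core volume (testC Ω) :=
  ⟨fun _ hu => hu.1, fun μ _ hu => memLp_Dv_of_compact μ hu.1 hu.2.1⟩

lemma mul_mem_test {Ω : Set ℂ} {f u : ℂ → ℂ} (hf : ContDiff ℝ ∞ f) (hu : u ∈ testC Ω) :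
    (fun z => f z * u z) ∈ testC Ω :=
  ⟨hf.mul hu.1, hu.2.1.mul_left, (tsupport_mul_subset_right).trans hu.2.2⟩

/-- projector onto the form domain of `Ω` -/
def PO (μ : ℝ) (Ω : Set ℂ) : L2 (volume : Measure ℂ) →L[ℂ] L2 (volume : Measure ℂ) :=
  PC (DL volume μ '' testC Ω)

/-- `μ²` times the resolvent -/
def GO (μ : ℝ) (Ω : Set ℂ) : L2 (volume : Measure ℂ) →L[ℂ] L2 (volume : Measure ℂ) :=
  p0 volume * PO μ Ω * p0 volume

def TO (μ : ℝ) (Ω : Set ℂ) : L2 (volume : Measure ℂ) →L[ℂ] L2 (volume : Measure ℂ) :=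
  p0 volume * PO μ Ω

def energyC (u : ℂ → ℂ) : ℝ := ∫ z, (‖d1 u z‖ ^ 2 + ‖d2 u z‖ ^ 2)
def massC (u : ℂ → ℂ) : ℝ := ∫ z, ‖u z‖ ^ 2

/-- counting predicate for the Dirichlet form -/
def CC (Ω : Set ℂ) (k : ℕ) (l : ℝ) : Prop :=
  ∃ W ≤ testC Ω, Module.finrank ℂ W = k ∧ FiniteDimensional ℂ W ∧
    ∃ l' < l, ∀ u ∈ W, energyC u ≤ l' * massC u

lemma integrable_mass {u : ℂ → ℂ} (hu : Continuous u) (hc : HasCompactSupport u) :
    Integrable fun z => ‖u z‖ ^ 2 :=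
  (hu.memLp_of_hasCompactSupport (p := 2) hc).integrable_norm_pow two_ne_zero

lemma compact_d1 {u : ℂ → ℂ} (hc : HasCompactSupport u) : HasCompactSupport (d1 u) :=
  HasCompactSupport.intro hc fun _ hz => congrArg (· 1) (Dv_eq_zero 0 hz)

lemma compact_d2 {u : ℂ → ℂ} (hc : HasCompactSupport u) : HasCompactSupport (d2 u) :=
  HasCompactSupport.intro hc fun _ hz => congrArg (· 2) (Dv_eq_zero 0 hz)

lemma integrable_energy {u : ℂ → ℂ} (hu : ContDiff ℝ ∞ u) (hc : HasCompactSupport u) :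
    Integrable fun z => ‖d1 u z‖ ^ 2 + ‖d2 u z‖ ^ 2 :=
  (integrable_mass (continuous_d1 hu) (compact_d1 hc)).add
    (integrable_mass (continuous_d2 hu) (compact_d2 hc))

lemma norm_DL {μ : ℝ} {u : ℂ → ℂ} (hu : ContDiff ℝ ∞ u) (hc : HasCompactSupport u) :
    ‖DL volume μ u‖ ^ 2 = μ ^ 2 * massC u + energyC u := by
  rw [norm_sq_L2, massC, energyC, ← integral_const_mul,
    ← integral_add ((integrable_mass hu.continuous hc).const_mul _) (integrable_energy hu hc)]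
  refine integral_congr_ae ?_
  filter_upwards [tl_coe (memLp_Dv_of_compact μ hu hc)] with z hz
  rw [DL, hz, norm_sq_E3]
  simp [mul_pow, add_assoc]

lemma p0_coe {α : Type*} [MeasurableSpace α] {ν : Measure α} (w : L2 ν) :
    p0 ν w =ᵐ[ν] fun z => !₂[w z 0, 0, 0] := by
  filter_upwards [mm_coe (Bd.const e00) w] with z hz
  rw [p0, hz]
  refine E3_ext ?_ ?_ ?_ <;> simp [act_apply, e00]

lemma norm_p0 {α : Type*} [MeasurableSpace α] {ν : Measure α} (w : L2 ν) :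
    ‖p0 ν w‖ ^ 2 = ∫ z, ‖w z 0‖ ^ 2 ∂ν := by
  rw [norm_sq_L2]
  refine integral_congr_ae ?_
  filter_upwards [p0_coe w] with z hz
  rw [hz, norm_sq_E3]; simp

lemma norm_p0_DL {μ : ℝ} {u : ℂ → ℂ} (hu : ContDiff ℝ ∞ u) (hc : HasCompactSupport u) :
    ‖p0 volume (DL volume μ u)‖ ^ 2 = μ ^ 2 * massC u := by
  rw [norm_p0, massC, ← integral_const_mul]
  refine integral_congr_ae ?_
  filter_upwards [tl_coe (memLp_Dv_of_compact μ hu hc)] with z hz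
  rw [DL, hz]
  simp [mul_pow]

lemma massC_nonneg (u : ℂ → ℂ) : 0 ≤ massC u := integral_nonneg fun _ => by positivity
lemma energyC_nonneg (u : ℂ → ℂ) : 0 ≤ energyC u := integral_nonneg fun _ => by positivity

lemma massC_pos {u : ℂ → ℂ} (hu : Continuous u) (hc : HasCompactSupport u) (h0 : u ≠ 0) :
    0 < massC u := by
  refine (massC_nonneg u).lt_of_ne' fun h => h0 ?_
  rw [massC, integral_eq_zero_iff_of_nonneg (fun _ => by positivity) (integrable_mass hu hc)] at h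
  have := (Continuous.ae_eq_iff_eq volume (by fun_prop) continuous_zero).1 h
  ext z
  simpa using congrFun this z

/-- the linear map `u ↦ (μ u, ∇ u)` -/
def DLm (μ : ℝ) (Ω : Set ℂ) : testC Ω →ₗ[ℂ] L2 (volume : Measure ℂ) where
  toFun u := DL volume μ u
  map_add' u v := by
    ext1
    filter_upwards [tl_coe ((core_test Ω).mem μ _ (u + v).2), tl_coe ((core_test Ω).mem μ _ u.2),
      tl_coe ((core_test Ω).mem μ _ v.2), Lp.coeFn_add (DL volume μ u) (DL volume μ v)]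
      with z h1 h2 h3 h4
    rw [h4, Pi.add_apply, DL, DL, DL, h1, h2, h3, Submodule.coe_add, Dv_add μ u.2.1 v.2.1]; rfl
  map_smul' c u := by
    ext1
    filter_upwards [tl_coe ((core_test Ω).mem μ _ (c • u).2), tl_coe ((core_test Ω).mem μ _ u.2),
      Lp.coeFn_smul c (DL volume μ u)] with z h1 h2 h4
    rw [RingHom.id_apply, h4, Pi.smul_apply, DL, DL, h1, h2, Submodule.coe_smul,
      Dv_smul μ c u.2.1]; rfl

lemma DLm_inj {μ : ℝ} (hμ : 0 < μ) (Ω : Set ℂ) : Function.Injective (DLm μ Ω) := by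
  rw [injective_iff_map_eq_zero]
  intro u hu
  by_contra h
  have h1 := massC_pos u.2.1.continuous u.2.2.1 fun h' => h (Subtype.ext h')
  have h2 := norm_DL (μ := μ) u.2.1 u.2.2.1
  change DL volume μ u = 0 at hu
  rw [hu, norm_zero] at h2
  have := energyC_nonneg u
  have : 0 < μ ^ 2 * massC u := by positivity
  nlinarith

lemma range_DLm (μ : ℝ) (Ω : Set ℂ) :
    Submodule.span ℂ (DL volume μ '' testC Ω) = LinearMap.range (DLm μ Ω) := by
  have : DL volume μ '' testC Ω = (LinearMap.range (DLm μ Ω) : Set _) := by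
    ext w
    constructor
    · rintro ⟨u, hu, rfl⟩; exact ⟨⟨u, hu⟩, rfl⟩
    · rintro ⟨u, rfl⟩; exact ⟨u, u.2, rfl⟩
  rw [this, Submodule.span_eq]

lemma T_DL (μ : ℝ) {Ω : Set ℂ} {u : ℂ → ℂ} (hu : u ∈ testC Ω) :
    ‖(TO μ Ω) (DL volume μ u)‖ ^ 2 = μ ^ 2 * massC u := by
  rw [TO, mul_apply_eq_comp, PO, PC_self (mem_cl (Set.mem_image_of_mem _ hu)), norm_p0_DL hu.1 hu.2.1]

lemma cnt_iff {μ : ℝ} (hμ : 0 < μ) (Ω : Set ℂ) (k : ℕ) {τ : ℝ} (hτ : 0 < τ) :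
    Cnt (TO μ Ω) (LinearMap.range (DLm μ Ω)) k τ ↔ CC Ω k (μ ^ 2 / τ - μ ^ 2) := by
  constructor
  · rintro ⟨W, hW, hk, hfin, τ', hτ', h⟩
    have e1 := Submodule.equivMapOfInjective _ (DLm_inj hμ Ω) (W.comap (DLm μ Ω))
    rw [Submodule.map_comap_eq_self hW] at e1
    have e2 := Submodule.equivMapOfInjective _ (testC Ω).injective_subtype (W.comap (DLm μ Ω))
    have e3 := e1.symm.trans e2
    refine ⟨(W.comap (DLm μ Ω)).map (testC Ω).subtype, Submodule.map_subtype_le _ _,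
      by rw [← e3.finrank_eq, hk], e3.finiteDimensional, μ ^ 2 / τ' - μ ^ 2, ?_, ?_⟩
    · have : μ ^ 2 / τ' < μ ^ 2 / τ := by gcongr
      linarith
    · rintro _ ⟨u, hu, rfl⟩
      have := h _ hu
      change τ' * ‖DL volume μ u‖ ^ 2 ≤ ‖(TO μ Ω) (DL volume μ u)‖ ^ 2 at this
      rw [T_DL μ u.2, norm_DL u.2.1 u.2.2.1] at this
      have h0 : 0 < τ' := hτ.trans hτ'
      change energyC u ≤ _ * massC u
      rw [sub_mul, div_mul_eq_mul_div, le_sub_iff_add_le, le_div_iff₀ h0]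
      linarith
  · rintro ⟨W, hW, hk, hfin, l', hl', h⟩
    have e1 := Submodule.equivMapOfInjective _ (DLm_inj hμ Ω) (W.comap (testC Ω).subtype)
    have e2 := Submodule.comapSubtypeEquivOfLe hW
    have e3 := e2.symm.trans e1
    have h0 : 0 < μ ^ 2 / τ := by positivity
    set l := max l' (μ ^ 2 / τ / 2 - μ ^ 2) with hl
    have h1 : l < μ ^ 2 / τ - μ ^ 2 := max_lt hl' (by linarith)
    have h2 : 0 < l + μ ^ 2 := by linarith [le_max_right l' (μ ^ 2 / τ / 2 - μ ^ 2)]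
    refine ⟨(W.comap (testC Ω).subtype).map (DLm μ Ω), LinearMap.map_le_range,
      by rw [← e3.finrank_eq, hk], e3.finiteDimensional, μ ^ 2 / (l + μ ^ 2), ?_, ?_⟩
    · rw [gt_iff_lt, lt_div_iff₀ h2, mul_comm, ← lt_div_iff₀ hτ]; linarith
    · rintro _ ⟨u, hu, rfl⟩
      change _ * ‖DL volume μ u‖ ^ 2 ≤ ‖(TO μ Ω) (DL volume μ u)‖ ^ 2
      rw [T_DL μ u.2, norm_DL u.2.1 u.2.2.1, div_mul_eq_mul_div, div_le_iff₀ h2]
      have h3 := h _ hu
      have h4 : l' * massC u ≤ l * massC u :=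
        mul_le_mul_of_nonneg_right (le_max_left _ _) (massC_nonneg _)
      change energyC u ≤ l' * massC u at h3
      have : μ ^ 2 * energyC u ≤ μ ^ 2 * (l * massC u) := by gcongr; linarith
      linarith

lemma TT_GO (μ : ℝ) (Ω : Set ℂ) :
    (TO μ Ω) ∘L adjoint (TO μ Ω) = GO μ Ω := by
  rw [TO, ← star_eq_adjoint, star_mul, proj_p0.sa, PO, (proj_PC _).sa, ← mul_def, GO, PO,
    mul_assoc, ← mul_assoc (PC _), (proj_PC _).idem, mul_assoc]

lemma adj_mem (μ : ℝ) (Ω : Set ℂ) (y : L2 (volume : Measure ℂ)) :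
    adjoint (TO μ Ω) y ∈ closure (LinearMap.range (DLm μ Ω) : Set _) := by
  rw [TO, ← star_eq_adjoint, star_mul, PO, (proj_PC _).sa, ← range_DLm]
  exact PC_mem _ _

theorem hsq_GO_eq {μ : ℝ} (hμ : 0 < μ) {Ω Ω' : Set ℂ} (h : hs2 (GO μ Ω) ≠ ⊤)
    (h' : hs2 (GO μ Ω') ≠ ⊤) (hc : ∀ k l, 0 < k → (CC Ω k l ↔ CC Ω' k l)) :
    hsq (GO μ Ω) = hsq (GO μ Ω') := by
  rw [← TT_GO] at h h'
  have a := hs2_le_of_cnt h h' (adj_mem μ Ω) (D' := LinearMap.range (DLm μ Ω'))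
    fun k τ hk hτ hh => (cnt_iff hμ _ _ hτ).2 ((hc _ _ hk).1 ((cnt_iff hμ _ _ hτ).1 hh))
  have b := hs2_le_of_cnt h' h (adj_mem μ Ω') (D' := LinearMap.range (DLm μ Ω))
    fun k τ hk hτ hh => (cnt_iff hμ _ _ hτ).2 ((hc _ _ hk).2 ((cnt_iff hμ _ _ hτ).1 hh))
  rw [TT_GO, TT_GO] at a b
  rw [hsq, hsq, le_antisymm a b]

end Pool.Agent.Lib.MP_312682_mp
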