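import Pool.Agent.Lib.MP_312682_mp.HS

/-! Sandwich bound, counting function and comparison of Hilbert-Schmidt norms. -/

open scoped InnerProductSpace ENNReal
open ContinuousLinearMap

set_option linter.unusedSectionVars false

noncomputable section

namespace Pool.Agent.Lib.MP_312682_mp

variable {A B A' B' : Type*} [NormedAddCommGroup A] [InnerProductSpace ℂ A] [CompleteSpace A]
  [NormedAddCommGroup B] [InnerProductSpace ℂ B] [CompleteSpace B]
  [NormedAddCommGroup A'] [InnerProductSpace ℂ A'] [CompleteSpace A']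
  [NormedAddCommGroup B'] [InnerProductSpace ℂ B'] [CompleteSpace B']

/-- eigenbasis of `T T†` -/
structure Eig (T : A →L[ℂ] B) where
  w : Set B
  b : HilbertBasis w ℂ B
  s : w → ℝ
  eig : ∀ i, T (adjoint T (b i)) = (s i : ℂ) • b i

lemma selfAdj_TT (T : A →L[ℂ] B) : IsSelfAdjoint (T ∘L adjoint T) := by
  rw [isSelfAdjoint_iff', adjoint_comp, adjoint_adjoint]

lemma exists_eig {T : A →L[ℂ] B} (h : hs2 (T ∘L adjoint T) ≠ ⊤) : Nonempty (Eig T) := by
  obtain ⟨w, b, s, hs⟩ := exists_eigenbasis (selfAdj_TT T) h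
  exact ⟨⟨w, b, s, hs⟩⟩

namespace Eig

variable {T : A →L[ℂ] B} (e : Eig T)

def x (i : e.w) : A := adjoint T (e.b i)

open Classical in
lemma inner_x (i j : e.w) : ⟪e.x i, e.x j⟫_ℂ = if i = j then (e.s i : ℂ) else 0 := by
  unfold x
  rw [adjoint_inner_left, e.eig, inner_smul_right, orthonormal_iff_ite.1 e.b.orthonormal]
  split_ifs with h <;> simp [h]

lemma norm_x (i : e.w) : ‖e.x i‖ ^ 2 = e.s i := by
  have := e.inner_x i i
  rw [if_pos rfl, inner_self_eq_norm_sq_to_K] at this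
  have h2 : ((‖e.x i‖ ^ 2 : ℝ) : ℂ) = (e.s i : ℂ) := by
    rw [← this]; simp
  exact_mod_cast h2

lemma s_nonneg (i : e.w) : 0 ≤ e.s i := by rw [← e.norm_x]; positivity

lemma x_eq_zero {i : e.w} (h : e.s i = 0) : e.x i = 0 := by
  have := e.norm_x i
  rw [h] at this
  simpa using this

lemma bessel_fin (y : A) (F : Finset e.w) :
    ∑ i ∈ F, ‖⟪e.x i, y⟫_ℂ‖ ^ 2 / e.s i ≤ ‖y‖ ^ 2 := by
  classical
  let u : {i // 0 < e.s i} → A := fun i => ((Real.sqrt (e.s i))⁻¹ : ℂ) • e.x i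
  have hu : Orthonormal ℂ u := by
    rw [orthonormal_iff_ite]
    intro i j
    simp only [u, inner_smul_left, inner_smul_right, e.inner_x]
    by_cases h : i = j
    · subst h
      have h1 : (Real.sqrt (e.s i) : ℂ) ≠ 0 := by
        exact_mod_cast (Real.sqrt_pos.2 i.2).ne'
      have h2 : (e.s i : ℂ) = (Real.sqrt (e.s i) : ℂ) * (Real.sqrt (e.s i) : ℂ) := by
        exact_mod_cast (Real.mul_self_sqrt i.2.le).symm
      simp only [if_true, map_inv₀, Complex.conj_ofReal]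
      rw [h2]
      field_simp
    · have : (i : e.w) ≠ j := fun h' => h (Subtype.ext h')
      simp [h, this]
  have h := hu.sum_inner_products_le y (s := F.subtype fun i => 0 < e.s i)
  refine le_trans (le_of_eq ?_) h
  have h3 : ∀ i : {i // 0 < e.s i}, ‖⟪u i, y⟫_ℂ‖ ^ 2 = ‖⟪e.x i, y⟫_ℂ‖ ^ 2 / e.s i := by
    intro i
    simp only [u, inner_smul_left, norm_mul, map_inv₀, Complex.conj_ofReal, norm_inv,
      Complex.norm_real, Real.norm_eq_abs, mul_pow, inv_pow, sq_abs, Real.sq_sqrt i.2.le]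
    ring
  simp_rw [h3]
  rw [Finset.sum_subtype_eq_sum_filter (f := fun i => ‖⟪e.x i, y⟫_ℂ‖ ^ 2 / e.s i),
    Finset.sum_filter]
  refine Finset.sum_congr rfl fun i _ => ?_
  split_ifs with h
  · rfl
  · have : e.s i = 0 := le_antisymm (not_lt.1 h) (e.s_nonneg i)
    simp [this]

lemma bessel (y : A) : ∑' i, ENNReal.ofReal (‖⟪e.x i, y⟫_ℂ‖ ^ 2 / e.s i) ≤ nsq y := by
  rw [ENNReal.tsum_eq_iSup_sum]
  refine iSup_le fun F => ?_
  rw [← ENNReal.ofReal_sum_of_nonneg fun i _ => div_nonneg (by positivity) (e.s_nonneg i)]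
  exact ENNReal.ofReal_le_ofReal (e.bessel_fin y F)

lemma hs2_eq : hs2 (T ∘L adjoint T) = ∑' i, ENNReal.ofReal (e.s i ^ 2) := by
  rw [hs2_basis e.b]
  congr 1
  ext i
  rw [comp_apply, e.eig, nsq, norm_smul, e.b.orthonormal.1 i]
  simp

lemma nsq_T (y : A) : nsq (T y) = ∑' i, nsq ⟪e.x i, y⟫_ℂ := by
  rw [parseval e.b]
  congr 1
  ext i
  rw [x, adjoint_inner_left]

lemma half (X : A →L[ℂ] A) {m : ℝ} (hm : ‖X‖ ≤ m) :
    ∑' j, ∑' i, ENNReal.ofReal (e.s j * (‖⟪e.x i, X (e.x j)⟫_ℂ‖ ^ 2 / e.s i)) ≤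
      ENNReal.ofReal (m ^ 2) * hs2 (T ∘L adjoint T) := by
  rw [e.hs2_eq, ← ENNReal.tsum_mul_left]
  refine ENNReal.tsum_le_tsum fun j => ?_
  simp_rw [ENNReal.ofReal_mul (e.s_nonneg j)]
  rw [ENNReal.tsum_mul_left]
  calc _ ≤ ENNReal.ofReal (e.s j) * (ENNReal.ofReal (m ^ 2) * nsq (e.x j)) := by
        gcongr
        exact (e.bessel _).trans (nsq_apply_le X hm _)
    _ = _ := by
        rw [nsq, e.norm_x, pow_two (e.s j), ENNReal.ofReal_mul (e.s_nonneg j)]; ring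

lemma T_le {σ : ℝ} (h0 : 0 ≤ σ) (y : A) (h : ∀ i, e.s i ≤ σ ∨ ⟪e.x i, y⟫_ℂ = 0) :
    ‖T y‖ ^ 2 ≤ σ * ‖y‖ ^ 2 := by
  have h1 : nsq (T y) ≤ ENNReal.ofReal σ * nsq y := by
    rw [e.nsq_T]
    refine le_trans ?_ (mul_le_mul_right (e.bessel y) _)
    rw [← ENNReal.tsum_mul_left]
    refine ENNReal.tsum_le_tsum fun i => ?_
    rw [nsq, ← ENNReal.ofReal_mul h0]
    apply ENNReal.ofReal_le_ofReal
    rcases h i with h | h
    · rcases (e.s_nonneg i).eq_or_lt with h2 | h2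
      · simp [e.x_eq_zero h2.symm]
      · rw [← mul_div_assoc, le_div_iff₀ h2, mul_comm]
        gcongr
    · simp [h]
  unfold nsq at h1
  rwa [← ENNReal.ofReal_mul h0, ENNReal.ofReal_le_ofReal_iff (by positivity)] at h1

end Eig

/-- the sandwich bound -/
lemma HL.sandwich {T : A →L[ℂ] B} {a : ℝ} (h : HL (T ∘L adjoint T) a) (X : A →L[ℂ] A) {m : ℝ}
    (hm : ‖X‖ ≤ m) : HL (T ∘L X ∘L adjoint T) (m * a) := by
  obtain ⟨e⟩ := exists_eig h.ne_top
  have h0 : 0 ≤ m := (norm_nonneg _).trans hm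
  refine ⟨mul_nonneg h0 h.1, ?_⟩
  have h1 := e.half X hm
  have h2 := e.half (adjoint X) (m := m) (by simpa using hm)
  rw [ENNReal.tsum_comm] at h2
  have h3 : 2 * hs2 (T ∘L X ∘L adjoint T) ≤
      2 * (ENNReal.ofReal (m ^ 2) * hs2 (T ∘L adjoint T)) := by
    rw [two_mul (ENNReal.ofReal (m ^ 2) * _)]
    refine le_trans ?_ (add_le_add h1 h2)
    rw [hs2_basis e.b, ← ENNReal.tsum_add, ← ENNReal.tsum_mul_left]
    refine ENNReal.tsum_le_tsum fun j => ?_
    rw [comp_apply, comp_apply, e.nsq_T, ← ENNReal.tsum_add, ← ENNReal.tsum_mul_left]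
    refine ENNReal.tsum_le_tsum fun i => ?_
    have hi := e.s_nonneg i
    have hj := e.s_nonneg j
    rw [adjoint_inner_right, norm_inner_symm (X (e.x j)),
      ← ENNReal.ofReal_add (by positivity) (by positivity), nsq, ← ENNReal.ofReal_ofNat 2,
      ← ENNReal.ofReal_mul (by norm_num)]
    apply ENNReal.ofReal_le_ofReal
    change 2 * ‖⟪e.x i, X (e.x j)⟫_ℂ‖ ^ 2 ≤ _
    rcases hi.eq_or_lt with hi | hi
    · simp [e.x_eq_zero hi.symm]
    rcases hj.eq_or_lt with hj | hj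
    · simp [e.x_eq_zero hj.symm]
    have : e.s j * (‖⟪e.x i, X (e.x j)⟫_ℂ‖ ^ 2 / e.s i) + e.s i * (‖⟪e.x i, X (e.x j)⟫_ℂ‖ ^ 2 / e.s j)
        - 2 * ‖⟪e.x i, X (e.x j)⟫_ℂ‖ ^ 2 =
        ‖⟪e.x i, X (e.x j)⟫_ℂ‖ ^ 2 * (e.s i - e.s j) ^ 2 / (e.s i * e.s j) := by
      field_simp; ring
    have h5 : 0 ≤ ‖⟪e.x i, X (e.x j)⟫_ℂ‖ ^ 2 * (e.s i - e.s j) ^ 2 / (e.s i * e.s j) := by
      positivity
    linarith
  rw [ENNReal.mul_le_mul_iff_right (by norm_num) (by norm_num)] at h3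
  refine h3.trans ?_
  rw [mul_pow, ENNReal.ofReal_mul (by positivity)]
  gcongr
  exact h.2

/-- `D` contains a `k`-dimensional subspace on which `‖T w‖² / ‖w‖²` stays above `τ` -/
def Cnt (T : A →L[ℂ] B) (D : Submodule ℂ A) (k : ℕ) (τ : ℝ) : Prop :=
  ∃ W ≤ D, Module.finrank ℂ W = k ∧ FiniteDimensional ℂ W ∧
    ∃ τ' > τ, ∀ w ∈ W, τ' * ‖w‖ ^ 2 ≤ ‖T w‖ ^ 2

namespace Eig

variable {T : A →L[ℂ] B} (e : Eig T)

lemma finset_of_cnt {D : Submodule ℂ A} {k : ℕ} {τ : ℝ} (hτ : 0 ≤ τ) (h : Cnt T D k τ) :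
    ∃ F : Finset e.w, F.card = k ∧ ∀ i ∈ F, τ < e.s i := by
  classical
  obtain ⟨W, -, hk, hfin, τ', hτ', hW⟩ := h
  by_cases hinf : {i | τ < e.s i}.Infinite
  · obtain ⟨F, hF, hc⟩ := hinf.exists_subset_card_eq k
    exact ⟨F, hc, fun i hi => hF hi⟩
  rw [Set.not_infinite] at hinf
  by_cases hle : k ≤ hinf.toFinset.card
  · obtain ⟨F, hF, hc⟩ := Finset.exists_subset_card_eq hle
    exact ⟨F, hc, fun i hi => by simpa using hF hi⟩
  exfalso
  let f : W →ₗ[ℂ] (hinf.toFinset → ℂ) :=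
    LinearMap.pi fun i => (innerSL ℂ (e.x i) : A →ₗ[ℂ] ℂ) ∘ₗ W.subtype
  have hker : LinearMap.ker f ≠ ⊥ := LinearMap.ker_ne_bot_of_finrank_lt (by
    rw [hk]; simpa using not_le.1 hle)
  obtain ⟨w, hw, hw0⟩ := Submodule.exists_mem_ne_zero_of_ne_bot hker
  have h1 := e.T_le hτ (w : A) fun i => by
    by_cases hi : τ < e.s i
    · right
      have := congrFun (LinearMap.mem_ker.1 hw) ⟨i, by simpa using hi⟩
      simpa [f] using this
    · left; exact not_lt.1 hi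
  have h2 := hW w w.2
  have h3 : 0 < ‖(w : A)‖ ^ 2 := by
    have : (w : A) ≠ 0 := fun h => hw0 (Subtype.ext h)
    positivity
  nlinarith

lemma cnt_of_finset {D : Submodule ℂ A} (hD : ∀ y, adjoint T y ∈ closure (D : Set A))
    {τ : ℝ} (hτ : 0 ≤ τ) (F : Finset e.w) (hF : ∀ i ∈ F, τ < e.s i) : Cnt T D F.card τ := by
  classical
  obtain ⟨τ', h1, h2⟩ : ∃ τ' > τ, ∀ i ∈ F, τ' < e.s i := by
    have : ∀ᶠ t in nhdsWithin τ (Set.Ioi τ), ∀ i ∈ F, t < e.s i := by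
      rw [Filter.eventually_all_finset]
      intro i hi
      exact nhdsWithin_le_nhds (gt_mem_nhds (hF i hi))
    obtain ⟨t, ht, ht'⟩ := (this.and self_mem_nhdsWithin).exists
    exact ⟨t, ht', ht⟩
  let q : (F → A) × (F → ℂ) → ℝ := fun p =>
    ‖T (∑ i, p.2 i • p.1 i)‖ ^ 2 - τ' * ‖∑ i, p.2 i • p.1 i‖ ^ 2
  have hq : Continuous q := by fun_prop
  let x0 : F → A := fun i => e.x i
  have hpos : ∀ c : F → ℂ, c ≠ 0 → 0 < q (x0, c) := by
    intro c hc
    have ho : Pairwise fun i j : F => ⟪e.x i, e.x j⟫_ℂ = 0 := by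
      intro i j hij
      rw [e.inner_x, if_neg fun h => hij (Subtype.ext h)]
    have e1 : ‖∑ i, c i • x0 i‖ ^ 2 = ∑ i : F, ‖c i‖ ^ 2 * e.s i := by
      rw [← inner_self_eq_norm_sq (𝕜 := ℂ), sum_inner, map_sum]
      refine Finset.sum_congr rfl fun i _ => ?_
      rw [inner_sum, Finset.sum_eq_single i]
      · rw [inner_self_eq_norm_sq, norm_smul, mul_pow, e.norm_x]
      · intro j _ hj
        simp [x0, inner_smul_left, inner_smul_right, ho hj.symm]
      · simp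
    have e2 : ‖T (∑ i, c i • x0 i)‖ ^ 2 = ∑ i : F, ‖c i‖ ^ 2 * e.s i ^ 2 := by
      have : T (∑ i, c i • x0 i) = ∑ i : F, (c i * e.s i) • e.b i := by
        simp [x0, x, e.eig, mul_smul]
      rw [this, ← inner_self_eq_norm_sq (𝕜 := ℂ), sum_inner, map_sum]
      refine Finset.sum_congr rfl fun i _ => ?_
      rw [inner_sum, Finset.sum_eq_single i]
      · rw [inner_self_eq_norm_sq, norm_smul, e.b.orthonormal.1]
        simp [mul_pow]
      · intro j _ hj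
        have : (i : e.w) ≠ j := fun h => hj (Subtype.ext h).symm
        simp [inner_smul_left, inner_smul_right, e.b.orthonormal.2 this]
      · simp
    simp only [q, e1, e2, Finset.mul_sum, ← Finset.sum_sub_distrib]
    have hterm : ∀ i : F, 0 < e.s i ^ 2 - τ' * e.s i := by
      intro i
      have := h2 i i.2
      nlinarith
    obtain ⟨j, hj⟩ := Function.ne_iff.1 hc
    refine Finset.sum_pos' (fun i _ => ?_) ⟨j, Finset.mem_univ _, ?_⟩
    · nlinarith [hterm i, sq_nonneg ‖c i‖]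
    · have : 0 < ‖c j‖ ^ 2 := by
        have : c j ≠ 0 := hj
        positivity
      nlinarith [hterm j]
  have hev : ∀ᶠ x in nhds x0, ∀ c ∈ Metric.sphere (0 : F → ℂ) 1, 0 < q (x, c) := by
    refine (isCompact_sphere _ _).eventually_forall_of_forall_eventually
      (P := fun x c => 0 < q (x, c)) fun c hc => ?_
    have hc0 : c ≠ 0 := by
      rintro rfl
      simp at hc
    exact hq.continuousAt.eventually (lt_mem_nhds (hpos c hc0))
  have hcl : x0 ∈ closure (Set.univ.pi fun _ : F => (D : Set A)) := by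
    rw [closure_pi_set]
    exact fun i _ => hD _
  obtain ⟨y, hy1, hy2⟩ := (hev.and_frequently (mem_closure_iff_frequently.1 hcl)).exists
  have hy3 : ∀ c : F → ℂ, c ≠ 0 → 0 < q (y, c) := by
    intro c hc
    have hn : 0 < ‖c‖ := norm_pos_iff.2 hc
    have h5 := hy1 (((‖c‖⁻¹ : ℝ) : ℂ) • c) (by
      simp [norm_smul, hn.ne'])
    have h6 : q (y, ((‖c‖⁻¹ : ℝ) : ℂ) • c) = ‖c‖⁻¹ ^ 2 * q (y, c) := by
      simp only [q, Pi.smul_apply, smul_eq_mul, mul_smul, ← Finset.smul_sum, map_smul, norm_smul,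
        Complex.norm_real, norm_inv, norm_norm]
      ring
    rw [h6] at h5
    exact (mul_pos_iff_of_pos_left (by positivity)).1 h5
  have hli : LinearIndependent ℂ y := by
    rw [Fintype.linearIndependent_iff]
    intro c hc
    by_contra hne
    have : c ≠ 0 := fun h => hne fun i => congrFun h i
    have := hy3 c this
    simp only [q, hc, map_zero, norm_zero] at this
    simp at this
  refine ⟨Submodule.span ℂ (Set.range y), ?_, ?_, ?_, τ', h1, ?_⟩
  · rw [Submodule.span_le]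
    rintro _ ⟨i, rfl⟩
    exact hy2 i trivial
  · rw [finrank_span_eq_card hli]; simp
  · exact FiniteDimensional.span_of_finite ℂ (Set.finite_range y)
  · intro w hw
    obtain ⟨c, rfl⟩ := (Submodule.mem_span_range_iff_exists_fun ℂ).1 hw
    by_cases hc : c = 0
    · simp [hc]
    · have := hy3 c hc
      simp only [q] at this
      linarith

end Eig

lemma sum_sq_le_of_count {ι κ : Type*} (f : ι → ℝ) (g : κ → ℝ)
    (h : ∀ τ > 0, ∀ F : Finset ι, (∀ i ∈ F, τ < f i) →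
      ∃ F' : Finset κ, F'.card = F.card ∧ ∀ j ∈ F', τ < g j) (hf : ∀ i, 0 ≤ f i) :
    ∑' i, ENNReal.ofReal (f i ^ 2) ≤ ∑' j, ENNReal.ofReal (g j ^ 2) := by
  classical
  have key : ∀ ε > 0, ∀ F : Finset ι, ∃ F' : Finset κ, F'.card ≤ F.card ∧
      ∑ i ∈ F, (max (f i - ε) 0) ^ 2 ≤ ∑ j ∈ F', g j ^ 2 := by
    intro ε hε F
    induction F using Finset.induction_on_min_value f with
    | empty => exact ⟨∅, by simp, by simp⟩
    | insert a F ha hmin ih =>
      obtain ⟨F', hc, hs⟩ := ih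
      rw [Finset.sum_insert ha, Finset.card_insert_of_notMem ha]
      by_cases hfa : f a ≤ ε
      · refine ⟨F', by omega, ?_⟩
        rw [max_eq_right (by linarith)]
        simpa using hs
      · push Not at hfa
        obtain ⟨F'', hc', hs'⟩ := h (f a - ε) (by linarith) (insert a F) (by
          intro i hi
          rcases Finset.mem_insert.1 hi with rfl | hi
          · linarith
          · linarith [hmin i hi])
        rw [Finset.card_insert_of_notMem ha] at hc'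
        obtain ⟨j, hj, hj'⟩ := Finset.exists_mem_notMem_of_card_lt_card (s := F') (t := F'')
          (by omega)
        refine ⟨insert j F', by rw [Finset.card_insert_of_notMem hj']; omega, ?_⟩
        rw [Finset.sum_insert hj', max_eq_left (by linarith)]
        have := hs' j hj
        have : (f a - ε) ^ 2 ≤ g j ^ 2 := by
          have : 0 ≤ f a - ε := by linarith
          gcongr
        linarith
  rw [ENNReal.tsum_eq_iSup_sum]
  refine iSup_le fun F => ?_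
  rw [← ENNReal.ofReal_sum_of_nonneg fun i _ => by positivity]
  have hc : Continuous fun ε : ℝ => ENNReal.ofReal (∑ i ∈ F, (max (f i - ε) 0) ^ 2) :=
    ENNReal.continuous_ofReal.comp (by fun_prop)
  have ht := (hc.tendsto 0).mono_left (nhdsWithin_le_nhds (s := Set.Ioi (0 : ℝ)))
  have h0 : ∑ i ∈ F, (max (f i - 0) 0) ^ 2 = ∑ i ∈ F, f i ^ 2 :=
    Finset.sum_congr rfl fun i _ => by rw [sub_zero, max_eq_left (hf i)]
  rw [h0] at ht
  refine le_of_tendsto ht ?_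
  filter_upwards [self_mem_nhdsWithin] with ε hε
  obtain ⟨F', -, hs⟩ := key ε hε F
  refine (ENNReal.ofReal_le_ofReal hs).trans ?_
  rw [ENNReal.ofReal_sum_of_nonneg fun i _ => by positivity]
  exact ENNReal.sum_le_tsum F'

theorem hs2_le_of_cnt {T : A →L[ℂ] B} {T' : A' →L[ℂ] B'} {D : Submodule ℂ A}
    {D' : Submodule ℂ A'} (h : hs2 (T ∘L adjoint T) ≠ ⊤) (h' : hs2 (T' ∘L adjoint T') ≠ ⊤)
    (hD : ∀ y, adjoint T y ∈ closure (D : Set A))
    (hc : ∀ k τ, 0 < k → 0 < τ → Cnt T D k τ → Cnt T' D' k τ) :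
    hs2 (T ∘L adjoint T) ≤ hs2 (T' ∘L adjoint T') := by
  obtain ⟨e⟩ := exists_eig h
  obtain ⟨e'⟩ := exists_eig h'
  rw [e.hs2_eq, e'.hs2_eq]
  refine sum_sq_le_of_count _ _ (fun τ hτ F hF => ?_) e.s_nonneg
  rcases F.card.eq_zero_or_pos with h0 | h0
  · exact ⟨∅, by simp [h0], by simp⟩
  exact e'.finset_of_cnt hτ.le (hc _ _ h0 hτ (e.cnt_of_finset hD hτ.le F hF))

/-- the top of the spectrum -/
theorem exists_top {T : A →L[ℂ] B} {D : Submodule ℂ A} (h : hs2 (T ∘L adjoint T) ≠ ⊤)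
    (hD : ∀ y, adjoint T y ∈ closure (D : Set A)) (hT : T ≠ 0) :
    ∃ σ > 0, (∃ x ∈ closure (D : Set A), x ≠ 0 ∧ ‖T x‖ ^ 2 = σ * ‖x‖ ^ 2) ∧
      (∀ w, ‖T w‖ ^ 2 ≤ σ * ‖w‖ ^ 2) ∧ ∀ τ > 0, (Cnt T D 1 τ ↔ τ < σ) := by
  obtain ⟨e⟩ := exists_eig h
  obtain ⟨i0, hi0⟩ : ∃ i, 0 < e.s i := by
    by_contra hc
    push Not at hc
    apply hT
    ext y
    have := e.T_le le_rfl y fun i => Or.inl (hc i)
    simpa using this
  have hfin : {i | ENNReal.ofReal (e.s i0 ^ 2) ≤ ENNReal.ofReal (e.s i ^ 2)}.Finite :=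
    ENNReal.finite_const_le_of_tsum_ne_top (by rwa [← e.hs2_eq]) (by
      rw [ne_eq, ENNReal.ofReal_eq_zero, not_le]; positivity)
  obtain ⟨j, hj, hmax⟩ := Set.exists_max_image _ e.s hfin ⟨i0, by simp⟩
  have hj0 : e.s i0 ≤ e.s j := hmax i0 (by simp)
  have hall : ∀ i, e.s i ≤ e.s j := by
    intro i
    by_cases hi : e.s i0 ≤ e.s i
    · exact hmax i (ENNReal.ofReal_le_ofReal (by gcongr))
    · linarith [not_le.1 hi]
  have hpos : 0 < e.s j := hi0.trans_le hj0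
  refine ⟨e.s j, hpos, ⟨e.x j, hD _, ?_, ?_⟩, fun w => e.T_le hpos.le w fun i => Or.inl (hall i),
    fun τ hτ => ⟨fun hc => ?_, fun hc => ?_⟩⟩
  · intro h0
    have := e.norm_x j
    rw [h0] at this
    simp at this
    linarith
  · rw [e.norm_x, Eig.x, e.eig, norm_smul, e.b.orthonormal.1]
    simp [pow_two]
  · obtain ⟨F, hF, hF'⟩ := e.finset_of_cnt hτ.le hc
    obtain ⟨i, rfl⟩ := Finset.card_eq_one.1 hF
    exact (hF' i (by simp)).trans_le (hall i)
  · simpa using e.cnt_of_finset hD hτ.le {j} (by simpa using hc)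

lemma almost_eig {T : A →L[ℂ] B} {σ : ℝ} (hσ : 0 < σ) (h : ∀ w, ‖T w‖ ^ 2 ≤ σ * ‖w‖ ^ 2) (w : A) :
    ‖(σ : ℂ) • w - adjoint T (T w)‖ ^ 2 ≤ σ * (σ * ‖w‖ ^ 2 - ‖T w‖ ^ 2) := by
  have h1 : ‖adjoint T (T w)‖ ^ 2 ≤ σ * ‖T w‖ ^ 2 := by
    have hT : ‖T‖ ≤ Real.sqrt σ := opNorm_le_bound _ (Real.sqrt_nonneg _) fun y => by
      have := h y
      rw [← Real.sq_sqrt hσ.le, ← mul_pow] at this
      exact (pow_le_pow_iff_left₀ (norm_nonneg _) (by positivity) two_ne_zero).1 this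
    have h2 : ‖adjoint T (T w)‖ ≤ Real.sqrt σ * ‖T w‖ :=
      ((adjoint T).le_opNorm _).trans (by gcongr; simpa using hT)
    calc _ ≤ (Real.sqrt σ * ‖T w‖) ^ 2 := by gcongr
      _ = _ := by rw [mul_pow, Real.sq_sqrt hσ.le]
  rw [@norm_sub_sq ℂ, inner_smul_left, adjoint_inner_right, inner_self_eq_norm_sq_to_K, norm_smul]
  simp only [Complex.norm_real, Real.norm_eq_abs, mul_pow, sq_abs, Complex.conj_ofReal]
  have : RCLike.re ((σ : ℂ) * ((‖T w‖ : ℝ) : ℂ) ^ 2) = σ * ‖T w‖ ^ 2 := by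
    rw [← Complex.ofReal_pow, ← Complex.ofReal_mul]; simp only [RCLike.re_to_complex, Complex.ofReal_re]
  erw [this]
  nlinarith

end Pool.Agent.Lib.MP_312682_mp
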