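import Pool.Agent.Lib.MP_312682_mp.Loc

/-! Four terms of the trace asymptotics of the squared resolvent. -/

open scoped InnerProductSpace ENNReal ContDiff ComplexConjugate Topology
open MeasureTheory Complex Set Filter ContinuousLinearMap

set_option linter.unusedSectionVars false

noncomputable section

namespace Pool.Agent.Lib.MP_312682_mp

structure Fam (Ω : Set ℂ) {ι : Type} (γ : ι → ℝ → ℂ) (L : ι → ℝ) (δ0 : ℝ) : Prop where
  col : ∀ i, Col Ω (γ i) (L i) δ0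
  opn : IsOpen Ω
  dpos : 0 < δ0
  bdd : Bornology.IsBounded Ω
  disj : ∀ i j, ∀ p ∈ strip δ0, ∀ q ∈ strip δ0, Phi (γ i) p = Phi (γ j) q → i = j
  cover : ∀ ε > 0, ∃ K, IsCompact K ∧ K ⊆ Ω ∧ ∀ z ∈ Ω, z ∉ K → ∃ i, z ∈ Phi (γ i) '' strip ε

lemma MO.compl_sum {Ω : Set ℂ} (hΩ : IsOpen Ω) {ι : Type} [Fintype ι] {f : ι → ℂ → ℝ} {B G : ℝ}
    (h : ∀ i, MO Ω (f i) B G) (hB : 0 ≤ B) (hs : ∀ z, ∑ i, f i z ≤ B) :
    MO Ω (Ω.indicator fun z => B - ∑ i, f i z) B (Fintype.card ι * G) := by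
  refine ⟨(contDiffOn_const.sub (ContDiffOn.sum fun i _ => (h i).smooth)).congr
    fun z hz => indicator_of_mem hz _, fun z hz => indicator_of_notMem hz _, fun z => ?_,
    fun z hz => ?_⟩
  · by_cases hz : z ∈ Ω
    · rw [indicator_of_mem hz]
      exact ⟨sub_nonneg.2 (hs z), sub_le_self _ (Finset.sum_nonneg fun i _ => ((h i).bd z).1)⟩
    · rw [indicator_of_notMem hz]; exact ⟨le_rfl, hB⟩
  · have e : cf (Ω.indicator fun z => B - ∑ i, f i z) =ᶠ[𝓝 z] fun z => B - ∑ i, cf (f i) z := by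
      filter_upwards [hΩ.mem_nhds hz] with y hy
      simp [cf, hy]
    have e2 : fderiv ℝ (fun z => (B : ℂ) - ∑ i, cf (f i) z) z = -∑ i, fderiv ℝ (cf (f i)) z := by
      rw [fderiv_const_sub, fderiv_fun_sum fun i _ => (h i).diff hΩ hz]
    rw [(d_congr e).1, (d_congr e).2, d1, d2, e2]
    simp only [neg_apply, norm_neg, sum_apply]
    refine (add_le_add (norm_sum_le _ _) (norm_sum_le _ _)).trans ?_
    rw [← Finset.sum_add_distrib]
    exact (Finset.sum_le_sum fun i _ => (h i).grad z hz).trans (by simp)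

lemma test_of_compact {Ω K : Set ℂ} (hΩ : IsOpen Ω) {f : ℂ → ℂ} (hf : ContDiffOn ℝ ∞ f Ω)
    (hK : IsCompact K) (hs : K ⊆ Ω) (h0 : ∀ z ∉ K, f z = 0) : f ∈ testC Ω := by
  refine ⟨contDiff_iff_contDiffAt.2 fun z => ?_, HasCompactSupport.intro hK h0,
    (closure_minimal (s := Function.support _) (fun z hz => by_contra fun h1 => hz (h0 z h1))
      hK.isClosed).trans hs⟩
  by_cases hz : z ∈ Ω
  · exact hf.contDiffAt (hΩ.mem_nhds hz)
  · refine (contDiffAt_const (c := (0 : ℂ))).congr_of_eventuallyEq ?_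
    filter_upwards [hK.isClosed.isOpen_compl.mem_nhds fun h => hz (hs h)] with y hy
    exact h0 y hy

namespace Fam

variable {Ω : Set ℂ} {ι : Type} [Fintype ι] {γ : ι → ℝ → ℂ} {L : ι → ℝ} {δ0 : ℝ}
  (h : Fam Ω γ L δ0)
include h

lemma push_other {θ : ℝ → ℝ} {i j : ι} (hij : j ≠ i) {p : ℂ} (hp : p ∈ strip δ0) :
    push (γ j) δ0 (fun z => θ z.im) (Phi (γ i) p) = 0 := by
  by_contra h1
  obtain ⟨q, hq, e⟩ := push_meas_aux h1
  exact hij (h.disj j i q hq p hp e)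

lemma sum_Phi (F : ℝ → ℝ) (hF : F 0 = 0) {θ : ℝ → ℝ} {i : ι} {p : ℂ} (hp : p ∈ strip δ0) :
    ∑ j, F (push (γ j) δ0 (fun z => θ z.im) (Phi (γ i) p)) = F (θ p.im) := by
  rw [Finset.sum_eq_single i (fun j _ hj => by rw [h.push_other hj hp, hF]) (by simp),
    (h.col i).push_Phi (by simp) hp]

omit h in
lemma sum_out (F : ℝ → ℝ) (hF : F 0 = 0) {θ : ℝ → ℝ} {z : ℂ}
    (hz : ¬∃ i, z ∈ Phi (γ i) '' strip δ0) :
    ∑ j, F (push (γ j) δ0 (fun z => θ z.im) z) = 0 :=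
  Finset.sum_eq_zero fun j _ => by
    rw [push, indicator_of_notMem fun h => hz ⟨j, h⟩, hF]

lemma sum_le (F : ℝ → ℝ) (hF : F 0 = 0) {θ : ℝ → ℝ} {B : ℝ} (hB : 0 ≤ B) (hθ : ∀ x, F (θ x) ≤ B)
    (z : ℂ) : ∑ j, F (push (γ j) δ0 (fun z => θ z.im) z) ≤ B := by
  by_cases hz : ∃ i, z ∈ Phi (γ i) '' strip δ0
  · obtain ⟨i, p, hp, rfl⟩ := hz
    rw [h.sum_Phi F hF hp]; exact hθ _
  · rw [sum_out F hF hz]; exact hB

end Fam

/-- interior weight -/
def chiI (Ω : Set ℂ) {ι : Type} [Fintype ι] (γ : ι → ℝ → ℂ) (δ0 δ : ℝ) (z : ℂ) : ℝ :=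
  √(Ω.indicator (fun z => 1 - ∑ i, push (γ i) δ0 (fun z => chi δ z.im) z ^ 2) z)

namespace Fam

variable {Ω : Set ℂ} {ι : Type} [Fintype ι] {γ : ι → ℝ → ℂ} {L : ι → ℝ} {δ0 : ℝ}
  (h : Fam Ω γ L δ0)
include h

lemma chiI_sq (δ : ℝ) (z : ℂ) : chiI Ω γ δ0 δ z ^ 2 =
    Ω.indicator (fun z => 1 - ∑ i, push (γ i) δ0 (fun z => chi δ z.im) z ^ 2) z :=
  Real.sq_sqrt (indicator_nonneg (fun z _ => sub_nonneg.2 (h.sum_le (· ^ 2) (by simp) zero_le_one
    (fun x => pow_le_one₀ (chi_nonneg δ x) (chi_le_one δ x)) z)) z)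

omit h in
lemma abs_chiI (δ : ℝ) (z : ℂ) : |chiI Ω γ δ0 δ z| ≤ 1 := by
  rw [chiI, abs_of_nonneg (Real.sqrt_nonneg _), Real.sqrt_le_one]
  exact indicator_apply_le' (fun _ => sub_le_self _ (by positivity)) fun _ => zero_le_one

lemma meas_chi {δ : ℝ} (hδ : 0 < δ) (hδ0 : δ < δ0) (i : ι) :
    Measurable (push (γ i) δ0 fun z => chi δ z.im) :=
  ((h.col i).mo_chi hδ hδ0).choose_spec.meas h.opn

lemma meas_chiI {δ : ℝ} (hδ : 0 < δ) (hδ0 : δ < δ0) : Measurable (chiI Ω γ δ0 δ) :=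
  ((measurable_const.sub (Finset.measurable_fun_sum _ fun i _ =>
    (h.meas_chi hδ hδ0 i).pow_const 2)).indicator h.opn.measurableSet).sqrt

omit h in
lemma chiI_mem {δ : ℝ} {z : ℂ} (hz : chiI Ω γ δ0 δ z ≠ 0) : z ∈ Ω := by
  by_contra h1
  exact hz (by rw [chiI, indicator_of_notMem h1, Real.sqrt_zero])

theorem loc {M δ μ c : ℝ} {a : ℂ} (hb : InBox Ω M a) (hδ : 0 < δ) (hδ0 : δ < δ0)
    (hμ : 32 * KT * (Fintype.card ι + 1) ≤ μ * δ) (hc : HL (GO μ Ω) c)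
    (hc' : HL (p0 _ * PK M M μ * p0 _) c) :
    |hsq (sm vol (cf (chiI Ω γ δ0 δ)) * GO μ Ω) -
      hsq (sm _ (fun z => chiI Ω γ δ0 δ (z - a)) * (p0 _ * PK M M μ * p0 _))| ≤
      2 * ((3 + 8 * 1) * Real.exp (-(μ * δ / (128 * KT * (Fintype.card ι + 1)))) * c) *
        (2 * c + (3 + 8 * 1) * Real.exp (-(μ * δ / (128 * KT * (Fintype.card ι + 1)))) * c) := by
  have k1 := one_le_KT
  set n : ℝ := (Fintype.card ι : ℝ) with hn
  have n0 : 0 ≤ n := Nat.cast_nonneg _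
  have hμ0 : 0 < μ := by
    by_contra hc
    have : 0 < 32 * KT * (n + 1) := by positivity
    nlinarith
  have hw : 0 < δ / 16 := by positivity
  set T := μ * δ / (128 * KT * (n + 1)) with hT
  have T0 : 0 ≤ T := by positivity
  have hf := (MO.compl_sum h.opn (fun i => (h.col i).mo_dstp (T := 1) (a := δ / 16) zero_le_one hw
    (by linarith)) zero_le_one
    (h.sum_le id rfl zero_le_one fun x => (dstp_bd zero_le_one _ _ x).2)).mono (G' := μ) (by
      rw [← hn, show n * (2 * (1 * (KT / (δ / 16)))) = 32 * KT * n / δ by field_simp; ring,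
        div_le_iff₀ hδ]
      nlinarith)
  have hρ := (MO.compl_sum h.opn (fun i => (h.col i).mo_dstp (T := T) (a := 3 * δ / 16) T0 hw
    (by linarith)) T0 (h.sum_le id rfl T0 fun x => (dstp_bd T0 _ _ x).2)).mono (G' := μ / 4) (by
      rw [← hn, show n * (2 * (T * (KT / (δ / 16)))) = μ / 4 * (n / (n + 1)) by
        rw [hT]; field_simp; ring]
      exact mul_le_of_le_one_right (by positivity) ((div_le_one (by positivity)).2 (by linarith)))
  obtain ⟨K, k1, k2, k3⟩ := h.cover _ hw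
  have ft := test_of_compact h.opn (hf.cs h.opn) k1 k2 fun z hz => by
    by_cases h1 : z ∈ Ω
    · obtain ⟨i, p, hp, rfl⟩ := k3 z h1 hz
      have := h.sum_Phi id rfl (θ := dstp 1 (δ / 16) (δ / 16)) (i := i) (p := p)
        ⟨hp.1, by linarith [hp.2]⟩
      simp only [id] at this
      rw [cf, indicator_of_mem h1, this, dstp_one hw hp.2.le]; simp
    · rw [cf, indicator_of_notMem h1]; simp
  refine transfer (ch_flat M a) h.opn hμ0 hf hρ (χ' := fun z => chiI Ω γ δ0 δ (z - a))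
    (h.meas_chiI hδ hδ0) (abs_chiI δ)
    ((h.meas_chiI hδ hδ0).comp (by fun_prop)).aestronglyMeasurable (fun z => abs_chiI _ _)
    (fun z _ => rfl) (fun z hz => ?_) (fun z hz => ?_)
    (fun z hz h1 => (h1 (hb.sub hz)).elim)
    (fun u hu => hb.pull_mem μ (mul_mem_test' h.opn (hf.cs h.opn) hu)) ?_ hc hc'
  · have h1 := chiI_mem hz
    rw [indicator_of_mem h1, indicator_of_mem h1]
    by_cases h2 : ∃ i, z ∈ Phi (γ i) '' strip δ0
    · obtain ⟨i, p, hp, rfl⟩ := h2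
      have : δ / 4 < p.im := not_le.1 fun h3 => hz (by
        rw [chiI, indicator_of_mem h1, h.sum_Phi (· ^ 2) (by simp) hp, chi_one hδ h3]; simp)
      have e1 := h.sum_Phi id rfl (θ := dstp 1 (δ / 16) (δ / 16)) (i := i) hp
      have e2 := h.sum_Phi id rfl (θ := dstp T (3 * δ / 16) (δ / 16)) (i := i) hp
      simp only [id] at e1 e2
      rw [e1, e2, dstp_zero hw (by linarith), dstp_zero hw (by linarith)]; simp
    · have e1 := sum_out id rfl (θ := dstp 1 (δ / 16) (δ / 16)) h2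
      have e2 := sum_out id rfl (θ := dstp T (3 * δ / 16) (δ / 16)) h2
      simp only [id] at e1 e2
      rw [e1, e2]; simp
  · have h1 : z ∈ Ω := by_contra fun h1 => hz (indicator_of_notMem h1 _)
    have : ∀ i, push (γ i) δ0 (fun z => dstp 1 (δ / 16) (δ / 16) z.im) =ᶠ[𝓝 z] 0 := fun i => by
      refine (h.col i).push_zero' (a := 0) (b := δ / 16 + δ / 16) (fun p h2 h3 => dstp_zero hw
        (not_le.1 fun h4 => h3 ⟨h2.1.le, h4⟩).le) ?_
      rintro ⟨p, hp, rfl⟩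
      have e2 := h.sum_Phi id rfl (θ := dstp T (3 * δ / 16) (δ / 16)) (i := i) (p := p)
        ⟨(h.col i).box_pos h1 hp rfl, by linarith [hp.2.2]⟩
      simp only [id] at e2
      exact hz (by rw [indicator_of_mem h1, e2, dstp_one hw (by linarith [hp.2.2]), sub_self])
    filter_upwards [eventually_all.2 this, h.opn.mem_nhds h1] with y e1 e2
    simp [e1, e2]
  · rintro _ ⟨v, hv, rfl⟩
    obtain ⟨g, g1, g2, g3⟩ := InBox.push_mem (M := M) (a := a) μ hv.1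
    refine ⟨g, g1, g2, g3, ?_⟩
    simpa only [mul_comm] using mul_mem_test g1 ft

lemma int_chiI {M δ : ℝ} {a : ℂ} (hb : InBox Ω M a) (hδ : 0 < δ) (hδ0 : δ < δ0) :
    ∫ z, chiI Ω γ δ0 δ (z - a) ^ 2 ∂nu M M = vol.real Ω -
      ∑ i, (L i * mo δ (fun x => chi δ x ^ 2) 0 -
        mo δ (fun x => chi δ x ^ 2) 1 * ∫ s in (0 : ℝ)..L i, kap (γ i) s) := by
  have e1 := (ch_flat M a).int_eq fun z => chiI Ω γ δ0 δ z ^ 2
  simp only [one_smul] at e1
  have fin : IsFiniteMeasure (vol.restrict Ω) :=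
    isFiniteMeasure_restrict.2 h.bdd.measure_lt_top.ne
  rw [← e1, setIntegral_eq_integral_of_forall_compl_eq_zero fun z hz => by
    by_contra h1
    exact hz (hb.sub (chiI_mem ((pow_ne_zero_iff two_ne_zero).1 h1)))]
  simp_rw [h.chiI_sq]
  have hi : ∀ i, Integrable (fun z => push (γ i) δ0 (fun z => chi δ z.im) z ^ 2) (vol.restrict Ω) :=
    fun i => Integrable.of_bound ((h.meas_chi hδ hδ0 i).pow_const 2).aestronglyMeasurable 1
      (ae_of_all _ fun z => by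
        have := ((h.col i).mo_chi hδ hδ0).choose_spec.bd z
        rw [Real.norm_of_nonneg (sq_nonneg _)]
        exact pow_le_one₀ this.1 this.2)
  rw [integral_indicator h.opn.measurableSet, integral_sub (integrable_const _)
    (integrable_finsetSum _ fun i _ => hi i), integral_finsetSum _ fun i _ => hi i]
  congr 1
  · simp
  · refine Finset.sum_congr rfl fun i _ => ?_
    rw [← (h.col i).int_chi hδ hδ0, setIntegral_eq_integral_of_forall_compl_eq_zero fun z hz => by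
      rw [((h.col i).mo_chi hδ hδ0).choose_spec.zero z hz]; simp]

end Fam

lemma loc_err {a : ℝ} (ha : 0 < a) (c : ℝ) : ∃ C, ∀ τ : ℝ, 1 ≤ τ →
    2 * ((3 + 8 * 1) * Real.exp (-(τ / a)) * (c * τ ^ 12)) *
      (2 * (c * τ ^ 12) + (3 + 8 * 1) * Real.exp (-(τ / a)) * (c * τ ^ 12)) ≤ C * (τ ^ 7)⁻¹ := by
  obtain ⟨C, hC, h⟩ := poly_exp_le 31 (c := a⁻¹) (by positivity)
  refine ⟨286 * c ^ 2 * C, fun τ hτ => ?_⟩
  have h1 := h τ τ hτ le_rfl
  rw [← div_eq_inv_mul] at h1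
  have h2 : Real.exp (-(τ / a)) ≤ 1 := Real.exp_le_one_iff.2 (neg_nonpos.2 (by positivity))
  have h3 : Real.exp (-(τ / a)) ≤ C * (τ ^ 31)⁻¹ :=
    (le_mul_of_one_le_left (Real.exp_pos _).le (one_le_pow₀ (by linarith))).trans h1
  calc _ = 22 * c ^ 2 * τ ^ 24 * (Real.exp (-(τ / a)) * (2 + 11 * Real.exp (-(τ / a)))) := by ring
    _ ≤ 22 * c ^ 2 * τ ^ 24 * (C * (τ ^ 31)⁻¹ * (2 + 11 * 1)) := by gcongr
    _ = _ := by field_simp; ring

/-- the four term expansion -/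
def tr4 (A Lt K1 K2 μ : ℝ) : ℝ := A / (4 * Real.pi) * (μ ^ 2)⁻¹ - Lt / 16 * (μ ^ 3)⁻¹ +
  K1 / (12 * Real.pi) * (μ ^ 4)⁻¹ + 3 * K2 / 1024 * (μ ^ 5)⁻¹

theorem trace_asym {Ω : Set ℂ} {ι : Type} [Fintype ι] {γ : ι → ℝ → ℂ} {L : ι → ℝ} {δ0 : ℝ}
    (h : Fam Ω γ L δ0) : ∃ C, ∀ᶠ τ : ℝ in atTop,
    |hsq (GO (τ ^ 6) Ω) - (τ ^ 6) ^ 4 * tr4 (vol.real Ω) (∑ i, L i)
      (∑ i, ∫ s in (0 : ℝ)..L i, kap (γ i) s) (∑ i, ∫ s in (0 : ℝ)..L i, kap (γ i) s ^ 2)
      (τ ^ 6)| ≤ C * (τ ^ 7)⁻¹ := by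
  obtain ⟨M, a, hb⟩ := exists_inBox h.bdd
  obtain ⟨c0, hc0, h0⟩ := HL_GO h.bdd
  obtain ⟨c1, hc1, h1⟩ := flat_main (M := M) (by linarith [hb.1])
  choose K hK using fun i => (h.col i).exists_kap
  choose c2 hc2 h2 using fun i => curved_main (h.col i).pos (hK i)
  set c := c0 + c1 + ∑ i, c2 i with hc
  have s0 : 0 ≤ ∑ i, c2 i := Finset.sum_nonneg fun i _ => hc2 i
  have s1 : ∀ i, c2 i ≤ c := fun i => by
    have := Finset.single_le_sum (fun i _ => hc2 i) (Finset.mem_univ i); linarith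
  have k1 := one_le_KT
  obtain ⟨C1, e1⟩ := loc_err (a := 128 * KT) (by positivity) c
  obtain ⟨C2, e2⟩ := loc_err (a := 128 * KT * (Fintype.card ι + 1)) (by positivity) c
  refine ⟨C2 + c1 + ∑ i, (C1 + c2 i), ?_⟩
  filter_upwards [eventually_all.2 h2, eventually_ge_atTop 1, eventually_gt_atTop δ0⁻¹,
    eventually_ge_atTop (32 * KT * (Fintype.card ι + 1)),
    eventually_all.2 fun i => eventually_ge_atTop (100 * K i ^ 3)] with τ a2 t1 t2 t3 t4
  have t0 : 0 < τ := by linarith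
  have t5 : τ ≤ τ ^ 5 := le_self_pow₀ t1 (by norm_num)
  have hδ : 0 < (τ ^ 5)⁻¹ := by positivity
  have hδ0 : (τ ^ 5)⁻¹ < δ0 := by
    rw [inv_lt_comm₀ (by positivity) h.dpos]; linarith
  have eτ : τ ^ 6 * (τ ^ 5)⁻¹ = τ := by field_simp
  have hμ : 1 ≤ τ ^ 6 := one_le_pow₀ t1
  have n0 : (0 : ℝ) ≤ Fintype.card ι := Nat.cast_nonneg _
  have hG : HL (GO (τ ^ 6) Ω) (c * τ ^ 12) := (h0 _ hμ).mono (by
    rw [← pow_mul]; gcongr; linarith)
  obtain ⟨a3, a4⟩ := h1 (τ ^ 6) (fun z => chiI Ω γ δ0 (τ ^ 5)⁻¹ (z - a)) hμ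
    ((h.meas_chiI hδ hδ0).comp (by fun_prop)).aestronglyMeasurable (fun z => Fam.abs_chiI _ _)
    fun z hz => by simpa using (hb.2 _ (Fam.chiI_mem hz)).2
  have a5 := h.loc hb hδ hδ0 (by rw [eτ]; exact t3) hG (a3.mono (by
    rw [← pow_mul]; gcongr; linarith))
  have a6 := fun i => (h.col i).loc (hK i) (by
      rw [mul_inv_le_iff₀ (by positivity)]; linarith [t4 i]) hδ hδ0 (by rw [eτ]; nlinarith) hG
    ((a2 i).1.mono (by gcongr; exact s1 i))
  rw [eτ] at a5 a6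
  rw [h.int_chiI hb hδ hδ0] at a4
  rw [GO_split h.opn.measurableSet (ι := Option ι) (χ := fun o => o.elim (chiI Ω γ δ0 (τ ^ 5)⁻¹)
    fun i => push (γ i) δ0 fun z => chi (τ ^ 5)⁻¹ z.im) ?_ ?_ ?_ hG, Fintype.sum_option]
  · simp only [Option.elim]
    have b1 := (abs_sub_le _ _ _).trans (add_le_add (a5.trans (e2 τ t1)) a4)
    have b2 := fun i => (abs_sub_le _ _ _).trans (add_le_add ((a6 i).trans (e1 τ t1)) (a2 i).2)
    have b3 := (Finset.abs_sum_le_sum_abs _ _).trans (Finset.sum_le_sum fun i (_ : i ∈ Finset.univ)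
      => b2 i)
    have b4 : ((τ ^ 6) ^ 2)⁻¹ ≤ (τ ^ 7)⁻¹ := by rw [← pow_mul]; gcongr; norm_num
    refine le_trans (le_of_eq ?_) ((abs_add_le _ _).trans ((add_le_add b1 b3).trans ?_))
    · congr 1
      simp only [tr4, mainB, Finset.sum_sub_distrib, Finset.sum_add_distrib, ← Finset.mul_sum,
        ← Finset.sum_mul, ← Finset.sum_div]
      ring
    · simp only [← add_mul, ← Finset.sum_mul]
      nlinarith
  · rintro (_ | i)
    exacts [h.meas_chiI hδ hδ0, h.meas_chi hδ hδ0 i]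
  · rintro (_ | i) z
    · exact Fam.abs_chiI _ _
    · have := ((h.col i).mo_chi hδ hδ0).choose_spec.bd z
      exact (abs_of_nonneg this.1).trans_le this.2
  · intro z hz
    rw [Fintype.sum_option]
    simp only [Option.elim]
    rw [h.chiI_sq, indicator_of_mem hz]; ring

end Pool.Agent.Lib.MP_312682_mp
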