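import Pool.Agent.Lib.MP_312682_mp.Chart

/-! Localisation of the resolvent along a chart. -/

open scoped InnerProductSpace ENNReal ContDiff ComplexConjugate Topology
open MeasureTheory Complex Set Filter ContinuousLinearMap

set_option linter.unusedSectionVars false

noncomputable section

namespace Pool.Agent.Lib.MP_312682_mp

def cf (f : ℂ → ℝ) (z : ℂ) : ℂ := f z

/-- cut-off functions smooth inside `Ω` -/
structure MO (Ω : Set ℂ) (f : ℂ → ℝ) (B G : ℝ) : Prop where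
  smooth : ContDiffOn ℝ ∞ f Ω
  zero : ∀ z ∉ Ω, f z = 0
  bd : ∀ z, 0 ≤ f z ∧ f z ≤ B
  grad : ∀ z ∈ Ω, ‖d1 (cf f) z‖ + ‖d2 (cf f) z‖ ≤ G

def ea (μ : ℝ) (Ω : Set ℂ) (f : ℂ → ℝ) : ℂ → ℂ := Ω.indicator fun z => (μ : ℂ)⁻¹ * d1 (cf f) z
def eb (μ : ℝ) (Ω : Set ℂ) (f : ℂ → ℝ) : ℂ → ℂ := Ω.indicator fun z => (μ : ℂ)⁻¹ * d2 (cf f) z
def EO (μ : ℝ) (Ω : Set ℂ) (f : ℂ → ℝ) : L2 vol →L[ℂ] L2 vol := EM vol (ea μ Ω f) (eb μ Ω f)

variable {Ω : Set ℂ} {μ : ℝ}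

lemma mul_mem_test' (hΩ : IsOpen Ω) {f u : ℂ → ℂ} (hf : ContDiffOn ℝ ∞ f Ω) (hu : u ∈ testC Ω) :
    (fun z => f z * u z) ∈ testC Ω := by
  refine ⟨contDiff_iff_contDiffAt.2 fun z => ?_, hu.2.1.mul_left,
    (tsupport_mul_subset_right (f := f) (g := u)).trans hu.2.2⟩
  by_cases hz : z ∈ Ω
  · exact (hf.contDiffAt (hΩ.mem_nhds hz)).mul hu.1.contDiffAt
  · have h1 : u =ᶠ[𝓝 z] 0 := notMem_tsupport_iff_eventuallyEq.1 fun h => hz (hu.2.2 h)
    refine (contDiffAt_const (c := (0 : ℂ))).congr_of_eventuallyEq ?_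
    filter_upwards [h1] with w hw
    simp [hw]

lemma d_congr {f g : ℂ → ℂ} {z : ℂ} (h : f =ᶠ[𝓝 z] g) : d1 f z = d1 g z ∧ d2 f z = d2 g z := by
  simp [d1, d2, h.fderiv_eq]

lemma Dv_congr {f g : ℂ → ℂ} {z : ℂ} (h : f =ᶠ[𝓝 z] g) : Dv μ f z = Dv μ g z := by
  simp [Dv, d_congr h, h.eq_of_nhds]

namespace MO

variable {f : ℂ → ℝ} {B G : ℝ} (h : MO Ω f B G) (hΩ : IsOpen Ω)
include h hΩ

lemma meas : Measurable f := by
  classical
  have : f = Ω.piecewise f fun _ => 0 := by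
    ext z; by_cases hz : z ∈ Ω <;> simp [hz, h.zero]
  rw [this]
  exact h.smooth.continuousOn.measurable_piecewise continuousOn_const hΩ.measurableSet

lemma cs : ContDiffOn ℝ ∞ (cf f) Ω := ofRealCLM.contDiff.comp_contDiffOn h.smooth

lemma diff {z : ℂ} (hz : z ∈ Ω) : DifferentiableAt ℝ (cf f) z :=
  ((h.cs hΩ).contDiffAt (hΩ.mem_nhds hz)).differentiableAt (by simp)

lemma bs : Bs vol (cf f) :=
  ⟨(measurable_ofReal.comp (h.meas hΩ)).aestronglyMeasurable, B, ae_of_all _ fun z => by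
    simp [cf, abs_of_nonneg (h.bd z).1, (h.bd z).2]⟩

omit hΩ in
lemma eab (hμ : 0 < μ) (hG : 0 ≤ G) (z : ℂ) : ‖ea μ Ω f z‖ + ‖eb μ Ω f z‖ ≤ G / μ := by
  by_cases hz : z ∈ Ω
  · simp only [ea, eb, indicator_of_mem hz, Complex.norm_mul, norm_inv, norm_real,
      Real.norm_eq_abs, abs_of_pos hμ, ← mul_add]
    rw [div_eq_inv_mul]
    gcongr
    exact h.grad z hz
  · simp only [ea, eb, indicator_of_notMem hz, norm_zero, add_zero]
    positivity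

lemma ba (hμ : 0 < μ) (hG : 0 ≤ G) : Bs vol (ea μ Ω f) :=
  ⟨((measurable_const.mul (measurable_fderiv_apply_const ℝ _ _)).indicator
    hΩ.measurableSet).aestronglyMeasurable, G / μ, ae_of_all _ fun z =>
      le_trans (le_add_of_nonneg_right (norm_nonneg _)) (h.eab hμ hG z)⟩

lemma bb (hμ : 0 < μ) (hG : 0 ≤ G) : Bs vol (eb μ Ω f) :=
  ⟨((measurable_const.mul (measurable_fderiv_apply_const ℝ _ _)).indicator
    hΩ.measurableSet).aestronglyMeasurable, G / μ, ae_of_all _ fun z =>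
      le_trans (le_add_of_nonneg_left (norm_nonneg _)) (h.eab hμ hG z)⟩

omit hΩ in
lemma nE (hμ : 0 < μ) (hG : 0 ≤ G) : ‖EO μ Ω f‖ ≤ G / μ :=
  EM_norm_le (by positivity) (ae_of_all _ (h.eab hμ hG))

lemma leib (hμ : 0 < μ) (hG : 0 ≤ G) {g : ℂ → ℂ} (hg : ContDiff ℝ ∞ g) (hc : HasCompactSupport g)
    (hfg : (fun z => cf f z * g z) ∈ testC Ω) :
    (sm vol (cf f) + EO μ Ω f) (DL vol μ g) = DL vol μ fun z => cf f z * g z := by
  ext1
  filter_upwards [Lp.coeFn_add (sm vol (cf f) (DL vol μ g)) (EO μ Ω f (DL vol μ g)),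
    sm_coe (h.bs hΩ) (DL vol μ g), mm_coe (Bd_Em (h.ba hΩ hμ hG) (h.bb hΩ hμ hG)) (DL vol μ g),
    tl_coe (memLp_Dv_of_compact μ hg hc), tl_coe ((core_test Ω).mem μ _ hfg)]
    with z e1 e2 e3 e4 e5
  rw [add_apply, e1, Pi.add_apply, e2, EO, EM, e3, DL, DL, e4, e5]
  by_cases hz : z ∈ Ω
  · have a1 := h.diff hΩ hz
    have a2 := hg.differentiable (by simp) z
    have a3 : (μ : ℂ) ≠ 0 := by exact_mod_cast hμ.ne'
    refine E3_ext ?_ ?_ ?_
    · simp [act_apply, Em]; ring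
    · simp [act_apply, Em, d1_mul a1 a2, ea, hz]; field_simp
    · simp [act_apply, Em, d2_mul a1 a2, eb, hz]; field_simp
  · rw [Dv_eq_zero μ fun h' => hz (hfg.2.2 h')]
    refine E3_ext ?_ ?_ ?_ <;> simp [act_apply, Em, ea, eb, hz, cf, h.zero z hz]

lemma bexp (c : ℝ) : Bs vol fun z => ((Real.exp (c * f z) : ℝ) : ℂ) :=
  ⟨(measurable_ofReal.comp (Real.measurable_exp.comp
    ((h.meas hΩ).const_mul c))).aestronglyMeasurable, Real.exp (|c| * B), ae_of_all _ fun z => by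
      rw [norm_real, Real.norm_eq_abs, abs_of_pos (Real.exp_pos _), Real.exp_le_exp]
      exact (mul_le_mul_of_nonneg_right (le_abs_self c) (h.bd z).1).trans
        (mul_le_mul_of_nonneg_left (h.bd z).2 (abs_nonneg c))⟩

lemma agm (hμ : 0 < μ) (hG : 0 ≤ G) :
    PO μ Ω * (sm vol (fun z => ((Real.exp (1 * f z) : ℝ) : ℂ)) * (1 + EO μ Ω f)) * PO μ Ω =
      sm vol (fun z => ((Real.exp (1 * f z) : ℝ) : ℂ)) * (1 + EO μ Ω f) * PO μ Ω := by
  refine PC_pres' _ ?_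
  rintro _ ⟨u, hu, rfl⟩
  have s1 : ContDiffOn ℝ ∞ (fun z => exp (cf f z)) Ω := (h.cs hΩ).cexp
  have hm := mul_mem_test' hΩ s1 hu
  refine mem_cl ⟨_, hm, ?_⟩
  ext1
  filter_upwards [Lp.coeFn_add (DL vol μ u) (EO μ Ω f (DL vol μ u)),
    sm_coe (h.bexp hΩ 1) (DL vol μ u + EO μ Ω f (DL vol μ u)),
    mm_coe (Bd_Em (h.ba hΩ hμ hG) (h.bb hΩ hμ hG)) (DL vol μ u),
    tl_coe ((core_test Ω).mem μ _ hu), tl_coe ((core_test Ω).mem μ _ hm)] with z e1 e2 e3 e4 e5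
  rw [mul_apply_eq_comp, add_apply, one_apply_eq_self, e2, e1, Pi.add_apply, EO, EM, e3, DL, DL,
    e4, e5]
  by_cases hz : z ∈ Ω
  · have a0 := h.diff hΩ hz
    have a1 : DifferentiableAt ℝ (fun z => exp (cf f z)) z := a0.cexp
    have a2 := hu.1.differentiable (by simp) z
    have a3 : (μ : ℂ) ≠ 0 := by exact_mod_cast hμ.ne'
    have a4 : d1 (fun z => exp (cf f z)) z = exp (cf f z) * d1 (cf f) z ∧
        d2 (fun z => exp (cf f z)) z = exp (cf f z) * d2 (cf f) z := by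
      simp [d1, d2, a0.hasFDerivAt.cexp.fderiv]
    refine E3_ext ?_ ?_ ?_
    · simp [act_apply, Em, cf]; ring
    · simp only [Dv_1, d1_mul a1 a2, a4]
      simp [act_apply, Em, ea, hz, cf]; field_simp
    · simp only [Dv_2, d2_mul a1 a2, a4]
      simp [act_apply, Em, eb, hz, cf]; field_simp
  · rw [Dv_eq_zero μ fun h' => hz (hm.2.2 h'), Dv_eq_zero μ fun h' => hz (hu.2.2 h')]
    simp

end MO

lemma mm_sm_eq {f : ℂ → ℂ} (hf : Bs vol f) {M : ℂ → Mat} (hM : Bd vol M)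
    (h : ∀ z, M z ≠ 0 → f z = 1) : sm vol f * mm vol M = mm vol M := by
  rw [sm_mul_mm hf hM]
  refine mm_eq_of fun z => ?_
  by_cases hz : M z = 0
  · simp [hz]
  · simp [h z hz]

theorem transfer {L δ : ℝ} {Φ : ℂ → ℂ} {J : ℂ → ℝ} {O : ℂ → Mat} (h : Ch L δ Φ J O)
    (hΩ : IsOpen Ω) (hμ : 0 < μ) {t : Set (L2 (nu L δ))} {f ρ χ χ' : ℂ → ℝ} {T B c : ℝ}
    (hf : MO Ω f 1 μ) (hρ : MO Ω ρ B (μ / 4)) (mχ : Measurable χ) (bχ : ∀ z, |χ z| ≤ 1)
    (mχ' : AEStronglyMeasurable χ' (nu L δ)) (bχ' : ∀ z, |χ' z| ≤ 1)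
    (eχ : ∀ z ∈ rect L δ, χ (Φ z) = χ' z) (h1 : ∀ z, χ z ≠ 0 → T ≤ ρ z ∧ f z = 1)
    (h2 : ∀ z, ρ z ≠ 0 → f =ᶠ[𝓝 z] 1) (h3 : ∀ z ∈ Ω, z ∉ Φ '' rect L δ → f =ᶠ[𝓝 z] 0)
    (ha : ∀ u ∈ testC Ω, h.Θ (DL vol μ fun z => cf f z * u z) ∈ cl t)
    (hb : ∀ y ∈ t, ∃ g, ContDiff ℝ ∞ g ∧ HasCompactSupport g ∧ h.Θ (DL vol μ g) = y ∧
      (fun z => cf f z * g z) ∈ testC Ω)
    (hc : HL (GO μ Ω) c) (hc' : HL (p0 _ * PC t * p0 _) c) :
    |hsq (sm vol (cf χ) * GO μ Ω) - hsq (sm _ (cf χ') * (p0 _ * PC t * p0 _))| ≤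
      2 * ((3 + 8 * 1) * Real.exp (-T) * c) * (2 * c + (3 + 8 * 1) * Real.exp (-T) * c) := by
  have hP : Proj (PO μ Ω) := proj_PC _
  have bf := hf.bs hΩ
  have fa := hf.ba hΩ hμ hμ.le
  have fb := hf.bb hΩ hμ hμ.le
  have hG : 0 ≤ μ / 4 := by positivity
  have ra := hρ.ba hΩ hμ hG
  have rb := hρ.bb hΩ hμ hG
  have Bχ : Bs vol (cf χ) := ⟨(measurable_ofReal.comp mχ).aestronglyMeasurable, 1,
    ae_of_all _ fun z => by simpa [cf] using bχ z⟩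
  have Bχ' : Bs (nu L δ) (cf χ') := ⟨continuous_ofReal.comp_aestronglyMeasurable mχ', 1,
    ae_of_all _ fun z => by simpa [cf] using bχ' z⟩
  have mS : MeasurableSet {z | ρ z = 0} := hρ.meas hΩ (measurableSet_singleton 0)
  have bS := Bs_ind mS
  have bC := Bs_ind h.mC
  have rl : ∀ (g : ℂ → ℝ) z, star (cf g z) = cf g z := fun g z => by simp [cf]
  have E0 : ∀ {z : ℂ} {a : ℝ}, f =ᶠ[𝓝 z] (fun _ => a) → Em (ea μ Ω f z) (eb μ Ω f z) = 0 := by
    intro z a hz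
    have : cf f =ᶠ[𝓝 z] fun _ => (a : ℂ) := by filter_upwards [hz] with w hw; rw [cf, hw]
    have e := d_congr this
    simp only [d1, d2, fderiv_fun_const, Pi.zero_apply, zero_apply] at e
    ext i j
    fin_cases i <;> fin_cases j <;> simp [Em, ea, eb, indicator, d1, d2, e]
  have E1 : ∀ z ∉ Ω, Em (ea μ Ω f z) (eb μ Ω f z) = 0 := fun z hz => by
    ext i j
    fin_cases i <;> fin_cases j <;> simp [Em, ea, eb, hz]
  have fC : ∀ z, z ∉ Φ '' rect L δ → f z = 0 ∧ Em (ea μ Ω f z) (eb μ Ω f z) = 0 := by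
    intro z hz
    by_cases hz' : z ∈ Ω
    · exact ⟨(h3 z hz' hz).eq_of_nhds, E0 (h3 z hz' hz)⟩
    · exact ⟨hf.zero z hz', E1 z hz'⟩
  have ψC : sm vol (cf f) * sm vol ((Φ '' rect L δ).indicator fun _ => 1) = sm vol (cf f) := by
    rw [sm_mul bf bC]
    refine sm_congr (ae_of_all _ fun z => ?_)
    by_cases hz : z ∈ Φ '' rect L δ
    · simp [hz]
    · simp [cf, (fC z hz).1]
  have EC : EO μ Ω f * sm vol ((Φ '' rect L δ).indicator fun _ => 1) = EO μ Ω f := by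
    rw [EO, EM, sm_comm bC (Bd_Em fa fb)]
    refine mm_sm_eq bC (Bd_Em fa fb) fun z hz => ?_
    by_contra hc
    exact hz (fC z fun h' => hc (by simp [h'])).2
  obtain ⟨g1, g2⟩ := agmon_bounds (m := sm vol fun z => ((Real.exp (1 * ρ z) : ℝ) : ℂ))
    (m' := sm vol fun z => ((Real.exp (-1 * ρ z) : ℝ) : ℂ)) (E := EO μ Ω ρ) (χ := sm vol (cf χ))
    (S := sm vol ({z | ρ z = 0}.indicator fun _ => 1)) (a := Real.exp (-T)) proj_p0 hP
    (by
      rw [sm_mul (hρ.bexp hΩ _) (hρ.bexp hΩ _), ← sm_one]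
      exact sm_congr (ae_of_all _ fun z => by simp [← exp_add]))
    (by
      rw [sm_mul (hρ.bexp hΩ _) (hρ.bexp hΩ _), ← sm_one]
      exact sm_congr (ae_of_all _ fun z => by simp [← exp_add]))
    (sm_star (hρ.bexp hΩ _) fun z => conj_ofReal _) (sm_comm (hρ.bexp hΩ _) (Bd_Em ra rb))
    (EM_EM ra rb) ((hρ.nE hμ hG).trans (le_of_eq (by field_simp))) (hρ.agm hΩ hμ hG)
    (p0_EM ra rb) (p0_sm (hρ.bexp hΩ _))
    (by
      rw [sm_mul Bχ (hρ.bexp hΩ _)]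
      refine sm_norm_le (Real.exp_pos _).le (ae_of_all _ fun z => ?_)
      rw [norm_mul, norm_real, cf, norm_real, Real.norm_eq_abs, Real.norm_eq_abs,
        abs_of_pos (Real.exp_pos _)]
      by_cases hz : χ z = 0
      · simp [hz, (Real.exp_pos _).le]
      · refine (mul_le_of_le_one_left (Real.exp_pos _).le (bχ z)).trans ?_
        rw [Real.exp_le_exp]; linarith [(h1 z hz).1])
    (by
      rw [sm_mul (hρ.bexp hΩ _) bS]
      refine sm_norm_le zero_le_one (ae_of_all _ fun z => ?_)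
      by_cases hz : ρ z = 0 <;> simp [hz]) hc
  refine localise (ψ := sm vol (cf f)) (E := EO μ Ω f) proj_p0 hP proj_p0 (proj_PC t) h.norm_Θ
    h.Θ_adj h.Θ_p0 (sm_star bf (rl f)) (p0_EM fa fb) (EM_p0 fa fb) (p0_sm bf) (p0_sm Bχ) ?_ ?_ ?_
    ?_ ?_ ?_ ?_ ?_ (sm_norm_le zero_le_one (ae_of_all _ fun z => by simpa [cf] using bχ z))
    (sm_norm_le zero_le_one (ae_of_all _ fun z => by simpa [cf] using bχ' z))
    (sm_norm_le zero_le_one (ae_of_all _ fun z => by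
      simp [cf, abs_of_nonneg (hf.bd z).1, (hf.bd z).2])) ?_
    ((hf.nE hμ hμ.le).trans (le_of_eq (div_self hμ.ne'))) hc hc' g1 g2
  · refine PC_pres (h.Θ ∘L (sm vol (cf f) + EO μ Ω f)) ?_
    rintro _ ⟨u, hu, rfl⟩
    rw [comp_apply, hf.leib hΩ hμ hμ.le hu.1 hu.2.1 (mul_mem_test' hΩ (hf.cs hΩ) hu)]
    exact ha u hu
  · refine PC_pres ((sm vol (cf f) + EO μ Ω f) ∘L adjoint h.Θ) fun y hy => ?_
    obtain ⟨g, g1, g2, rfl, g4⟩ := hb y hy
    rw [comp_apply, ← comp_apply (adjoint h.Θ), h.adj_Θ, ← mul_apply_eq_comp, add_mul, ψC, EC,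
      hf.leib hΩ hμ hμ.le g1 g2 g4]
    exact mem_cl ⟨_, g4, rfl⟩
  · rw [sm_mul Bχ bf]
    refine sm_congr (ae_of_all _ fun z => ?_)
    by_cases hz : χ z = 0
    · simp [cf, hz]
    · simp [cf, (h1 z hz).2]
  · rw [h.adj_Θ]; exact ψC
  · have := congrArg adjoint (h.Θ_sm Bχ Bχ' fun z hz => by rw [cf, cf, eχ z hz])
    rwa [adjoint_comp, adjoint_comp, ← star_eq_adjoint (sm _ _), ← star_eq_adjoint (sm _ _),
      sm_star Bχ (rl χ), sm_star Bχ' (rl χ')] at this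
  · refine mm_sm_eq bS (Bd_Em fa fb) fun z hz => ?_
    by_contra hc
    exact hz (E0 (h2 z fun h' => hc (by simp [h'])))
  · rw [EO, EM, mm_star (Bd_Em fa fb)]
    refine mm_sm_eq bS (Bd_Em fa fb).star fun z hz => ?_
    by_contra hc
    exact hz (by rw [E0 (h2 z fun h' => hc (by simp [h'])), star_zero])
  · rw [one_sub_sm bf, sm_mul (g := fun z => 1 - cf f z) bS
      ⟨aestronglyMeasurable_const.sub bf.1, 1, ae_of_all _ fun z => by
      dsimp only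
      rw [cf, ← ofReal_one, ← ofReal_sub, norm_real, Real.norm_eq_abs, abs_le]
      constructor <;> linarith [(hf.bd z).1, (hf.bd z).2]⟩]
    refine sm_congr (ae_of_all _ fun z => ?_)
    by_cases hz : ρ z = 0
    · simp [hz]
    · simp [cf, (h2 z hz).eq_of_nhds]
  · rw [one_sub_sm bf]
    refine sm_norm_le zero_le_one (ae_of_all _ fun z => ?_)
    rw [cf, ← ofReal_one, ← ofReal_sub, norm_real, Real.norm_eq_abs, abs_le]
    constructor <;> linarith [(hf.bd z).1, (hf.bd z).2]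

lemma ind_PO {C : Set ℂ} (hC : MeasurableSet C) (h : Ω ⊆ C) :
    sm vol (C.indicator fun _ => 1) * PO μ Ω = PO μ Ω := by
  ext1 w
  rw [mul_apply_eq_comp]
  refine sub_eq_zero.1 ?_
  have := cl_le (s := DL vol μ '' testC Ω)
    (U := LinearMap.ker (sm vol (C.indicator fun _ => 1) - 1).toLinearMap)
    (ContinuousLinearMap.isClosed_ker _) (by
      rintro _ ⟨u, hu, rfl⟩
      refine sub_eq_zero.2 ?_
      ext1
      filter_upwards [sm_coe (Bs_ind hC) (DL vol μ u), tl_coe ((core_test Ω).mem μ _ hu)]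
        with z e1 e2
      refine e1.trans ?_
      change _ = DL vol μ u z
      rw [DL, e2]
      by_cases hz : z ∈ C
      · simp [hz]
      · rw [Dv_eq_zero μ fun h' => hz (h (hu.2.2 h')), smul_zero]) (PC_mem _ w)
  exact this

theorem HL_transfer {L δ : ℝ} {Φ : ℂ → ℂ} {J : ℂ → ℝ} {O : ℂ → Mat} (h : Ch L δ Φ J O)
    (hs : Ω ⊆ Φ '' rect L δ) {t : Set (L2 (nu L δ))}
    (ha : ∀ u ∈ testC Ω, h.Θ (DL vol μ u) ∈ cl t) {c : ℝ} (hc : HL (p0 _ * PC t * p0 _) c) :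
    HL (GO μ Ω) c := by
  have hP : Proj (PO μ Ω) := proj_PC _
  have nadj : ‖adjoint h.Θ‖ ≤ 1 := by simpa using h.norm_Θ
  have e1 : PC t ∘L h.Θ ∘L PO μ Ω = h.Θ ∘L PO μ Ω := PC_pres _ (by
    rintro _ ⟨u, hu, rfl⟩; exact ha u hu)
  have e2 : PO μ Ω ∘L adjoint h.Θ ∘L PC t = PO μ Ω ∘L adjoint h.Θ := by
    have := congrArg adjoint e1
    rwa [adjoint_comp, adjoint_comp, ← star_eq_adjoint (PC t), ← star_eq_adjoint (PO μ Ω), hP.sa,
      (proj_PC t).sa, comp_assoc] at this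
  have e3 : adjoint h.Θ ∘L h.Θ ∘L PO μ Ω = PO μ Ω := by
    rw [← comp_assoc, h.adj_Θ]; exact ind_PO h.mC hs
  have e4 : PO μ Ω ∘L adjoint h.Θ ∘L h.Θ = PO μ Ω := by
    have := congrArg adjoint e3
    rwa [adjoint_comp, adjoint_comp, adjoint_adjoint, ← star_eq_adjoint (PO μ Ω), hP.sa,
      comp_assoc] at this
  have e5 : p0 vol ∘L adjoint h.Θ = adjoint h.Θ ∘L p0 _ := by
    have := congrArg adjoint h.Θ_p0
    rw [adjoint_comp, adjoint_comp, ← star_eq_adjoint (p0 _), ← star_eq_adjoint (p0 _),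
      proj_p0.sa, proj_p0.sa] at this
    exact this.symm
  have hX : ‖h.Θ ∘L PO μ Ω ∘L adjoint h.Θ‖ ≤ 1 :=
    (opNorm_comp_le _ _).trans (mul_le_one₀ h.norm_Θ (norm_nonneg _)
      ((opNorm_comp_le _ _).trans (mul_le_one₀ hP.norm_le (norm_nonneg _) nadj)))
  have := ((HL.mid proj_p0 (proj_PC t) hc hX).right _ h.norm_Θ).left _ nadj
  simp only [one_mul] at this
  refine (congrArg (HL · c) ?_).mp this
  ext1 w
  have k1 := fun z => congrArg (fun Z => Z z) e1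
  have k2 := fun z => congrArg (fun Z => Z z) e2
  have k3 := fun z => congrArg (fun Z => Z z) e3
  have k4 := fun z => congrArg (fun Z => Z z) e4
  have k5 := fun z => congrArg (fun Z => Z z) e5
  have k6 := fun z => congrArg (fun Z => Z z) h.Θ_p0
  simp only [GO, mul_apply_eq_comp, comp_apply] at k1 k2 k3 k4 k5 k6 ⊢
  rw [k1, k2, k6 w, k4, ← k5, k3]

lemma hsq_split {X : Type*} [NormedAddCommGroup X] [InnerProductSpace ℂ X] [CompleteSpace X]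
    {ι : Type*} [Fintype ι] {T : X →L[ℂ] X} {S : ι → X →L[ℂ] X}
    (h : ∀ x, ‖T x‖ ^ 2 = ∑ i, ‖S i x‖ ^ 2) (hS : ∀ i, hs2 (S i) ≠ ⊤) :
    hsq T = ∑ i, hsq (S i) := by
  unfold hsq
  rw [← ENNReal.toReal_sum fun i _ => hS i]
  congr 1
  unfold hs2 nsq
  rw [← Summable.tsum_finsetSum fun _ _ => ENNReal.summable]
  congr 1; ext b
  rw [h, ENNReal.ofReal_sum_of_nonneg fun _ _ => by positivity]

lemma GO_split (hΩ : MeasurableSet Ω) {ι : Type*} [Fintype ι] {χ : ι → ℂ → ℝ}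
    (m : ∀ i, Measurable (χ i)) (b : ∀ i z, |χ i z| ≤ 1) (h : ∀ z ∈ Ω, ∑ i, χ i z ^ 2 = 1)
    {c : ℝ} (hc : HL (GO μ Ω) c) : hsq (GO μ Ω) = ∑ i, hsq (sm vol (cf (χ i)) * GO μ Ω) := by
  have B : ∀ i, Bs vol (cf (χ i)) := fun i =>
    ⟨(measurable_ofReal.comp (m i)).aestronglyMeasurable, 1,
      ae_of_all _ fun z => by simpa [cf] using b i z⟩
  refine hsq_split (fun x => ?_) fun i => (hc.mleft
    (sm_norm_le zero_le_one (ae_of_all _ fun z => by simpa [cf] using b i z))).ne_top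
  have e : sm vol (Ω.indicator fun _ => 1) (GO μ Ω x) = GO μ Ω x := by
    rw [← mul_apply_eq_comp, GO, ← mul_assoc, ← mul_assoc, ← p0_sm (Bs_ind hΩ), mul_assoc (p0 _),
      ind_PO hΩ subset_rfl]
  simp_rw [norm_sq_L2]
  rw [← integral_finsetSum _ fun i _ => integrable_sq_L2 _]
  refine integral_congr_ae ?_
  filter_upwards [ae_all_iff.2 fun i => sm_coe (B i) (GO μ Ω x),
    sm_coe (Bs_ind hΩ) (GO μ Ω x)] with z e1 e2
  simp only [mul_apply_eq_comp, e1, norm_smul, mul_pow, ← Finset.sum_mul, cf, norm_real,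
    Real.norm_eq_abs, sq_abs]
  by_cases hz : z ∈ Ω
  · rw [h z hz, one_mul]
  · rw [e] at e2
    rw [e2]; simp [hz]

end Pool.Agent.Lib.MP_312682_mp
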