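import Pool.Agent.Lib.MP_312682_mp.Dens

/-! The one-dimensional densities on a finite interval. -/

open MeasureTheory Set Real intervalIntegral

noncomputable section

namespace Pool.Agent.Lib.MP_312682_mp

lemma hd_abs {X z : ℝ} (h : z ≠ X) : ∃ σ : ℝ, HasDerivAt (fun z => |z - X|) σ z ∧
    σ * |z - X| = z - X ∧ σ * (z - X) = |z - X| := by
  rcases lt_or_gt_of_ne h with h | h
  · refine ⟨-1, ?_, by rw [absL h.le]; ring, by rw [absL h.le]; ring⟩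
    have : HasDerivAt (fun z => X - z) (-1) z := by simpa using (hasDerivAt_id z).const_sub X
    refine this.congr_of_eventuallyEq ?_
    filter_upwards [gt_mem_nhds h] with y hy using absL hy.le
  · refine ⟨1, ?_, by rw [absR h.le]; ring, by rw [absR h.le]; ring⟩
    have : HasDerivAt (fun z => z - X) 1 z := (hasDerivAt_id z).sub_const X
    refine this.congr_of_eventuallyEq ?_
    filter_upwards [lt_mem_nhds h] with y hy using absR hy.le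

lemma hd_vE {X z : ℝ} (h : z ≠ X) : HasDerivAt (vE X) (vE' X z) z := by
  obtain ⟨σ, h1, h2, h3⟩ := hd_abs h
  have h4 := (hasDerivAt_id' z).add_const X
  refine ((((h1.const_add 1).mul h1.neg.exp).sub
    ((h4.const_add 1).mul h4.neg.exp)).div_const 4).congr_deriv ?_
  simp only [vE', Pi.neg_apply]
  linear_combination (-(exp (-|z - X|)) / 4) * h2

lemma hd_vE' {X z : ℝ} (h : z ≠ X) : HasDerivAt (vE' X) (1 ^ 2 * vE X z - gE X z) z := by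
  obtain ⟨σ, h1, h2, h3⟩ := hd_abs h
  have h4 := (hasDerivAt_id' z).add_const X
  have h5 := (hasDerivAt_id' z).sub_const X
  refine (((h5.neg.mul h1.neg.exp).add (h4.mul h4.neg.exp)).div_const 4).congr_deriv ?_
  simp only [vE, gE, Pi.neg_apply]
  linear_combination (exp (-|z - X|) / 4) * h3

lemma hd_pE {X z : ℝ} (h : z ≠ X) : HasDerivAt (pE X) (pE' X z) z := by
  obtain ⟨σ, h1, h2, h3⟩ := hd_abs h
  have h4 := (hasDerivAt_id' z).add_const X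
  have h6 := ((((hasDerivAt_pow 2 z).add (hasDerivAt_id' z)).add_const (X ^ 2)).add_const X)
  refine ((((h4.mul (h1.const_add 1)).mul h1.neg.exp).sub
    (h6.mul h4.neg.exp)).div_const 8).congr_deriv ?_
  simp only [pE', Pi.neg_apply, Pi.mul_apply, Pi.add_apply]
  push_cast
  linear_combination (-(z + X) * (exp (-|z - X|)) / 8) * h2

lemma hd_pE' {X z : ℝ} (h : z ≠ X) : HasDerivAt (pE' X) (1 ^ 2 * pE X z - z * gE X z) z := by
  obtain ⟨σ, h1, h2, h3⟩ := hd_abs h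
  have h4 := (hasDerivAt_id' z).add_const X
  have h5 := (hasDerivAt_id' z).sub_const X
  have h6 := ((((hasDerivAt_pow 2 z).add (hasDerivAt_id' z)).add_const (X ^ 2)).add_const X)
  have h7 := ((hasDerivAt_id' z).const_mul 2).add_const 1
  refine (((((h1.const_add 1).sub (h4.mul h5)).mul h1.neg.exp).sub
    ((h7.sub h6).mul h4.neg.exp)).div_const 8).congr_deriv ?_
  simp only [pE, gE, Pi.neg_apply, Pi.mul_apply, Pi.add_apply, Pi.sub_apply]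
  push_cast
  linear_combination (-(exp (-|z - X|)) / 8) * h2 + ((z + X) * exp (-|z - X|) / 8) * h3

def vT (D X : ℝ) : ℝ → ℝ := Sol 1 D (Gk 1 D X)
def pT (D X : ℝ) : ℝ → ℝ := Sol 1 D fun z => z * Gk 1 D X z

lemma continuous_vT (D X : ℝ) : Continuous (vT D X) := continuous_Sol (continuous_Gk _ _ _)
lemma continuous_pT (D X : ℝ) : Continuous (pT D X) :=
  continuous_Sol (continuous_id.mul (continuous_Gk _ _ _))

section dimless

variable {D X : ℝ} (hD : 1 ≤ D) (hX : X ∈ Icc 0 (D / 2))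
include hD hX

lemma memX : X ∈ Icc 0 D := ⟨hX.1, by linarith [hX.2]⟩

lemma g_close {z : ℝ} (hz : z ∈ Icc 0 D) : |Gk 1 D X z - gE X z| ≤ exp (-(D / 2)) / 2 := by
  have hpos : 0 < sinh D := sinh_pos_iff.2 (by linarith)
  have key : Gk 1 D X z - gE X z = -(exp (-D) * sinh X * (sinh z / sinh D)) := by
    have e1 : ∀ a b : ℝ, (sinh D)⁻¹ * (sinh a * sinh (D - b)) -
        (exp (-(b - a)) - exp (-(a + b))) / 2 = -(exp (-D) * sinh a * (sinh b / sinh D)) := by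
      intro a b
      field_simp
      simp only [sinh_eq, neg_sub, neg_add, exp_sub, exp_add, exp_neg]
      field_simp
      ring
    unfold Gk gE
    simp only [one_mul]
    rcases le_total z X with h | h
    · rw [min_eq_right h, max_eq_left h, absL h, e1]; ring
    · rw [min_eq_left h, max_eq_right h, absR h, add_comm z X, e1]
  have h1 : 0 ≤ sinh X := sinh_nonneg_iff.2 hX.1
  have h2 : 0 ≤ sinh z := sinh_nonneg_iff.2 hz.1
  have h3 : sinh z / sinh D ≤ 1 := (div_le_one hpos).2 (sinh_le_sinh.2 hz.2)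
  have h4 : exp (-D) * sinh X ≤ exp (-(D / 2)) / 2 := by
    have a1 : sinh X ≤ exp X / 2 := by rw [sinh_eq]; linarith [exp_pos (-X)]
    have a2 : exp (-D) * exp X ≤ exp (-(D / 2)) := by
      rw [← exp_add, exp_le_exp]; linarith [hX.2]
    nlinarith [exp_pos (-D)]
  rw [key, abs_neg, abs_of_nonneg (by positivity)]
  exact (mul_le_of_le_one_right (by positivity) h3).trans h4

lemma exp_end : exp (-|D - X|) ≤ exp (-(D / 2)) ∧ exp (-(D + X)) ≤ exp (-(D / 2)) ∧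
    |D - X| ≤ D := by
  rw [absR (memX hD hX).2]
  exact ⟨exp_le_exp.2 (by linarith [hX.2]), exp_le_exp.2 (by linarith [hX.1]), by linarith [hX.1]⟩

lemma v_close {z : ℝ} (hz : z ∈ Icc 0 D) :
    |vT D X z - vE X z| ≤ 2 * (1 + D) ^ 2 * exp (-(D / 2)) := by
  have hD0 : 0 < D := by linarith
  have h1 := Sol_approx (Λ := 1) one_pos hD0 (memX hD hX) (continuous_gE X) (continuous_vE X)
    (U' := vE' X) (by unfold vE'; fun_prop) (fun z _ h => hd_vE h) (fun z _ h => hd_vE' h)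
    (by simp [vE, abs_of_nonneg hX.1]) z hz
  have h2 := norm_Sol_le (Λ := 1) one_pos hD0 (h := fun y => Gk 1 D X y - gE X y)
    ((continuous_Gk _ _ _).sub (continuous_gE X)) (fun y hy => g_close hD hX hy) hz
  rw [Sol_sub (continuous_Gk _ _ _) (continuous_gE X), norm_eq_abs] at h2
  obtain ⟨a1, a2, a3⟩ := exp_end hD hX
  have p0 := exp_pos (-(D / 2))
  have h3 : |vE X D| ≤ (1 + D) * exp (-(D / 2)) := by
    have b1 : (1 + |D - X|) * exp (-|D - X|) ≤ (1 + D) * exp (-(D / 2)) := by gcongr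
    have b2 : (1 + (D + X)) * exp (-(D + X)) ≤ (1 + (D + D)) * exp (-(D / 2)) := by
      gcongr; exact (memX hD hX).2
    have b3 : 0 ≤ (1 + |D - X|) * exp (-|D - X|) := by positivity
    have b4 : 0 ≤ (1 + (D + X)) * exp (-(D + X)) := by have := hX.1; positivity
    unfold vE
    rw [abs_le]
    constructor <;> nlinarith
  have h4 : (1 + D) * exp (-(D / 2)) ≤ (1 + D) ^ 2 * exp (-(D / 2)) := by gcongr; nlinarith
  have h5 : exp (-(D / 2)) ≤ (1 + D) * exp (-(D / 2)) := by nlinarith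
  unfold vT
  rw [abs_le] at *
  constructor <;> linarith [h1.1, h1.2, h2.1, h2.2, h3.1, h3.2, le_abs_self (vE X D),
    neg_abs_le (vE X D), abs_le.2 h3]

lemma p_close {z : ℝ} (hz : z ∈ Icc 0 D) :
    |pT D X z - pE X z| ≤ 2 * (1 + D) ^ 2 * exp (-(D / 2)) := by
  have hD0 : 0 < D := by linarith
  have c1 : Continuous fun z => z * gE X z := continuous_id.mul (continuous_gE X)
  have c2 : Continuous fun z => z * Gk 1 D X z := continuous_id.mul (continuous_Gk _ _ _)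
  have h1 := Sol_approx (Λ := 1) one_pos hD0 (memX hD hX) c1 (continuous_pE X)
    (U' := pE' X) (by unfold pE'; fun_prop) (fun z _ h => hd_pE h) (fun z _ h => hd_pE' h)
    (by simp only [pE, zero_sub, abs_neg, abs_of_nonneg hX.1, zero_add]; ring) z hz
  have h2 := norm_Sol_le (Λ := 1) one_pos hD0 (h := fun y => y * Gk 1 D X y - y * gE X y)
    (c2.sub c1) (m := D * (exp (-(D / 2)) / 2)) (fun y hy => by
      rw [← mul_sub, norm_mul, norm_of_nonneg hy.1]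
      exact mul_le_mul hy.2 (g_close hD hX hy) (norm_nonneg _) hD0.le) hz
  rw [Sol_sub c2 c1, norm_eq_abs] at h2
  obtain ⟨a1, a2, a3⟩ := exp_end hD hX
  have p0 := exp_pos (-(D / 2))
  have x0 := hX.1
  have x1 := (memX hD hX).2
  have h3 : |pE X D| ≤ (1 + D) ^ 2 * exp (-(D / 2)) := by
    have b1 : (D + X) * (1 + |D - X|) * exp (-|D - X|) ≤
        (D + D) * (1 + D) * exp (-(D / 2)) := by gcongr
    have b2 : (D ^ 2 + D + X ^ 2 + X) * exp (-(D + X)) ≤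
        (D ^ 2 + D + D ^ 2 + D) * exp (-(D / 2)) := by gcongr
    have b3 : 0 ≤ (D + X) * (1 + |D - X|) * exp (-|D - X|) := by positivity
    have b4 : 0 ≤ (D ^ 2 + D + X ^ 2 + X) * exp (-(D + X)) := by positivity
    have b5 : 0 ≤ D * exp (-(D / 2)) := by positivity
    have b6 : 0 ≤ D ^ 2 * exp (-(D / 2)) := by positivity
    unfold pE
    rw [abs_le]
    constructor <;> nlinarith
  have h4 : D * exp (-(D / 2)) ≤ (1 + D) ^ 2 * exp (-(D / 2)) := by gcongr; nlinarith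
  have h5 : 0 ≤ D * exp (-(D / 2)) := by positivity
  unfold pT
  rw [abs_le] at *
  constructor <;> linarith [h1.1, h1.2, h2.1, h2.2, h3.1, h3.2, le_abs_self (pE X D),
    neg_abs_le (pE X D), abs_le.2 h3]

lemma g_bd {z : ℝ} (hz : z ∈ Icc 0 D) : |Gk 1 D X z| ≤ 1 / 2 := by
  rw [abs_of_nonneg (Gk_nonneg one_pos (by linarith) (memX hD hX) hz)]
  simpa using Gk_le one_pos (by linarith) (memX hD hX) hz

lemma v_bd {z : ℝ} (hz : z ∈ Icc 0 D) : |vT D X z| ≤ 1 + D := by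
  have := norm_Sol_le (Λ := 1) one_pos (by linarith) (continuous_Gk 1 D X)
    (fun y hy => g_bd hD hX hy) hz
  rw [norm_eq_abs] at this
  unfold vT
  linarith

lemma p_bd {z : ℝ} (hz : z ∈ Icc 0 D) : |pT D X z| ≤ 1 + D := by
  have := norm_Sol_le (Λ := 1) one_pos (by linarith) (h := fun z => z * Gk 1 D X z)
    (continuous_id.mul (continuous_Gk 1 D X)) (m := D * (1 / 2))
    (fun y hy => by
      rw [norm_mul, norm_of_nonneg hy.1]
      exact mul_le_mul hy.2 (g_bd hD hX hy) (norm_nonneg _) (by linarith)) hz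
  rw [norm_eq_abs] at this
  unfold pT
  linarith

omit hX in
lemma prod_close {a b a' b' w : ℝ} (ha : |a| ≤ 1 + D) (hb : |b| ≤ 1 + D)
    (ha' : |a - a'| ≤ 2 * (1 + D) ^ 2 * exp (-(D / 2)))
    (hb' : |b - b'| ≤ 2 * (1 + D) ^ 2 * exp (-(D / 2))) (hw : |w| ≤ (1 + D) ^ 2) :
    |w * (a * b) - w * (a' * b')| ≤ 8 * (1 + D) ^ 6 * exp (-(D / 2)) := by
  have e1 : exp (-(D / 2)) ≤ 1 := exp_le_one_iff.2 (by linarith)
  have p0 := exp_pos (-(D / 2))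
  set ε := 2 * (1 + D) ^ 2 * exp (-(D / 2)) with hε
  have h1 : ε ≤ 2 * (1 + D) ^ 2 := mul_le_of_le_one_right (by positivity) e1
  have h2 : |b'| ≤ 3 * (1 + D) ^ 2 := by
    have : |b'| ≤ |b| + |b - b'| := by
      have := abs_sub b (b - b')
      rwa [sub_sub_cancel] at this
    nlinarith
  have h3 : w * (a * b) - w * (a' * b') = w * (a * (b - b') + b' * (a - a')) := by ring
  have h4 : |a| ≤ (1 + D) ^ 2 := by nlinarith
  rw [h3, abs_mul]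
  calc _ ≤ (1 + D) ^ 2 * ((1 + D) ^ 2 * ε + 3 * (1 + D) ^ 2 * ε) := by
        gcongr
        refine (abs_add_le _ _).trans ?_
        rw [abs_mul, abs_mul]
        gcongr
    _ = _ := by rw [hε]; ring

omit hX in
lemma int_close {f f' : ℝ → ℝ} (hf : Continuous f) (hf' : Continuous f') {c C d : ℝ}
    (h : ∀ z ∈ Icc 0 D, |f z - f' z| ≤ c * (1 + D) ^ 6 * exp (-(D / 2))) (hc : 0 ≤ c)
    (hd : |(∫ z in (0 : ℝ)..D, f' z) - d| ≤ C * (1 + D) ^ 5 * exp (-(D / 2))) :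
    |(∫ z in (0 : ℝ)..D, f z) - d| ≤ (c + |C|) * ((1 + D) ^ 7 * exp (-(D / 2))) := by
  have h1 := norm_integral_le_of_norm_le_const (a := 0) (b := D) (f := fun z => f z - f' z)
    (C := c * (1 + D) ^ 6 * exp (-(D / 2))) fun z hz => by
      rw [uIoc_of_le (by linarith)] at hz
      exact h z (Ioc_subset_Icc_self hz)
  rw [intervalIntegral.integral_sub (hf.intervalIntegrable _ _) (hf'.intervalIntegrable _ _),
    norm_eq_abs, sub_zero, abs_of_nonneg (a := D) (by linarith)] at h1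
  have p0 := exp_pos (-(D / 2))
  have h2 : c * (1 + D) ^ 6 * exp (-(D / 2)) * D ≤ c * ((1 + D) ^ 7 * exp (-(D / 2))) := by
    calc _ ≤ c * (1 + D) ^ 6 * exp (-(D / 2)) * (1 + D) := by gcongr; linarith
      _ = _ := by ring
  have h3 : C * (1 + D) ^ 5 * exp (-(D / 2)) ≤ |C| * ((1 + D) ^ 7 * exp (-(D / 2))) := by
    rw [← mul_assoc]
    gcongr
    · exact le_abs_self C
    · linarith
    · norm_num
  rw [abs_le] at *
  constructor <;> linarith [h1.1, h1.2, hd.1, hd.2]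

end dimless

lemma dens_est : ∃ C, 0 ≤ C ∧ ∀ D X : ℝ, 1 ≤ D → X ∈ Icc 0 (D / 2) →
    |(∫ z in (0 : ℝ)..D, Gk 1 D X z * Gk 1 D X z) - dn0 X| ≤ C * ((1 + D) ^ 7 * exp (-(D / 2))) ∧
    |(∫ z in (0 : ℝ)..D, Gk 1 D X z * pT D X z) - dn1 X| ≤ C * ((1 + D) ^ 7 * exp (-(D / 2))) ∧
    |(∫ z in (0 : ℝ)..D, 4 * (pT D X z * pT D X z) + 8 * (z * (vT D X z * pT D X z))) - dna X| ≤
      C * ((1 + D) ^ 7 * exp (-(D / 2))) ∧
    |(∫ z in (0 : ℝ)..D, z ^ 2 * (vT D X z * Gk 1 D X z)) - dnb X| ≤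
      C * ((1 + D) ^ 7 * exp (-(D / 2))) ∧
    |(∫ z in (0 : ℝ)..D, vT D X z * Gk 1 D X z) - dnc X| ≤ C * ((1 + D) ^ 7 * exp (-(D / 2))) := by
  obtain ⟨C0, h0⟩ := int_0
  obtain ⟨C1, h1⟩ := int_1
  obtain ⟨Ca, ha⟩ := int_a
  obtain ⟨Cb, hb⟩ := int_b
  obtain ⟨Cc, hc⟩ := int_c
  refine ⟨96 + |C0| + |C1| + |Ca| + |Cb| + |Cc|, by positivity, fun D X hD hX => ?_⟩
  have cg := continuous_Gk 1 D X
  have cv := continuous_vT D X
  have cp := continuous_pT D X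
  have cg' := continuous_gE X
  have cv' := continuous_vE X
  have cp' := continuous_pE X
  have p0 := exp_pos (-(D / 2))
  have gb : ∀ z ∈ Icc 0 D, |Gk 1 D X z| ≤ 1 + D := fun z hz => by linarith [g_bd hD hX hz]
  have gc : ∀ z ∈ Icc 0 D, |Gk 1 D X z - gE X z| ≤ 2 * (1 + D) ^ 2 * exp (-(D / 2)) :=
    fun z hz => (g_close hD hX hz).trans (by
      have q1 : 0 < D := by linarith
      have q2 : 0 < D ^ 2 := by positivity
      nlinarith [mul_pos p0 q1, mul_pos p0 q2])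
  have w0 : |(1 : ℝ)| ≤ (1 + D) ^ 2 := by rw [abs_one]; nlinarith
  have w1 : ∀ z ∈ Icc 0 D, |z| ≤ (1 + D) ^ 2 := fun z hz => by
    rw [abs_of_nonneg hz.1]; nlinarith [hz.2]
  have w2 : ∀ z ∈ Icc 0 D, |z ^ 2| ≤ (1 + D) ^ 2 := fun z hz => by
    rw [abs_of_nonneg (sq_nonneg z)]; nlinarith [hz.1, hz.2]
  have pos : 0 ≤ (1 + D) ^ 7 * exp (-(D / 2)) := by positivity
  have a0 := abs_nonneg C0
  have a1 := abs_nonneg C1
  have aa := abs_nonneg Ca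
  have a2 := abs_nonneg Cb
  have a3 := abs_nonneg Cc
  refine ⟨(int_close hD (by fun_prop) (by fun_prop) (c := 8) (fun z hz => ?_) (by norm_num)
      (h0 X D hX)).trans (mul_le_mul_of_nonneg_right (by linarith) pos),
    (int_close hD (by fun_prop) (by fun_prop) (c := 8) (fun z hz => ?_) (by norm_num)
      (h1 X D hX)).trans (mul_le_mul_of_nonneg_right (by linarith) pos),
    (int_close hD (by fun_prop) (by fun_prop) (c := 96) (fun z hz => ?_) (by norm_num)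
      (ha X D hX)).trans (mul_le_mul_of_nonneg_right (by linarith) pos),
    (int_close hD (by fun_prop) (by fun_prop) (c := 8) (fun z hz => ?_) (by norm_num)
      (hb X D hX)).trans (mul_le_mul_of_nonneg_right (by linarith) pos),
    (int_close hD (by fun_prop) (by fun_prop) (c := 8) (fun z hz => ?_) (by norm_num)
      (hc X D hX)).trans (mul_le_mul_of_nonneg_right (by linarith) pos)⟩
  · simpa using prod_close hD (gb z hz) (gb z hz) (gc z hz) (gc z hz) w0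
  · simpa using prod_close hD (gb z hz) (p_bd hD hX hz) (gc z hz) (p_close hD hX hz) w0
  · have t1 := prod_close hD (p_bd hD hX hz) (p_bd hD hX hz) (p_close hD hX hz)
      (p_close hD hX hz) w0
    have t2 := prod_close hD (v_bd hD hX hz) (p_bd hD hX hz) (v_close hD hX hz)
      (p_close hD hX hz) (w1 z hz)
    rw [abs_le] at *
    constructor <;> linarith [t1.1, t1.2, t2.1, t2.2]
  · exact prod_close hD (v_bd hD hX hz) (gb z hz) (v_close hD hX hz) (gc z hz) (w2 z hz)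
  · simpa using prod_close hD (v_bd hD hX hz) (gb z hz) (v_close hD hX hz) (gc z hz) w0

def k1 (Λ δ ξ x : ℝ) : ℝ → ℝ := Sol Λ δ fun z => 2 * ξ ^ 2 * z * Gk Λ δ x z
def k2 (Λ δ ξ x : ℝ) : ℝ → ℝ :=
  Sol Λ δ fun z => 2 * ξ ^ 2 * z * k1 Λ δ ξ x z - (3 * ξ ^ 2 * z ^ 2 - 1 / 4) * Gk Λ δ x z

lemma continuous_k1 (Λ δ ξ x : ℝ) : Continuous (k1 Λ δ ξ x) :=
  continuous_Sol (by have := continuous_Gk Λ δ x; fun_prop)

lemma continuous_k2 (Λ δ ξ x : ℝ) : Continuous (k2 Λ δ ξ x) :=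
  continuous_Sol (by have := continuous_Gk Λ δ x; have := continuous_k1 Λ δ ξ x; fun_prop)

def Xi (Λ δ ξ ε x : ℝ) : ℝ :=
  ∫ z in (0 : ℝ)..δ, (Gk Λ δ x z - ε * k1 Λ δ ξ x z + ε ^ 2 * k2 Λ δ ξ x z) ^ 2

def XiE (Λ ξ ε X : ℝ) : ℝ :=
  (Λ ^ 3)⁻¹ * dn0 X - ε * (4 * ξ ^ 2 * (Λ ^ 6)⁻¹ * dn1 X) +
    ε ^ 2 * (ξ ^ 4 * (Λ ^ 9)⁻¹ * dna X - 6 * ξ ^ 2 * (Λ ^ 7)⁻¹ * dnb X + 1 / 2 * (Λ ^ 5)⁻¹ * dnc X)

lemma k1_scale {Λ : ℝ} (hΛ : 0 < Λ) (δ ξ x z : ℝ) :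
    k1 Λ δ ξ x z = 2 * ξ ^ 2 * (Λ ^ 4)⁻¹ * pT (Λ * δ) (Λ * x) (Λ * z) := by
  have : (fun z => 2 * ξ ^ 2 * z * Gk Λ δ x z) = fun z => (2 * ξ ^ 2 * (Λ ^ 2)⁻¹) •
      (fun y => y * Gk 1 (Λ * δ) (Λ * x) y) (Λ * z) := by
    ext z; rw [Gk_scale hΛ]; simp only [smul_eq_mul]; field_simp
  rw [k1, this, Sol_smul, Sol_scale (h := fun y => y * Gk 1 (Λ * δ) (Λ * x) y) hΛ, pT]
  simp only [smul_eq_mul]; field_simp

lemma v_scale {Λ : ℝ} (hΛ : 0 < Λ) (δ x z : ℝ) :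
    Sol Λ δ (Gk Λ δ x) z = (Λ ^ 3)⁻¹ * vT (Λ * δ) (Λ * x) (Λ * z) := by
  have : Gk Λ δ x = fun z => Λ⁻¹ • Gk 1 (Λ * δ) (Λ * x) (Λ * z) := by
    ext z; rw [Gk_scale hΛ, smul_eq_mul]
  rw [this, Sol_smul, Sol_scale (h := Gk 1 (Λ * δ) (Λ * x)) hΛ, vT]
  simp only [smul_eq_mul]; field_simp

lemma int_scale {Λ : ℝ} (hΛ : 0 < Λ) (δ : ℝ) (f : ℝ → ℝ) :
    ∫ z in (0 : ℝ)..δ, Λ * f (Λ * z) = ∫ z in (0 : ℝ)..(Λ * δ), f z := by
  rw [intervalIntegral.integral_const_mul, intervalIntegral.integral_comp_mul_left f hΛ.ne',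
    mul_zero, smul_eq_mul, mul_inv_cancel_left₀ hΛ.ne']

lemma memS {Λ δ x : ℝ} (hΛ : 0 < Λ) (hx : x ∈ Icc 0 (δ / 2)) : Λ * x ∈ Icc 0 (Λ * δ / 2) :=
  ⟨mul_nonneg hΛ.le hx.1, by rw [mul_div_assoc]; exact mul_le_mul_of_nonneg_left hx.2 hΛ.le⟩

theorem xi0_est : ∃ C, 0 ≤ C ∧ ∀ Λ δ x : ℝ, 0 < Λ → 1 ≤ Λ * δ → x ∈ Icc 0 (δ / 2) →
    |(∫ z in (0 : ℝ)..δ, Gk Λ δ x z ^ 2) - (Λ ^ 3)⁻¹ * dn0 (Λ * x)| ≤
      C * ((1 + Λ * δ) ^ 7 * exp (-(Λ * δ / 2))) * (Λ ^ 3)⁻¹ := by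
  obtain ⟨C, hC0, hC⟩ := dens_est
  refine ⟨C, hC0, fun Λ δ x hΛ hD hx => ?_⟩
  have h := (hC _ _ hD (memS hΛ hx)).1
  rw [← int_scale hΛ] at h
  have : ∫ z in (0 : ℝ)..δ, Gk Λ δ x z ^ 2 = (Λ ^ 3)⁻¹ * ∫ z in (0 : ℝ)..δ,
      Λ * (Gk 1 (Λ * δ) (Λ * x) (Λ * z) * Gk 1 (Λ * δ) (Λ * x) (Λ * z)) := by
    rw [← intervalIntegral.integral_const_mul]
    congr 1; ext z; rw [Gk_scale hΛ]; field_simp
  rw [this, ← mul_sub, abs_mul, abs_of_pos (by positivity), mul_comm]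
  gcongr

theorem xi_est : ∃ C, 0 ≤ C ∧ ∀ Λ δ ξ ε K x : ℝ, 1 ≤ Λ → 1 ≤ Λ * δ → δ ≤ 1 → ξ ^ 2 ≤ Λ ^ 2 →
    |ε| ≤ K → 1 ≤ K → x ∈ Icc 0 (δ / 2) →
    |Xi Λ δ ξ ε x - XiE Λ ξ ε (Λ * x)| ≤
      C * K ^ 4 * (δ ^ 4 * (Λ ^ 2)⁻¹ + (1 + Λ * δ) ^ 7 * exp (-(Λ * δ / 2)) * (Λ ^ 3)⁻¹) := by
  obtain ⟨C, hC0, hC⟩ := dens_est
  refine ⟨24 + 13 * C, by positivity, fun Λ δ ξ ε K x hΛ1 hD hδ1 hξ hε hK hx => ?_⟩
  have hΛ : 0 < Λ := by linarith
  have hδ : 0 < δ := by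
    by_contra h
    nlinarith [not_lt.1 h]
  have hx' : x ∈ Icc 0 δ := ⟨hx.1, by linarith [hx.2]⟩
  obtain ⟨t0, t1, ta, tb, tc⟩ := hC _ _ hD (memS hΛ hx)
  rw [← int_scale hΛ] at t0 t1 ta tb tc
  have cg := continuous_Gk Λ δ x
  have cS := continuous_Sol (Λ := Λ) (δ := δ) cg
  have c1 := continuous_k1 Λ δ ξ x
  have c2 := continuous_k2 Λ δ ξ x
  have cG := continuous_Gk 1 (Λ * δ) (Λ * x)
  have cv := continuous_vT (Λ * δ) (Λ * x)
  have cp := continuous_pT (Λ * δ) (Λ * x)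
  have b0 : ∀ z ∈ Icc 0 δ, |Gk Λ δ x z| ≤ (2 * Λ)⁻¹ := fun z hz => by
    rw [abs_of_nonneg (Gk_nonneg hΛ hδ hx' hz)]; exact Gk_le hΛ hδ hx' hz
  have b1 : ∀ z ∈ Icc 0 δ, |k1 Λ δ ξ x z| ≤ δ / Λ := fun z hz => by
    refine le_trans (norm_Sol_le (h := fun z => 2 * ξ ^ 2 * z * Gk Λ δ x z) hΛ hδ (by fun_prop)
      (m := 2 * Λ ^ 2 * δ * (2 * Λ)⁻¹) (fun y hy => ?_) hz) (le_of_eq (by field_simp))
    rw [norm_eq_abs, abs_mul, abs_of_nonneg (by have := hy.1; positivity)]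
    have := hy.1
    gcongr
    exacts [hy.2, b0 y hy]
  have b2 : ∀ z ∈ Icc 0 δ, |k2 Λ δ ξ x z| ≤ 4 * δ ^ 2 / Λ := fun z hz => by
    refine le_trans (norm_Sol_le (h := fun z => 2 * ξ ^ 2 * z * k1 Λ δ ξ x z -
      (3 * ξ ^ 2 * z ^ 2 - 1 / 4) * Gk Λ δ x z) hΛ hδ (by fun_prop)
      (m := 2 * Λ ^ 2 * δ * (δ / Λ) + 4 * Λ ^ 2 * δ ^ 2 * (2 * Λ)⁻¹) (fun y hy => ?_)
      hz) (le_of_eq (by field_simp; ring))
    refine (norm_sub_le _ _).trans (add_le_add ?_ ?_)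
    · rw [norm_eq_abs, abs_mul, abs_of_nonneg (by have := hy.1; positivity)]
      have := hy.1
      gcongr
      exacts [hy.2, b1 y hy]
    · rw [norm_eq_abs, abs_mul]
      refine mul_le_mul ?_ (b0 y hy) (abs_nonneg _) (by positivity)
      have a1 : ξ ^ 2 * y ^ 2 ≤ Λ ^ 2 * δ ^ 2 := by
        have := hy.1
        gcongr
        exact hy.2
      have a2 : 1 ≤ Λ ^ 2 * δ ^ 2 := by rw [← mul_pow]; nlinarith
      have a3 : 0 ≤ ξ ^ 2 * y ^ 2 := by positivity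
      rw [abs_le]
      constructor <;> nlinarith
  have hK0 : 0 < K := by linarith
  have rem := norm_integral_le_of_norm_le_const (a := 0) (b := δ)
    (f := fun z => ε ^ 4 * k2 Λ δ ξ x z ^ 2 - 2 * ε ^ 3 * (k1 Λ δ ξ x z * k2 Λ δ ξ x z))
    (C := 24 * K ^ 4 * δ ^ 3 * (Λ ^ 2)⁻¹) fun z hz => by
      rw [uIoc_of_le hδ.le] at hz
      have hz' := Ioc_subset_Icc_self hz
      refine (norm_sub_le _ _).trans ?_
      simp only [norm_mul, norm_pow, norm_eq_abs, abs_two]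
      have a1 := b1 z hz'
      have a2 := b2 z hz'
      calc _ ≤ K ^ 4 * (4 * δ ^ 2 / Λ) ^ 2 + 2 * K ^ 3 * (δ / Λ * (4 * δ ^ 2 / Λ)) := by gcongr
        _ = 16 * K ^ 4 * (δ ^ 3 * δ) * (Λ ^ 2)⁻¹ + 8 * K ^ 3 * δ ^ 3 * (Λ ^ 2)⁻¹ := by
            field_simp; ring
        _ ≤ 16 * K ^ 4 * (δ ^ 3 * 1) * (Λ ^ 2)⁻¹ + 8 * K ^ 4 * δ ^ 3 * (Λ ^ 2)⁻¹ := by
            gcongr
            norm_num
        _ = _ := by ring
  rw [norm_eq_abs, sub_zero, abs_of_pos hδ] at rem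
  have sym := Sol_symm hΛ hδ cg (h := fun z => 2 * ξ ^ 2 * z * k1 Λ δ ξ x z -
    (3 * ξ ^ 2 * z ^ 2 - 1 / 4) * Gk Λ δ x z) (by fun_prop)
  simp only [smul_eq_mul] at sym
  change ∫ y in (0 : ℝ)..δ, Gk Λ δ x y * k2 Λ δ ξ x y = _ at sym
  set G := Gk 1 (Λ * δ) (Λ * x)
  set v := vT (Λ * δ) (Λ * x)
  set p := pT (Λ * δ) (Λ * x)
  have main : Xi Λ δ ξ ε x = (Λ ^ 3)⁻¹ * (∫ z in (0 : ℝ)..δ, Λ * (G (Λ * z) * G (Λ * z))) -
      ε * (4 * ξ ^ 2 * (Λ ^ 6)⁻¹ * ∫ z in (0 : ℝ)..δ, Λ * (G (Λ * z) * p (Λ * z))) +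
      ε ^ 2 * (ξ ^ 4 * (Λ ^ 9)⁻¹ * (∫ z in (0 : ℝ)..δ, Λ * (4 * (p (Λ * z) * p (Λ * z)) +
          8 * (Λ * z * (v (Λ * z) * p (Λ * z))))) -
        6 * ξ ^ 2 * (Λ ^ 7)⁻¹ * (∫ z in (0 : ℝ)..δ, Λ * ((Λ * z) ^ 2 * (v (Λ * z) * G (Λ * z)))) +
        1 / 2 * (Λ ^ 5)⁻¹ * ∫ z in (0 : ℝ)..δ, Λ * (v (Λ * z) * G (Λ * z))) +
      ∫ z in (0 : ℝ)..δ,
        ε ^ 4 * k2 Λ δ ξ x z ^ 2 - 2 * ε ^ 3 * (k1 Λ δ ξ x z * k2 Λ δ ξ x z) := by
    have e1 : Xi Λ δ ξ ε x = (∫ z in (0 : ℝ)..δ, (Gk Λ δ x z ^ 2 -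
        2 * ε * (Gk Λ δ x z * k1 Λ δ ξ x z) + ε ^ 2 * k1 Λ δ ξ x z ^ 2)) +
        2 * ε ^ 2 * (∫ y in (0 : ℝ)..δ, Gk Λ δ x y * k2 Λ δ ξ x y) + ∫ z in (0 : ℝ)..δ,
        ε ^ 4 * k2 Λ δ ξ x z ^ 2 - 2 * ε ^ 3 * (k1 Λ δ ξ x z * k2 Λ δ ξ x z) := by
      rw [← intervalIntegral.integral_const_mul, ← intervalIntegral.integral_add,
        ← intervalIntegral.integral_add, Xi]
      · congr 1; ext z; ring
      all_goals exact Continuous.intervalIntegrable (by fun_prop) _ _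
    rw [e1, sym]
    congr 1
    simp only [← intervalIntegral.integral_const_mul]
    rw [← intervalIntegral.integral_add, ← intervalIntegral.integral_sub,
      ← intervalIntegral.integral_sub, ← intervalIntegral.integral_add,
      ← intervalIntegral.integral_const_mul, ← intervalIntegral.integral_add]
    · congr 1; ext z
      rw [k1_scale hΛ, v_scale hΛ, Gk_scale hΛ]
      field_simp
      ring
    all_goals exact Continuous.intervalIntegrable (by fun_prop) _ _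
  rw [main, XiE]
  set η := C * ((1 + Λ * δ) ^ 7 * exp (-(Λ * δ / 2))) with hη
  have hη0 : 0 ≤ η := by positivity
  have K1 : 1 ≤ K ^ 4 := one_le_pow₀ hK
  have term : ∀ {c I d : ℝ}, |c| ≤ K ^ 4 * (Λ ^ 3)⁻¹ → |I - d| ≤ η →
      |c * I - c * d| ≤ K ^ 4 * (Λ ^ 3)⁻¹ * η := by
    intro c I d h1 h2
    rw [← mul_sub, abs_mul]
    gcongr
  have co : ∀ (i j n : ℕ), i ≤ 4 → 2 * j + 3 ≤ n →
      |ε ^ i * ((ξ ^ 2) ^ j * (Λ ^ n)⁻¹)| ≤ K ^ 4 * (Λ ^ 3)⁻¹ := by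
    intro i j n hi hn
    rw [abs_mul, abs_pow, abs_of_nonneg (a := (ξ ^ 2) ^ j * (Λ ^ n)⁻¹) (by positivity)]
    refine mul_le_mul ((pow_le_pow_left₀ (abs_nonneg _) hε i).trans (pow_le_pow_right₀ hK hi)) ?_
      (by positivity) (by positivity)
    rw [mul_inv_le_iff₀ (by positivity), le_inv_mul_iff₀ (by positivity)]
    calc _ ≤ Λ ^ 3 * (Λ ^ 2) ^ j := by gcongr
      _ = Λ ^ (2 * j + 3) := by ring
      _ ≤ _ := pow_le_pow_right₀ hΛ1 hn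
  have s0 := term (co 0 0 3 (by norm_num) le_rfl) t0
  have s1 := term (co 1 1 6 (by norm_num) (by norm_num)) t1
  have sa := term (co 2 2 9 (by norm_num) (by norm_num)) ta
  have sb := term (co 2 1 7 (by norm_num) (by norm_num)) tb
  have sc := term (co 2 0 5 (by norm_num) (by norm_num)) tc
  have q1 : 0 ≤ K ^ 4 * (Λ ^ 3)⁻¹ * η := by positivity
  have q2 : 0 ≤ C * K ^ 4 * (δ ^ 4 * (Λ ^ 2)⁻¹) := by positivity
  have q3 : 0 ≤ K ^ 4 * ((1 + Λ * δ) ^ 7 * exp (-(Λ * δ / 2)) * (Λ ^ 3)⁻¹) := by positivity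
  have fin : (24 + 13 * C) * K ^ 4 *
      (δ ^ 4 * (Λ ^ 2)⁻¹ + (1 + Λ * δ) ^ 7 * exp (-(Λ * δ / 2)) * (Λ ^ 3)⁻¹) =
      24 * K ^ 4 * δ ^ 3 * (Λ ^ 2)⁻¹ * δ + 13 * (K ^ 4 * (Λ ^ 3)⁻¹ * η) +
      13 * (C * K ^ 4 * (δ ^ 4 * (Λ ^ 2)⁻¹)) +
      24 * (K ^ 4 * ((1 + Λ * δ) ^ 7 * exp (-(Λ * δ / 2)) * (Λ ^ 3)⁻¹)) := by rw [hη]; ring
  rw [fin]
  rw [abs_le] at s0 s1 sa sb sc rem ⊢
  constructor <;> linarith [s0.1, s0.2, s1.1, s1.2, sa.1, sa.2, sb.1, sb.2, sc.1, sc.2, rem.1,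
    rem.2]

end Pool.Agent.Lib.MP_312682_mp
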